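import Pool.Agent.Lib.HT.Aff

/-! Roots of parabolic subgroups, positive level lies in the Tits cone, affine root systems. -/

set_option linter.unusedSectionVars false

namespace Pool.Agent.HT.Aff

open Pool.Agent.Lib.MP_6d85b4_al Pool.Agent.HT.Core

variable {B : Type} [Fintype B] [DecidableEq B] {M : CoxeterMatrix B} {L T : Finset B}
  {g e : B → ℝ}

theorem rt_al {s : B} (hs : s ∈ L) : Rt M L (al s) := ⟨1, one_mem _, s, hs, by simp⟩

theorem Rt.rho (h : Rt M L g) {w : M.Group} (hw : w ∈ WL M L) : Rt M L (rho M w g) := by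
  obtain ⟨u, hu, s, hs, rfl⟩ := h
  exact ⟨w * u, mul_mem hw hu, s, hs, (rho_mul M w u _).symm⟩

theorem Rt.neg (h : Rt M L g) : Rt M L (-g) := by
  obtain ⟨u, hu, s, hs, rfl⟩ := h
  exact ⟨_, mul_mem hu (simple_mem hs), s, hs, by rw [rho_mul, rho_simple, rf_self, map_neg]⟩

theorem Rt.sup (h : Rt M L g) : Sup L g := by
  obtain ⟨u, hu, s, hs, rfl⟩ := h
  exact (sup_al hs).rho hu

theorem Rt.norm (h : Rt M L g) : bf M g g = -2 := by
  obtain ⟨u, -, s, -, rfl⟩ := h
  exact root_norm M u s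

theorem Rt.mono (h : Rt M T g) (hT : T ⊆ L) : Rt M L g := by
  obtain ⟨u, hu, s, hs, rfl⟩ := h
  exact ⟨u, WL_mono hT hu, s, hT hs, rfl⟩

theorem Rt.dich (h : Rt M L g) : Cn L g ∨ Cn L (-g) := by
  have k := h.sup
  obtain ⟨u, -, s, -, rfl⟩ := h
  exact (dichotomy M u s).imp (fun p => ⟨p, k⟩) fun p => ⟨p, k.neg⟩

theorem Rt.one_le (h : Rt M L g) (p : Pos g) : 1 ≤ ht g := by
  obtain ⟨u, -, s, -, rfl⟩ := h
  exact one_le_ht p

theorem rho_conj (w : M.Group) (s : B) (x : B → ℝ) :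
    rho M (w * M.toCoxeterSystem.simple s * w⁻¹) x =
      x + bf M (rho M w (al s)) x • rho M w (al s) := by
  rw [rho_mul, rho_mul_simple, rho_inv', ← bf_al, ← bf_rho M w, rho_inv']

/-- The reflection in a root. -/
theorem Rt.exists_refl (h : Rt M L g) : ∃ r ∈ WL M L, ∀ x, Lib.MP_6d85b4_al.rho M r x =
    x + bf M g x • g := by
  obtain ⟨u, hu, s, hs, rfl⟩ := h
  exact ⟨_, mul_mem (mul_mem hu (simple_mem hs)) (inv_mem hu), rho_conj u s⟩

theorem Rt.reflect (h : Rt M L g) (k : Rt M L e) : Rt M L (e + bf M g e • g) := by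
  obtain ⟨r, hr, c⟩ := h.exists_refl
  exact c e ▸ k.rho hr

theorem rt_of_pos (w : M.Group) (s : B) (p : Pos (rho M w (al s)))
    (hT : Sup T (rho M w (al s))) : Rt M T (rho M w (al s)) := by
  induction hn : M.toCoxeterSystem.length (w * M.toCoxeterSystem.simple s * w⁻¹)
    using Nat.strong_induction_on generalizing w with
  | _ n ih =>
  obtain ⟨i, hi⟩ : ∃ i, rho M w (al s) i * ip M i (rho M w (al s)) < 0 := by
    by_contra c
    have := Finset.sum_nonneg fun i (_ : i ∈ Finset.univ) => not_lt.1 (not_exists.1 c i)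
    have n := root_norm M w s
    rw [bf] at n
    linarith
  have i0 : rho M w (al s) i ≠ 0 := fun c => by simp [c] at hi
  have iT : i ∈ T := by_contra fun c => i0 (hT i c)
  have ineg : ip M i (rho M w (al s)) < 0 :=
    neg_of_mul_neg_right hi (p i)
  by_cases c : rho M w (al s) = al i
  · exact c ▸ rt_al iT
  obtain ⟨j, ji, hj⟩ : ∃ j, j ≠ i ∧ 0 < rho M w (al s) j := by
    by_contra k
    have e : rho M w (al s) = rho M w (al s) i • al i := funext fun j => by
      by_cases a : j = i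
      · simp [a]
      · rw [Pi.smul_apply, al_ne a, smul_zero]
        exact le_antisymm (not_lt.1 fun b => k ⟨j, a, b⟩) (p j)
    exact c (by rw [e, root_eq M (p i) e, one_smul])
  have a1 : rho M (w * M.toCoxeterSystem.simple s * w⁻¹) (al i) j < 0 := by
    rw [rho_conj, bf_al_r, Pi.add_apply, al_ne ji, zero_add]
    exact mul_neg_of_neg_of_pos ineg hj
  have d1 : M.toCoxeterSystem.IsRightDescent (w * M.toCoxeterSystem.simple s * w⁻¹) i :=
    by_contra fun k => absurd (pos_of_not_descent M _ _ k j) (not_le.2 a1)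
  have d2 : M.toCoxeterSystem.IsRightDescent
      (M.toCoxeterSystem.simple i * (w * M.toCoxeterSystem.simple s * w⁻¹)) i :=
    by_contra fun k => by
      have := pos_of_not_descent M _ _ k j
      rw [rho_mul, rho_simple, rf_coord M ji] at this
      exact absurd this (not_le.2 a1)
  have e1 : rho M (M.toCoxeterSystem.simple i * w) (al s) = rf M i (rho M w (al s)) := by
    rw [rho_mul, rho_simple]
  have := ih _ ?_ (M.toCoxeterSystem.simple i * w) (e1 ▸ pos_rf M p c)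
    (by rw [rho_mul]; exact hT.rho (simple_mem iT)) rfl
  · have k := this.rho (simple_mem (M := M) iT)
    rwa [e1, rho_simple, rf_rf] at k
  · unfold CoxeterSystem.IsRightDescent at d1 d2
    rw [← M.toCoxeterSystem.length_inv] at d1
    simp only [mul_inv_rev, inv_inv, CoxeterSystem.inv_simple, mul_assoc] at d1 d2 hn ⊢
    omega

/-- A root supported on `T` is a root of the parabolic subgroup of `T`. -/
theorem Rt.of_sup (h : Rt M L g) (hT : Sup T g) : Rt M T g := by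
  rcases h.dich with p | p
  · obtain ⟨u, -, s, -, rfl⟩ := h
    exact rt_of_pos u s p.1 hT
  · obtain ⟨u, -, s, -, e⟩ := h.neg
    have := rt_of_pos (T := T) u s (e ▸ p.1) (e ▸ hT.neg)
    simpa [← e] using this.neg

theorem Cn.sup_zero {x : B → ℝ} (hx : Cn L x) {θ : (B → ℝ) →ₗ[ℝ] ℝ} (h : ∀ s ∈ L, 0 ≤ θ (al s))
    (h0 : θ x = 0) : Sup (L.filter fun s => θ (al s) = 0) x := fun i hi => by
  by_cases c : i ∈ L
  · rw [expand] at h0
    refine (mul_eq_zero.1 ((Finset.sum_eq_zero_iff_of_nonneg fun j _ => ?_).1 h0 i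
      (Finset.mem_univ i))).resolve_right fun k => hi (Finset.mem_filter.2 ⟨c, k⟩)
    by_cases b : j ∈ L
    · exact mul_nonneg (hx.1 j) (h j b)
    · rw [hx.2 j b, zero_mul]
  · exact hx.2 i c

/-- A root killed by a functional of the chamber of `w` is a root of the face. -/
theorem Rt.face (h : Rt M L g) {w : M.Group} (hw : w ∈ WL M L) {θ : (B → ℝ) →ₗ[ℝ] ℝ}
    (c : Ch M L w θ) (h0 : θ g = 0) :
    Rt M (L.filter fun s => θ (Lib.MP_6d85b4_al.rho M w (al s)) = 0)
      (Lib.MP_6d85b4_al.rho M w⁻¹ g) := by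
  have k := h.rho (inv_mem hw)
  have z : θ.comp (Lib.MP_6d85b4_al.rho M w) (Lib.MP_6d85b4_al.rho M w⁻¹ g) = 0 := by
    rw [LinearMap.comp_apply, rho_inv', h0]
  refine k.of_sup ?_
  rcases k.dich with p | p
  · exact Cn.sup_zero (θ := θ.comp (Lib.MP_6d85b4_al.rho M w)) p c z
  · simpa using (Cn.sup_zero (θ := θ.comp (Lib.MP_6d85b4_al.rho M w)) p c
      (by rw [map_neg, z, neg_zero])).neg

theorem finite_length (K : ℕ) : {w : M.Group | M.toCoxeterSystem.length w ≤ K}.Finite := by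
  refine ((List.finite_length_le B K).image M.toCoxeterSystem.wordProd).subset fun w hw => ?_
  obtain ⟨l, h, rfl⟩ := M.toCoxeterSystem.exists_isReduced w
  exact ⟨l, h.eq.ge.trans hw, rfl⟩

variable (M L) in
/-- `v` represents the difference of the moved functional and a multiple of the height. -/
def Rep (θ : (B → ℝ) →ₗ[ℝ] ℝ) (c : ℝ) (w : M.Group) (v : B → ℝ) : Prop :=
  Sup L v ∧ ∀ x, Sup L x → θ (rho M w x) - c * ht x = bf M v x

section

variable {θ : (B → ℝ) →ₗ[ℝ] ℝ} {c : ℝ} {w : M.Group} {v u : B → ℝ}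

theorem Rep.uniq (h : Rep M L θ c w v) (k : Rep M L θ c w u) : bf M v v = bf M u u := by
  rw [← h.2 v h.1, k.2 v h.1, bf_symm, ← h.2 u k.1, k.2 u k.1]

theorem Rep.step (h : Rep M L θ c w v) {s : B} (hs : s ∈ L) :
    ∃ u, Rep M L θ c (w * M.toCoxeterSystem.simple s) u ∧
      bf M u u = bf M v v - 2 * c * θ (rho M w (al s)) := by
  refine ⟨v + θ (rho M w (al s)) • al s, ⟨h.1.add ((sup_al hs).smul _), fun x hx => ?_⟩, ?_⟩
  · rw [rho_mul_simple, map_add, map_smul, bf_add_smul, ← h.2 x hx, bf_al, smul_eq_mul]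
    ring
  · have := h.2 _ (sup_al hs)
    rw [ht_al] at this
    rw [bf_add_smul, bf_add_r, bf_add_r, bf_smul_r, bf_smul_r, bf_symm M (al s) v, ← this, bf_al,
      ip_al, cc_self]
    ring

theorem Rep.len (hn : NS M L) (hw : w ∈ WL M L) (h : Rep M L θ c w v)
    (k : Rep M L θ c 1 u) :
    c ^ 2 * M.toCoxeterSystem.length w ≤ -bf M v v - bf M u u := by
  obtain ⟨y, y1, y2⟩ : ∃ y, Rep M L (c • ht) c w y ∧
      2 * c ^ 2 * M.toCoxeterSystem.length w ≤ -bf M y y := by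
    refine ind (P := fun w => ∃ y, Rep M L (c • ht) c w y ∧
      2 * c ^ 2 * M.toCoxeterSystem.length w ≤ -bf M y y)
      ⟨0, ⟨sup_zero, fun x _ => by simp [bf_zero_l]⟩, by simp [bf_zero_l]⟩
      (fun w _ s hs p ⟨y, y1, y2⟩ => ?_) hw
    obtain ⟨z, z1, z2⟩ := y1.step hs
    refine ⟨z, z1, ?_⟩
    have l1 := M.toCoxeterSystem.length_mul_le w (M.toCoxeterSystem.simple s)
    rw [M.toCoxeterSystem.length_simple] at l1
    have l2 : (M.toCoxeterSystem.length (w * M.toCoxeterSystem.simple s) : ℝ) ≤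
        M.toCoxeterSystem.length w + 1 := by exact_mod_cast l1
    rw [z2, LinearMap.smul_apply, smul_eq_mul]
    nlinarith [mul_le_mul_of_nonneg_left l2 (sq_nonneg c),
      mul_le_mul_of_nonneg_left (one_le_ht p) (sq_nonneg c)]
  have su := k.1.rho (inv_mem hw)
  have r : Rep M L (c • ht) c w (v - rho M w⁻¹ u) := ⟨h.1.sub su, fun x hx => by
    have := k.2 _ (hx.rho hw)
    rw [map_one, Module.End.one_apply] at this
    rw [bf_sub_l, ← h.2 x hx, ← bf_rho M w, rho_inv', ← this, LinearMap.smul_apply, smul_eq_mul]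
    ring⟩
  have a := hn _ (h.1.add su)
  rw [y1.uniq r, bf_sub_l, bf_sub_r, bf_sub_r, bf_rho] at y2
  rw [bf_add_l, bf_add_r, bf_add_r, bf_rho] at a
  linarith

end

/-- On a semidefinite `L`, a positive multiple of the height plus a value of the form lies in a
chamber. -/
theorem NS.tits (hn : NS M L) {θ : (B → ℝ) →ₗ[ℝ] ℝ} {c : ℝ} (hc : 0 < c) {u : B → ℝ}
    (hu : Sup L u) (he : ∀ x, Sup L x → θ x - c * ht x = bf M u x) :
    ∃ w ∈ WL M L, Ch M L w θ := by
  have k : Rep M L θ c 1 u := ⟨hu, by simpa using he⟩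
  have ex : ∀ w : WL M L, ∃ v, Rep M L θ c w v := fun w =>
    ind (P := fun w => ∃ v, Rep M L θ c w v) ⟨u, k⟩
      (fun w _ s hs _ ⟨v, hv⟩ => (hv.step hs).imp fun _ a => a.1) w.2
  choose v hv using ex
  obtain ⟨K, hK⟩ := exists_nat_ge (-2 * bf M u u / c ^ 2)
  rw [div_le_iff₀ (pow_pos hc 2)] at hK
  have fin : {w : WL M L | -bf M (v w) (v w) ≤ -bf M u u}.Finite := by
    refine ((finite_length K).preimage Subtype.val_injective.injOn).subset fun w hw => ?_
    have := (hv w).len hn w.2 k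
    have h2 : -bf M (v w) (v w) ≤ -bf M u u := hw
    have h3 : c ^ 2 * M.toCoxeterSystem.length w.1 ≤ c ^ 2 * K := by linarith
    exact_mod_cast le_of_mul_le_mul_left h3 (pow_pos hc 2)
  obtain ⟨w, hw, hm⟩ := Set.exists_min_image _ (fun w => -bf M (v w) (v w)) fin
    ⟨1, (neg_inj.2 ((hv 1).uniq k)).le⟩
  refine ⟨w, w.2, fun s hs => by_contra fun n => ?_⟩
  obtain ⟨z, z1, z2⟩ := (hv w).step hs
  have e := (hv ⟨_, mul_mem w.2 (simple_mem hs)⟩).uniq z1
  have p := mul_pos hc (neg_pos.2 (not_le.1 n))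
  have h2 : -bf M (v w) (v w) ≤ -bf M u u := hw
  have := hm ⟨_, mul_mem w.2 (simple_mem hs)⟩ (by
    change -bf M _ _ ≤ _
    rw [e, z2]
    linarith)
  simp only [e, z2] at this
  linarith

theorem ND.repr (h : ND M L) (θ : (B → ℝ) →ₗ[ℝ] ℝ) :
    ∃ v, Sup L v ∧ ∀ x, Sup L x → θ x = bf M v x := by
  obtain ⟨v, hv, e⟩ := h.rep fun s => θ (al s)
  refine ⟨v, hv, fun x hx => ?_⟩
  rw [expand, bf_symm, bf]
  refine Finset.sum_congr rfl fun i _ => ?_
  by_cases c : i ∈ L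
  · rw [e i c]
  · simp [hx i c]

/-- Definite implies finite. -/
theorem ND.finite (h : ND M L) : Finite (WL M L) := by
  obtain ⟨v, hv, e⟩ := h.repr ht
  have r : ∀ w ∈ WL M L, Rep M L 0 1 w (-v) := fun w _ =>
    ⟨hv.neg, fun x hx => by simp [bf_neg_l, e x hx]⟩
  obtain ⟨K, hK⟩ := exists_nat_ge (-bf M (-v) (-v) - bf M (-v) (-v))
  refine ((finite_length K).subset fun w hw => ?_ : (WL M L : Set M.Group).Finite)
  have := ((r w hw).len h.ns hw (r 1 (one_mem _))).trans hK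
  rw [one_pow, one_mul] at this
  exact_mod_cast this

theorem not_finite {z : B → ℝ} (hz : Cn L z) (h0 : z ≠ 0) (hi : ∀ s ∈ L, 0 ≤ ip M s z) :
    ¬ Finite (WL M L) := fun hf => by
  obtain ⟨w, hw, k⟩ := longest hf
  have a := ht_nonneg (least hi hw).1
  have b := hz.nonneg (θ := (-ht).comp (rho M w)) fun s hs => by
    simpa using ht_nonneg (k s hs)
  obtain ⟨i, c⟩ := Function.ne_iff.1 h0
  have p : 0 < ht z := ht_apply z ▸
    Finset.sum_pos' (fun i _ => hz.1 i) ⟨i, Finset.mem_univ i, (hz.1 i).lt_of_ne' c⟩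
  simp only [map_sub, LinearMap.comp_apply, LinearMap.neg_apply] at a b
  linarith

theorem finite_rt (hf : Finite (WL M L)) : {g | Rt M L g}.Finite := by
  have f : (WL M L : Set M.Group).Finite := hf
  refine (f.image2 (fun w s => rho M w (al s)) L.finite_toSet).subset ?_
  rintro _ ⟨w, hw, s, hs, rfl⟩
  exact ⟨w, hw, s, hs, rfl⟩

namespace IsAff

variable {d : B → ℝ} (h : IsAff M L d)
include h

theorem not_finite : ¬ Finite (WL M L) :=
  Aff.not_finite h.cn h.ne_zero fun s hs => (h.rad s hs).ge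

/-- Positive level lies in the Tits cone. -/
theorem tits {θ : (B → ℝ) →ₗ[ℝ] ℝ} (h0 : 0 < θ d) : ∃ w ∈ WL M L, Ch M L w θ := by
  obtain ⟨v, hv, e⟩ := h.rep (θ := θ - (θ d / ht d) • ht) (by
    simp [div_mul_cancel₀ _ h.ht_pos.ne'])
  exact h.ns.tits (div_pos h0 h.ht_pos) hv fun x hx => by simpa using e x hx

/-- The face of a functional of nonzero level is proper. -/
theorem face_ssubset {θ : (B → ℝ) →ₗ[ℝ] ℝ} (h0 : θ d ≠ 0) {w : M.Group} (hw : w ∈ WL M L) :
    (L.filter fun s => θ (rho M w (al s)) = 0) ⊂ L := by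
  refine Finset.filter_ssubset.2 (by_contra fun c => h0 ?_)
  rw [← h.rho_d hw, ← LinearMap.comp_apply, expand]
  refine Finset.sum_eq_zero fun i _ => ?_
  by_cases k : i ∈ L
  · exact mul_eq_zero_of_right _ (by_contra fun n => c ⟨i, k, n⟩)
  · rw [h.sup i k, zero_mul]

theorem bf_le (hg : Rt M L g) (he : Rt M L e) : -2 ≤ bf M g e ∧ bf M g e ≤ 2 := by
  have a := h.ns _ (hg.sup.add he.sup)
  have b := h.ns _ (hg.sup.sub he.sup)
  rw [bf_add_l, bf_add_r, bf_add_r, hg.norm, he.norm, bf_symm M e g] at a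
  rw [bf_sub_l, bf_sub_r, bf_sub_r, hg.norm, he.norm, bf_symm M e g] at b
  constructor <;> linarith

theorem bf_lift {x y : B → ℝ} (hx : Sup L x) (hy : Sup L y) (a b : ℝ) :
    bf M (x + a • d) (y + b • d) = bf M x y := by
  rw [bf_add_r, bf_smul_r, h.bf_d (hx.add (h.sup.smul a)), bf_add_smul, h.d_bf hy]
  ring

/-- Two roots are equal modulo `d` exactly when their product is `-2`. -/
theorem eq_mod (hg : Rt M L g) (he : Rt M L e) : bf M g e = -2 ↔ ∃ k : ℝ, e = g + k • d := by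
  refine ⟨fun c => ?_, ?_⟩
  · obtain ⟨k, hk⟩ := h.radical (he.sup.sub hg.sup) (by
      rw [bf_sub_l, bf_sub_r, bf_sub_r, hg.norm, he.norm, bf_symm M e g, c]; norm_num)
    exact ⟨k, by rw [← hk]; abel⟩
  · rintro ⟨k, rfl⟩
    rw [bf_add_r, bf_smul_r, h.bf_d hg.sup, hg.norm]
    ring

/-- Two roots independent modulo `d` vanish at a point of positive level. -/
theorem pair_level (hg : Rt M L g) (he : Rt M L e) (h1 : bf M g e ≠ -2) (h2 : bf M g e ≠ 2) :
    ∃ θ : (B → ℝ) →ₗ[ℝ] ℝ, 0 < θ d ∧ θ g = 0 ∧ θ e = 0 := by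
  have n : 4 - bf M g e ^ 2 ≠ 0 := fun c => by
    have : (bf M g e - -2) * (bf M g e - 2) = 0 := by linarith
    exact (mul_eq_zero.1 this).elim (sub_ne_zero.2 h1) (sub_ne_zero.2 h2)
  refine ⟨ht + ((2 * ht g + bf M g e * ht e) / (4 - bf M g e ^ 2)) • bL M g +
    ((2 * ht e + bf M g e * ht g) / (4 - bf M g e ^ 2)) • bL M e, ?_, ?_, ?_⟩ <;>
    simp only [LinearMap.add_apply, LinearMap.smul_apply, bL_apply, smul_eq_mul]
  · rw [h.bf_d hg.sup, h.bf_d he.sup]
    simpa using h.ht_pos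
  · rw [hg.norm, bf_symm M e g]
    field_simp
    ring
  · rw [he.norm]
    field_simp
    ring

/-- Two roots independent modulo `d` lie in a conjugate of a proper (finite) root subsystem. -/
theorem pair (hg : Rt M L g) (he : Rt M L e) (h1 : bf M g e ≠ -2) (h2 : bf M g e ≠ 2) :
    ∃ w ∈ WL M L, ∃ T, T ⊂ L ∧ Rt M T (rho M w⁻¹ g) ∧ Rt M T (rho M w⁻¹ e) := by
  obtain ⟨θ, p, a, b⟩ := h.pair_level hg he h1 h2
  obtain ⟨w, hw, c⟩ := h.tits p
  exact ⟨w, hw, _, h.face_ssubset p.ne' hw, hg.face hw c a, he.face hw c b⟩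

theorem finite_bf : {t | ∃ g e, Rt M L g ∧ Rt M L e ∧ bf M g e = t}.Finite := by
  have f : ∀ T ∈ {T : Finset B | T ⊂ L},
      (Set.image2 (bf M) {g | Rt M T g} {g | Rt M T g}).Finite := fun T hT =>
    (finite_rt (h.nd_of_ssubset hT).finite).image2 _ (finite_rt (h.nd_of_ssubset hT).finite)
  refine ((((Set.toFinite _).biUnion f).insert 2).insert (-2)).subset ?_
  rintro _ ⟨g, e, hg, he, rfl⟩
  refine or_iff_not_imp_left.2 fun h1 => or_iff_not_imp_left.2 fun h2 => ?_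
  obtain ⟨w, -, T, hT, a, b⟩ := h.pair hg he h1 h2
  exact Set.mem_biUnion hT ⟨_, a, _, b, bf_rho M _ _ _⟩

/-- Finitely many roots modulo `d`. -/
theorem finite_mod : ∃ F : Finset (B → ℝ), (∀ f ∈ F, Rt M L f) ∧
    ∀ g, Rt M L g → ∃ f ∈ F, ∃ k : ℝ, g = f + k • d := by
  classical
  have f : ((fun (g : B → ℝ) (s : L) => ip M s g) '' {g | Rt M L g}).Finite := by
    refine (Set.Finite.pi' fun _ => h.finite_bf).subset ?_
    rintro _ ⟨g, hg, rfl⟩ s
    exact ⟨_, g, rt_al s.2, hg, bf_al M _ _⟩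
  obtain ⟨F, a, b⟩ := Finset.subset_set_image_iff.1 f.coe_toFinset.le
  refine ⟨F, fun f hf => a hf, fun g hg => ?_⟩
  obtain ⟨x, hx, e⟩ := Finset.mem_image.1 (b ▸ f.mem_toFinset.2 ⟨g, hg, rfl⟩)
  have s := hg.sup.sub (Rt.sup (a hx))
  obtain ⟨k, hk⟩ := h.radical s (bf_eq_zero s fun s hs => by
    rw [map_sub, congrFun e ⟨s, hs⟩, sub_self])
  exact ⟨x, hx, k, by rw [← hk]; abel⟩

theorem lift_gap (hg : Rt M L g) {k : ℝ} (hk : Rt M L (g + k • d)) (k0 : k ≠ 0) :
    2 ≤ |k| * ht d := by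
  obtain ⟨w, hw, s, hs, rfl⟩ := hg
  have a := hk.rho (inv_mem hw)
  rw [map_add, map_smul, rho_inv, h.rho_d (inv_mem hw)] at a
  have b := (a.rho (simple_mem hs)).neg
  rw [map_add, map_smul, h.rho_d (simple_mem hs), rho_simple, rf_self, neg_add, neg_neg,
    ← neg_smul] at b
  have c : Rt M L (al s + (-|k|) • d) := by
    rcases abs_choice k with e | e <;> rw [e]
    · exact b
    · rwa [neg_neg]
  have p := mul_pos (abs_pos.2 k0) h.ht_pos
  rcases c.dich with q | q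
  · have := c.one_le q.1
    rw [map_add, map_smul, ht_al, smul_eq_mul] at this
    linarith
  · have := c.neg.one_le q.1
    rw [map_neg, map_add, map_smul, ht_al, smul_eq_mul] at this
    linarith

theorem lift_refl {a b : ℝ} (ha : Rt M L (g + a • d)) (hb : Rt M L (g + b • d)) :
    Rt M L (g + (2 * a - b) • d) := by
  have := (ha.reflect hb).neg
  rw [(h.eq_mod ha hb).2 ⟨b - a, by module⟩] at this
  exact (by module : -(g + b • d + (-2 : ℝ) • (g + a • d)) = g + (2 * a - b) • d) ▸ this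

theorem exists_lift (hg : Rt M L g) : ∃ k : ℝ, k ≠ 0 ∧ Rt M L (g + k • d) := by
  by_contra n
  obtain ⟨F, -, hF⟩ := h.finite_mod
  choose! f hf k hk using hF
  have fin : {x | ∃ w ∈ WL M L, x = rho M w g}.Finite := by
    refine Set.Finite.of_finite_image (f := f) (F.finite_toSet.subset ?_) ?_
    · rintro _ ⟨_, ⟨w, hw, rfl⟩, rfl⟩
      exact hf _ (hg.rho hw)
    · rintro _ ⟨w, hw, rfl⟩ _ ⟨u, hu, rfl⟩ e
      have e1 : rho M u g = rho M w g + (k (rho M u g) - k (rho M w g)) • d := by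
        have a := hk _ (hg.rho hw)
        have b := hk _ (hg.rho hu)
        rw [← e] at b
        rw [sub_smul]
        linear_combination (exp := 1) b - a
      have := (hg.rho hu).rho (inv_mem hw)
      rw [e1, map_add, map_smul, rho_inv, h.rho_d (inv_mem hw)] at this
      have z : k (rho M u g) - k (rho M w g) = 0 := by_contra fun c => n ⟨_, c, this⟩
      rw [e1, z, zero_smul, add_zero]
  obtain ⟨R, hR⟩ := (fin.image fun x => |ht x|).bddAbove
  obtain ⟨s, hs, hm⟩ := Finset.exists_min_image L d h.conn.1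
  have C0 := div_pos h.ht_pos (h.pos s hs)
  obtain ⟨θ, t1, t2⟩ : ∃ θ : (B → ℝ) →ₗ[ℝ] ℝ, θ d = ht d ∧ θ g = -(ht d / d s * |R|) - 1 :=
    ⟨ht + ((ht g + ht d / d s * |R| + 1) / 2) • bL M g, by
      simp [bL_apply, h.bf_d hg.sup], by
      simp only [LinearMap.add_apply, LinearMap.smul_apply, bL_apply, smul_eq_mul, hg.norm]
      ring⟩
  obtain ⟨w, hw, c⟩ := h.tits (t1 ▸ h.ht_pos)
  have r := hg.rho (inv_mem hw)
  have b : |ht (rho M w⁻¹ g)| ≤ R := hR ⟨_, ⟨_, inv_mem hw, rfl⟩, rfl⟩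
  have q := mul_nonneg C0.le (abs_nonneg R)
  rcases r.dich with p | p
  · linarith [c.nonneg p]
  · have := p.nonneg (θ := (ht d / d s) • ht - θ.comp (rho M w)) fun t ht' => by
      have := h.apply_pos (θ := θ.comp (rho M w)) c t
      rw [LinearMap.comp_apply _ _ d, h.rho_d hw, t1] at this
      rw [LinearMap.sub_apply, LinearMap.smul_apply, ht_al, smul_eq_mul, mul_one, sub_nonneg,
        le_div_iff₀ (h.pos s hs)]
      exact ((mul_comm _ _).trans_le (mul_le_mul_of_nonneg_right (hm t ht') (c t ht'))).trans this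
    simp only [LinearMap.sub_apply, LinearMap.smul_apply, LinearMap.comp_apply, map_neg, rho_inv',
      smul_eq_mul, t2] at this
    have := mul_le_mul_of_nonneg_left
      ((neg_le_abs (ht (rho M w⁻¹ g))).trans (b.trans (le_abs_self R))) C0.le
    linarith

/-- The lifts of a root form an arithmetic progression. -/
theorem lifts (hg : Rt M L g) :
    ∃ c : ℝ, 0 < c ∧ ∀ k : ℝ, Rt M L (g + k • d) ↔ ∃ n : ℤ, k = n * c := by
  have z : Rt M L (g + (0 : ℝ) • d) := by simpa using hg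
  have ng : ∀ {k : ℝ}, Rt M L (g + k • d) → Rt M L (g + (-k) • d) := fun a => by
    simpa using h.lift_refl z a
  have gap : ∀ {a b : ℝ}, Rt M L (g + a • d) → Rt M L (g + b • d) → a < b →
      2 / ht d ≤ b - a := fun {a b} ha hb l => by
    have := h.lift_gap (k := b - a) ha ((by module : g + b • d = g + a • d + (b - a) • d) ▸ hb)
      (sub_pos.2 l).ne'
    rwa [abs_of_pos (sub_pos.2 l), ← div_le_iff₀ h.ht_pos] at this
  have e0 := div_pos two_pos h.ht_pos
  obtain ⟨c, ⟨c0, hc⟩, cm⟩ : ∃ c : ℝ, (0 < c ∧ Rt M L (g + c • d)) ∧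
      ∀ k : ℝ, 0 < k → Rt M L (g + k • d) → c ≤ k := by
    obtain ⟨k, k0, hk⟩ := h.exists_lift hg
    have ne : {k : ℝ | 0 < k ∧ Rt M L (g + k • d)}.Nonempty := by
      rcases k0.lt_or_gt with l | l
      · exact ⟨-k, neg_pos.2 l, ng hk⟩
      · exact ⟨k, l, hk⟩
    obtain ⟨c, hc, l⟩ := Real.lt_sInf_add_pos ne e0
    refine ⟨c, hc, fun k k0 hk => not_lt.1 fun a => ?_⟩
    have := csInf_le (s := {k : ℝ | 0 < k ∧ Rt M L (g + k • d)}) ⟨0, fun _ p => p.1.le⟩ ⟨k0, hk⟩
    linarith [gap hk hc.2 a]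
  have sh : ∀ (n : ℤ) (k : ℝ), Rt M L (g + k • d) → Rt M L (g + (k + 2 * n * c) • d) := by
    intro n
    induction n using Int.induction_on with
    | zero => simp
    | succ n ih =>
      intro k hk
      have := h.lift_refl hc (ng (ih k hk))
      rwa [show 2 * c - -(k + 2 * ((n : ℤ) : ℝ) * c) = k + 2 * (((n : ℤ) + 1 : ℤ) : ℝ) * c by
        push_cast; ring] at this
    | pred n ih =>
      intro k hk
      have := ng (h.lift_refl hc (ih k hk))
      rwa [show -(2 * c - (k + 2 * ((-n : ℤ) : ℝ) * c)) = k + 2 * ((-(n : ℤ) - 1 : ℤ) : ℝ) * c by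
        push_cast; ring] at this
  refine ⟨c, c0, fun k => ⟨fun hk => ?_, ?_⟩⟩
  · have a := sh (-⌊k / (2 * c)⌋) k hk
    have l1 := (le_div_iff₀ (mul_pos two_pos c0)).1 (Int.floor_le (k / (2 * c)))
    have l2 := (div_lt_iff₀ (mul_pos two_pos c0)).1 (Int.lt_floor_add_one (k / (2 * c)))
    push_cast at a
    rcases (show 0 ≤ k + 2 * -(⌊k / (2 * c)⌋ : ℝ) * c by linarith).eq_or_lt with e | e
    · exact ⟨2 * ⌊k / (2 * c)⌋, by push_cast; linarith⟩
    · have b1 := cm _ e a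
      have b2 := cm _ (by linarith) (h.lift_refl hc a)
      exact ⟨2 * ⌊k / (2 * c)⌋ + 1, by push_cast; linarith⟩
  · rintro ⟨n, rfl⟩
    obtain ⟨m, rfl | rfl⟩ := Int.even_or_odd' n
    · simpa using sh m 0 z
    · have := sh m c hc
      rwa [show c + 2 * (m : ℝ) * c = ((2 * m + 1 : ℤ) : ℝ) * c by push_cast; ring] at this

/-- Finitely many roots between two bounds of positive level. -/
theorem finite_between {θ η : (B → ℝ) →ₗ[ℝ] ℝ} (h1 : 0 < θ d) (h2 : 0 < η d) (a b : ℝ) :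
    {g | Rt M L g ∧ a ≤ θ g ∧ η g ≤ b}.Finite := by
  obtain ⟨F, hF, hm⟩ := h.finite_mod
  have key : ∀ f ∈ (F : Set (B → ℝ)),
      {g | ∃ k : ℝ, g = f + k • d ∧ Rt M L g ∧ a ≤ θ g ∧ η g ≤ b}.Finite := fun f hf => by
    obtain ⟨c, c0, hc⟩ := h.lifts (hF f hf)
    refine ((Set.finite_Icc ⌈(a - θ f) / (c * θ d)⌉ ⌊(b - η f) / (c * η d)⌋).image
      fun n : ℤ => f + (n * c) • d).subset ?_
    rintro _ ⟨k, rfl, r, l1, l2⟩
    obtain ⟨n, rfl⟩ := (hc k).1 r
    rw [map_add, map_smul, smul_eq_mul] at l1 l2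
    refine ⟨n, ⟨Int.ceil_le.2 ?_, Int.le_floor.2 ?_⟩, rfl⟩
    · rw [div_le_iff₀ (mul_pos c0 h1)]
      linarith
    · rw [le_div_iff₀ (mul_pos c0 h2)]
      linarith
  refine (F.finite_toSet.biUnion key).subset fun g hg => ?_
  obtain ⟨f, hf, k, e⟩ := hm g hg.1
  exact Set.mem_biUnion hf ⟨k, e, hg⟩

theorem finite_pos {θ : (B → ℝ) →ₗ[ℝ] ℝ} (h1 : 0 < θ d) (b : ℝ) :
    {g | Rt M L g ∧ Pos g ∧ θ g ≤ b}.Finite :=
  (h.finite_between h.ht_pos h1 0 b).subset fun _ hg => ⟨hg.1, ht_nonneg hg.2.1, hg.2.2⟩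

/-- High lifts are positive on a functional of positive level, low lifts are negative. -/
theorem lift_high (hg : Rt M L g) (R : ℝ) :
    ∃ k : ℝ, R ≤ k ∧ Rt M L (g + k • d) ∧ Rt M L (g + (-k) • d) := by
  obtain ⟨c, c0, hc⟩ := h.lifts hg
  refine ⟨(⌈R / c⌉ : ℤ) * c, (div_le_iff₀ c0).1 (Int.le_ceil _), (hc _).2 ⟨_, rfl⟩,
    (hc _).2 ⟨-⌈R / c⌉, by push_cast; ring⟩⟩

end IsAff

/-- A connected diagram with finite group is definite. -/
theorem Conn.nd_of_finite (h : Conn M L) (hf : Finite (WL M L)) : ND M L := by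
  rcases trichotomy h with c | ⟨d, c⟩ | ⟨z, z1, z2⟩
  · exact c
  · exact absurd hf c.not_finite
  · obtain ⟨s, hs⟩ := h.1
    refine absurd hf (not_finite (z := z) ⟨fun i => ?_, z1⟩ (fun c => ?_) fun s hs => (z2 s hs).2.le)
    · by_cases k : i ∈ L
      · exact (z2 i k).1.le
      · exact (z1 i k).ge
    · simpa [c] using (z2 s hs).1

end Pool.Agent.HT.Aff
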