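import Pool.Agent.Lib.HT.ADb
import Pool.Agent.Lib.HT.AffR

/-! Sign systems on the walls of the chambers of an affine Coxeter group. -/

set_option linter.unusedSectionVars false

namespace Pool.Agent.HT.AD

open Pool.Agent.Lib.MP_6d85b4_al Pool.Agent.HT.Core Pool.Agent.HT.Aff

variable {B : Type} [Fintype B] [DecidableEq B] {M : CoxeterMatrix B} {L T : Finset B}
  {d : B → ℝ} {ε : M.Group → B → Prop}

variable (M L) in
/-- Every finite residue has a top chamber, and all walls of the residue point towards it. -/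
def Sec (ε : M.Group → B → Prop) : Prop :=
  ∀ T, T ⊆ L → Finite (WL M T) → ∀ w ∈ WL M L, ∃ y, w⁻¹ * y ∈ WL M T ∧
    ∀ v, w⁻¹ * v ∈ WL M T → ∀ s ∈ T, (ε v s ↔ Pos (rho M y⁻¹ (rho M v (al s))))

theorem cc_le (s t : B) : cc M s t ≤ 2 := by
  have := Real.cos_le_one (Real.pi / M s t)
  unfold cc
  linarith

theorem sup_pair {s t : B} (st : s ≠ t) {x : B → ℝ} (hx : Sup {s, t} x) :
    x = x s • al s + x t • al t := by
  funext j
  by_cases a : j = s
  · subst a; simp [al_ne st]
  by_cases b : j = t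
  · subst b; simp [al_ne a]
  · simp [al_ne a, al_ne b, hx j (by simp [a, b])]

theorem fin_one (s : B) : Finite (WL M {s}) := by
  refine ND.finite fun x hx x0 => ?_
  have e : x = x s • al s := by
    funext j
    by_cases a : j = s
    · subst a; simp
    · simp [al_ne a, hx j (by simp [a])]
  have n : x s ≠ 0 := fun c => x0 (by rw [e, c, zero_smul])
  rw [e, bf_smul, bf_smul_r, bf_al, ip_al, cc_self]
  nlinarith [mul_self_pos.2 n]

theorem fin_pair {s t : B} (st : s ≠ t) (h : cc M s t < 2) : Finite (WL M {s, t}) := by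
  refine ND.finite fun x hx x0 => ?_
  have e := sup_pair st hx
  have c := cc_nonneg (M := M) st
  have n : 0 < x s * x s + x t * x t := by
    by_contra k
    have a : x s = 0 := by nlinarith [mul_self_nonneg (x s), mul_self_nonneg (x t)]
    have b : x t = 0 := by nlinarith [mul_self_nonneg (x s), mul_self_nonneg (x t)]
    exact x0 (by rw [e, a, b]; simp)
  generalize x s = a at e n
  generalize x t = b at e n
  rw [e]
  simp only [bf_add_l, bf_add_r, bf_smul, bf_smul_r, bf_al, ip_al, cc_self, cc_symm M t s]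
  nlinarith [mul_nonneg c (mul_self_nonneg (a - b)), mul_pos (sub_pos.2 h) n]

theorem Sec.flip (hε : Sec M L ε) {w : M.Group} (hw : w ∈ WL M L) {s : B} (hs : s ∈ L) :
    ε (w * M.toCoxeterSystem.simple s) s ↔ ¬ ε w s := by
  have m := Finset.mem_singleton_self s
  obtain ⟨y, -, hy⟩ := hε {s} (by simpa) (fin_one s) w hw
  rw [hy w (by simp) s m, hy _ (by simpa using simple_mem m) s m, Tits.rho_sm_al, map_neg,
    ← rho_mul]
  exact ⟨fun a b => Tits.not_pos_neg b a, (dichotomy M _ s).resolve_left⟩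

/-- The sign depends only on the root. -/
theorem Sec.root (hε : Sec M L ε) {w w' : M.Group} (hw : w ∈ WL M L) (hw' : w' ∈ WL M L) {s s' : B}
    (hs' : s' ∈ L) (e : rho M w (al s) = rho M w' (al s')) : ε w s ↔ ε w' s' := by
  induction hn : M.toCoxeterSystem.length (w⁻¹ * w') using Nat.strong_induction_on
    generalizing w' s' with
  | _ n ih =>
  have e0 : rho M (w⁻¹ * w') (al s') = al s := by rw [rho_mul, ← e, rho_inv]
  by_cases u1 : w⁻¹ * w' = 1
  · rw [u1, Tits.rho_one] at e0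
    rw [al_inj e0, inv_mul_eq_one.1 u1]
  obtain ⟨t, hd⟩ := M.toCoxeterSystem.exists_rightDescent_of_ne_one u1
  have tL := mem_of_neg (mul_mem (inv_mem hw) hw') (neg_of_descent hd)
  have st : s' ≠ t := fun c => Tits.not_pos_neg (e0 ▸ pos_al s) (c ▸ neg_of_descent hd)
  have TL : ({s', t} : Finset B) ⊆ L := by simp [Finset.insert_subset_iff, hs', tL]
  have m1 : s' ∈ ({s', t} : Finset B) := by simp
  have m2 : t ∈ ({s', t} : Finset B) := by simp
  obtain ⟨v, hv⟩ : ∃ v : WL M {s', t}, ∀ v' : WL M {s', t},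
      M.toCoxeterSystem.length (w⁻¹ * w' * v) ≤ M.toCoxeterSystem.length (w⁻¹ * w' * v') :=
    ⟨_, fun v' => Function.argmin_le (fun v : WL M {s', t} =>
      M.toCoxeterSystem.length (w⁻¹ * w' * v)) v'⟩
  obtain ⟨v, vT⟩ := v
  have lt : M.toCoxeterSystem.length (w⁻¹ * w' * v) < M.toCoxeterSystem.length (w⁻¹ * w') :=
    (hv ⟨_, simple_mem m2⟩).trans_lt hd
  have ps : ∀ r ∈ ({s', t} : Finset B), Pos (rho M (w⁻¹ * w' * v) (al r)) := fun r hr =>
    pos_of_not_descent M _ r fun c => (hv ⟨_, mul_mem vT (simple_mem hr)⟩).not_gt (by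
      rw [← mul_assoc]; exact c)
  have rx : Rt M {s', t} (rho M v⁻¹ (al s')) := ⟨_, inv_mem vT, _, m1, rfl⟩
  have e1 : rho M (w⁻¹ * w' * v) (rho M v⁻¹ (al s')) = al s := by rw [rho_mul, rho_inv', e0]
  obtain ⟨r, hr, e2⟩ : ∃ r ∈ ({s', t} : Finset B), rho M v⁻¹ (al s') = al r := by
    have e2 := sup_pair st rx.sup
    have e3 := e1
    rw [e2, map_add, map_smul, map_smul] at e3
    have p : Pos (rho M v⁻¹ (al s')) := (dichotomy M _ _).resolve_right fun c => by
      have := congrFun e3 s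
      simp only [Pi.add_apply, Pi.smul_apply, smul_eq_mul, al_self] at this
      have c1 := c s'
      have c2 := c t
      rw [Pi.neg_apply] at c1 c2
      nlinarith [mul_nonneg c1 (ps _ m1 s), mul_nonneg c2 (ps _ m2 s)]
    rcases (p s').eq_or_lt with a | a
    · rw [← a, zero_smul, zero_add] at e2
      exact ⟨t, m2, by rw [e2, root_eq M (p t) e2, one_smul]⟩
    · have e4 : rho M (w⁻¹ * w' * v) (al s') = rho M (w⁻¹ * w' * v) (al s') s • al s := by
        funext j
        by_cases c : j = s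
        · subst c; simp
        · have := congrFun e3 j
          simp only [Pi.add_apply, Pi.smul_apply, smul_eq_mul, al_ne c] at this
          have z := mul_nonneg (p t) (ps _ m2 j)
          rw [Pi.smul_apply, al_ne c, smul_zero]
          exact le_antisymm (by nlinarith) (ps _ m1 j)
      rw [root_eq M (ps _ m1 s) e4, one_smul, ← e1] at e4
      refine ⟨s', m1, ?_⟩
      rw [← rho_inv M (w⁻¹ * w' * v) (rho M v⁻¹ (al s')), ← e4, rho_inv]
  have e5 : rho M (w' * v) (al r) = rho M w' (al s') := by rw [rho_mul, ← e2, rho_inv']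
  rw [ih _ (hn ▸ by rwa [mul_assoc] at lt) (mul_mem hw' (WL_mono TL vT)) (TL hr) (e.trans e5.symm)
    rfl]
  rcases (cc_le (M := M) s' t).eq_or_lt with c | c
  · exfalso
    have v1 : v⁻¹ ≠ 1 := fun x => by
      rw [inv_eq_one.1 x, mul_one] at lt
      exact lt_irrefl _ lt
    obtain ⟨q, hq⟩ := M.toCoxeterSystem.exists_rightDescent_of_ne_one v1
    have q1 := neg_of_descent hq
    have q2 := mem_of_neg (inv_mem vT) q1
    have fx : rho M v⁻¹ (al s' + al t) = al s' + al t := fixes (inv_mem vT) fun j hj => by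
      rcases Finset.mem_insert.1 hj with rfl | hj
      · rw [map_add, ip_al, ip_al, cc_self, c]; norm_num
      · rw [Finset.mem_singleton.1 hj, map_add, ip_al, ip_al, cc_self, cc_symm, c]; norm_num
    rcases Finset.mem_insert.1 q2 with rfl | q2
    · exact Tits.not_pos_neg (e2 ▸ pos_al r) q1
    · rw [Finset.mem_singleton.1 q2] at q1
      have a := ht_nonneg q1
      have b := congrArg ht fx
      rw [map_add, map_add, map_add, e2, ht_al, ht_al, ht_al] at b
      rw [map_neg] at a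
      linarith
  · obtain ⟨y, -, hy⟩ := hε _ TL (fin_pair st c) w' hw'
    rw [hy _ (by simpa using vT) r hr, hy w' (by simp) s' m1, e5]

variable (M L) in
/-- The roots carried by the marked walls. -/
def Up (ε : M.Group → B → Prop) (g : B → ℝ) : Prop :=
  ∃ w ∈ WL M L, ∃ s ∈ L, g = rho M w (al s) ∧ ε w s

theorem Sec.up (hε : Sec M L ε) {w : M.Group} (hw : w ∈ WL M L) {s : B} (hs : s ∈ L) :
    Up M L ε (rho M w (al s)) ↔ ε w s :=
  ⟨fun ⟨_, a, _, b, c, x⟩ => (hε.root hw a b c).2 x, fun x => ⟨w, hw, s, hs, rfl, x⟩⟩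

theorem Sec.up_neg (hε : Sec M L ε) {w : M.Group} (hw : w ∈ WL M L) {s : B} (hs : s ∈ L) :
    Up M L ε (-rho M w (al s)) ↔ ¬ ε w s := by
  rw [← Tits.rho_sm_al, hε.up (mul_mem hw (simple_mem hs)) hs, hε.flip hw hs]

theorem Sec.ori (hε : Sec M L ε) (h : IsAff M L d) : Ori M L (Up M L ε) where
  rt g := fun ⟨w, a, s, b, c, _⟩ => ⟨w, a, s, b, c⟩
  tot g := by
    rintro ⟨w, a, s, b, rfl⟩
    rw [hε.up a b, hε.up_neg a b]
    exact em _
  ex g := by
    rintro ⟨w, a, s, b, rfl, x⟩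
    rw [hε.up_neg a b]
    exact not_not.2 x
  clo g e hg he h0 h2 := by
    have rg : Rt M L g := let ⟨w, a, s, b, c, _⟩ := hg; ⟨w, a, s, b, c⟩
    have re : Rt M L e := let ⟨w, a, s, b, c, _⟩ := he; ⟨w, a, s, b, c⟩
    obtain ⟨w, hw, T, hT, a, b⟩ := h.pair rg re (by linarith) h2.ne
    obtain ⟨y, -, hy⟩ := hε T hT.1 (h.nd_of_ssubset hT).finite w hw
    have key : ∀ x, Rt M T (rho M w⁻¹ x) → (Up M L ε x ↔ Pos (rho M y⁻¹ x)) := by
      rintro x ⟨v, hv, t, ht', c⟩
      have c' : x = rho M (w * v) (al t) := by rw [rho_mul, ← c, rho_inv']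
      rw [c', hε.up (mul_mem hw (WL_mono hT.1 hv)) (hT.1 ht'), hy _ (by simpa using hv) t ht']
    have := a.reflect b
    rw [bf_rho, ← map_smul, ← map_add] at this
    rw [key _ this, map_add, map_smul]
    exact fun i => add_nonneg ((key _ b).1 he i) (mul_nonneg h0 ((key _ a).1 hg i))

/-- The infinite dihedral case. -/
theorem Sec.two (hε : Sec M L ε) (h : IsAff M L d) {s t : B} (hs : s ∈ L) (ht' : t ∈ L)
    (c : cc M s t = 2) (h1 : ∀ w ∈ WL M L, ∃ r ∈ L, ¬ ε w r) (h2 : ∀ w ∈ WL M L, ∃ r ∈ L, ε w r)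
    (h0 : ε 1 s) : ∀ w ∈ WL M L, ∀ r ∈ L, ε w r → ip M s (rho M w (al r)) ≤ 0 := by
  have st : s ≠ t := fun x => by
    rw [x, cc_self] at c
    norm_num at c
  obtain ⟨k, hk⟩ := lift_of_two h (rt_al hs) (rt_al ht') (by rw [bf_al, ip_al, c])
  have hL : ∀ r ∈ L, r = s ∨ r = t := fun r hr => by
    by_contra x
    push Not at x
    have a := congrFun hk r
    have b := congrFun hk t
    simp only [Pi.add_apply, Pi.neg_apply, Pi.smul_apply, smul_eq_mul, al_ne x.1, al_ne x.2,
      al_self, al_ne st.symm] at a b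
    have : k = 0 := by
      rcases mul_eq_zero.1 (show k * d r = 0 by linarith) with z | z
      · exact z
      · exact absurd z (h.pos r hr).ne'
    rw [this] at b
    norm_num at b
  have xo : ∀ w ∈ WL M L, (ε w t ↔ ¬ ε w s) := fun w hw => by
    obtain ⟨a, a1, a2⟩ := h1 w hw
    obtain ⟨b, b1, b2⟩ := h2 w hw
    rcases hL a a1 with rfl | rfl <;> rcases hL b b1 with rfl | rfl <;> tauto
  have op : ∀ w ∈ WL M L, ip M s (rho M w (al t)) = -ip M s (rho M w (al s)) := fun w hw => by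
    rw [hk, map_add, map_neg, map_smul, h.rho_d hw, map_add, map_neg, map_smul, h.rad s hs,
      smul_zero, add_zero]
  have key : ∀ w ∈ WL M L, (ε w s → ip M s (rho M w (al s)) = -2) ∧
      (¬ ε w s → ip M s (rho M w (al s)) = 2) := by
    refine Tits.W_ind ⟨fun _ => by rw [Tits.rho_one, ip_al, cc_self], fun x => absurd h0 x⟩ ?_
    intro w hw r hr ih
    have e1 : ip M s (rho M (w * Tits.sm M r) (al s)) = -ip M s (rho M w (al s)) := by
      rcases hL r hr with rfl | rfl
      · rw [Tits.rho_sm_al, map_neg]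
      · rw [Tits.rho_sm, map_add, map_smul, op w hw, ip_al, cc_symm, c, smul_eq_mul]
        ring
    have e2 : ε (w * Tits.sm M r) s ↔ ¬ ε w s := by
      rcases hL r hr with rfl | rfl
      · exact hε.flip hw hr
      · have a := hε.flip hw hr
        have b := xo _ (mul_mem hw (simple_mem hr))
        have := xo w hw
        tauto
    rw [e1, e2]
    exact ⟨fun x => by rw [ih.2 x], fun x => by rw [ih.1 (not_not.1 x), neg_neg]⟩
  intro w hw r hr x
  rcases hL r hr with rfl | rfl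
  · rw [(key w hw).1 x]; norm_num
  · rw [op w hw, (key w hw).2 ((xo w hw).1 x)]; norm_num

/-- A sign system has a top, a bottom, or a direction of level zero. -/
theorem Sec.ad (hε : Sec M L ε) (h : IsAff M L d) :
    (∃ w ∈ WL M L, ∀ s ∈ L, ε w s) ∨ (∃ w ∈ WL M L, ∀ s ∈ L, ¬ ε w s) ∨
    ∃ θ : (B → ℝ) →ₗ[ℝ] ℝ, θ d = 0 ∧ (∃ g, Rt M L g ∧ 0 < θ g) ∧
      ∀ w ∈ WL M L, ∀ s ∈ L, ε w s → 0 ≤ θ (rho M w (al s)) := by
  by_cases c : ∃ s ∈ L, ∃ t ∈ L, cc M s t = 2
  · obtain ⟨s, hs, t, ht', c⟩ := c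
    by_contra x
    simp only [not_or, not_exists, not_and, not_forall, not_not, exists_prop] at x
    obtain ⟨h1, h2, h3⟩ := x
    obtain ⟨r, hr, h0⟩ := h2 1 (one_mem _)
    have fin : ∀ s ∈ L, ∀ t ∈ L, cc M s t = 2 → ¬ ε 1 s := fun s hs t ht' c h0 => by
      obtain ⟨w, hw, r, hr, a, b⟩ := h3 (-ip M s) (by rw [LinearMap.neg_apply, h.rad s hs, neg_zero])
        ⟨al s, rt_al hs, by rw [LinearMap.neg_apply, ip_al, cc_self]; norm_num⟩
      exact b (neg_nonneg.2 (hε.two h hs ht' c h1 h2 h0 w hw r hr a))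
    by_cases a : r = s
    · exact fin s hs t ht' c (a ▸ h0)
    by_cases b : r = t
    · exact fin t ht' s hs (by rw [cc_symm, c]) (b ▸ h0)
    obtain ⟨k, hk⟩ := lift_of_two h (rt_al hs) (rt_al ht') (by rw [bf_al, ip_al, c])
    have st : t ≠ s := fun x => by
      rw [x, cc_self] at c
      norm_num at c
    have p := congrFun hk r
    have q := congrFun hk t
    simp only [Pi.add_apply, Pi.neg_apply, Pi.smul_apply, smul_eq_mul, al_ne a, al_ne b,
      al_self, al_ne st] at p q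
    rcases mul_eq_zero.1 (show k * d r = 0 by linarith) with z | z
    · rw [z] at q
      norm_num at q
    · exact (h.pos r hr).ne' z
  push Not at c
  have hF : (cl M L '' {g | Rt M L g}).Finite := by
    obtain ⟨F, -, hF⟩ := h.finite_mod
    refine (F.finite_toSet.image (cl M L)).subset ?_
    rintro _ ⟨g, hg, rfl⟩
    obtain ⟨f, hf, k, rfl⟩ := hF g hg
    exact ⟨f, hf, (cl_lift h f k).symm⟩
  rcases AD.ori h hF (hε.ori h) (by
    rintro _ ⟨w, hw, s, hs, rfl⟩
    obtain ⟨t, ht', ts, x⟩ : ∃ t ∈ L, t ≠ s ∧ M s t ≠ 2 := by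
      by_contra x
      push Not at x
      obtain ⟨t, ht', ts⟩ := other h hs
      have := h.conn.2 {s} (by simpa) (by simp) (by simpa using x)
      exact ts (Finset.mem_singleton.1 (this ▸ ht'))
    refine ⟨_, ⟨w, hw, t, ht', rfl⟩, ?_⟩
    rw [bf_rho, bf_al, ip_al, abs_of_nonneg (cc_nonneg ts.symm)]
    exact ⟨fun z => x (eq_two_of_cc M z), (cc_le s t).lt_of_ne (c s hs t ht')⟩) with
    ⟨w, hw, x⟩ | ⟨w, hw, x⟩ | ⟨θ, a, b, x⟩
  · exact Or.inl ⟨w, hw, fun s hs => (hε.up hw hs).1 (x s hs)⟩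
  · exact Or.inr (Or.inl ⟨w, hw, fun s hs => (hε.up_neg hw hs).1 (x s hs)⟩)
  · exact Or.inr (Or.inr ⟨θ, a, b, fun w hw s hs e => x _ ((hε.up hw hs).2 e)⟩)

end Pool.Agent.HT.AD
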