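import Pool.Agent.Lib.MP_6d85b4_al.Roots

set_option autoImplicit false
set_option linter.unusedSectionVars false

/-! The Tits cone of a standard parabolic subgroup: chambers, roots, galleries. -/

namespace Pool.Agent.HT.Tits

open Pool.Agent.Lib.MP_6d85b4_al CoxeterSystem

variable {S : Type} [Fintype S] [DecidableEq S] (M : CoxeterMatrix S)

/-- standard parabolic subgroup -/
abbrev W (L : Finset S) : Subgroup M.Group :=
  Subgroup.closure (M.toCoxeterSystem.simple '' (L : Set S))

/-- simple reflection -/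
abbrev sm (s : S) : M.Group := M.toCoxeterSystem.simple s

/-- supported on `L` -/
def Sup (L : Finset S) (x : S → ℝ) : Prop := ∀ t, t ∉ L → x t = 0

/-- roots of the parabolic subgroup -/
def Rt (L : Finset S) (g : S → ℝ) : Prop := ∃ v ∈ W M L, ∃ s ∈ L, g = rho M v (al s)

/-- positive as seen from the chamber `w` -/
def PosAt (w : M.Group) (g : S → ℝ) : Prop := Pos (rho M w⁻¹ g)

/-- `th` lies in the closed chamber `w` -/
def Ch (L : Finset S) (th : (S → ℝ) →ₗ[ℝ] ℝ) (w : M.Group) : Prop :=
  ∀ s ∈ L, 0 ≤ th (rho M w (al s))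

/-- the Tits cone -/
def Cone (L : Finset S) (th : (S → ℝ) →ₗ[ℝ] ℝ) : Prop := ∃ w ∈ W M L, Ch M L th w

/-- roots positive at `c` on which `th` is negative -/
def Ng (L : Finset S) (th : (S → ℝ) →ₗ[ℝ] ℝ) (c : M.Group) : Set (S → ℝ) :=
  {g | Rt M L g ∧ PosAt M c g ∧ th g < 0}

/-- roots separating two functionals strictly -/
def Sep (L : Finset S) (th th' : (S → ℝ) →ₗ[ℝ] ℝ) : Set (S → ℝ) :=
  {g | Rt M L g ∧ 0 < th g ∧ th' g < 0}

/-- the Coxeter graph on `L` is connected (or `L` is empty) -/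
def Conn (L : Finset S) : Prop :=
  ∀ P : S → Prop, (∀ s ∈ L, ∀ t ∈ L, M s t ≠ 2 → P s → P t) → ∀ s ∈ L, P s → ∀ t ∈ L, P t

variable {M} {L : Finset S} {th th' : (S → ℝ) →ₗ[ℝ] ℝ}

theorem sm_mem {s : S} (h : s ∈ L) : sm M s ∈ W M L := Subgroup.subset_closure ⟨s, h, rfl⟩

theorem W_mono {L' : Finset S} (h : L ⊆ L') : W M L ≤ W M L' :=
  Subgroup.closure_mono (Set.image_mono h)

theorem W_ind {p : M.Group → Prop} (h1 : p 1)
    (h2 : ∀ w ∈ W M L, ∀ s ∈ L, p w → p (w * sm M s)) : ∀ w ∈ W M L, p w := by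
  intro w hw
  induction hw using Subgroup.closure_induction_right with
  | one => exact h1
  | mul_right x hx y hy ih =>
    obtain ⟨s, hs, rfl⟩ := hy
    exact h2 x hx s hs ih
  | mul_inv_cancel x hx y hy ih =>
    obtain ⟨s, hs, rfl⟩ := hy
    rw [inv_simple]
    exact h2 x hx s hs ih

theorem mem_W_univ (w : M.Group) : w ∈ W M Finset.univ := by
  induction w using M.toCoxeterSystem.simple_induction_left with
  | one => exact one_mem _
  | mul_simple_left w s ih => exact mul_mem (sm_mem (Finset.mem_univ s)) ih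

theorem rho_one (x : S → ℝ) : rho M 1 x = x := by simp

theorem rho_inv' (w : M.Group) (x : S → ℝ) : rho M w (rho M w⁻¹ x) = x := by
  rw [← rho_mul, mul_inv_cancel, rho_one]

theorem rho_sm (w : M.Group) (s : S) (x : S → ℝ) :
    rho M (w * sm M s) x = rho M w x + ip M s x • rho M w (al s) := by
  rw [rho_mul, rho_simple, rf_apply, map_add, map_smul]

theorem rho_sm_al (w : M.Group) (s : S) : rho M (w * sm M s) (al s) = -rho M w (al s) := by
  rw [rho_mul, rho_simple, rf_self, map_neg]

theorem coord_out {v : M.Group} (hv : v ∈ W M L) {t : S} (ht : t ∉ L) (x : S → ℝ) :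
    rho M v x t = x t := by
  revert x
  refine W_ind (p := fun v => ∀ x, rho M v x t = x t) (fun x => by rw [rho_one]) ?_ v hv
  intro w _ s hs ih x
  rw [rho_mul, ih, rho_simple, rf_coord M (fun e : t = s => ht (e ▸ hs))]

theorem Sup.act {x : S → ℝ} (hx : Sup L x) {v : M.Group} (hv : v ∈ W M L) :
    Sup L (rho M v x) := fun t ht => by rw [coord_out hv ht, hx t ht]

theorem sup_al {s : S} (hs : s ∈ L) : Sup L (al s) := fun _ ht => al_ne fun e => ht (e ▸ hs)

theorem Sup.neg {x : S → ℝ} (hx : Sup L x) : Sup L (-x) := fun t ht => by simp [hx t ht]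

theorem sum_al (x : S → ℝ) : x = ∑ s, x s • al s := by
  funext t
  rw [Finset.sum_apply, Finset.sum_eq_single t]
  · simp
  · intro b _ hb
    simp [al_ne hb.symm]
  · simp

theorem th_sum (th : (S → ℝ) →ₗ[ℝ] ℝ) (w : M.Group) (x : S → ℝ) :
    th (rho M w x) = ∑ s, x s * th (rho M w (al s)) := by
  conv_lhs => rw [sum_al x]
  simp [map_sum]

theorem not_pos_neg {w : M.Group} {s : S} (h1 : Pos (rho M w (al s)))
    (h2 : Pos (-rho M w (al s))) : False := by
  have e : rho M w (al s) = 0 := by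
    funext t
    have a := h1 t
    have b := h2 t
    simp only [Pi.neg_apply] at b
    exact le_antisymm (by simpa using b) a
  have := root_norm M w s
  rw [e] at this
  simp [bf] at this

theorem desc_iff (w : M.Group) (s : S) :
    M.toCoxeterSystem.IsRightDescent w s ↔ ¬ Pos (rho M w (al s)) := by
  constructor
  · intro h hp
    have := pos_of_not_descent M _ s
      ((M.toCoxeterSystem.isRightDescent_iff_not_isRightDescent_mul).1 h)
    rw [rho_sm_al] at this
    exact not_pos_neg hp this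
  · intro h
    by_contra hd
    exact h (pos_of_not_descent M w s hd)

theorem eq_one_of_pos {v : M.Group} (hv : v ∈ W M L) (h : ∀ s ∈ L, Pos (rho M v (al s))) :
    v = 1 := by
  by_contra hne
  obtain ⟨s, hs⟩ := M.toCoxeterSystem.exists_rightDescent_of_ne_one hne
  refine (desc_iff v s).1 hs ?_
  by_cases hL : s ∈ L
  · exact h s hL
  · refine (dichotomy M v s).resolve_right fun hn => ?_
    have := hn s
    rw [Pi.neg_apply, coord_out hv hL, al_self] at this
    linarith

/-- TERM: crossing a root that is negative at `p` lowers the distance to `p`. -/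
theorem len_step {p w : M.Group} {s : S} (h : ¬ PosAt M p (rho M w (al s))) :
    M.toCoxeterSystem.length (p⁻¹ * (w * sm M s)) < M.toCoxeterSystem.length (p⁻¹ * w) := by
  rw [← mul_assoc]
  refine (desc_iff (p⁻¹ * w) s).2 ?_
  rwa [rho_mul]

/-- first step of a minimal gallery from `w` to `p` -/
theorem exists_step {p w : M.Group} (h : p⁻¹ * w ∈ W M L) (hne : w ≠ p) :
    ∃ s ∈ L, ¬ PosAt M p (rho M w (al s)) := by
  by_contra hc
  push Not at hc
  have := eq_one_of_pos h fun s hs => by rw [rho_mul]; exact hc s hs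
  exact hne (inv_mul_eq_one.1 this).symm

/-- a property that survives some step towards `p` from every chamber reaches an end -/
theorem term (p : M.Group) {X : Type*} (w : X → M.Group) (P Q : X → Prop)
    (h : ∀ x, P x → Q x ∨ ∃ y s, P y ∧ w y = w x * sm M s ∧ ¬ PosAt M p (rho M (w x) (al s))) :
    ∀ x, P x → ∃ y, P y ∧ Q y := by
  intro x
  induction hn : M.toCoxeterSystem.length (p⁻¹ * w x) using Nat.strong_induction_on
    generalizing x with
  | _ n ih =>
    intro hx
    rcases h x hx with q | ⟨y, s, hy, e, hs⟩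
    · exact ⟨x, hx, q⟩
    · exact ih _ (by rw [← hn, e]; exact len_step hs) y rfl hy

/-- a property kept by all steps towards `p` passes from `w` to `p` -/
theorem gal_to {p : M.Group} {P : M.Group → Prop}
    (h : ∀ w, p⁻¹ * w ∈ W M L → ∀ s ∈ L, ¬ PosAt M p (rho M w (al s)) → P w → P (w * sm M s))
    {w : M.Group} (hw : p⁻¹ * w ∈ W M L) (h0 : P w) : P p := by
  obtain ⟨y, hy, rfl⟩ := term p id (fun w => p⁻¹ * w ∈ W M L ∧ P w) (fun w => w = p) (by
    rintro x ⟨a, b⟩
    by_cases e : x = p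
    · exact Or.inl e
    · obtain ⟨s, hs, hn⟩ := exists_step a e
      exact Or.inr ⟨x * sm M s, s, ⟨by rw [← mul_assoc]; exact mul_mem a (sm_mem hs),
        h x a s hs hn b⟩, rfl, hn⟩) w ⟨hw, h0⟩
  exact hy.2

/-- a property passed on along minimal galleries that start at `p` -/
theorem gal_from {p : M.Group} {P : M.Group → Prop} (h0 : P p)
    (h : ∀ w, p⁻¹ * w ∈ W M L → ∀ s ∈ L, PosAt M p (rho M w (al s)) → P w → P (w * sm M s)) :
    ∀ w, p⁻¹ * w ∈ W M L → P w := by
  intro w
  induction hn : M.toCoxeterSystem.length (p⁻¹ * w) using Nat.strong_induction_on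
    generalizing w with
  | _ n ih =>
    intro hw
    by_cases e : w = p
    · exact e ▸ h0
    · obtain ⟨s, hs, hd⟩ := exists_step hw e
      have m : p⁻¹ * (w * sm M s) ∈ W M L := by rw [← mul_assoc]; exact mul_mem hw (sm_mem hs)
      have := h (w * sm M s) m s hs (by
        unfold PosAt at hd ⊢
        rw [rho_sm_al, map_neg, ← rho_mul] at *
        exact (dichotomy M _ s).resolve_left hd) (ih _ (hn ▸ len_step hd) _ rfl m)
      rwa [mul_assoc, simple_mul_simple_self, mul_one] at this

theorem rt_al {w : M.Group} (hw : w ∈ W M L) {s : S} (hs : s ∈ L) : Rt M L (rho M w (al s)) :=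
  ⟨w, hw, s, hs, rfl⟩

theorem Rt.act {g : S → ℝ} (h : Rt M L g) {w : M.Group} (hw : w ∈ W M L) :
    Rt M L (rho M w g) := by
  obtain ⟨v, hv, s, hs, rfl⟩ := h
  exact ⟨w * v, mul_mem hw hv, s, hs, (rho_mul M _ _ _).symm⟩

theorem Rt.neg {g : S → ℝ} (h : Rt M L g) : Rt M L (-g) := by
  obtain ⟨v, hv, s, hs, rfl⟩ := h
  exact ⟨v * sm M s, mul_mem hv (sm_mem hs), s, hs, (rho_sm_al v s).symm⟩

theorem Rt.sup {g : S → ℝ} (h : Rt M L g) : Sup L g := by
  obtain ⟨v, hv, s, hs, rfl⟩ := h
  exact (sup_al hs).act hv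

theorem Rt.dich {g : S → ℝ} (h : Rt M L g) (w : M.Group) : PosAt M w g ∨ PosAt M w (-g) := by
  obtain ⟨v, -, s, -, rfl⟩ := h
  unfold PosAt
  rw [map_neg, ← rho_mul]
  exact dichotomy M _ s

theorem Rt.not_both {g : S → ℝ} (h : Rt M L g) {w : M.Group} (h1 : PosAt M w g)
    (h2 : PosAt M w (-g)) : False := by
  obtain ⟨v, -, s, -, rfl⟩ := h
  unfold PosAt at h1 h2
  rw [map_neg, ← rho_mul] at *
  exact not_pos_neg h1 h2

theorem posAt_al (w : M.Group) (s : S) : PosAt M w (rho M w (al s)) := by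
  unfold PosAt
  rw [rho_inv]
  exact pos_al s

theorem posAt_one (g : S → ℝ) : PosAt M 1 g ↔ Pos g := by
  unfold PosAt
  rw [inv_one, rho_one]

/-- only one positive root changes sign across a wall -/
theorem Rt.cross {g : S → ℝ} (h : Rt M L g) {w : M.Group} {s : S} (hp : PosAt M w g)
    (hne : g ≠ rho M w (al s)) : PosAt M (w * sm M s) g := by
  obtain ⟨v, -, t, -, rfl⟩ := h
  unfold PosAt at hp ⊢
  rw [mul_inv_rev, inv_simple, rho_mul, rho_simple]
  rw [← rho_mul] at hp ⊢
  refine pos_rf M hp fun e => hne ?_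
  rw [← e, rho_mul, rho_inv']

theorem Rt.cross' {g : S → ℝ} (h : Rt M L g) {w : M.Group} {s : S}
    (hp : PosAt M (w * sm M s) g) :
    g = -rho M w (al s) ∨ (PosAt M w g ∧ g ≠ rho M w (al s)) := by
  by_cases e : g = -rho M w (al s)
  · exact Or.inl e
  · refine Or.inr ⟨?_, fun e' => ?_⟩
    · have := h.cross (s := s) hp (by rwa [rho_sm_al])
      rwa [mul_assoc, simple_mul_simple_self, mul_one] at this
    · refine h.not_both hp ?_
      rw [e', ← rho_sm_al]
      exact posAt_al _ _

/-- finitely many roots separate two chambers -/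
theorem fin_sep (c w : M.Group) : {g | Rt M L g ∧ PosAt M c g ∧ ¬ PosAt M w g}.Finite := by
  obtain ⟨u, rfl⟩ : ∃ u, w = c * u := ⟨c⁻¹ * w, by simp⟩
  induction u using M.toCoxeterSystem.simple_induction_right with
  | one =>
    refine Set.finite_empty.subset ?_
    rintro g ⟨-, a, b⟩
    exact b (by rwa [mul_one])
  | mul_simple_right u s ih =>
    refine (ih.insert (rho M (c * u) (al s))).subset ?_
    rintro g ⟨r, a, b⟩
    by_cases e : g = rho M (c * u) (al s)
    · exact Or.inl e
    · exact Or.inr ⟨r, a, fun hp => b (by rw [← mul_assoc]; exact r.cross hp e)⟩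

theorem Ch.nonneg {w : M.Group} (h : Ch M L th w) {x : S → ℝ} (hx : Sup L x) (hp : Pos x) :
    0 ≤ th (rho M w x) := by
  rw [th_sum]
  refine Finset.sum_nonneg fun s _ => ?_
  by_cases hs : s ∈ L
  · exact mul_nonneg (hp s) (h s hs)
  · rw [hx s hs, zero_mul]

theorem Ch.root {w : M.Group} (h : Ch M L th w) (hw : w ∈ W M L) {g : S → ℝ} (hg : Rt M L g)
    (hp : PosAt M w g) : 0 ≤ th g := by
  have := h.nonneg (hg.act (inv_mem hw)).sup hp
  rwa [rho_inv'] at this

/-- Walk from `c` across walls on which `th` is negative: the gallery is minimal and ends in a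
chamber of `th` (the one closest to `c`). -/
theorem walk {c : M.Group} (hc : c ∈ W M L) (hf : (Ng M L th c).Finite) {P : M.Group → Prop}
    (h0 : P c) (h : ∀ w ∈ W M L, ∀ s ∈ L, th (rho M w (al s)) < 0 →
      PosAt M c (rho M w (al s)) → P w → P (w * sm M s)) :
    ∃ w ∈ W M L, P w ∧ Ch M L th w ∧ ∀ g, Rt M L g → PosAt M c g → ¬ PosAt M w g → th g < 0 := by
  suffices H : ∀ n, ∀ w ∈ W M L, (Ng M L th w).Finite → (Ng M L th w).ncard = n → P w →
      (∀ g, Rt M L g → PosAt M c g → ¬ PosAt M w g → th g < 0) →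
      ∃ w ∈ W M L, P w ∧ Ch M L th w ∧
        ∀ g, Rt M L g → PosAt M c g → ¬ PosAt M w g → th g < 0 from
    H _ c hc hf rfl h0 fun g _ a b => (b a).elim
  intro n
  induction n using Nat.strong_induction_on with
  | _ n ih =>
    intro w hw hf hn hP hI
    by_cases hch : Ch M L th w
    · exact ⟨w, hw, hP, hch, hI⟩
    obtain ⟨s, hs, hneg⟩ : ∃ s ∈ L, th (rho M w (al s)) < 0 := by
      by_contra hc
      push Not at hc
      exact hch hc
    have r := rt_al hw hs
    have hpc : PosAt M c (rho M w (al s)) := by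
      refine (r.dich c).resolve_right fun hn => ?_
      have := hI _ r.neg hn (r.not_both (posAt_al w s))
      rw [map_neg] at this
      linarith
    have sub : Ng M L th (w * sm M s) ⊂ Ng M L th w := by
      refine ⟨?_, fun hsub => ?_⟩
      · rintro g ⟨a, b, d⟩
        rcases a.cross' b with e | e
        · rw [e, map_neg] at d
          linarith
        · exact ⟨a, e.1, d⟩
      · have := (hsub ⟨r, posAt_al w s, hneg⟩).2.1
        refine r.not_both this ?_
        rw [← rho_sm_al]
        exact posAt_al _ _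
    refine ih _ (hn ▸ Set.ncard_lt_ncard sub hf) _ (mul_mem hw (sm_mem hs)) (hf.subset sub.1) rfl
      (h w hw s hs hneg hpc hP) fun g a b d => ?_
    by_cases e : g = rho M w (al s)
    · rwa [e]
    · exact hI g a b fun hp => d (a.cross hp e)

theorem Cone.fin (h : Cone M L th) (c : M.Group) : (Ng M L th c).Finite := by
  obtain ⟨w, hw, hch⟩ := h
  refine (fin_sep (L := L) c w).subset ?_
  rintro g ⟨a, b, d⟩
  exact ⟨a, b, fun hp => absurd (hch.root hw a hp) (not_le.2 d)⟩

theorem cone_of_fin {c : M.Group} (hc : c ∈ W M L) (hf : (Ng M L th c).Finite) : Cone M L th := by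
  obtain ⟨w, hw, -, h, -⟩ := walk hc hf (P := fun _ => True) trivial fun _ _ _ _ _ _ _ => trivial
  exact ⟨w, hw, h⟩

/-- the Tits cone: finitely many positive roots are negative -/
theorem cone_iff : Cone M L th ↔ {g | Rt M L g ∧ Pos g ∧ th g < 0}.Finite := by
  have e : {g | Rt M L g ∧ Pos g ∧ th g < 0} = Ng M L th 1 := by
    ext g
    simp only [Ng, Set.mem_ofPred_eq, posAt_one]
  rw [e]
  exact ⟨fun h => h.fin 1, cone_of_fin (one_mem _)⟩

theorem Cone.comb (h : Cone M L th) (h' : Cone M L th') {a b : ℝ} (ha : 0 ≤ a) (hb : 0 ≤ b) :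
    Cone M L (a • th + b • th') := by
  refine cone_of_fin (one_mem _) (((h.fin 1).union (h'.fin 1)).subset ?_)
  rintro g ⟨r, p, d⟩
  by_contra hc
  have h1 : 0 ≤ th g := not_lt.1 fun e => hc (Or.inl ⟨r, p, e⟩)
  have h2 : 0 ≤ th' g := not_lt.1 fun e => hc (Or.inr ⟨r, p, e⟩)
  simp only [LinearMap.add_apply, LinearMap.smul_apply, smul_eq_mul] at d
  have := mul_nonneg ha h1
  have := mul_nonneg hb h2
  linarith

theorem Cone.add (h : Cone M L th) (h' : Cone M L th') : Cone M L (th + th') := by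
  simpa using h.comb h' zero_le_one zero_le_one

theorem fin_roots [Finite (W M L)] : {g | Rt M L g}.Finite := by
  refine (Set.finite_range fun p : W M L × S => rho M p.1 (al p.2)).subset ?_
  rintro g ⟨v, hv, s, -, rfl⟩
  exact ⟨(⟨v, hv⟩, s), rfl⟩

theorem finite_of_roots (h : {g | Rt M L g}.Finite) : Finite (W M L) := by
  have : Finite {g | Rt M L g} := h
  refine Finite.of_injective (fun (v : W M L) (s : L) =>
    (⟨rho M v (al s), rt_al v.2 s.2⟩ : {g | Rt M L g})) fun v v' e => ?_
  have := eq_one_of_pos (mul_mem (inv_mem v.2) v'.2) fun s hs => by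
    have e1 : rho M v (al s) = rho M v' (al s) := congrArg Subtype.val (congrFun e ⟨s, hs⟩)
    rw [rho_mul, ← e1, rho_inv]
    exact pos_al s
  exact Subtype.ext (inv_mul_eq_one.1 this)

/-- for a finite parabolic subgroup the Tits cone is everything -/
theorem cone_of_finite [Finite (W M L)] (th : (S → ℝ) →ₗ[ℝ] ℝ) : Cone M L th :=
  cone_iff.2 (fin_roots.subset fun _ h => h.1)

/-- the walls of the chamber `w` that contain `th` -/
noncomputable def Jz (M : CoxeterMatrix S) (L : Finset S) (th : (S → ℝ) →ₗ[ℝ] ℝ) (w : M.Group) :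
    Finset S := L.filter fun s => th (rho M w (al s)) = 0

theorem mem_Jz {w : M.Group} {s : S} : s ∈ Jz M L th w ↔ s ∈ L ∧ th (rho M w (al s)) = 0 :=
  Finset.mem_filter

theorem th_fix {w u : M.Group} (hu : u ∈ W M (Jz M L th w)) (x : S → ℝ) :
    th (rho M (w * u) x) = th (rho M w x) := by
  revert x
  refine W_ind (p := fun u => ∀ x, th (rho M (w * u) x) = th (rho M w x))
    (fun x => by rw [mul_one]) ?_ u hu
  intro v _ s hs ih x
  rw [← mul_assoc, rho_sm, map_add, map_smul, ih, ih, (mem_Jz.1 hs).2, smul_zero, add_zero]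

theorem Ch.res {w u : M.Group} (h : Ch M L th w) (hu : u ∈ W M (Jz M L th w)) :
    Ch M L th (w * u) := fun s hs => by rw [th_fix hu]; exact h s hs

theorem Jz_res {w u : M.Group} (hu : u ∈ W M (Jz M L th w)) : Jz M L th (w * u) = Jz M L th w := by
  ext s
  rw [mem_Jz, mem_Jz, th_fix hu]

/-- the chambers of `th` form one residue -/
theorem Ch.mem_res {w w' : M.Group} (h : Ch M L th w) (h' : Ch M L th w')
    (hw : w⁻¹ * w' ∈ W M L) : w⁻¹ * w' ∈ W M (Jz M L th w) := by
  refine gal_to (L := L) (p := w') (P := fun v => w⁻¹ * v ∈ W M (Jz M L th w)) ?_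
    (w := w) (by simpa using inv_mem hw) (by simp)
  intro v hv s hs hn ih
  rw [← mul_assoc]
  refine mul_mem ih (sm_mem (mem_Jz.2 ⟨hs, le_antisymm ?_ (h s hs)⟩))
  have e := th_fix ih (al s)
  rw [mul_inv_cancel_left] at e
  have r := rt_al hv hs
  have p : Pos (-rho M (w'⁻¹ * v) (al s)) := by
    refine (dichotomy M _ s).resolve_left ?_
    rwa [rho_mul]
  have := h'.nonneg r.neg.sup p
  rw [map_neg, ← rho_mul, mul_inv_cancel_left, map_neg, e] at this
  linarith

theorem fin_Sep (h : Cone M L th) (h' : Cone M L th') : (Sep M L th th').Finite := by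
  refine ((h'.fin 1).union ((h.fin 1).image fun g => -g)).subset ?_
  rintro g ⟨r, a, b⟩
  rcases r.dich 1 with p | p
  · exact Or.inl ⟨r, p, b⟩
  · exact Or.inr ⟨-g, ⟨r.neg, p, by rw [map_neg]; linarith⟩, neg_neg g⟩

/-- with no separating root every chamber of the sum is a chamber of both -/
theorem ch_of_add (hs : Sep M L th th' = ∅) {w : M.Group} (hw : w ∈ W M L)
    (h : Ch M L (th + th') w) : Ch M L th w ∧ Ch M L th' w := by
  have key : ∀ g, Rt M L g → 0 < th g → th' g < 0 → False := fun g r a b =>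
    (Set.eq_empty_iff_forall_notMem.1 hs) g ⟨r, a, b⟩
  constructor
  · intro s hL
    have := h s hL
    rw [LinearMap.add_apply] at this
    by_contra hc
    exact key _ (rt_al hw hL).neg (by rw [map_neg]; linarith) (by rw [map_neg]; linarith)
  · intro s hL
    have := h s hL
    rw [LinearMap.add_apply] at this
    by_contra hc
    exact key _ (rt_al hw hL) (by linarith) (by linarith)

/-- Induction along segments in a convex part `A` of the Tits cone. -/
theorem seg_ind {A : Set ((S → ℝ) →ₗ[ℝ] ℝ)} (hU : ∀ t ∈ A, Cone M L t)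
    (hcv : ∀ t ∈ A, ∀ t' ∈ A, ∀ a b : ℝ, 0 < a → 0 < b → a • t + b • t' ∈ A)
    {R : ((S → ℝ) →ₗ[ℝ] ℝ) → ((S → ℝ) →ₗ[ℝ] ℝ) → Prop}
    (tr : ∀ t ∈ A, ∀ t' ∈ A, ∀ t'' ∈ A, R t t' → R t' t'' → R t t'')
    (base : ∀ t ∈ A, ∀ t' ∈ A, ∀ w ∈ W M L, Ch M L t w → Ch M L t' w → R t t') :
    ∀ t ∈ A, ∀ t' ∈ A, R t t' := by
  suffices H : ∀ n, ∀ t ∈ A, ∀ t' ∈ A, (Sep M L t t').ncard = n → R t t' from
    fun t ht t' ht' => H _ t ht t' ht' rfl
  intro n
  induction n using Nat.strong_induction_on with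
  | _ n ih =>
    intro t ht t' ht' hn
    have hf := fin_Sep (hU t ht) (hU t' ht')
    rcases (Sep M L t t').eq_empty_or_nonempty with e | ⟨g, r, a, b⟩
    · obtain ⟨w, hw, hch⟩ := (hU t ht).add (hU t' ht')
      exact base t ht t' ht' w hw (ch_of_add e hw hch).1 (ch_of_add e hw hch).2
    · have hm := hcv t ht t' ht' (-t' g) (t g) (by linarith) a
      have z : ((-t' g) • t + t g • t') g = 0 := by
        simp only [LinearMap.add_apply, LinearMap.smul_apply, smul_eq_mul]
        ring
      have s1 : Sep M L t ((-t' g) • t + t g • t') ⊂ Sep M L t t' := by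
        refine ⟨?_, fun hsub => (hsub ⟨r, a, b⟩).2.2.ne z⟩
        rintro k ⟨rk, ak, bk⟩
        refine ⟨rk, ak, ?_⟩
        simp only [LinearMap.add_apply, LinearMap.smul_apply, smul_eq_mul] at bk
        by_contra hc
        have := mul_nonneg a.le (not_lt.1 hc)
        have := mul_pos (neg_pos.2 b) ak
        linarith
      have s2 : Sep M L ((-t' g) • t + t g • t') t' ⊂ Sep M L t t' := by
        refine ⟨?_, fun hsub => (hsub ⟨r, a, b⟩).2.1.ne' z⟩
        rintro k ⟨rk, ak, bk⟩
        refine ⟨rk, ?_, bk⟩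
        simp only [LinearMap.add_apply, LinearMap.smul_apply, smul_eq_mul] at ak
        by_contra hc
        have := mul_nonneg (neg_pos.2 b).le (neg_nonneg.2 (not_lt.1 hc))
        have := mul_pos a (neg_pos.2 bk)
        nlinarith
      exact tr t ht _ hm t' ht' (ih _ (hn ▸ Set.ncard_lt_ncard s1 hf) t ht _ hm rfl)
        (ih _ (hn ▸ Set.ncard_lt_ncard s2 hf) _ hm t' ht' rfl)

theorem conn_univ (h : (SimpleGraph.fromRel (fun i j : S => M i j ≠ 2)).Connected) :
    Conn M Finset.univ := by
  intro P hP s _ hs t _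
  obtain ⟨p⟩ := h.preconnected s t
  induction p with
  | nil => exact hs
  | @cons a b c hab p ih =>
    refine ih (Finset.mem_univ _) (hP a (Finset.mem_univ _) b (Finset.mem_univ _) ?_ hs)
      (Finset.mem_univ _)
    rcases ((SimpleGraph.fromRel_adj _ _ _).1 hab).2 with e | e
    · exact e
    · rwa [M.symmetric]

/-- if `th` kills all but finitely many roots of a connected infinite system, it kills all -/
theorem zero_of_fin (hc : Conn M L) (hi : Infinite (W M L))
    (hf : {g | Rt M L g ∧ th g ≠ 0}.Finite) : ∀ s ∈ L, th (al s) = 0 := by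
  by_contra hne
  refine absurd (finite_of_roots (M := M) (L := L) ?_) (not_finite_iff_infinite.2 hi)
  have hZ : ∀ g, Rt M L g → ∃ v ∈ W M L, th (rho M v g) ≠ 0 := by
    rintro g ⟨u, hu, s, hs, rfl⟩
    by_contra hz
    push Not at hz
    refine hne fun t ht => ?_
    have := hc (fun s => ∀ v ∈ W M L, th (rho M v (al s)) = 0) ?_ s hs ?_ t ht 1 (one_mem _)
    · rwa [rho_one] at this
    · intro a _ b hb hab ih v hv
      have e := ih _ (mul_mem hv (sm_mem hb))
      rw [rho_sm, map_add, map_smul, ih v hv, zero_add, ip_al, smul_eq_mul] at e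
      refine (mul_eq_zero.1 e).resolve_left fun e' => hab ?_
      rw [M.symmetric]
      exact eq_two_of_cc M e'
    · intro v hv
      have := hz (v * u⁻¹) (mul_mem hv (inv_mem hu))
      rwa [← rho_mul, inv_mul_cancel_right] at this
  let f : W M L → S → ℝ := fun v s => if s ∈ L then th (rho M v (al s)) else 0
  have fv : (Set.range f).Finite := by
    refine (Set.Finite.pi' fun _ : S => (hf.image th).insert 0).subset ?_
    rintro _ ⟨v, rfl⟩ s
    by_cases hs : s ∈ L
    · by_cases e : th (rho M v (al s)) = 0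
      · exact Or.inl (by simp only [f, if_pos hs, e])
      · exact Or.inr ⟨_, ⟨rt_al v.2 hs, e⟩, by simp only [f, if_pos hs]⟩
    · exact Or.inl (by simp only [f, if_neg hs])
  have ev : ∀ (v : W M L) g, Rt M L g → th (rho M v g) = ∑ s, g s * f v s := by
    intro v g r
    rw [th_sum]
    refine Finset.sum_congr rfl fun s _ => ?_
    by_cases hs : s ∈ L
    · simp only [f, if_pos hs]
    · rw [r.sup s hs, zero_mul, zero_mul]
  refine (fv.biUnion (t := fun k => {g | Rt M L g ∧ ∑ s, g s * k s ≠ 0}) ?_).subset ?_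
  · rintro _ ⟨v, rfl⟩
    refine (hf.image (rho M (v : M.Group)⁻¹)).subset ?_
    rintro g ⟨r, h⟩
    exact ⟨rho M v g, ⟨r.act v.2, by rwa [ev v g r]⟩, rho_inv M _ _⟩
  · intro g r
    obtain ⟨v, hv, h⟩ := hZ g r
    exact Set.mem_biUnion ⟨⟨v, hv⟩, rfl⟩ ⟨r, by rwa [← ev ⟨v, hv⟩ g r]⟩

/-- the Tits cone of a connected infinite system contains no line -/
theorem cone_neg (hc : Conn M L) (hi : Infinite (W M L)) (h : Cone M L th) (h' : Cone M L (-th)) :
    ∀ s ∈ L, th (al s) = 0 := by
  refine zero_of_fin hc hi (((fin_Sep h h').union ((fin_Sep h h').image fun g => -g)).subset ?_)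
  rintro g ⟨r, hg⟩
  rcases lt_or_gt_of_ne hg with e | e
  · exact Or.inr ⟨-g, ⟨r.neg, by rw [map_neg]; linarith, by simpa using e⟩, neg_neg g⟩
  · exact Or.inl ⟨r, e, by simpa using e⟩

theorem cone_neg_univ (hc : (SimpleGraph.fromRel (fun i j : S => M i j ≠ 2)).Connected)
    (hi : Infinite M.Group) (h : Cone M Finset.univ th) (h' : Cone M Finset.univ (-th)) :
    th = 0 := by
  have : Infinite (W M Finset.univ) :=
    Infinite.of_injective (fun w : M.Group => (⟨w, mem_W_univ w⟩ : W M Finset.univ))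
      fun _ _ e => congrArg Subtype.val e
  have z := cone_neg (conn_univ hc) this h h'
  refine LinearMap.ext fun x => ?_
  have e := th_sum (M := M) th 1 x
  simp only [rho_one] at e
  rw [e, LinearMap.zero_apply]
  exact Finset.sum_eq_zero fun s _ => by rw [z s (Finset.mem_univ s), mul_zero]

end Pool.Agent.HT.Tits
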