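import Pool.Agent.Lib.HT.Aff
import Pool.Agent.Lib.HT.Tits

/-! Closed orientations of an affine root system: a top, a bottom, or a direction at infinity. -/

set_option linter.unusedSectionVars false

namespace Pool.Agent.HT.AD

open Pool.Agent.Lib.MP_6d85b4_al Pool.Agent.HT.Core Pool.Agent.HT.Aff

variable {B : Type} [Fintype B] [DecidableEq B] {M : CoxeterMatrix B} {L : Finset B}
  {d g e : B → ℝ} {P : (B → ℝ) → Prop}

theorem rt_norm (h : Rt M L g) : bf M g g = -2 := by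
  obtain ⟨w, -, s, -, rfl⟩ := h
  exact root_norm M w s

theorem rt_sup (h : Rt M L g) : Sup L g := Tits.Rt.sup h

theorem rt_neg (h : Rt M L g) : Rt M L (-g) := Tits.Rt.neg h

theorem rho_conj (w : M.Group) (s : B) (e : B → ℝ) :
    rho M (w * M.toCoxeterSystem.simple s * w⁻¹) e =
      e + bf M (rho M w (al s)) e • rho M w (al s) := by
  rw [rho_mul, rho_mul_simple, rho_inv', ← bf_al, ← bf_rho M w, rho_inv']

theorem rt_refl (hg : Rt M L g) (he : Rt M L e) : Rt M L (e + bf M g e • g) := by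
  obtain ⟨w, hw, s, hs, rfl⟩ := hg
  rw [← rho_conj]
  exact Tits.Rt.act he (mul_mem (mul_mem hw (simple_mem hs)) (inv_mem hw))

theorem rt_simple (h : Rt M L g) : ∃ s ∈ L, ip M s g ≠ 0 := by
  by_contra c
  push Not at c
  have := bf_eq_zero (M := M) (rt_sup h) c
  rw [rt_norm h] at this
  norm_num at this

theorem rt_al {s : B} (hs : s ∈ L) : Rt M L (al s) := ⟨1, one_mem _, s, hs, by simp⟩

/-- A set of roots closed under non-orthogonality is empty or everything. -/
theorem spread_all (hc : Conn M L) {Z : (B → ℝ) → Prop}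
    (hZ : ∀ g e, Rt M L g → Rt M L e → bf M g e ≠ 0 → Z g → Z e)
    (hg : Rt M L g) (he : Rt M L e) (h : Z g) : Z e := by
  classical
  obtain ⟨s, hs, h1⟩ := rt_simple hg
  obtain ⟨t, ht, h2⟩ := rt_simple he
  have k := hc.2 (L.filter fun r => Z (al r)) (Finset.filter_subset _ _)
    ⟨s, Finset.mem_filter.2 ⟨hs, hZ _ _ hg (rt_al hs) (by rwa [bf_al_r]) h⟩⟩ (fun a ha b hb hn => by
      obtain ⟨a1, a2⟩ := Finset.mem_filter.1 ha
      refine eq_two_of_cc M (by_contra fun c => hn (Finset.mem_filter.2 ⟨hb, ?_⟩))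
      exact hZ _ _ (rt_al a1) (rt_al hb) (by rwa [bf_al, ip_al]) a2)
  rw [← k] at ht
  exact hZ _ _ (rt_al (Finset.mem_filter.1 ht).1) he (by rwa [bf_al]) (Finset.mem_filter.1 ht).2

section Lifts

variable (h : IsAff M L d)
include h

theorem bf_lift_r {x : B → ℝ} (hx : Sup L x) (y : B → ℝ) (k : ℝ) :
    bf M x (y + k • d) = bf M x y := by
  rw [bf_add_r, bf_smul_r, h.bf_d hx, mul_zero, add_zero]

theorem bf_le (hg : Rt M L g) (he : Rt M L e) : bf M g e ≤ 2 := by
  have := h.ns (g + e) ((rt_sup hg).add (rt_sup he))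
  rw [bf_add_l, bf_add_r, bf_add_r, rt_norm hg, rt_norm he, bf_symm M e g] at this
  linarith

theorem lift_of_two (hg : Rt M L g) (he : Rt M L e) (c : bf M g e = 2) :
    ∃ k : ℝ, e = -g + k • d := by
  obtain ⟨k, hk⟩ := h.radical ((rt_sup hg).add (rt_sup he)) (by
    rw [bf_add_l, bf_add_r, bf_add_r, rt_norm hg, rt_norm he, bf_symm M e g, c]; norm_num)
  exact ⟨k, by rw [← hk]; abel⟩

theorem abs_le_two (hg : Rt M L g) (he : Rt M L e) : |bf M g e| ≤ 2 := by
  have := bf_le h (rt_neg hg) he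
  rw [bf_neg_l] at this
  exact abs_le.2 ⟨by linarith, bf_le h hg he⟩

/-- Roots in the same class up to sign pair in the same way up to sign. -/
theorem abs_cls (hg : Rt M L g) (he : Rt M L e) (c : |bf M g e| = 2) {x : B → ℝ} (hx : Sup L x) :
    |bf M g x| = |bf M e x| := by
  rcases (abs_eq (by norm_num)).1 c with c | c
  · obtain ⟨k, rfl⟩ := lift_of_two h hg he c
    rw [bf_symm M (_ + _), bf_lift_r h hx, bf_neg_r, abs_neg, bf_symm]
  · obtain ⟨k, rfl⟩ := lift_of_two h (rt_neg hg) he (by rw [bf_neg_l, c, neg_neg])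
    rw [bf_symm M (_ + _), bf_lift_r h hx, neg_neg, bf_symm]

theorem other {s : B} (hs : s ∈ L) : ∃ t ∈ L, t ≠ s := by
  by_contra c
  push Not at c
  have e := h.rad s hs
  rw [ip_apply, Finset.sum_eq_single s (fun t _ ht => by
    rw [h.sup t fun k => ht (c t k), mul_zero]) (by simp), cc_self] at e
  linarith [h.pos s hs]

theorem le_ht (s : B) : d s ≤ ht d := by
  rw [ht_apply]
  exact Finset.single_le_sum (fun i _ => h.cn.1 i) (Finset.mem_univ s)

theorem sep_pos {k : ℝ} (hg : Rt M L g) (he : Rt M L (g + k • d)) (hk : 0 < k) :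
    1 ≤ k * ht d := by
  obtain ⟨w, hw, s, hs, rfl⟩ := hg
  obtain ⟨t, ht', ts⟩ := other h hs
  have r := Tits.Rt.act he (inv_mem (mul_mem hw (simple_mem hs)))
  rw [map_add, map_smul, h.rho_d (inv_mem (mul_mem hw (simple_mem hs))), mul_inv_rev,
    M.toCoxeterSystem.inv_simple, rho_mul, rho_inv, rho_simple, rf_self] at r
  rcases r.dich 1 with p | p
  · have := (Tits.posAt_one _).1 p s
    simp only [Pi.add_apply, Pi.neg_apply, al_self, Pi.smul_apply, smul_eq_mul] at this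
    nlinarith [le_ht h s]
  · have := (Tits.posAt_one _).1 p t
    simp only [Pi.add_apply, Pi.neg_apply, al_ne ts, Pi.smul_apply, smul_eq_mul] at this
    nlinarith [h.pos t ht']

/-- Two lifts of one class are far apart. -/
theorem sep {k : ℝ} (hg : Rt M L g) (he : Rt M L (g + k • d)) (hk : k ≠ 0) :
    1 ≤ |k| * ht d := by
  rcases lt_or_gt_of_ne hk with c | c
  · rw [abs_of_neg c]
    exact sep_pos h he (by rwa [neg_smul, add_neg_cancel_right]) (neg_pos.2 c)
  · rw [abs_of_pos c]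
    exact sep_pos h hg he c

end Lifts

variable (M L) in
/-- The class modulo the radical. -/
noncomputable def cl (x : B → ℝ) : B → ℝ := fun s => if s ∈ L then ip M s x else 0

theorem cl_add (x y : B → ℝ) : cl M L (x + y) = cl M L x + cl M L y := by
  funext s
  by_cases c : s ∈ L <;> simp [cl, c]

theorem cl_smul (a : ℝ) (x : B → ℝ) : cl M L (a • x) = a • cl M L x := by
  funext s
  by_cases c : s ∈ L <;> simp [cl, c]

theorem cl_lift (h : IsAff M L d) (x : B → ℝ) (k : ℝ) : cl M L (x + k • d) = cl M L x := by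
  funext s
  by_cases c : s ∈ L <;> simp [cl, c, h.rad s]

theorem dot_cl {x : B → ℝ} (hx : Sup L x) (y : B → ℝ) : x ⬝ᵥ cl M L y = bf M x y := by
  refine Finset.sum_congr rfl fun i _ => ?_
  by_cases c : i ∈ L
  · simp [cl, c]
  · simp [hx i c]

theorem lift_of_cl (h : IsAff M L d) (hg : Rt M L g) (he : Rt M L e) (c : cl M L g = cl M L e) :
    ∃ k : ℝ, e = g + k • d := by
  have := lift_of_two h (rt_neg hg) he (by
    rw [bf_neg_l, ← dot_cl (rt_sup hg), ← c, dot_cl (rt_sup hg), rt_norm hg, neg_neg])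
  rwa [neg_neg] at this

variable (M L) in
/-- An orientation of the roots that is closed in finite rank two. -/
structure Ori (P : (B → ℝ) → Prop) : Prop where
  rt : ∀ g, P g → Rt M L g
  tot : ∀ g, Rt M L g → P g ∨ P (-g)
  ex : ∀ g, P g → ¬ P (-g)
  clo : ∀ g e, P g → P e → 0 ≤ bf M g e → bf M g e < 2 → P (e + bf M g e • g)

theorem Ori.neg (o : Ori M L P) : Ori M L fun g => P (-g) where
  rt g h := by simpa using rt_neg (o.rt _ h)
  tot g h := (o.tot _ (rt_neg h))
  ex g h := o.ex _ h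
  clo g e h1 h2 a b := by
    have := o.clo _ _ h1 h2 (by rwa [bf_neg_l, bf_neg_r, neg_neg])
      (by rwa [bf_neg_l, bf_neg_r, neg_neg])
    rw [bf_neg_l, bf_neg_r, neg_neg] at this
    rwa [neg_add, ← smul_neg]

/-- A class all of whose lifts are positive gives a direction. -/
theorem dir (h : IsAff M L d) (hF : (cl M L '' {g | Rt M L g}).Finite) (o : Ori M L P)
    {g0 : B → ℝ} (r0 : Rt M L g0) (h0 : ∀ k : ℝ, Rt M L (g0 + k • d) → P (g0 + k • d)) :
    ∃ θ : (B → ℝ) →ₗ[ℝ] ℝ, θ d = 0 ∧ 0 < θ g0 ∧ ∀ g, P g → 0 ≤ θ g := by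
  classical
  let Fu : (B → ℝ) → Prop := fun e => Rt M L e ∧ ∀ k : ℝ, Rt M L (e + k • d) → P (e + k • d)
  have fC : (cl M L '' {e | Fu e}).Finite := hF.subset (Set.image_mono fun _ a => a.1)
  set C := fC.toFinset with hC
  have mC : ∀ c, c ∈ C ↔ ∃ e, Fu e ∧ cl M L e = c := fun c => by simp [hC]
  have key : ∀ g, P g → ∑ c ∈ C, g ⬝ᵥ c ≤ 0 ∧ (Fu g → ∑ c ∈ C, g ⬝ᵥ c < 0) := by
    intro g hg
    have rg := o.rt g hg
    have gg : g ⬝ᵥ cl M L g = -2 := by rw [dot_cl (rt_sup rg), rt_norm rg]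
    have nn : ∀ e, Fu e → bf M g e ≠ 2 := fun e he c => by
      obtain ⟨k, hk⟩ := lift_of_two h rg he.1 c
      have e1 : e + (-k) • d = -g := by rw [hk]; module
      exact o.ex g hg (e1 ▸ he.2 (-k) (e1 ▸ rt_neg rg))
    let r : (B → ℝ) → (B → ℝ) := fun c => c + (g ⬝ᵥ c) • cl M L g
    have fr : ∀ c, g ⬝ᵥ r c = -(g ⬝ᵥ c) := fun c => by
      simp only [r, dotProduct_add, dotProduct_smul, gg, smul_eq_mul]; ring
    have rr : ∀ c, r (r c) = c := fun c => by
      change r c + (g ⬝ᵥ r c) • cl M L g = c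
      rw [fr]
      simp [r]
    set Q := C.filter fun c => 0 < g ⬝ᵥ c with hQ
    have sub : Q.image r ⊆ C \ Q := by
      intro c0 hc0
      obtain ⟨c, hc, rfl⟩ := Finset.mem_image.1 hc0
      obtain ⟨c1, c2⟩ := Finset.mem_filter.1 hc
      obtain ⟨e, he, rfl⟩ := (mC c).1 c1
      refine Finset.mem_sdiff.2 ⟨(mC _).2 ⟨e + bf M g e • g, ⟨rt_refl rg he.1, fun k hk => ?_⟩, by
        rw [cl_add, cl_smul, ← dot_cl (rt_sup rg)]⟩, fun c => ?_⟩
      · rw [dot_cl (rt_sup rg)] at c2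
        have r1 := rt_refl rg hk
        rw [bf_lift_r h (rt_sup rg), bf_add_r, bf_smul_r, rt_norm rg,
          show e + bf M g e • g + k • d + (bf M g e + bf M g e * -2) • g = e + k • d by module] at r1
        have := o.clo g _ hg (he.2 k r1) (by rw [bf_lift_r h (rt_sup rg)]; exact c2.le)
          (by rw [bf_lift_r h (rt_sup rg)]; exact (bf_le h rg he.1).lt_of_ne (nn e he))
        rw [bf_lift_r h (rt_sup rg)] at this
        rwa [add_right_comm]
      · have := (Finset.mem_filter.1 c).2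
        rw [fr] at this
        linarith
    have e1 : ∑ c ∈ C, g ⬝ᵥ c = ∑ c ∈ (C \ Q) \ Q.image r, g ⬝ᵥ c := by
      rw [← Finset.sum_sdiff (Finset.filter_subset _ C : Q ⊆ C), ← Finset.sum_sdiff sub,
        Finset.sum_image fun a _ b _ e => by rw [← rr a, e, rr]]
      simp only [fr, Finset.sum_neg_distrib]
      ring
    have le : ∀ c ∈ (C \ Q) \ Q.image r, g ⬝ᵥ c ≤ 0 := fun c hc => by
      obtain ⟨c1, c2⟩ := Finset.mem_sdiff.1 (Finset.mem_sdiff.1 hc).1
      exact not_lt.1 fun k => c2 (Finset.mem_filter.2 ⟨c1, k⟩)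
    rw [e1]
    refine ⟨Finset.sum_nonpos le, fun fg => ?_⟩
    refine (Finset.sum_lt_sum le ⟨cl M L g, ?_, by rw [gg]; norm_num⟩).trans_eq
      Finset.sum_const_zero
    refine Finset.mem_sdiff.2 ⟨Finset.mem_sdiff.2 ⟨(mC _).2 ⟨g, fg, rfl⟩, fun c => ?_⟩, fun c => ?_⟩
    · have := (Finset.mem_filter.1 c).2
      rw [gg] at this
      linarith
    · obtain ⟨c, hc, e2⟩ := Finset.mem_image.1 c
      obtain ⟨e, he, rfl⟩ := (mC c).1 (Finset.mem_filter.1 hc).1
      have := fr (cl M L e)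
      rw [e2, gg, dot_cl (rt_sup rg)] at this
      exact nn e he (by linarith)
  let θ : (B → ℝ) →ₗ[ℝ] ℝ :=
    { toFun := fun x => -∑ c ∈ C, x ⬝ᵥ c
      map_add' := fun x y => by simp only [add_dotProduct, Finset.sum_add_distrib]; ring
      map_smul' := fun a x => by
        simp only [smul_dotProduct, smul_eq_mul, ← Finset.mul_sum, RingHom.id_apply]; ring }
  have p0 : P g0 := by simpa using h0 0 (by simpa using r0)
  refine ⟨θ, ?_, neg_pos.2 ((key g0 p0).2 ⟨r0, h0⟩), fun g hg => neg_nonneg.2 (key g hg).1⟩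
  refine neg_eq_zero.2 (Finset.sum_eq_zero fun c hc => ?_)
  obtain ⟨e, he, rfl⟩ := (mC c).1 hc
  rw [dot_cl h.sup, h.d_bf (rt_sup he.1)]

end Pool.Agent.HT.AD
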