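import Pool.Agent.Lib.HT.ADa

/-! Closed orientations all of whose classes are neutral have a top or a bottom. -/

set_option linter.unusedSectionVars false

namespace Pool.Agent.HT.AD

open Pool.Agent.Lib.MP_6d85b4_al Pool.Agent.HT.Core Pool.Agent.HT.Aff

variable {B : Type} [Fintype B] [DecidableEq B] {M : CoxeterMatrix B} {L : Finset B}
  {d g e a b : B → ℝ} {P : (B → ℝ) → Prop} {k : ℝ}

/-- Two positive roots whose sum is imaginary. -/
structure Pr (P : (B → ℝ) → Prop) (d a b : B → ℝ) (k : ℝ) : Prop where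
  l : P a
  r : P b
  e : a + b = k • d

theorem Pr.symm (p : Pr P d a b k) : Pr P d b a k := ⟨p.r, p.l, by rw [add_comm, p.e]⟩

theorem Pr.eq (p : Pr P d a b k) : b = -a + k • d := by rw [← p.e]; abel

section

variable (h : IsAff M L d) (o : Ori M L P)
include h o

theorem Pr.sep (p : Pr P d a b k) : 1 ≤ |k| * ht d := by
  refine AD.sep h (rt_neg (o.rt _ p.l)) (p.eq ▸ o.rt _ p.r) fun c => o.ex _ p.l ?_
  have := p.r
  rwa [p.eq, c, zero_smul, add_zero] at this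

theorem Pr.shift_pos (p : Pr P d a b k) (he : P e) (h0 : 0 < bf M a e) (h2 : bf M a e < 2) :
    P (e + (bf M a e * k) • d) := by
  have ra := o.rt _ p.l
  have c : bf M b (e + bf M a e • a) = bf M a e := by
    rw [bf_symm, p.eq, bf_lift_r h ((rt_sup (o.rt _ he)).add ((rt_sup ra).smul _)), bf_neg_r,
      bf_add_l, bf_smul, rt_norm ra, bf_symm M e a]
    ring
  have := o.clo b _ p.r (o.clo a e p.l he h0.le h2) (by rw [c]; exact h0.le) (by rwa [c])
  rwa [c, add_assoc, ← smul_add, p.e, smul_smul] at this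

theorem Pr.shift (p : Pr P d a b k) (he : P e) (h0 : bf M a e ≠ 0) (h2 : |bf M a e| < 2) :
    P (e + (|bf M a e| * k) • d) := by
  rcases lt_or_gt_of_ne h0 with c | c
  · have e1 : bf M b e = -bf M a e := by
      rw [bf_symm, p.eq, bf_lift_r h (rt_sup (o.rt _ he)), bf_neg_r, bf_symm]
    rw [abs_of_neg c, ← e1] at h2 ⊢
    exact p.symm.shift_pos h o he (by rw [e1]; linarith) h2
  · rw [abs_of_pos c] at h2 ⊢
    exact p.shift_pos h o he c h2

theorem Pr.iter (p : Pr P d a b k) {a' b' : B → ℝ} {k' : ℝ} (q : Pr P d a' b' k')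
    (h0 : bf M a a' ≠ 0) (h2 : |bf M a a'| < 2) (n : ℕ) :
    Pr P d (a' + (n * (|bf M a a'| * k)) • d) b' (k' + n * (|bf M a a'| * k)) := by
  refine ⟨?_, q.r, by rw [add_right_comm, q.e, ← add_smul]⟩
  induction n with
  | zero => simpa using q.l
  | succ n ih =>
    have e1 := bf_lift_r h (rt_sup (o.rt _ p.l)) a' (n * (|bf M a a'| * k))
    have := p.shift h o ih (by rwa [e1]) (by rwa [e1])
    rw [e1, add_assoc, ← add_smul] at this
    rwa [Nat.cast_succ, add_mul, one_mul]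

variable (hN : ∀ g, Rt M L g → ∃ k : ℝ, P (-(g + k • d)))
include hN

theorem exists_pr (he : Rt M L e) : ∃ a b k, Pr P d a b k ∧ |bf M a e| = 2 := by
  have key : ∀ a, P a → ∃ b k, Pr P d a b k := fun a ha => by
    obtain ⟨k, hk⟩ := hN a (o.rt a ha)
    exact ⟨_, -k, ha, hk, by module⟩
  rcases o.tot e he with c | c
  · obtain ⟨b, k, p⟩ := key e c
    exact ⟨_, b, k, p, by rw [rt_norm he]; norm_num⟩
  · obtain ⟨b, k, p⟩ := key _ c
    exact ⟨_, b, k, p, by rw [bf_neg_l, rt_norm he]; norm_num⟩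

/-- Pairs of a given sign exist in every class as soon as there is one. -/
theorem spread (σ : ℝ) (p : Pr P d a b k) (hk : 0 < σ * k) (he : Rt M L e) :
    ∃ a b k, Pr P d a b k ∧ 0 < σ * k ∧ |bf M a e| = 2 := by
  refine spread_all h.conn (Z := fun e => ∃ a b k, Pr P d a b k ∧ 0 < σ * k ∧ |bf M a e| = 2)
    ?_ (o.rt a p.l) he ⟨a, b, k, p, hk, by rw [rt_norm (o.rt a p.l)]; norm_num⟩
  rintro g e hg he c ⟨a, b, k, p, hk, h2⟩
  have ra := o.rt a p.l
  by_cases c2 : |bf M a e| = 2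
  · exact ⟨a, b, k, p, hk, c2⟩
  obtain ⟨a', b', k', q, h3⟩ := exists_pr h o hN he
  have e1 : |bf M a a'| = |bf M a e| := by
    rw [bf_symm, abs_cls h (o.rt _ q.l) he h3 (rt_sup ra), bf_symm]
  have e2 : 0 < |bf M a a'| := by
    rw [e1, abs_cls h ra hg h2 (rt_sup he)]
    exact abs_pos.2 c
  have e3 : 0 < |bf M a a'| * (σ * k) := mul_pos e2 hk
  obtain ⟨n, hn⟩ := exists_nat_gt (-(σ * k') / (|bf M a a'| * (σ * k)))
  rw [div_lt_iff₀ e3] at hn
  refine ⟨_, _, _, p.iter h o q (abs_pos.1 e2) (e1 ▸ (abs_le_two h ra he).lt_of_ne c2) n,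
    by nlinarith, ?_⟩
  rwa [bf_symm, bf_lift_r h (rt_sup he), bf_symm]

/-- Converging and diverging pairs exclude each other. -/
theorem not_both (hF : (cl M L '' {g | Rt M L g}).Finite)
    (hn : ∀ g, Rt M L g → ∃ e, Rt M L e ∧ bf M g e ≠ 0 ∧ |bf M g e| < 2)
    {a1 b1 a2 b2 : B → ℝ} {k1 k2 : ℝ} (p1 : Pr P d a1 b1 k1) (p2 : Pr P d a2 b2 k2)
    (s1 : 0 < k1) (s2 : k2 < 0) : False := by
  obtain ⟨β, β1, β2, hβ⟩ : ∃ β : ℝ, 1 ≤ β ∧ β < 2 ∧ ∀ g e, Rt M L g → Rt M L e →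
      |bf M g e| < 2 → |bf M g e| ≤ β := by
    have f1 : {x : ℝ | ∃ g e, Rt M L g ∧ Rt M L e ∧ x = |bf M g e|}.Finite := by
      refine Set.Finite.of_finite_image (f := id) ?_ (Set.injOn_id _)
      rw [Set.image_id]
      have f0 : {c : (B → ℝ) × (B → ℝ) | c.1 ∈ cl M L '' {g | Rt M L g} ∧
          c.2 ∈ cl M L '' {g | Rt M L g}}.Finite := hF.prod hF
      classical
      refine (f0.image fun c => if x : ∃ g, Rt M L g ∧ cl M L g = c.1 then
        |x.choose ⬝ᵥ c.2| else 0).subset ?_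
      rintro _ ⟨g, e, hg, he, rfl⟩
      refine ⟨(cl M L g, cl M L e), ⟨⟨g, hg, rfl⟩, e, he, rfl⟩, ?_⟩
      have x : ∃ g', Rt M L g' ∧ cl M L g' = cl M L g := ⟨g, hg, rfl⟩
      simp only [dif_pos x]
      obtain ⟨j, hj⟩ := lift_of_cl h x.choose_spec.1 hg x.choose_spec.2
      rw [dot_cl (rt_sup x.choose_spec.1)]
      generalize x.choose = g' at hj
      rw [bf_symm M g, hj, bf_lift_r h (rt_sup he), bf_symm]
    have f2 := (f1.inter_of_left (Set.Iio 2)).insert 1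
    obtain ⟨β, m, hβ⟩ := f2.exists_maximal ⟨1, Set.mem_insert _ _⟩
    have le : ∀ x ∈ insert (1 : ℝ) ({x : ℝ | ∃ g e, Rt M L g ∧ Rt M L e ∧ x = |bf M g e|} ∩
        Set.Iio 2), x ≤ β := fun x hx => (le_total x β).elim id (hβ hx)
    refine ⟨β, le 1 (Set.mem_insert _ _), ?_, fun g e hg he c =>
      le _ (Set.mem_insert_of_mem _ ⟨⟨g, e, hg, he, rfl⟩, c⟩)⟩
    rcases m with rfl | m
    · norm_num
    · exact m.2
  set T : Set ℝ := {x | ∃ a b k, Pr P d a b k ∧ x = |k|} with hT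
  have bd : BddBelow T := ⟨0, by rintro _ ⟨a, b, k, -, rfl⟩; exact abs_nonneg k⟩
  have ne : T.Nonempty := ⟨_, a1, b1, k1, p1, rfl⟩
  have m0 : 0 < sInf T := by
    refine lt_of_lt_of_le (one_div_pos.2 h.ht_pos) (le_csInf ne ?_)
    rintro _ ⟨a, b, k, p, rfl⟩
    rw [div_le_iff₀ h.ht_pos]
    exact p.sep h o
  have lo : ∀ {a b k}, Pr P d a b k → sInf T ≤ |k| := fun p => csInf_le bd ⟨_, _, _, p, rfl⟩
  obtain ⟨_, ⟨a, b, k, p, rfl⟩, hk⟩ := exists_lt_of_csInf_lt ne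
    (show sInf T < 2 * sInf T / β by rw [lt_div_iff₀ (by linarith)]; nlinarith)
  rw [lt_div_iff₀ (by linarith)] at hk
  have k0 : k ≠ 0 := abs_pos.1 (m0.trans_le (lo p))
  have ra := o.rt a p.l
  obtain ⟨e, he, n0, n2⟩ := hn a ra
  obtain ⟨a', b', k', q, sg, h3⟩ : ∃ a b k', Pr P d a b k' ∧ 0 < -k * k' ∧ |bf M a e| = 2 := by
    rcases lt_or_gt_of_ne k0 with c | c
    · exact spread h o hN (-k) p1 (mul_pos (neg_pos.2 c) s1) he
    · exact spread h o hN (-k) p2 (mul_pos_of_neg_of_neg (neg_neg_iff_pos.2 c) s2) he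
  have e1 : |bf M a a'| = |bf M a e| := by
    rw [bf_symm, abs_cls h (o.rt _ q.l) he h3 (rt_sup ra), bf_symm]
  have e2 : 0 < |bf M a a'| := e1 ▸ abs_pos.2 n0
  have it := p.iter h o q (abs_pos.1 e2) (e1 ▸ n2)
  have e3 : |bf M a a'| ≤ β := e1 ▸ hβ a e ra he n2
  generalize |bf M a a'| = c at it e2 e3
  have ak := abs_pos.2 k0
  have all : ∀ n : ℕ, k * (k' + n * (c * k)) < 0 := by
    intro n
    induction n with
    | zero => simp only [Nat.cast_zero, zero_mul, add_zero]; linarith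
    | succ n ih =>
      by_contra x
      have l1 := lo (it n)
      have l2 := lo (it (n + 1))
      rw [Nat.cast_succ, add_mul, one_mul, ← add_assoc] at x l2
      generalize k' + n * (c * k) = y at ih x l1 l2
      have m1 := mul_le_mul_of_nonneg_left l1 ak.le
      have m2 := mul_le_mul_of_nonneg_left l2 ak.le
      rw [← abs_mul] at m1 m2
      rw [abs_of_neg ih] at m1
      rw [abs_of_nonneg (not_lt.1 x)] at m2
      have m3 : |k| * |k| = k * k := abs_mul_abs_self k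
      have m4 : c * |k| < 2 * sInf T := by nlinarith
      nlinarith
  have e4 : 0 < c * (k * k) := mul_pos e2 (mul_self_pos.2 k0)
  obtain ⟨n, hn⟩ := exists_nat_gt (-(k * k') / (c * (k * k)))
  rw [div_lt_iff₀ e4] at hn
  nlinarith [all n]

/-- Without diverging pairs only finitely many negative roots are oriented positively. -/
theorem fin_neg (hF : (cl M L '' {g | Rt M L g}).Finite)
    (hp : ∀ a b k, Pr P d a b k → 0 < k) : {g | P g ∧ Pos (-g)}.Finite := by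
  refine Set.Finite.of_finite_fibers (cl M L) (hF.subset (Set.image_mono fun g c => o.rt g c.1)) ?_
  rintro _ ⟨g1, m1, rfl⟩
  have r1 := o.rt g1 m1.1
  obtain ⟨k, hk⟩ := hN g1 r1
  refine Set.Finite.of_finite_image (f := fun g => ⌊ht g⌋)
    ((Set.finite_Icc ⌊ht (g1 + k • d)⌋ 0).subset ?_) ?_
  · rintro _ ⟨g, ⟨m, c⟩, rfl⟩
    obtain ⟨j, rfl⟩ := lift_of_cl h r1 (o.rt g m.1) (Eq.symm c)
    have := hp _ _ (j - k) ⟨m.1, hk, by module⟩
    have h2 := ht_nonneg m.2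
    rw [map_neg] at h2
    refine ⟨Int.floor_mono ?_, Int.floor_nonpos (by linarith)⟩
    simp only [map_add, map_smul, smul_eq_mul]
    nlinarith [h.ht_pos]
  · rintro g ⟨m, c⟩ g' ⟨m', c'⟩ x
    obtain ⟨j, rfl⟩ := lift_of_cl h (o.rt g m.1) (o.rt g' m'.1) ((Eq.trans c (Eq.symm c')))
    by_contra y
    have := AD.sep h (o.rt g m.1) (o.rt _ m'.1) fun c => y (by rw [c, zero_smul, add_zero])
    have h2 := Int.abs_sub_lt_one_of_floor_eq_floor x
    rw [map_add, map_smul, smul_eq_mul, sub_add_cancel_left, abs_neg, abs_mul,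
      abs_of_pos h.ht_pos] at h2
    linarith

end

/-- Finitely many wrongly oriented roots give a top. -/
theorem top_of_fin (o : Ori M L P) {w : M.Group} (hw : w ∈ WL M L)
    (hf : {g | P g ∧ Tits.PosAt M w (-g)}.Finite) :
    ∃ w ∈ WL M L, ∀ s ∈ L, P (rho M w (al s)) := by
  induction hn : {g | P g ∧ Tits.PosAt M w (-g)}.ncard using Nat.strong_induction_on
    generalizing w with
  | _ n ih =>
  by_contra c
  push Not at c
  obtain ⟨s, hs, x⟩ := c w hw
  have y := (o.tot _ (Tits.rt_al hw hs)).resolve_left x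
  have ss : {g | P g ∧ Tits.PosAt M (w * Tits.sm M s) (-g)} ⊂
      {g | P g ∧ Tits.PosAt M w (-g)} := by
    refine ⟨fun g m => ⟨m.1, ?_⟩, fun z => ?_⟩
    · rcases Tits.Rt.cross' (rt_neg (o.rt g m.1)) m.2 with z | z
      · exact absurd (neg_injective z ▸ m.1) x
      · exact z.1
    · have := (z (a := -rho M w (al s)) ⟨y, by rw [neg_neg]; exact Tits.posAt_al w s⟩).2
      refine Tits.Rt.not_both (Tits.rt_al hw hs) (w := w * Tits.sm M s) (by rwa [neg_neg] at this) ?_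
      rw [← Tits.rho_sm_al]
      exact Tits.posAt_al _ s
  obtain ⟨v, hv, z⟩ := ih _ (hn ▸ Set.ncard_lt_ncard ss hf) (mul_mem hw (simple_mem hs))
    (hf.subset ss.1) rfl
  obtain ⟨t, ht', z'⟩ := c v hv
  exact z' (z t ht')

/-- The trichotomy for closed orientations when every root has a neighbour. -/
theorem ori (h : IsAff M L d) (hF : (cl M L '' {g | Rt M L g}).Finite) (o : Ori M L P)
    (hn : ∀ g, Rt M L g → ∃ e, Rt M L e ∧ bf M g e ≠ 0 ∧ |bf M g e| < 2) :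
    (∃ w ∈ WL M L, ∀ s ∈ L, P (rho M w (al s))) ∨
    (∃ w ∈ WL M L, ∀ s ∈ L, P (-rho M w (al s))) ∨
    ∃ θ : (B → ℝ) →ₗ[ℝ] ℝ, θ d = 0 ∧ (∃ g, Rt M L g ∧ 0 < θ g) ∧ ∀ g, P g → 0 ≤ θ g := by
  by_cases c : ∃ g, Rt M L g ∧ ∀ k : ℝ, Rt M L (g + k • d) → P (g + k • d)
  · obtain ⟨g, r, c⟩ := c
    obtain ⟨θ, a1, a2, a3⟩ := dir h hF o r c
    exact Or.inr (Or.inr ⟨θ, a1, ⟨g, r, a2⟩, a3⟩)
  push Not at c
  have hN : ∀ g, Rt M L g → ∃ k : ℝ, P (-(g + k • d)) := fun g r => by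
    obtain ⟨k, a1, a2⟩ := c g r
    exact ⟨k, (o.tot _ a1).resolve_left a2⟩
  have ne : ∀ {a b k}, Pr P d a b k → k ≠ 0 := fun p x => by
    have := p.sep h o
    rw [x, abs_zero, zero_mul] at this
    linarith
  by_cases x : ∀ a b k, Pr P d a b k → 0 < k
  · exact Or.inl (top_of_fin o (one_mem _) (by
      simpa only [Tits.posAt_one] using fin_neg h o hN hF x))
  push Not at x
  obtain ⟨a2, b2, k2, p2, s2⟩ := x
  refine Or.inr (Or.inl (top_of_fin o.neg (one_mem _) ?_))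
  simp only [Tits.posAt_one]
  refine fin_neg h o.neg (fun g r => ?_) hF fun a b k p => ?_
  · obtain ⟨k, hk⟩ := hN _ (rt_neg r)
    exact ⟨-k, by rwa [show - -(g + -k • d) = -(-g + k • d) by module]⟩
  · have q : Pr P d (-a) (-b) (-k) := ⟨p.l, p.r, by rw [← neg_add, p.e, neg_smul]⟩
    by_contra y
    exact not_both h o hN hF hn q p2 (by have := ne q; rcases this.lt_or_gt with z | z <;> linarith)
      (s2.lt_of_ne (ne p2))

end Pool.Agent.HT.AD
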