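import Pool.Agent.Lib.HT.Model
import Pool.Agent.Lib.MP_6d85b4_al.Roots

set_option autoImplicit false
set_option linter.unusedSectionVars false

/-! The integral reflection representation on the unfolded lattice and its Frobenius-Perron
projection to the geometric representation. -/

namespace Pool.Agent.HT

open Pool.Agent.Lib.MP_6d85b4_al

section Abstract

variable {S V : Type} [Fintype S] [DecidableEq S] [AddCommGroup V]

/-- Reflection with coefficients in endomorphisms. -/
def rF (N : S → S → V →+ V) (s : S) (x : S → V) : S → V :=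
  Function.update x s (-x s + ∑ r ∈ Finset.univ.erase s, N s r (x r))

lemma rF_rF (N : S → S → V →+ V) (s : S) (x : S → V) : rF N s (rF N s x) = x := by
  have e : ∑ r ∈ Finset.univ.erase s, N s r (rF N s x r) =
      ∑ r ∈ Finset.univ.erase s, N s r (x r) :=
    Finset.sum_congr rfl (fun r hr => by
      rw [rF, Function.update_of_ne (Finset.ne_of_mem_erase hr)])
  rw [rF, e, rF, Function.update_idem, Function.update_self]
  rw [show -(-x s + ∑ r ∈ Finset.univ.erase s, N s r (x r)) +
    ∑ r ∈ Finset.univ.erase s, N s r (x r) = x s by abel, Function.update_eq_self]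

/-- Replace two rows. -/
def up2 (x : S → V) (s t : S) (u v : V) : S → V := Function.update (Function.update x s u) t v

lemma rF_up2 (N : S → S → V →+ V) {s t : S} (h : s ≠ t) (x : S → V) (u v : V) :
    rF N s (up2 x s t u v) =
      up2 x s t (-u + N s t v + ∑ r ∈ (Finset.univ.erase s).erase t, N s r (x r)) v := by
  have e1 : up2 x s t u v s = u := by simp [up2, h]
  have e2 : up2 x s t u v t = v := by simp [up2]
  have e3 : ∑ r ∈ (Finset.univ.erase s).erase t, N s r (up2 x s t u v r) =
      ∑ r ∈ (Finset.univ.erase s).erase t, N s r (x r) :=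
    Finset.sum_congr rfl (fun r hr => by
      simp only [Finset.mem_erase] at hr
      simp [up2, hr.1, hr.2.1])
  rw [rF, ← Finset.add_sum_erase _ _ (show t ∈ Finset.univ.erase s by simp [h.symm]), e1, e2, e3,
    ← add_assoc]
  unfold up2
  rw [Function.update_comm h, Function.update_idem, Function.update_comm h]

lemma up2_comm {s t : S} (h : s ≠ t) (x : S → V) (u v : V) : up2 x s t u v = up2 x t s v u :=
  Function.update_comm h _ _ _

lemma rF_up2' (N : S → S → V →+ V) {s t : S} (h : s ≠ t) (x : S → V) (u v : V) :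
    rF N t (up2 x s t u v) =
      up2 x s t u (-v + N t s u + ∑ r ∈ (Finset.univ.erase t).erase s, N t r (x r)) := by
  rw [up2_comm h, rF_up2 N h.symm, up2_comm h]

lemma rF_braid2 (N : S → S → V →+ V) {s t : S} (h : s ≠ t) (h1 : ∀ v, N s t v = 0)
    (h2 : N t s = N s t) (x : S → V) : rF N s (rF N t x) = rF N t (rF N s x) := by
  have e : x = up2 x s t (x s) (x t) := by simp [up2]
  rw [e]
  simp only [rF_up2 N h, rF_up2' N h, h2, h1]

lemma rF_braid3 (N : S → S → V →+ V) {s t : S} (h : s ≠ t) (h1 : ∀ v, N s t v = v)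
    (h2 : N t s = N s t) (x : S → V) :
    rF N s (rF N t (rF N s x)) = rF N t (rF N s (rF N t x)) := by
  have e : x = up2 x s t (x s) (x t) := by simp [up2]
  rw [e]
  simp only [rF_up2 N h, rF_up2' N h, h2, h1]
  congr 1 <;> abel

lemma rF_braid4 (N : S → S → V →+ V) {s t : S} (h : s ≠ t)
    (h1 : ∀ v, N s t (N s t (N s t v)) = N s t v + N s t v)
    (h2 : N t s = N s t) (x : S → V) :
    rF N s (rF N t (rF N s (rF N t x))) = rF N t (rF N s (rF N t (rF N s x))) := by
  have e : x = up2 x s t (x s) (x t) := by simp [up2]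
  rw [e]
  simp only [rF_up2 N h, rF_up2' N h, h2, map_add, map_neg, h1]
  congr 1 <;> abel

lemma rF_braid5 (N : S → S → V →+ V) {s t : S} (h : s ≠ t)
    (h1 : ∀ v, N s t (N s t v) = N s t v + v)
    (h2 : N t s = N s t) (x : S → V) :
    rF N s (rF N t (rF N s (rF N t (rF N s x)))) =
      rF N t (rF N s (rF N t (rF N s (rF N t x)))) := by
  have e : x = up2 x s t (x s) (x t) := by simp [up2]
  rw [e]
  simp only [rF_up2 N h, rF_up2' N h, h2, map_add, map_neg, h1]
  congr 1 <;> abel

end Abstract

/-- The matrix `nL m` as an additive map. -/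
def nM (m : ℕ) : (Irr → ℤ) →+ (Irr → ℤ) where
  toFun v a := ∑ b, nL m a b * v b
  map_zero' := by ext; simp
  map_add' v w := by ext; simp [mul_add, Finset.sum_add_distrib]

lemma nM_apply (m : ℕ) (v : Irr → ℤ) (a : Irr) : nM m v a = ∑ b, nL m a b * v b := rfl

lemma nM_two (v : Irr → ℤ) : nM 2 v = 0 := by ext a; simp [nM_apply, nL]

lemma nM_three (v : Irr → ℤ) : nM 3 v = v := by ext a; simp [nM_apply, nL]

lemma nM_four (v : Irr → ℤ) : nM 4 (nM 4 (nM 4 v)) = nM 4 v + nM 4 v := by
  ext ⟨a, b⟩
  fin_cases a <;> fin_cases b <;>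
    simp [nM_apply, nL, nS, Fintype.sum_prod_type, Fin.sum_univ_succ] <;> ring

lemma nM_five (v : Irr → ℤ) : nM 5 (nM 5 v) = nM 5 v + v := by
  ext ⟨a, b⟩
  fin_cases a <;> fin_cases b <;>
    simp [nM_apply, nL, nT, Fintype.sum_prod_type, Fin.sum_univ_succ] <;> ring

lemma nL_symm (m : ℕ) (a b : Irr) : nL m a b = nL m b a := by
  unfold nL
  split_ifs <;> first | rfl | (simp_all; done) | (revert a b; decide)

lemma nF_symm (e : Bool) (a b : Irr) : nF e a b = nF e b a := by revert e a b; decide

lemma nF_nonneg (e : Bool) (a b : Irr) : 0 ≤ nF e a b := by revert e a b; decide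

lemma nF_nL (e : Bool) (m : ℕ) (a b : Irr) :
    ∑ c, nF e a c * nL m c b = ∑ c, nF e b c * nL m a c := by
  unfold nL
  by_cases h3 : m = 3
  · simp [h3, nF_symm e a b]
  · by_cases h4 : m = 4
    · simp only [h4]; revert e a b; decide
    · by_cases h5 : m = 5
      · simp only [h5]; revert e a b; decide
      · simp [h3, h4, h5]

variable {S : Type} [Fintype S] [DecidableEq S]

/-- All labels are 2, 3, 4 or 5. -/
def Small (M : CoxeterMatrix S) : Prop :=
  ∀ s t, s ≠ t → M s t = 2 ∨ M s t = 3 ∨ M s t = 4 ∨ M s t = 5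

/-- The unfolded lattice. -/
abbrev KK (S : Type) : Type := S × Irr → ℤ

lemma cartan_symm (M : CoxeterMatrix S) (x y : S × Irr) : cartan M x y = cartan M y x := by
  unfold cartan
  by_cases h : x.1 = y.1
  · simp [h, eq_comm]
  · rw [if_neg h, if_neg (Ne.symm h), M.symmetric, nL_symm]

/-- The block reflection on the unfolded lattice. -/
def kr (M : CoxeterMatrix S) (s : S) : Module.End ℤ (KK S) where
  toFun x y := if y.1 = s then x y - ∑ z, cartan M y z * x z else x y
  map_add' x x' := by
    ext y
    by_cases h : y.1 = s <;> simp [h, mul_add, Finset.sum_add_distrib]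
    ring
  map_smul' c x := by
    ext y
    by_cases h : y.1 = s <;> simp [h, mul_sub, Finset.mul_sum, mul_left_comm]

lemma kr_apply (M : CoxeterMatrix S) (s : S) (x : KK S) (y : S × Irr) :
    kr M s x y = if y.1 = s then x y - ∑ z, cartan M y z * x z else x y := rfl

lemma curry_kr (M : CoxeterMatrix S) (s : S) (x : KK S) :
    Function.curry (kr M s x) = rF (fun s r => nM (M s r)) s (Function.curry x) := by
  ext r a
  by_cases h : r = s
  · subst h
    simp only [Function.curry, kr_apply, if_true, rF, Function.update_self, Pi.add_apply,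
      Pi.neg_apply, Finset.sum_apply, nM_apply]
    rw [Fintype.sum_prod_type, ← Finset.add_sum_erase _ _ (Finset.mem_univ r)]
    have e1 : ∑ b, cartan M (r, a) (r, b) * x (r, b) = 2 * x (r, a) := by simp [cartan]
    have e2 : ∑ t ∈ Finset.univ.erase r, ∑ b, cartan M (r, a) (t, b) * x (t, b) =
        - ∑ t ∈ Finset.univ.erase r, ∑ b, nL (M r t) a b * x (t, b) := by
      rw [← Finset.sum_neg_distrib]
      refine Finset.sum_congr rfl (fun t ht => ?_)
      simp [cartan, (Finset.ne_of_mem_erase ht).symm]
    rw [e1, e2]; ring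
  · simp [Function.curry, kr_apply, h, rF]

lemma kr_kr (M : CoxeterMatrix S) (s : S) : kr M s * kr M s = 1 := by
  refine LinearMap.ext (fun x => ?_)
  apply Function.curry_injective
  simp only [Module.End.mul_apply, curry_kr, rF_rF, Module.End.one_apply]

lemma kr_liftable {M : CoxeterMatrix S} (hM : Small M) : M.IsLiftable (kr M) := by
  intro s t
  by_cases h : s = t
  · subst h; simp [kr_kr]
  have ha : ∀ x, kr M s * (kr M s * x) = x := fun x => by rw [← mul_assoc, kr_kr, one_mul]
  have hb : ∀ x, kr M t * (kr M t * x) = x := fun x => by rw [← mul_assoc, kr_kr, one_mul]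
  have h2 : nM (M t s) = nM (M s t) := by rw [M.symmetric]
  rcases hM s t h with h1 | h1 | h1 | h1
  · have e : kr M s * kr M t = kr M t * kr M s := by
      refine LinearMap.ext (fun x => ?_)
      apply Function.curry_injective
      simp only [Module.End.mul_apply, curry_kr]
      exact rF_braid2 _ h (by simp only [h1]; exact nM_two) h2 _
    rw [h1, pow_two]
    nth_rewrite 1 [e]
    simp [mul_assoc, ha, kr_kr]
  · have e : kr M s * kr M t * kr M s = kr M t * kr M s * kr M t := by
      refine LinearMap.ext (fun x => ?_)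
      apply Function.curry_injective
      simp only [Module.End.mul_apply, curry_kr]
      exact rF_braid3 _ h (by simp only [h1]; exact nM_three) h2 _
    rw [h1, show (kr M s * kr M t) ^ 3 =
      (kr M s * kr M t * kr M s) * (kr M t * kr M s * kr M t) by simp [pow_succ, mul_assoc], e]
    simp [mul_assoc, ha, hb, kr_kr]
  · have e : kr M s * kr M t * kr M s * kr M t = kr M t * kr M s * kr M t * kr M s := by
      refine LinearMap.ext (fun x => ?_)
      apply Function.curry_injective
      simp only [Module.End.mul_apply, curry_kr]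
      exact rF_braid4 _ h (by simp only [h1]; exact nM_four) h2 _
    rw [h1, show (kr M s * kr M t) ^ 4 =
      (kr M s * kr M t * kr M s * kr M t) * (kr M s * kr M t * kr M s * kr M t) by
        simp [pow_succ, mul_assoc]]
    nth_rewrite 1 [e]
    simp [mul_assoc, ha, hb, kr_kr]
  · have e : kr M s * kr M t * kr M s * kr M t * kr M s =
        kr M t * kr M s * kr M t * kr M s * kr M t := by
      refine LinearMap.ext (fun x => ?_)
      apply Function.curry_injective
      simp only [Module.End.mul_apply, curry_kr]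
      exact rF_braid5 _ h (by simp only [h1]; exact nM_five) h2 _
    rw [h1, show (kr M s * kr M t) ^ 5 =
      (kr M s * kr M t * kr M s * kr M t * kr M s) *
        (kr M t * kr M s * kr M t * kr M s * kr M t) by simp [pow_succ, mul_assoc], e]
    simp [mul_assoc, ha, hb, kr_kr]

/-- The integral representation of the Coxeter group on the unfolded lattice. -/
noncomputable def krho {M : CoxeterMatrix S} (hM : Small M) : M.Group →* Module.End ℤ (KK S) :=
  M.toCoxeterSystem.lift ⟨kr M, kr_liftable hM⟩

lemma krho_simple {M : CoxeterMatrix S} (hM : Small M) (s : S) :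
    krho hM (M.toCoxeterSystem.simple s) = kr M s :=
  M.toCoxeterSystem.lift_apply_simple (kr_liftable hM) s

/-- Frobenius-Perron dimensions. -/
noncomputable def fp (a : Irr) : ℝ :=
  (if a.1 = 1 then √2 else 1) * (if a.2 = 1 then Real.goldenRatio else 1)

lemma fp_pos (a : Irr) : 0 < fp a := by
  have := Real.goldenRatio_pos
  unfold fp
  split_ifs <;> positivity

lemma one_le_fp (a : Irr) : 1 ≤ fp a := by
  have h1 := Real.one_lt_goldenRatio
  have h2 : (1 : ℝ) < √2 := Real.one_lt_sqrt_two
  unfold fp
  split_ifs <;> nlinarith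

lemma sum_fp_nS (b : Irr) : ∑ a, fp a * nS a b = √2 * fp b := by
  have h : √2 * √2 = (2 : ℝ) := Real.mul_self_sqrt (by norm_num)
  obtain ⟨a, b⟩ := b
  fin_cases a <;> fin_cases b <;>
    simp only [fp, nS, Fintype.sum_prod_type, Fin.sum_univ_succ] <;> simp <;>
    first | nlinarith [h] | linear_combination (-Real.goldenRatio) * h

lemma sum_fp_nT (b : Irr) : ∑ a, fp a * nT a b = Real.goldenRatio * fp b := by
  have h := Real.goldenRatio_sq
  obtain ⟨a, b⟩ := b
  fin_cases a <;> fin_cases b <;>
    simp only [fp, nT, Fintype.sum_prod_type, Fin.sum_univ_succ] <;> simp <;>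
    first | nlinarith [h] | linear_combination (-√2) * h

lemma sum_fp_nL {M : CoxeterMatrix S} (hM : Small M) {s t : S} (h : s ≠ t) (b : Irr) :
    ∑ a, fp a * nL (M s t) a b = cc M s t * fp b := by
  unfold cc
  rcases hM s t h with h1 | h1 | h1 | h1 <;> rw [h1]
  · simp [nL]
  · simp [nL]
  · have : nL 4 = nS := by ext; simp [nL]
    rw [this, sum_fp_nS]
    simp
    left; ring
  · have : nL 5 = nT := by ext; simp [nL]
    rw [this, sum_fp_nT]
    simp [Real.goldenRatio]
    left; ring

lemma sum_fp_cartan {M : CoxeterMatrix S} (hM : Small M) (s : S) (y : S × Irr) :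
    ∑ a, fp a * cartan M (s, a) y = - cc M s y.1 * fp y.2 := by
  by_cases h : s = y.1
  · rw [← h, cc_self]; simp [cartan, h, mul_comm]
  · simp [cartan, h, sum_fp_nL hM h]

/-- Frobenius-Perron projection to the geometric representation. -/
noncomputable def ev : KK S →+ (S → ℝ) where
  toFun x s := ∑ a, fp a * x (s, a)
  map_zero' := by ext; simp
  map_add' x y := by ext; simp [mul_add, Finset.sum_add_distrib]

lemma ev_apply (x : KK S) (s : S) : ev x s = ∑ a, fp a * x (s, a) := rfl

lemma ev_single (y : S × Irr) : ev (Pi.single y 1 : KK S) = fp y.2 • al y.1 := by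
  ext s
  obtain ⟨t, b⟩ := y
  by_cases h : s = t
  · subst h; simp [ev_apply, Pi.single_apply]
  · simp [ev_apply, Pi.single_apply, h, al_ne h]

lemma ev_kr {M : CoxeterMatrix S} (hM : Small M) (s : S) (x : KK S) :
    ev (kr M s x) = rf M s (ev x) := by
  ext t
  by_cases h : t = s
  · subst h
    rw [rf_apply]
    simp only [ev_apply, kr_apply, if_true, Pi.add_apply, Pi.smul_apply, al_self, smul_eq_mul,
      mul_one, ip_apply, Int.cast_sub, Int.cast_sum, Int.cast_mul, mul_sub, Finset.sum_sub_distrib,
      Finset.mul_sum]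
    rw [sub_eq_add_neg]
    congr 1
    rw [Finset.sum_comm, ← Finset.sum_neg_distrib, Fintype.sum_prod_type]
    refine Finset.sum_congr rfl (fun r _ => Finset.sum_congr rfl (fun b _ => ?_))
    simp only [← mul_assoc]
    rw [← Finset.sum_mul, sum_fp_cartan hM]; ring
  · rw [rf_coord M h]; simp [ev_apply, kr_apply, h]

lemma ev_krho {M : CoxeterMatrix S} (hM : Small M) (w : M.Group) (x : KK S) :
    ev (krho hM w x) = rho M w (ev x) := by
  induction w using M.toCoxeterSystem.simple_induction_left with
  | one => simp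
  | mul_simple_left w i ih =>
    rw [map_mul, Module.End.mul_apply, krho_simple, ev_kr hM, ih, rho_mul, rho_simple]

end Pool.Agent.HT
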