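import Pool.Agent.Lib.HT.Unit
import Pool.Agent.Lib.HT.KRep
import Pool.Agent.Lib.MP_6d85b4_al.Act

set_option autoImplicit false
set_option linter.unusedSectionVars false

/-! The right action of the Artin group on good labelled hearts by block tilts. -/

namespace Pool.Agent.HT

open Pool.Agent.Lib.MP_6d85b4_al

variable {S : Type} [Fintype S] [DecidableEq S] {M : CoxeterMatrix S}

/-- The block of simples over a vertex. -/
def blk (s : S) : Finset (S × Irr) := Finset.univ.filter (fun x => x.1 = s)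

lemma mem_blk {s : S} {x : S × Irr} : x ∈ blk s ↔ x.1 = s := by simp [blk]

lemma sum_blk {A : Type} [AddCommMonoid A] (s : S) (f : S × Irr → A) :
    ∑ x ∈ blk s, f x = ∑ a, f (s, a) := by
  symm
  refine Finset.sum_bij (fun a _ => (s, a)) (fun a _ => mem_blk.2 rfl) (by simp) ?_ (by simp)
  rintro ⟨t, a⟩ h
  obtain rfl : t = s := mem_blk.1 h
  exact ⟨a, Finset.mem_univ _, rfl⟩

/-- Fusion on the unfolded lattice. -/
def phi (e : Bool) : KK S →ₗ[ℤ] KK S where
  toFun x y := ∑ a, nF e y.2 a * x (y.1, a)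
  map_add' x x' := by ext y; simp [mul_add, Finset.sum_add_distrib]
  map_smul' c x := by ext y; simp [Finset.mul_sum, mul_left_comm]

lemma phi_apply (e : Bool) (x : KK S) (y : S × Irr) :
    phi e x y = ∑ a, nF e y.2 a * x (y.1, a) := rfl

namespace Model

variable (Md : Model (fun s t => M s t))

lemma cl_Phi (e : Bool) (A : Md.D.Obj) : Md.D.cl (Md.Phi e A) = phi e (Md.D.cl A) :=
  funext (fun x => Md.Phi_cl e A x)

lemma Phi_zero (e : Bool) : Md.Phi e Md.D.zero = Md.D.zero :=
  Md.D.eq_zero _ ((Md.Phi_adj _ _ _).2 (Md.D.zero_hom _))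

lemma Phi_sh (e : Bool) (n : ℤ) (A : Md.D.Obj) :
    Md.Phi e (Md.D.sh n A) = Md.D.sh n (Md.Phi e A) := by
  induction n using Int.induction_on with
  | zero => simp
  | succ n ih => rw [← Md.D.s_sh, ← Md.D.s_sh, Md.Phi_s, ih]
  | pred n ih =>
    apply Md.D.s.injective
    rw [← Md.Phi_s, Md.D.s_sh, Md.D.s_sh]
    simpa using ih

/-- Hearts with the right Gram matrix that are stable under the fusion functors. -/
structure Good (H : Heart Md.D (S × Irr)) : Prop where
  gram : ∀ x y, Md.D.form (H.b x) (H.b y) = cartan (fun s t => M s t) x y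
  phiU : ∀ e Y, H.U 0 Y → H.U 0 (Md.Phi e Y)
  phiK : ∀ e x, phi e (H.b x) = ∑ a, nF e x.2 a • H.b (x.1, a)

lemma good_H : Md.Good Md.H where
  gram x y := by rw [Md.basis]; simpa using Md.form_eq x y
  phiU e Y hY := by
    refine Heart.Lv.ind (R := fun Y => Md.H.U 0 (Md.Phi e Y)) ?_ ?_ ?_ hY
    · rw [Md.Phi_zero]; exact Heart.Lv.zero
    · intro i n hn
      rw [Md.Phi_sh]
      have := (Heart.U_sh n).2 (Heart.M_iff.1 (Md.Phi_M e i)).1
      exact this.mono (by omega)
    · intro A Y B hE hA hB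
      exact Heart.Lv.ext hA hB (Md.Phi_ext e _ _ _ hE)
  phiK e x := by
    rw [Md.basis]
    ext ⟨t, b⟩
    obtain ⟨s, c⟩ := x
    by_cases h : t = s
    · subst h; simp [phi_apply, Pi.single_apply, nF_symm e b c]
    · simp [phi_apply, Pi.single_apply, h]

variable {Md}

lemma Good.U {H : Heart Md.D (S × Irr)} (h : Md.Good H) (e : Bool) {a : ℤ} {Y : Md.D.Obj}
    (hY : H.U a Y) : H.U a (Md.Phi e Y) := by
  have h1 : H.U 0 (Md.D.sh (-a) Y) := by simpa using (Heart.U_sh (-a)).2 hY
  have h2 := (Heart.U_sh a).2 (h.phiU e _ h1)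
  rw [Md.Phi_sh] at h2
  simpa using h2

lemma Good.V {H : Heart Md.D (S × Irr)} (h : Md.Good H) (e : Bool) {a : ℤ} {Y : Md.D.Obj}
    (hY : H.V a Y) : H.V a (Md.Phi e Y) :=
  Heart.V_iff.2 (fun _ _ hn => (Md.Phi_adj _ _ _).1
    (Heart.hom_U_V hn (h.U e (Heart.Lv.simple (le_refl _))) hY))

lemma Good.hrt {H : Heart Md.D (S × Irr)} (h : Md.Good H) (e : Bool) {Y : Md.D.Obj}
    (hY : H.M Y) : H.M (Md.Phi e Y) :=
  Heart.M_iff.2 ⟨h.U e (Heart.M_iff.1 hY).1, h.V e (Heart.M_iff.1 hY).2⟩

lemma phiU_of_V {H : Heart Md.D (S × Irr)} (h : ∀ e Y, H.V 0 Y → H.V 0 (Md.Phi e Y))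
    (e : Bool) (Y : Md.D.Obj) (hY : H.U 0 Y) : H.U 0 (Md.Phi e Y) := by
  refine Heart.U_iff.2 (fun i n hn => (Md.Phi_adj _ _ _).2 (Heart.hom_U_V hn hY ?_))
  rw [Md.Phi_sh]
  simpa using (Heart.V_sh n).2 (h e _ (Heart.M_iff.1 (Heart.M.simple H i)).2)

lemma Good.mul_Phi {H : Heart Md.D (S × Irr)} (h : Md.Good H) (e : Bool) (x y : S × Irr) :
    H.mul (Md.Phi e (H.S x)) y = if y.1 = x.1 then nF e x.2 y.2 else 0 := by
  obtain ⟨t, b⟩ := y
  unfold Heart.mul
  rw [Md.cl_Phi, H.cl_S, h.phiK]
  simp only [map_sum, map_zsmul, Module.Basis.repr_self]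
  by_cases h1 : t = x.1
  · subst h1; simp [Finsupp.single_apply]
  · simp [Finsupp.single_apply, h1, Ne.symm h1]

lemma Good.Phi_S {H : Heart Md.D (S × Irr)} (h : Md.Good H) (e : Bool) (x : S × Irr) :
    H.Lv (fun y n => y.1 = x.1 ∧ n = 0) (Md.Phi e (H.S x)) := by
  refine (h.hrt e (Heart.M.simple H x)).supp.mono (fun y n hy => ⟨?_, hy.1⟩)
  by_contra hc
  rw [h.mul_Phi, if_neg hc] at hy
  omega

/-- Fusion functors preserve the classes cut out by conditions on vertices and levels. -/
lemma Good.Lv {H : Heart Md.D (S × Irr)} (h : Md.Good H) (e : Bool) {P : S → ℤ → Prop}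
    {Y : Md.D.Obj} (hY : H.Lv (fun x n => P x.1 n) Y) :
    H.Lv (fun x n => P x.1 n) (Md.Phi e Y) := by
  refine Heart.Lv.ind (R := fun Y => H.Lv (fun x n => P x.1 n) (Md.Phi e Y)) ?_ ?_ ?_ hY
  · rw [Md.Phi_zero]; exact Heart.Lv.zero
  · intro i n hn
    rw [Md.Phi_sh]
    exact (h.Phi_S e i).sh n (by rintro y m ⟨h1, rfl⟩; simpa [h1] using hn)
  · intro A Y B hE hA hB
    exact Heart.Lv.ext hA hB (Md.Phi_ext e _ _ _ hE)

lemma Good.orth {H : Heart Md.D (S × Irr)} (h : Md.Good H) (s : S) : H.Orth (blk s) := by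
  intro x hx y hy
  by_cases hxy : x = y
  · subst hxy; exact H.rig x
  · have h1 := H.form_ne hxy
    have h2 : x.1 = y.1 := (mem_blk.1 hx).trans (mem_blk.1 hy).symm
    have h3 : x.2 ≠ y.2 := fun h3 => hxy (Prod.ext h2 h3)
    rw [h.gram] at h1
    simp only [cartan, h2, h3, if_true, if_false] at h1
    omega

lemma Good.form_phi {H : Heart Md.D (S × Irr)} (h : Md.Good H) (e : Bool) (x y : KK S) :
    Md.D.form (phi e x) y = Md.D.form x (phi e y) := by
  have key : ∀ i j, Md.D.form (phi e (H.b i)) (H.b j) = Md.D.form (H.b i) (phi e (H.b j)) := by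
    rintro ⟨s, a⟩ ⟨t, b⟩
    simp only [h.phiK, map_sum, AddMonoidHom.finsetSum_apply, map_zsmul, AddMonoidHom.smul_apply,
      h.gram, smul_eq_mul, cartan]
    by_cases hst : s = t
    · simp [hst, nF_symm e a b]
    · simp [hst, nF_nL]
  have h1 : ∀ j x, Md.D.form (phi e x) (H.b j) = Md.D.form x (phi e (H.b j)) := by
    intro j x
    have : (Md.D.form.flip (H.b j)).toIntLinearMap ∘ₗ phi e =
        (Md.D.form.flip (phi e (H.b j))).toIntLinearMap := H.b.ext (fun i => key i j)
    exact LinearMap.congr_fun this x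
  have : (Md.D.form (phi e x)).toIntLinearMap = (Md.D.form x).toIntLinearMap ∘ₗ phi e :=
    H.b.ext (fun j => h1 j x)
  exact LinearMap.congr_fun this y

lemma Good.phi_refl {H : Heart Md.D (S × Irr)} (h : Md.Good H) (e : Bool) (s : S) (x : KK S) :
    phi e (H.refl (blk s) x) = H.refl (blk s) (phi e x) := by
  rw [Heart.refl_apply, Heart.refl_apply, map_sub, map_sum, sum_blk, sum_blk]
  congr 1
  simp only [map_zsmul, h.form_phi, h.phiK, map_sum, Finset.smul_sum, Finset.sum_smul, smul_smul,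
    smul_eq_mul]
  rw [Finset.sum_comm]
  refine Finset.sum_congr rfl (fun a _ => Finset.sum_congr rfl (fun c _ => ?_))
  rw [nF_symm, mul_comm]

lemma Good.up {H H' : Heart Md.D (S × Irr)} {s : S} (h : Md.Good H) (hu : H.IsUp (blk s) H') :
    Md.Good H' where
  gram x y := by rw [hu.b, hu.b, hu.orth.form_refl_refl, h.gram]
  phiU e Y hY := by
    obtain ⟨h1, h2⟩ := (hu.U_iff Y).1 hY
    refine (hu.U_iff _).2 ⟨h.U e h1, fun i hi => (Md.Phi_adj _ _ _).2 ?_⟩
    refine Heart.Lv.hom_right ?_ (h.Phi_S e i)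
    rintro j n ⟨hj, rfl⟩
    simpa using h2 j (mem_blk.2 (hj.trans (mem_blk.1 hi)))
  phiK e x := by simp only [hu.b, h.phi_refl, h.phiK, map_sum, map_zsmul]

lemma Good.down {H H' : Heart Md.D (S × Irr)} {s : S} (h : Md.Good H')
    (hu : H.IsUp (blk s) H') : Md.Good H where
  gram x y := by rw [hu.b', hu.b', hu.orth'.form_refl_refl, h.gram]
  phiU := phiU_of_V (fun e Y hY => by
    obtain ⟨h1, h2⟩ := (hu.V_iff Y).1 hY
    refine (hu.V_iff _).2 ⟨h.V e h1, fun i hi => (Md.Phi_adj _ _ _).1 ?_⟩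
    refine Heart.Lv.hom_left ?_ (h.Phi_S e i)
    rintro j n ⟨hj, rfl⟩
    simpa using h2 j (mem_blk.2 (hj.trans (mem_blk.1 hi))))
  phiK e x := by simp only [hu.b', h.phi_refl, h.phiK, map_sum, map_zsmul]

variable (Md) in
/-- Good hearts. -/
def GH : Type 1 := {H : Heart Md.D (S × Irr) // Md.Good H}

/-- Upward tilt at a block. -/
noncomputable def upF (s : S) (H : Md.GH) : Md.GH :=
  ⟨(Heart.exists_up (H.2.orth s)).choose, H.2.up (Heart.exists_up (H.2.orth s)).choose_spec⟩

/-- Downward tilt at a block. -/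
noncomputable def dnF (s : S) (H : Md.GH) : Md.GH :=
  ⟨(Heart.exists_down (H.2.orth s)).choose, H.2.down (Heart.exists_down (H.2.orth s)).choose_spec⟩

lemma isUp_upF (s : S) (H : Md.GH) : H.1.IsUp (blk s) (upF s H).1 :=
  (Heart.exists_up (H.2.orth s)).choose_spec

lemma isUp_dnF (s : S) (H : Md.GH) : (dnF s H).1.IsUp (blk s) H.1 :=
  (Heart.exists_down (H.2.orth s)).choose_spec

/-- The upward tilt at a block as a permutation of the good hearts. -/
noncomputable def upE (s : S) : Equiv.Perm Md.GH where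
  toFun := upF s
  invFun := dnF s
  left_inv H := Subtype.ext (Heart.IsUp.unique' (isUp_dnF s _) (isUp_upF s H))
  right_inv H := Subtype.ext (Heart.IsUp.unique (isUp_upF s _) (isUp_dnF s H))

lemma isUp_upE (s : S) (H : Md.GH) : H.1.IsUp (blk s) (upE s H).1 := isUp_upF s H

/-- The isomorphism from standard coordinates to classes. -/
noncomputable def GH.L (H : Md.GH) : KK S ≃ₗ[ℤ] KK S := H.1.b.equivFun.symm

lemma GH.L_single (H : Md.GH) (x : S × Irr) : H.L (Pi.single x 1) = H.1.b x := by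
  simp [GH.L, Pi.single_apply]

lemma GH.L_symm_apply (H : Md.GH) (Y : Md.D.Obj) (x : S × Irr) :
    H.L.symm (Md.D.cl Y) x = H.1.mul Y x := rfl

lemma GH.L_up (H : Md.GH) (s : S) (x : KK S) : (upE s H).L x = H.L (kr M s x) := by
  have : (upE s H).L.toLinearMap = H.L.toLinearMap ∘ₗ kr M s := by
    refine (Pi.basisFun ℤ (S × Irr)).ext (fun y => ?_)
    simp only [Pi.basisFun_apply, LinearEquiv.coe_coe, LinearMap.comp_apply, GH.L_single]
    rw [(isUp_upE s H).b, Heart.refl_apply, sum_blk]
    simp only [H.2.gram]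
    simp only [← GH.L_single, ← map_zsmul, ← map_sum, ← map_sub]
    congr 1
    ext ⟨t, b⟩
    by_cases h : t = s
    · subst h
      simp [kr_apply, Pi.single_apply, cartan_symm M y (t, b)]
    · simp [kr_apply, Pi.single_apply, h]
  exact LinearMap.congr_fun this x

/-- Frobenius-Perron class of an object in the coordinates of a good heart. -/
noncomputable def GH.c (H : Md.GH) (x : KK S) : S → ℝ := ev (H.L.symm x)

lemma GH.c_M (H : Md.GH) {Y : Md.D.Obj} (hY : H.1.M Y) : Pos (H.c (Md.D.cl Y)) := by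
  intro s
  rw [GH.c, ev_apply]
  refine Finset.sum_nonneg (fun a _ => mul_nonneg (fp_pos a).le ?_)
  rw [GH.L_symm_apply]
  exact_mod_cast hY.mul_nonneg _

lemma GH.c_neg (H : Md.GH) (x : KK S) : H.c (-x) = - H.c x := by simp [GH.c]

/-- Tilt along a word. -/
noncomputable def run (H : Md.GH) (l : List S) : Md.GH := l.foldl (fun H s => upE s H) H

lemma run_concat (H : Md.GH) (l : List S) (s : S) : run H (l ++ [s]) = upE s (run H l) := by
  simp [run]

lemma L_run (hM : Small M) (H : Md.GH) (l : List S) (x : KK S) :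
    (run H l).L x = H.L (krho hM (M.toCoxeterSystem.wordProd l) x) := by
  induction l using List.reverseRecOn generalizing x with
  | nil => simp [run]
  | append_singleton l s ih =>
    rw [run_concat, GH.L_up, ih, CoxeterSystem.wordProd_append, CoxeterSystem.wordProd_singleton,
      map_mul, krho_simple, Module.End.mul_apply]

lemma root_ne_zero (w : M.Group) (s : S) : rho M w (al s) ≠ 0 := fun h => by
  have := rho_inv M w (al s)
  rw [h, map_zero] at this
  have := congrFun this s
  simp at this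

/-- In a unit interval a simple with positive class lies in the lower heart. -/
lemma M_of_pos (hM : Small M) {H H' : Md.GH} (h : H.1.Unit H'.1) {w : M.Group}
    (hw : ∀ x, H'.L x = H.L (krho hM w x)) {x : S × Irr} (hp : Pos (rho M w (al x.1))) :
    H.1.M (H'.1.S x) := by
  rcases h.simple x with h1 | h1
  · exact h1
  · exfalso
    have h2 := H.c_M h1
    rw [Md.D.cl_sh, H'.1.cl_S, ← GH.L_single, hw] at h2
    simp only [Int.negOnePow_neg, Int.negOnePow_one, Units.val_neg, Units.val_one, neg_smul,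
      one_smul, GH.c_neg] at h2
    rw [GH.c, LinearEquiv.symm_apply_apply, ev_krho, ev_single, map_smul] at h2
    apply root_ne_zero w x.1
    ext s
    have h3 := h2 s
    have h4 := hp s
    have h5 := fp_pos x.2
    simp only [Pi.neg_apply, Pi.smul_apply, smul_eq_mul, Pi.zero_apply] at h3 ⊢
    nlinarith

lemma unit_run (hM : Small M) (H : Md.GH) {l : List S} (hl : M.toCoxeterSystem.IsReduced l) :
    H.1.Unit (run H l).1 := by
  induction l using List.reverseRecOn with
  | nil => exact Heart.Unit.refl _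
  | append_singleton l s ih =>
    have hl' : M.toCoxeterSystem.IsReduced l := by simpa using hl.take l.length
    rw [run_concat]
    refine (ih hl').up (isUp_upE s _) (fun x hx => M_of_pos hM (ih hl') (L_run hM H l) ?_)
    rw [mem_blk.1 hx]
    refine pos_of_not_descent M _ _ (fun hd => ?_)
    unfold CoxeterSystem.IsRightDescent at hd
    have e1 := hl.eq
    have e2 := hl'.eq
    rw [CoxeterSystem.wordProd_append, CoxeterSystem.wordProd_singleton] at e1
    rw [List.length_append, List.length_singleton] at e1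
    omega

lemma unit_alt (hM : Small M) (H : Md.GH) (k : ℕ) {i j : S} (hij : i ≠ j) (hk : k ≤ M i j) :
    H.1.Unit (run H (CoxeterSystem.alternatingWord i j k)).1 := by
  induction k generalizing i j with
  | zero => exact Heart.Unit.refl _
  | succ k ih =>
    have hk' : k + 1 ≤ M j i := by rwa [M.symmetric]
    have h1 := ih hij.symm (by omega)
    rw [CoxeterSystem.alternatingWord_succ, List.concat_eq_append, run_concat]
    refine h1.up (isUp_upE j _) (fun x hx => M_of_pos hM h1 (L_run hM H _) ?_)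
    rw [mem_blk.1 hx]
    have c1 : 0 ≤ sq (cc M j i) 0 1 k :=
      ch_nonneg (M.off_diagonal j i hij.symm) (by omega)
    have c2 : 0 ≤ sq (cc M j i) 0 1 (k + 1) :=
      ch_nonneg (M.off_diagonal j i hij.symm) (Or.inr hk')
    have e := wE_alt M j i 0 1 k
    rw [zero_smul, zero_add, one_smul] at e
    rw [rho_word, e]
    intro b
    exact add_nonneg (mul_nonneg c1 (pos_al _ b)) (mul_nonneg c2 (pos_al _ b))

/-- One heart per chamber in a unit interval. -/
theorem eq_of_unit {H H₁ H₂ : Md.GH} (h₁ : H.1.Unit H₁.1) (h₂ : H.1.Unit H₂.1)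
    (hb : ∀ x, H₁.1.b x = H₂.1.b x) : H₁ = H₂ := by
  let θ : KK S →+ ℝ :=
    { toFun := fun x => ∑ y, (H₁.L.symm x y : ℝ)
      map_zero' := by simp
      map_add' := fun x y => by simp [Finset.sum_add_distrib] }
  have p₁ : ∀ x, 0 < θ (H₁.1.b x) := fun x => by
    show 0 < ∑ y, (H₁.L.symm (H₁.1.b x) y : ℝ)
    rw [← GH.L_single, LinearEquiv.symm_apply_apply]
    simp [Pi.single_apply]
  have p₂ : ∀ x, 0 < θ (H₂.1.b x) := fun x => hb x ▸ p₁ x
  exact Subtype.ext (Heart.eq_of_U
    (fun Y => ⟨h₁.U_of_pos h₂ θ p₁ p₂ Y, h₂.U_of_pos h₁ θ p₂ p₁ Y⟩) hb)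

theorem run_eq (hM : Small M) (H : Md.GH) {l l' : List S} (hl : M.toCoxeterSystem.IsReduced l)
    (hl' : M.toCoxeterSystem.IsReduced l')
    (h : M.toCoxeterSystem.wordProd l = M.toCoxeterSystem.wordProd l') : run H l = run H l' :=
  eq_of_unit (unit_run hM H hl) (unit_run hM H hl')
    (fun x => by rw [← GH.L_single, ← GH.L_single, L_run hM, L_run hM, h])

lemma prod_inv_upE (H : Md.GH) (l : List S) :
    ((l.map (fun s => (upE s : Equiv.Perm Md.GH)⁻¹)).prod)⁻¹ H = run H l := by
  induction l using List.reverseRecOn with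
  | nil => simp [run]
  | append_singleton l s ih =>
    rw [run_concat, ← ih]; simp

lemma braid_upE (hM : Small M) :
    ∀ r ∈ rels M, FreeGroup.lift (fun s => (upE s : Equiv.Perm Md.GH)⁻¹) r = 1 := by
  rintro r ⟨i, j, h0, rfl⟩
  have e : (FreeGroup.lift (fun s => (upE s : Equiv.Perm Md.GH)⁻¹)) ∘ FreeGroup.of =
      fun s => (upE s : Equiv.Perm Md.GH)⁻¹ := by
    funext x
    simp
  rw [map_mul, map_inv, map_list_prod, map_list_prod, List.map_map, List.map_map, e,
    mul_inv_eq_one, ← inv_inj]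
  by_cases hij : i = j
  · rw [hij]
  refine Equiv.ext (fun H => ?_)
  rw [prod_inv_upE, prod_inv_upE]
  have h1 := M.toCoxeterSystem.wordProd_braidWord_eq i j
  unfold CoxeterSystem.braidWord at h1
  rw [M.symmetric j i] at h1
  exact eq_of_unit (unit_alt hM H _ hij le_rfl)
    (unit_alt hM H _ (Ne.symm hij) (by rw [M.symmetric]))
    (fun x => by rw [← GH.L_single, ← GH.L_single, L_run hM, L_run hM, h1])

variable (Md) in
/-- The action as a homomorphism (generators act by downward tilts on the left). -/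
noncomputable def actHom (hM : Small M) : Art M →* Equiv.Perm Md.GH :=
  PresentedGroup.toGroup (braid_upE hM)

/-- The right action of the Artin group on good hearts: generators are upward tilts. -/
noncomputable def act (hM : Small M) (H : Md.GH) (a : Art M) : Md.GH := (actHom Md hM a)⁻¹ H

lemma act_one (hM : Small M) (H : Md.GH) : act hM H 1 = H := by simp [act]

lemma act_mul (hM : Small M) (H : Md.GH) (a b : Art M) :
    act hM H (a * b) = act hM (act hM H a) b := by simp [act]

lemma act_gen (hM : Small M) (H : Md.GH) (s : S) : act hM H (gen M s) = upE s H := by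
  have : actHom Md hM (gen M s) = (upE s)⁻¹ := PresentedGroup.toGroup.of _
  rw [act, this, inv_inv]

lemma isUp_act (hM : Small M) (H : Md.GH) (s : S) :
    H.1.IsUp (blk s) (act hM H (gen M s)).1 := by rw [act_gen]; exact isUp_upE s H

lemma isUp_act_inv (hM : Small M) (H : Md.GH) (s : S) :
    (act hM H (gen M s)⁻¹).1.IsUp (blk s) H.1 := by
  have := isUp_act hM (act hM H (gen M s)⁻¹) s
  rwa [← act_mul, inv_mul_cancel, act_one] at this

lemma L_act (hM : Small M) (H : Md.GH) (a : Art M) (x : KK S) :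
    (act hM H a).L x = H.L (krho hM (pr M a) x) := by
  induction a using PresentedGroup.induction_on with
  | _ a =>
    induction a using FreeGroup.induction_on generalizing H x with
    | C1 => simp [act_one]
    | of s =>
      show (act hM H (gen M s)).L x = H.L (krho hM (pr M (gen M s)) x)
      rw [act_gen, GH.L_up, pr_gen, krho_simple]
    | inv_of s _ =>
      rw [map_inv]
      show (act hM H (gen M s)⁻¹).L x = H.L (krho hM (pr M (gen M s)⁻¹) x)
      have h1 := GH.L_up (act hM H (gen M s)⁻¹) s (kr M s x)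
      rw [← act_gen hM, ← act_mul, inv_mul_cancel, act_one, ← Module.End.mul_apply, kr_kr] at h1
      rw [pr_gen_inv, krho_simple, h1]; rfl
    | mul a b iha ihb =>
      rw [map_mul, act_mul, ihb, iha, map_mul, map_mul, Module.End.mul_apply]

end Model

end Pool.Agent.HT
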