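import Pool.Agent.Lib.HT.CoreA

/-! Connected Coxeter diagrams: the trichotomy spherical, affine, indefinite. -/

set_option linter.unusedSectionVars false

namespace Pool.Agent.HT.Aff

open Pool.Agent.Lib.MP_6d85b4_al Pool.Agent.HT.Core

variable {B : Type} [Fintype B] [DecidableEq B] (M : CoxeterMatrix B)

/-- Supported on `L`. -/
def Sup (L : Finset B) (x : B → ℝ) : Prop := ∀ i, i ∉ L → x i = 0

/-- The Coxeter diagram on `L` is nonempty and connected. -/
def Conn (L : Finset B) : Prop :=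
  L.Nonempty ∧ ∀ T : Finset B, T ⊆ L → T.Nonempty →
    (∀ s ∈ T, ∀ t ∈ L, t ∉ T → M s t = 2) → T = L

/-- The form is definite on `L` (the same text as `Sph`). -/
def ND (L : Finset B) : Prop :=
  ∀ x : B → ℝ, (∀ s, s ∉ L → x s = 0) → x ≠ 0 → bf M x x < 0

/-- The form is semidefinite on `L`. -/
def NS (L : Finset B) : Prop := ∀ x : B → ℝ, Sup L x → bf M x x ≤ 0

/-- The roots of the parabolic subgroup of `L`. -/
def Rt (L : Finset B) (g : B → ℝ) : Prop := ∃ w ∈ WL M L, ∃ s ∈ L, g = rho M w (al s)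

/-- `L` is connected and affine with imaginary root `d`. -/
structure IsAff (L : Finset B) (d : B → ℝ) : Prop where
  conn : Conn M L
  sup : Sup L d
  pos : ∀ s ∈ L, 0 < d s
  rad : ∀ s ∈ L, ip M s d = 0

/-- The form as a functional. -/
noncomputable def bL (x : B → ℝ) : (B → ℝ) →ₗ[ℝ] ℝ := ∑ i, x i • ip M i

variable {M} {L T : Finset B}

theorem bL_apply (x y : B → ℝ) : bL M x y = bf M x y := by
  simp [bL, bf, LinearMap.sum_apply]

theorem bf_add_r (x y z : B → ℝ) : bf M x (y + z) = bf M x y + bf M x z := by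
  simp only [← bL_apply, map_add]

theorem bf_sub_r (x y z : B → ℝ) : bf M x (y - z) = bf M x y - bf M x z := by
  simp only [← bL_apply, map_sub]

theorem bf_neg_r (x y : B → ℝ) : bf M x (-y) = -bf M x y := by
  simp only [← bL_apply, map_neg]

theorem bf_smul_r (x y : B → ℝ) (a : ℝ) : bf M x (a • y) = a * bf M x y := by
  simp only [← bL_apply, map_smul, smul_eq_mul]

theorem bf_add_l (x y z : B → ℝ) : bf M (x + y) z = bf M x z + bf M y z := by
  rw [bf_symm, bf_add_r, bf_symm M z, bf_symm M z]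

theorem bf_sub_l (x y z : B → ℝ) : bf M (x - y) z = bf M x z - bf M y z := by
  rw [bf_symm, bf_sub_r, bf_symm M z, bf_symm M z]

theorem bf_neg_l (x y : B → ℝ) : bf M (-x) y = -bf M x y := by
  rw [bf_symm, bf_neg_r, bf_symm]

theorem bf_zero_l (y : B → ℝ) : bf M 0 y = 0 := by simp [bf]

theorem bf_al_r (x : B → ℝ) (s : B) : bf M x (al s) = ip M s x := by rw [bf_symm, bf_al]

theorem Sup.add {x y : B → ℝ} (hx : Sup L x) (hy : Sup L y) : Sup L (x + y) :=
  fun i h => by simp [hx i h, hy i h]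

theorem Sup.sub {x y : B → ℝ} (hx : Sup L x) (hy : Sup L y) : Sup L (x - y) :=
  fun i h => by simp [hx i h, hy i h]

theorem Sup.neg {x : B → ℝ} (hx : Sup L x) : Sup L (-x) := fun i h => by simp [hx i h]

theorem Sup.smul {x : B → ℝ} (hx : Sup L x) (c : ℝ) : Sup L (c • x) :=
  fun i h => by simp [hx i h]

theorem Sup.mono {x : B → ℝ} (hx : Sup T x) (h : T ⊆ L) : Sup L x :=
  fun i hi => hx i fun c => hi (h c)

theorem sup_zero : Sup L (0 : B → ℝ) := fun _ _ => rfl

theorem sup_al {s : B} (hs : s ∈ L) : Sup L (al s) :=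
  fun _ hi => al_ne (ne_of_mem_of_not_mem hs hi).symm

theorem Sup.rho {x : B → ℝ} (hx : Sup L x) {w : M.Group} (hw : w ∈ WL M L) :
    Sup L (rho M w x) := fun i hi => by rw [coord hw hi, hx i hi]

theorem bf_eq_zero {x y : B → ℝ} (hx : Sup L x) (hy : ∀ s ∈ L, ip M s y = 0) : bf M x y = 0 := by
  refine Finset.sum_eq_zero fun i _ => ?_
  by_cases h : i ∈ L
  · rw [hy i h, mul_zero]
  · rw [hx i h, zero_mul]

theorem ND.ns (h : ND M L) : NS M L := fun x hx => by
  by_cases e : x = 0
  · rw [e, bf_zero_l]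
  · exact (h x hx e).le

theorem NS.mono (h : NS M L) (hT : T ⊆ L) : NS M T := fun x hx => h x (hx.mono hT)

theorem ND.mono (h : ND M L) (hT : T ⊆ L) : ND M T := fun x hx => h x (Sup.mono hx hT)

theorem conn_univ (h : (SimpleGraph.fromRel (fun i j : B => M i j ≠ 2)).Connected) :
    Conn M Finset.univ := by
  obtain ⟨b⟩ := h.nonempty
  refine ⟨⟨b, Finset.mem_univ b⟩, fun T _ ⟨a, ha⟩ hT => Finset.eq_univ_of_forall fun c => ?_⟩
  obtain ⟨p⟩ := h.preconnected a c
  induction p with
  | nil => exact ha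
  | @cons u v _ huv _ ih =>
    refine ih (by_contra fun hv => ?_)
    have := hT u ha v (Finset.mem_univ v) hv
    rcases ((SimpleGraph.fromRel_adj _ _ _).1 huv).2 with e | e
    · exact e this
    · exact e (by rw [M.symmetric]; exact this)

theorem zero_of_quad {a C : ℝ} (h : ∀ t : ℝ, t * a ≤ C * t ^ 2) : a = 0 := by
  have k : 0 < |C| + 1 := by positivity
  have := h (a / (|C| + 1))
  rw [div_pow, ← mul_div_assoc, div_mul_eq_mul_div, div_le_div_iff₀ k (by positivity)] at this
  have h2 : a ^ 2 * (|C| + 1) * (|C| + 1 - C) ≤ 0 := by nlinarith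
  have h3 : 0 < |C| + 1 - C := by linarith [le_abs_self C]
  have h4 : a ^ 2 ≤ 0 := by
    by_contra c
    exact absurd h2 (not_le.2 (mul_pos (mul_pos (not_le.1 c) k) h3))
  exact pow_eq_zero_iff two_ne_zero |>.1 (le_antisymm h4 (sq_nonneg a))

theorem crit {l : ℝ} (h : ∀ x, Sup L x → bf M x x ≤ l * ∑ i, x i ^ 2) {p : B → ℝ}
    (hp : Sup L p) (e : bf M p p = l * ∑ i, p i ^ 2) {s : B} (hs : s ∈ L) :
    ip M s p = l * p s := by
  have : 2 * (ip M s p - l * p s) = 0 := zero_of_quad (C := l + 2) fun t => by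
    have h1 := h _ (hp.add ((sup_al hs).smul t))
    have h2 : ∑ i, (p + t • al s) i ^ 2 = ∑ i, p i ^ 2 + (2 * t * p s + t ^ 2) := by
      have : ∀ i, (p + t • al s) i ^ 2 =
          p i ^ 2 + if i = s then 2 * t * p s + t ^ 2 else 0 := fun i => by
        by_cases c : i = s
        · subst c
          simp
          ring
        · simp [al_ne c, c]
      simp only [this, Finset.sum_add_distrib, Finset.sum_ite_eq', Finset.mem_univ, if_true]
    rw [h2, bf_add_l, bf_add_r, bf_add_r, bf_smul, bf_smul, bf_smul_r, bf_smul_r, bf_al_r, bf_al,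
      bf_al, ip_al, cc_self, e] at h1
    nlinarith
  linarith

theorem NS.rad (h : NS M L) {x : B → ℝ} (hx : Sup L x) (e : bf M x x = 0) {s : B} (hs : s ∈ L) :
    ip M s x = 0 := by
  simpa using crit (l := 0) (fun y hy => by simpa using h y hy) hx (by simpa using e) hs

/-- The largest eigenvalue of the form on `L` with a nonnegative eigenvector. -/
theorem pf (hL : L.Nonempty) : ∃ (p : B → ℝ) (l : ℝ), Cn L p ∧ p ≠ 0 ∧
    (∀ s ∈ L, ip M s p = l * p s) ∧ bf M p p = l ∧
    ∀ x, Sup L x → bf M x x ≤ l * ∑ i, x i ^ 2 := by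
  obtain ⟨s, hs⟩ := hL
  have cq : Continuous fun x : B → ℝ => bf M x x := by
    simp only [bf, ip_apply]
    fun_prop
  have cK : IsCompact {x : B → ℝ | Sup L x ∧ ∑ i, x i ^ 2 = 1} := by
    refine (isCompact_closedBall 0 1).of_isClosed_subset ?_ fun x hx => ?_
    · refine IsClosed.inter ?_ (isClosed_eq (by fun_prop) continuous_const)
      have : {x : B → ℝ | Sup L x} = ⋂ i ∈ ({i | i ∉ L} : Set B), {x | x i = 0} := by
        ext x
        simp [Sup]
      change IsClosed {x : B → ℝ | Sup L x}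
      rw [this]
      exact isClosed_biInter fun i _ => isClosed_eq (continuous_apply i) continuous_const
    · rw [mem_closedBall_zero_iff, pi_norm_le_iff_of_nonneg zero_le_one]
      intro i
      have := Finset.single_le_sum (f := fun i => x i ^ 2) (fun _ _ => sq_nonneg _)
        (Finset.mem_univ i)
      rw [hx.2] at this
      exact (sq_le_one_iff_abs_le_one _).1 this
  obtain ⟨q, hq, hm⟩ := cK.exists_isMaxOn ⟨al s, sup_al hs, by
    simp [al, Pi.single_apply]⟩ cq.continuousOn
  have bd : ∀ x, Sup L x → bf M x x ≤ bf M q q * ∑ i, x i ^ 2 := fun x hx => by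
    rcases (Finset.sum_nonneg fun i (_ : i ∈ Finset.univ) => sq_nonneg (x i)).eq_or_lt with e | e
    · have : x = 0 := funext fun i => pow_eq_zero_iff two_ne_zero |>.1
        ((Finset.sum_eq_zero_iff_of_nonneg fun i _ => sq_nonneg (x i)).1 e.symm i
          (Finset.mem_univ i))
      rw [← e, this, bf_zero_l, mul_zero]
    · have r := Real.sqrt_pos.2 e
      have r2 := Real.mul_self_sqrt e.le
      have := hm (a := (√(∑ i, x i ^ 2))⁻¹ • x) ⟨hx.smul _, by
        simp only [Pi.smul_apply, smul_eq_mul, mul_pow, ← Finset.mul_sum]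
        rw [inv_pow, pow_two, r2, inv_mul_cancel₀ e.ne']⟩
      simp only [Set.mem_ofPred_eq, bf_smul, bf_smul_r] at this
      rw [← mul_assoc, ← mul_inv, r2, inv_mul_le_iff₀ e] at this
      linarith
  have sp : Sup L fun i => |q i| := fun i hi => by simp [hq.1 i hi]
  have n1 : ∑ i, |q i| ^ 2 = 1 := by simpa only [sq_abs] using hq.2
  have ge : bf M q q ≤ bf M (fun i => |q i|) fun i => |q i| := by
    simp only [bf, ip_apply, Finset.mul_sum]
    refine Finset.sum_le_sum fun i _ => Finset.sum_le_sum fun j _ => ?_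
    by_cases c : i = j
    · subst c
      rw [mul_left_comm, mul_left_comm |q i|, abs_mul_abs_self]
    · rw [mul_left_comm, mul_left_comm |q i|, ← abs_mul]
      exact mul_le_mul_of_nonneg_left (le_abs_self _) (cc_nonneg c)
  have e : (bf M (fun i => |q i|) fun i => |q i|) = bf M q q :=
    le_antisymm (by simpa only [n1, mul_one] using bd _ sp) ge
  refine ⟨fun i => |q i|, bf M q q, ⟨fun i => abs_nonneg _, sp⟩, fun c => ?_,
    fun s hs => crit bd sp (by rw [n1, mul_one, e]) hs, e, bd⟩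
  have : ∀ i, |q i| = 0 := congrFun c
  simp [this] at n1

theorem Conn.pos (h : Conn M L) {p : B → ℝ} (hp : Cn L p) (h0 : p ≠ 0)
    (hi : ∀ s ∈ L, p s = 0 → ip M s p ≤ 0) : ∀ s ∈ L, 0 < p s := by
  have := h.2 (L.filter fun s => 0 < p s) (Finset.filter_subset _ _) (by
    obtain ⟨i, c⟩ := Function.ne_iff.1 h0
    exact ⟨i, Finset.mem_filter.2 ⟨by_contra fun k => c (hp.2 i k), (hp.1 i).lt_of_ne' c⟩⟩)
    fun s hs t ht hn => by
      have p0 : p t = 0 :=
        le_antisymm (not_lt.1 fun c => hn (Finset.mem_filter.2 ⟨ht, c⟩)) (hp.1 t)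
      have nn : ∀ j ∈ Finset.univ, 0 ≤ cc M t j * p j := fun j _ => by
        by_cases c : t = j
        · rw [← c, p0, mul_zero]
        · exact mul_nonneg (cc_nonneg c) (hp.1 j)
      have z := hi t ht p0
      rw [ip_apply] at z
      have := (Finset.sum_eq_zero_iff_of_nonneg nn).1 (le_antisymm z (Finset.sum_nonneg nn)) s
        (Finset.mem_univ s)
      rw [M.symmetric]
      exact eq_two_of_cc M
        ((mul_eq_zero.1 this).resolve_right (Finset.mem_filter.1 hs).2.ne')
  intro s hs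
  rw [← this] at hs
  exact (Finset.mem_filter.1 hs).2

/-- Spherical, affine or indefinite. -/
theorem trichotomy (h : Conn M L) : ND M L ∨ (∃ d, IsAff M L d) ∨
    ∃ z, Sup L z ∧ ∀ s ∈ L, 0 < z s ∧ 0 < ip M s z := by
  obtain ⟨p, l, hp, h0, he, -, hb⟩ := pf (M := M) h.1
  have pp := h.pos hp h0 fun s hs c => by rw [he s hs, c, mul_zero]
  rcases lt_trichotomy l 0 with c | c | c
  · refine Or.inl fun x hx e => (hb x hx).trans_lt (mul_neg_of_neg_of_pos c ?_)
    obtain ⟨i, k⟩ := Function.ne_iff.1 e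
    exact Finset.sum_pos' (fun _ _ => sq_nonneg _) ⟨i, Finset.mem_univ i, sq_pos_of_ne_zero k⟩
  · exact Or.inr (Or.inl ⟨p, h, hp.2, pp, fun s hs => by rw [he s hs, c, zero_mul]⟩)
  · exact Or.inr (Or.inr ⟨p, hp.2, fun s hs => ⟨pp s hs, he s hs ▸ mul_pos c (pp s hs)⟩⟩)

/-- A definite form is coercive. -/
theorem ND.coer (h : ND M L) : ∃ e : ℝ, 0 < e ∧ ∀ x, Sup L x → e * ∑ i, x i ^ 2 ≤ -bf M x x := by
  rcases L.eq_empty_or_nonempty with c | c
  · refine ⟨1, one_pos, fun x hx => ?_⟩
    have : x = 0 := funext fun i => hx i (c ▸ Finset.notMem_empty i)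
    simp [this, bf_zero_l]
  · obtain ⟨p, l, hp, h0, -, he, hb⟩ := pf (M := M) c
    exact ⟨-l, neg_pos.2 (he ▸ h p hp.2 h0), fun x hx => by linarith [hb x hx]⟩

/-- On a definite `L` every functional is given by the form. -/
theorem ND.rep (h : ND M L) (f : B → ℝ) : ∃ v, Sup L v ∧ ∀ s ∈ L, ip M s v = f s := by
  let A : (B → ℝ) →ₗ[ℝ] (B → ℝ) :=
    LinearMap.pi fun s => if s ∈ L then ip M s else LinearMap.proj s
  have a1 : ∀ v, ∀ s ∈ L, A v s = ip M s v := fun v s hs => by simp [A, hs]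
  have a2 : ∀ v s, s ∉ L → A v s = v s := fun v s hs => by simp [A, hs]
  have inj : Function.Injective A := (injective_iff_map_eq_zero A).2 fun v hv => by
    have sv : Sup L v := fun s hs => by rw [← a2 v s hs, hv]; rfl
    by_contra c
    exact (h v sv c).ne (bf_eq_zero sv fun s hs => by rw [← a1 v s hs, hv]; rfl)
  obtain ⟨v, hv⟩ := LinearMap.injective_iff_surjective.1 inj fun s => if s ∈ L then f s else 0
  exact ⟨v, fun s hs => by rw [← a2 v s hs, hv]; exact if_neg hs,
    fun s hs => by rw [← a1 v s hs, hv]; exact if_pos hs⟩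

namespace IsAff

variable {d : B → ℝ} (h : IsAff M L d)
include h

theorem cn : Cn L d := ⟨fun i => by
  by_cases c : i ∈ L
  · exact (h.pos i c).le
  · exact (h.sup i c).ge, h.sup⟩

theorem bf_d {x : B → ℝ} (hx : Sup L x) : bf M x d = 0 := bf_eq_zero hx h.rad

theorem d_bf {x : B → ℝ} (hx : Sup L x) : bf M d x = 0 := by rw [bf_symm, h.bf_d hx]

theorem rho_d {w : M.Group} (hw : w ∈ WL M L) : rho M w d = d := fixes hw h.rad

theorem apply_pos {θ : (B → ℝ) →ₗ[ℝ] ℝ} (h0 : ∀ s ∈ L, 0 ≤ θ (al s)) (s : B) :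
    d s * θ (al s) ≤ θ d := by
  rw [expand θ d]
  refine Finset.single_le_sum (f := fun i => d i * θ (al i)) (fun i _ => ?_) (Finset.mem_univ s)
  by_cases c : i ∈ L
  · exact mul_nonneg (h.pos i c).le (h0 i c)
  · simp [h.sup i c]

theorem ht_pos : 0 < ht d := by
  obtain ⟨s, hs⟩ := h.conn.1
  have := h.apply_pos (θ := ht) (fun s _ => by rw [ht_al]; exact zero_le_one) s
  rw [ht_al, mul_one] at this
  exact (h.pos s hs).trans_le this

theorem ne_zero : d ≠ 0 := fun c => by simpa [c] using h.ht_pos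

/-- The form is semidefinite. -/
theorem ns : NS M L := by
  obtain ⟨p, l, hp, h0, he, -, hb⟩ := pf (M := M) h.conn.1
  have e : bf M d p = l * ∑ i, d i * p i := by
    rw [bf, Finset.mul_sum]
    refine Finset.sum_congr rfl fun i _ => ?_
    by_cases c : i ∈ L
    · rw [he i c]; ring
    · simp [h.sup i c]
  rw [h.d_bf hp.2] at e
  obtain ⟨i, k⟩ := Function.ne_iff.1 h0
  have : 0 < ∑ i, d i * p i :=
    Finset.sum_pos' (fun i _ => mul_nonneg (h.cn.1 i) (hp.1 i)) ⟨i, Finset.mem_univ i,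
      mul_pos (h.pos i (by_contra fun c => k (hp.2 i c))) ((hp.1 i).lt_of_ne' k)⟩
  have l0 := (mul_eq_zero.1 e.symm).resolve_right this.ne'
  intro x hx
  simpa [l0] using hb x hx

/-- The radical is the line of `d`. -/
theorem radical {x : B → ℝ} (hx : Sup L x) (e : bf M x x = 0) : ∃ c : ℝ, x = c • d := by
  obtain ⟨s, hs, hm⟩ := Finset.exists_min_image L (fun s => x s / d s) h.conn.1
  refine ⟨x s / d s, by_contra fun c => ?_⟩
  have := h.conn.pos (p := x - (x s / d s) • d) ⟨fun i => ?_, hx.sub (h.sup.smul _)⟩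
    (sub_ne_zero.2 c) (fun t ht _ => by
      rw [map_sub, map_smul, h.rad t ht, h.ns.rad hx e ht]; simp) s hs
  · rw [Pi.sub_apply, Pi.smul_apply, smul_eq_mul, div_mul_cancel₀ _ (h.pos s hs).ne',
      sub_self] at this
    exact lt_irrefl _ this
  · by_cases k : i ∈ L
    · have := (le_div_iff₀ (h.pos i k)).1 (hm i k)
      simpa using this
    · simp [hx i k, h.sup i k]

/-- Proper subsets are spherical. -/
theorem nd (hT : T ⊆ L) {s : B} (hs : s ∈ L) (hn : s ∉ T) : ND M T := fun x hx e => by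
  refine (h.ns x (Sup.mono hx hT)).lt_of_ne fun c => e ?_
  obtain ⟨c, rfl⟩ := h.radical (Sup.mono hx hT) c
  have := hx s hn
  rw [Pi.smul_apply, smul_eq_mul] at this
  rw [(mul_eq_zero.1 this).resolve_right (h.pos s hs).ne', zero_smul]

theorem nd_of_ssubset (hT : T ⊂ L) : ND M T := by
  obtain ⟨s, hs, hn⟩ := Finset.exists_of_ssubset hT
  exact h.nd hT.1 hs hn

theorem not_nd : ¬ ND M L := fun c => (c d h.sup h.ne_zero).ne (h.bf_d h.sup)

/-- Functionals of level zero are given by the form. -/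
theorem rep {θ : (B → ℝ) →ₗ[ℝ] ℝ} (h0 : θ d = 0) :
    ∃ v, Sup L v ∧ ∀ x, Sup L x → θ x = bf M v x := by
  obtain ⟨s, hs⟩ := h.conn.1
  obtain ⟨v, hv, e⟩ := (h.nd (Finset.erase_subset s L) hs (Finset.notMem_erase s L)).rep
    fun t => θ (al t)
  have sv := hv.mono (Finset.erase_subset s L)
  have key : ∀ x, Sup L x → θ x - bf M x v = x s * (θ (al s) - ip M s v) := fun x hx => by
    rw [expand θ x, bf, ← Finset.sum_sub_distrib, Finset.sum_eq_single s]
    · ring
    · intro t _ ts
      by_cases c : t ∈ L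
      · rw [e t (Finset.mem_erase.2 ⟨ts, c⟩), sub_self]
      · simp [hx t c]
    · simp
  have k := key d h.sup
  rw [h0, h.d_bf sv, sub_self] at k
  have k0 := (mul_eq_zero.1 k.symm).resolve_left (h.pos s hs).ne'
  refine ⟨v, sv, fun x hx => ?_⟩
  have := key x hx
  rw [k0, mul_zero, bf_symm] at this
  linarith

end IsAff

end Pool.Agent.HT.Aff
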