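import Pool.Agent.Lib.MP_6d85b4_al.Act

set_option autoImplicit false
set_option linter.unusedSectionVars false

/-! Sub-diagrams: maps of Artin groups, Coxeter groups and geometric representations. -/

namespace Pool.Agent.HT

open Pool.Agent.Lib.MP_6d85b4_al CoxeterSystem

variable {S S' : Type} [Fintype S] [DecidableEq S] [Fintype S'] [DecidableEq S']
  {M : CoxeterMatrix S} {M' : CoxeterMatrix S'}

/-- An embedding of Coxeter diagrams. -/
structure Emb (M : CoxeterMatrix S) (M' : CoxeterMatrix S') where
  e : S → S'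
  inj : Function.Injective e
  eq : ∀ s t, M' (e s) (e t) = M s t

namespace Emb

variable (f : Emb M M')

lemma map_alt (s t : S) (k : ℕ) :
    (alternatingWord s t k).map f.e = alternatingWord (f.e s) (f.e t) k := by
  induction k generalizing s t with
  | zero => rfl
  | succ k ih => rw [alternatingWord_succ, alternatingWord_succ, List.map_concat, ih]

/-- The map of Artin groups. -/
def A : Art M →* Art M' :=
  PresentedGroup.toGroup (lift_ok M (fun s => gen M' (f.e s)) (fun i j h => by
    have := braid M' (i := f.e i) (j := f.e j) (by rwa [f.eq])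
    rw [f.eq, ← f.map_alt, ← f.map_alt, List.map_map, List.map_map] at this
    exact this))

lemma A_gen (s : S) : f.A (gen M s) = gen M' (f.e s) := PresentedGroup.toGroup.of _

lemma liftable : M.IsLiftable (fun s => M'.toCoxeterSystem.simple (f.e s)) := fun s t => by
  rw [← f.eq]; exact M'.toCoxeterSystem.simple_mul_simple_pow _ _

/-- The map of Coxeter groups. -/
noncomputable def W : M.Group →* M'.Group := M.toCoxeterSystem.lift ⟨_, f.liftable⟩

lemma W_simple (s : S) : f.W (M.toCoxeterSystem.simple s) = M'.toCoxeterSystem.simple (f.e s) :=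
  M.toCoxeterSystem.lift_apply_simple f.liftable s

lemma pr_A (a : Art M) : pr M' (f.A a) = f.W (pr M a) := by
  have : (pr M').comp f.A = f.W.comp (pr M) := by
    refine PresentedGroup.ext (fun s => ?_)
    show pr M' (f.A (gen M s)) = f.W (pr M (gen M s))
    rw [A_gen, pr_gen, pr_gen, W_simple]
  exact DFunLike.congr_fun this a

/-- Extension by zero. -/
noncomputable def ext : (S → ℝ) →ₗ[ℝ] (S' → ℝ) :=
  ∑ s, (LinearMap.proj s : (S → ℝ) →ₗ[ℝ] ℝ).smulRight (al (f.e s))

lemma ext_apply (x : S → ℝ) : f.ext x = ∑ s, x s • al (f.e s) := by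
  simp [ext, LinearMap.sum_apply]

lemma ext_e (x : S → ℝ) (s : S) : f.ext x (f.e s) = x s := by
  rw [ext_apply, Finset.sum_apply, Finset.sum_eq_single s]
  · simp
  · intro t _ h
    rw [Pi.smul_apply, al_ne (fun h1 => h (f.inj h1).symm), smul_zero]
  · simp

lemma ext_out (x : S → ℝ) {u : S'} (hu : ∀ s, f.e s ≠ u) : f.ext x u = 0 := by
  rw [ext_apply, Finset.sum_apply]
  exact Finset.sum_eq_zero (fun s _ => by rw [Pi.smul_apply, al_ne (hu s).symm, smul_zero])

lemma ext_al (s : S) : f.ext (al s) = al (f.e s) := by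
  rw [ext_apply, Finset.sum_eq_single s]
  · simp
  · intro t _ h; rw [al_ne h, zero_smul]
  · simp

lemma ext_injective : Function.Injective f.ext := fun x y h => by
  funext s; rw [← f.ext_e x, h, f.ext_e]

lemma cc_e (s t : S) : cc M' (f.e s) (f.e t) = cc M s t := by rw [cc, cc, f.eq]

lemma ip_ext' (u : S') (x : S → ℝ) : ip M' u (f.ext x) = ∑ s, x s * cc M' u (f.e s) := by
  rw [ext_apply, map_sum]
  exact Finset.sum_congr rfl (fun s _ => by rw [map_smul, ip_al, smul_eq_mul])

lemma ip_ext (t : S) (x : S → ℝ) : ip M' (f.e t) (f.ext x) = ip M t x := by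
  rw [ip_ext', ip_apply]
  exact Finset.sum_congr rfl (fun s _ => by rw [cc_e, mul_comm])

lemma bf_ext (x y : S → ℝ) : bf M' (f.ext x) (f.ext y) = bf M x y := by
  have e : ∀ z : S' → ℝ, bf M' (f.ext x) z = ∑ s, x s * ip M' (f.e s) z := fun z => by
    rw [bf]
    simp only [ext_apply, Finset.sum_apply, Pi.smul_apply, smul_eq_mul, Finset.sum_mul]
    rw [Finset.sum_comm]
    refine Finset.sum_congr rfl (fun s _ => ?_)
    rw [← bf_al, bf, Finset.mul_sum]
    exact Finset.sum_congr rfl (fun u _ => mul_assoc _ _ _)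
  rw [e, bf]
  exact Finset.sum_congr rfl (fun s _ => by rw [ip_ext])

lemma rf_ext (s : S) (x : S → ℝ) : rf M' (f.e s) (f.ext x) = f.ext (rf M s x) := by
  rw [rf_apply, rf_apply, map_add, map_smul, ext_al, ip_ext]

lemma rho_ext (w : M.Group) (x : S → ℝ) : rho M' (f.W w) (f.ext x) = f.ext (rho M w x) := by
  induction w using M.toCoxeterSystem.simple_induction_left with
  | one => simp
  | mul_simple_left w i ih =>
    rw [map_mul, rho_mul, rho_mul, W_simple, rho_simple, rho_simple, ih, rf_ext]

/-- Coordinates outside the sub-diagram are not changed. -/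
lemma rho_out (w : M.Group) (y : S' → ℝ) {u : S'} (hu : ∀ s, f.e s ≠ u) :
    rho M' (f.W w) y u = y u := by
  induction w using M.toCoxeterSystem.simple_induction_left with
  | one => simp
  | mul_simple_left w i ih =>
    rw [map_mul, rho_mul, W_simple, rho_simple, rf_coord M' (hu i).symm, ih]

lemma pos_ext {x : S → ℝ} : Pos (f.ext x) ↔ Pos x := by
  constructor
  · intro h s; rw [← f.ext_e x]; exact h _
  · intro h u
    rw [ext_apply, Finset.sum_apply]
    exact Finset.sum_nonneg (fun s _ => mul_nonneg (h s) (pos_al _ u))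

end Emb

end Pool.Agent.HT
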