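import Pool.Agent.Lib.HT.Stmt

set_option autoImplicit false
set_option linter.unusedSectionVars false

/-! The real form of Frobenius-Perron classes as a positive combination of Euler forms. -/

namespace Pool.Agent.HT

open Pool.Agent.Lib.MP_6d85b4_al

variable {S : Type} [Fintype S] [DecidableEq S] {M : CoxeterMatrix S}

lemma phi_true (y : KK S) (t : S) (a : Fin 3) (b : Fin 2) :
    phi true y (t, a, b) = if a = 1 then y (t, 0, b) + y (t, 2, b) else y (t, 1, b) := by
  fin_cases a <;> fin_cases b <;>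
    simp [phi_apply, nF, nS, Fintype.sum_prod_type, Fin.sum_univ_succ]

lemma phi_false (y : KK S) (t : S) (a : Fin 3) (b : Fin 2) :
    phi false y (t, a, b) = if b = 1 then y (t, a, 0) + y (t, a, 1) else y (t, a, 1) := by
  fin_cases a <;> fin_cases b <;>
    simp [phi_apply, nF, nT, Fintype.sum_prod_type, Fin.sum_univ_succ]

lemma ev_six (y : KK S) (t : S) : ev y t = y (t, 0, 0) + Real.goldenRatio * y (t, 0, 1) +
    √2 * y (t, 1, 0) + √2 * Real.goldenRatio * y (t, 1, 1) + y (t, 2, 0) +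
    Real.goldenRatio * y (t, 2, 1) := by
  simp [ev_apply, fp, Fintype.sum_prod_type, Fin.sum_univ_succ]
  ring

lemma phi_reg (y : KK S) (z : S × Irr) :
    (phi true (phi true y) z : ℝ) + √2 * phi true y z +
      Real.goldenRatio * phi true (phi true (phi false y)) z +
      √2 * Real.goldenRatio * phi true (phi false y) z = fp z.2 * ev y z.1 := by
  have h : √2 * √2 = (2 : ℝ) := Real.mul_self_sqrt (by norm_num)
  have h' := Real.goldenRatio_sq
  obtain ⟨t, a, b⟩ := z
  rw [ev_six]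
  unfold fp
  generalize Real.goldenRatio = g at h'
  generalize √2 = r at h
  fin_cases a <;> fin_cases b <;> simp [phi_true, phi_false] <;> grind

lemma sum_nF_fp (e : Bool) (b : Irr) :
    ∑ a, fp a * nF e a b = (if e then √2 else Real.goldenRatio) * fp b := by
  cases e
  · simpa [nF] using sum_fp_nT b
  · simpa [nF] using sum_fp_nS b

/-- The Frobenius-Perron eigenvalue of a fusion functor. -/
noncomputable def fe (e : Bool) : ℝ := if e then √2 else Real.goldenRatio

lemma fe_pos (e : Bool) : 0 < fe e := by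
  have := Real.goldenRatio_pos
  unfold fe
  split_ifs <;> positivity

lemma ev_phi (e : Bool) (x : KK S) : ev (phi e x) = fe e • ev x := by
  ext s
  simp only [ev_apply, phi_apply, Pi.smul_apply, smul_eq_mul, Int.cast_sum, Int.cast_mul,
    Finset.mul_sum]
  rw [Finset.sum_comm]
  refine Finset.sum_congr rfl (fun b _ => ?_)
  simp only [← mul_assoc]
  rw [← Finset.sum_mul, sum_nF_fp, fe]

namespace Model

variable {Md : Model (fun s t => M s t)}

lemma GH.phi_L (H : Md.GH) (e : Bool) (x : KK S) : phi e (H.L x) = H.L (phi e x) := by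
  have : phi e ∘ₗ H.L.toLinearMap = H.L.toLinearMap ∘ₗ phi e := by
    refine (Pi.basisFun ℤ (S × Irr)).ext (fun y => ?_)
    simp only [Pi.basisFun_apply, LinearEquiv.coe_coe, LinearMap.comp_apply, GH.L_single]
    rw [H.2.phiK]
    simp only [← GH.L_single, ← map_zsmul, ← map_sum]
    congr 1
    ext ⟨t, b⟩
    obtain ⟨s, c⟩ := y
    by_cases h : t = s
    · subst h; simp [phi_apply, Pi.single_apply, nF_symm e b c]
    · simp [phi_apply, h]
  exact LinearMap.congr_fun this x

lemma GH.form_L (H : Md.GH) (x y : KK S) :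
    Md.D.form (H.L x) (H.L y) = ∑ i, ∑ j, x i * (cartan (fun s t => M s t) i j * y j) := by
  have e : ∀ z : KK S, H.L z = ∑ i, z i • H.1.b i := fun z => by
    simp [GH.L]
  rw [e x, e y]
  simp only [map_sum, map_zsmul, AddMonoidHom.finsetSum_apply, AddMonoidHom.smul_apply,
    H.2.gram, smul_eq_mul, Finset.mul_sum]
  rw [Finset.sum_comm]
  refine Finset.sum_congr rfl (fun i _ => Finset.sum_congr rfl (fun j _ => by ring))

lemma GH.c_phi (H : Md.GH) (e : Bool) (x : KK S) : H.c (phi e x) = fe e • H.c x := by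
  obtain ⟨x, rfl⟩ := H.L.surjective x
  rw [H.phi_L, GH.c, GH.c, LinearEquiv.symm_apply_apply, LinearEquiv.symm_apply_apply, ev_phi]

end Model

theorem realForm_thm : RealFormStmt := by
  intro S _ _ M hM Md H x y
  obtain ⟨x, rfl⟩ := H.L.surjective x
  obtain ⟨y, rfl⟩ := H.L.surjective y
  simp only [Model.GH.phi_L, Model.GH.form_L, Model.GH.c, LinearEquiv.symm_apply_apply]
  push_cast
  simp only [Finset.mul_sum, ← Finset.sum_add_distrib]
  have e1 : ∀ i : S × Irr, ∑ j : S × Irr,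
      ((x i : ℝ) * ((cartan (fun s t => M s t) i j : ℝ) * phi true (phi true y) j) +
        √2 * (x i * ((cartan (fun s t => M s t) i j : ℝ) * phi true y j)) +
        Real.goldenRatio * (x i * ((cartan (fun s t => M s t) i j : ℝ) *
          phi true (phi true (phi false y)) j)) +
        √2 * Real.goldenRatio * (x i * ((cartan (fun s t => M s t) i j : ℝ) *
          phi true (phi false y) j))) = - (fp i.2 * x i * ip M i.1 (ev y)) := by
    intro i
    have e2 : ∀ j : S × Irr,
        ((x i : ℝ) * ((cartan (fun s t => M s t) i j : ℝ) * phi true (phi true y) j) +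
        √2 * (x i * ((cartan (fun s t => M s t) i j : ℝ) * phi true y j)) +
        Real.goldenRatio * (x i * ((cartan (fun s t => M s t) i j : ℝ) *
          phi true (phi true (phi false y)) j)) +
        √2 * Real.goldenRatio * (x i * ((cartan (fun s t => M s t) i j : ℝ) *
          phi true (phi false y) j))) =
        x i * ev y j.1 * (fp j.2 * (cartan M (j.1, j.2) i : ℝ)) := by
      intro j
      rw [cartan_symm M (j.1, j.2) i]
      linear_combination (x i : ℝ) * (cartan (fun s t => M s t) i j : ℝ) * phi_reg y j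
    rw [Finset.sum_congr rfl (fun j _ => e2 j), Fintype.sum_prod_type, ip_apply, Finset.mul_sum,
      ← Finset.sum_neg_distrib]
    refine Finset.sum_congr rfl (fun t _ => ?_)
    simp only [← Finset.mul_sum]
    rw [sum_fp_cartan hM, cc_symm]; ring
  rw [Finset.sum_congr rfl (fun i _ => e1 i), Fintype.sum_prod_type, bf, ← Finset.sum_neg_distrib]
  refine Finset.sum_congr rfl (fun s _ => ?_)
  rw [ev_apply, Finset.sum_mul, ← Finset.sum_neg_distrib]

/-- Two objects have non-zero morphisms in finitely many degrees only. -/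
lemma Heart.fin_hom {K : Type} [AddCommGroup K] {D : TD K} {ι : Type} (H : Heart D ι)
    (A B : D.Obj) : {n : ℤ | D.hom A (D.sh n B) ≠ 0}.Finite := by
  obtain ⟨a, ha1, ha2⟩ := H.bounded A
  obtain ⟨b, hb1, hb2⟩ := H.bounded B
  refine (Set.finite_Icc (-a - b) (a + b + 2)).subset (fun n hn => ?_)
  by_contra hc
  apply hn
  by_cases h : n < -a - b
  · exact Heart.hom_U_V (by omega) ha1 ((Heart.V_sh n).2 hb2)
  · rw [D.cy_sh]
    rw [Set.mem_Icc] at hc
    exact Heart.hom_U_V (by omega) hb1 ((Heart.V_sh (2 - n)).2 ha2)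

/-- Without morphisms of odd degree the Euler form is the total dimension. -/
lemma Heart.form_even {K : Type} [AddCommGroup K] {D : TD K} {ι : Type} (H : Heart D ι)
    {A B : D.Obj} (h : ∀ n : ℤ, Odd n → D.hom A (D.sh n B) = 0) :
    0 ≤ D.form (D.cl A) (D.cl B) ∧
      (D.form (D.cl A) (D.cl B) = 0 → ∀ n : ℤ, D.hom A (D.sh n B) = 0) := by
  have e : D.form (D.cl A) (D.cl B) = ∑ n ∈ (H.fin_hom A B).toFinset, (D.hom A (D.sh n B) : ℤ) := by
    rw [D.euler, finsum_eq_sum_of_support_subset (s := (H.fin_hom A B).toFinset)]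
    · refine Finset.sum_congr rfl (fun n _ => ?_)
      rcases Int.even_or_odd n with hn | hn
      · rw [Int.negOnePow_even n hn]; simp [TD.sh]
      · have := h n hn
        simp only [TD.sh] at this
        simp [TD.sh, this]
    · intro n hn
      simp only [Set.Finite.coe_toFinset, Set.mem_ofPred_eq]
      intro h0
      simp only [TD.sh] at h0
      exact hn (by simp [h0])
  rw [e]
  refine ⟨Finset.sum_nonneg (fun n _ => Int.natCast_nonneg _), fun h0 n => ?_⟩
  by_contra hc
  have := (Finset.sum_eq_zero_iff_of_nonneg (fun n _ => Int.natCast_nonneg _)).1 h0 n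
    (by simpa using hc)
  exact hc (by exact_mod_cast this)

namespace Model

variable (Md : Model (fun s t => M s t))

/-- A word in the fusion functors. -/
def PhiW (l : List Bool) (A : Md.D.Obj) : Md.D.Obj := l.foldr Md.Phi A

@[simp] lemma PhiW_nil (A : Md.D.Obj) : Md.PhiW [] A = A := rfl

@[simp] lemma PhiW_cons (e : Bool) (l : List Bool) (A : Md.D.Obj) :
    Md.PhiW (e :: l) A = Md.Phi e (Md.PhiW l A) := rfl

lemma PhiW_append (l l' : List Bool) (A : Md.D.Obj) :
    Md.PhiW (l ++ l') A = Md.PhiW l (Md.PhiW l' A) := List.foldr_append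

lemma PhiW_sh (l : List Bool) (n : ℤ) (A : Md.D.Obj) :
    Md.PhiW l (Md.D.sh n A) = Md.D.sh n (Md.PhiW l A) := by
  induction l with
  | nil => rfl
  | cons e l ih => rw [PhiW_cons, ih, Md.Phi_sh, PhiW_cons]

lemma PhiW_ext (l : List Bool) {A Y B : Md.D.Obj} (h : Md.D.Ext A Y B) :
    Md.D.Ext (Md.PhiW l A) (Md.PhiW l Y) (Md.PhiW l B) := by
  induction l with
  | nil => exact h
  | cons e l ih => exact Md.Phi_ext e _ _ _ ih

lemma PhiW_adj (l : List Bool) (A B : Md.D.Obj) :
    Md.D.hom (Md.PhiW l A) B = 0 ↔ Md.D.hom A (Md.PhiW l.reverse B) = 0 := by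
  induction l generalizing B with
  | nil => rfl
  | cons e l ih => rw [PhiW_cons, Md.Phi_adj, ih, List.reverse_cons, PhiW_append]; rfl

/-- Words may be moved to the other side. -/
lemma PhiW_swap {A B : Md.D.Obj} {n : ℤ} :
    (∀ l, Md.D.hom (Md.PhiW l A) (Md.D.sh n B) = 0) ↔
      ∀ l, Md.D.hom A (Md.D.sh n (Md.PhiW l B)) = 0 := by
  refine ⟨fun h l => ?_, fun h l => ?_⟩
  · have := (Md.PhiW_adj l.reverse _ _).1 (h l.reverse)
    rwa [List.reverse_reverse, PhiW_sh] at this
  · rw [PhiW_adj, PhiW_sh]; exact h _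

variable {Md}

lemma Good.hrtW {H : Heart Md.D (S × Irr)} (h : Md.Good H) (l : List Bool) {Y : Md.D.Obj}
    (hY : H.M Y) : H.M (Md.PhiW l Y) := by
  induction l with
  | nil => exact hY
  | cons e l ih => exact h.hrt e ih

lemma GH.c_PhiW (H : Md.GH) (l : List Bool) (Y : Md.D.Obj) :
    H.c (Md.D.cl (Md.PhiW l Y)) = (l.map fe).prod • H.c (Md.D.cl Y) := by
  induction l with
  | nil => simp
  | cons e l ih => rw [PhiW_cons, Md.cl_Phi, H.c_phi, ih, smul_smul]; simp

/-- Signs of the four Euler forms give the sign of the real form. -/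
lemma GH.bf_eq (hM : Small M) (H : Md.GH) (A B : Md.D.Obj) :
    - bf M (H.c (Md.D.cl A)) (H.c (Md.D.cl B)) =
      Md.D.form (Md.D.cl A) (Md.D.cl (Md.PhiW [true, true] B)) +
        √2 * Md.D.form (Md.D.cl A) (Md.D.cl (Md.PhiW [true] B)) +
        Real.goldenRatio * Md.D.form (Md.D.cl A) (Md.D.cl (Md.PhiW [true, true, false] B)) +
        √2 * Real.goldenRatio * Md.D.form (Md.D.cl A) (Md.D.cl (Md.PhiW [true, false] B)) := by
  simp only [PhiW_cons, PhiW_nil, Md.cl_Phi]
  exact realForm_thm S M hM Md H _ _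

lemma GH.bf_nonpos_of (hM : Small M) (H : Md.GH) {A B : Md.D.Obj}
    (h : ∀ l, 0 ≤ Md.D.form (Md.D.cl A) (Md.D.cl (Md.PhiW l B))) :
    bf M (H.c (Md.D.cl A)) (H.c (Md.D.cl B)) ≤ 0 ∧
      (bf M (H.c (Md.D.cl A)) (H.c (Md.D.cl B)) = 0 →
        ∀ l, Md.D.form (Md.D.cl A) (Md.D.cl (Md.PhiW (true :: l) B)) = 0) := by
  have h2 : (0 : ℝ) < √2 := by positivity
  have hg := Real.goldenRatio_pos
  have key : ∀ l, bf M (H.c (Md.D.cl A)) (H.c (Md.D.cl (Md.PhiW l B))) ≤
      - (√2 * Md.D.form (Md.D.cl A) (Md.D.cl (Md.PhiW (true :: l) B))) := by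
    intro l
    have e := H.bf_eq hM A (Md.PhiW l B)
    simp only [← PhiW_append] at e
    have a1 : (0 : ℝ) ≤ Md.D.form _ _ := Int.cast_nonneg_iff.2 (h ([true, true] ++ l))
    have a2 : (0 : ℝ) ≤ Md.D.form _ _ := Int.cast_nonneg_iff.2 (h ([true, true, false] ++ l))
    have a3 : (0 : ℝ) ≤ Md.D.form _ _ := Int.cast_nonneg_iff.2 (h ([true, false] ++ l))
    have a4 := mul_nonneg hg.le a2
    have a5 := mul_nonneg (mul_pos h2 hg).le a3
    rw [show [true] ++ l = true :: l from rfl] at e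
    linarith
  refine ⟨?_, fun h0 l => ?_⟩
  · have a1 : (0 : ℝ) ≤ Md.D.form _ _ := Int.cast_nonneg_iff.2 (h [true])
    have := key []
    have a2 := mul_nonneg h2.le a1
    simp only [PhiW_nil] at this
    linarith
  · have k := key l
    rw [H.c_PhiW, bf_symm, bf_smul, bf_symm, h0, mul_zero] at k
    have a1 : (0 : ℝ) ≤ Md.D.form _ _ := Int.cast_nonneg_iff.2 (h (true :: l))
    have a2 : (Md.D.form (Md.D.cl A) (Md.D.cl (Md.PhiW (true :: l) B)) : ℝ) ≤ 0 := by
      by_contra hc
      have := mul_pos h2 (not_le.1 hc)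
      linarith
    exact_mod_cast le_antisymm a2 a1

/-- No maps in either direction: the form `- bf` is non-positive. -/
theorem GH.bf_nonneg (hM : Small M) (H : Md.GH) {A B : Md.D.Obj} (hA : H.1.M A) (hB : H.1.M B)
    (h1 : ∀ l, Md.D.hom A (Md.PhiW l B) = 0) (h2 : ∀ l, Md.D.hom (Md.PhiW l B) A = 0) :
    0 ≤ bf M (H.c (Md.D.cl A)) (H.c (Md.D.cl B)) := by
  have h : ∀ l, (Md.D.form (Md.D.cl A) (Md.D.cl (Md.PhiW l B)) : ℝ) ≤ 0 := fun l => by
    have := hA.euler (H.2.hrtW l hB)
    rw [h1, h2] at this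
    exact_mod_cast (show Md.D.form (Md.D.cl A) (Md.D.cl (Md.PhiW l B)) ≤ 0 by omega)
  have e := H.bf_eq hM A B
  have s2 : (0 : ℝ) ≤ √2 := by positivity
  have hg := Real.goldenRatio_pos.le
  have a1 := h [true, true]
  have a2 := mul_nonpos_of_nonneg_of_nonpos s2 (h [true])
  have a3 := mul_nonpos_of_nonneg_of_nonpos hg (h [true, true, false])
  have a4 := mul_nonpos_of_nonneg_of_nonpos (mul_nonneg s2 hg) (h [true, false])
  linarith

/-- Fusion functors are faithful on a good heart. -/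
lemma GH.faith (H : Md.GH) (e : Bool) {A B : Md.D.Obj} (hA : H.1.M A) (hB : H.1.M B)
    (h : Md.D.hom (Md.Phi e A) (Md.Phi e B) = 0) : Md.D.hom A B = 0 := by
  by_contra hc
  obtain ⟨N, I, C, hN, hI, hC, h0, h1, h2⟩ := hA.image hB hc
  have a1 := (H.2.hrt e hN).hom_quot (H.2.hrt e hB) (Md.Phi_ext e _ _ _ h1)
  have a2 := (H.2.hrt e hC).hom_sub (H.2.hrt e hI) (Md.Phi_ext e _ _ _ h2)
  have a3 : Md.Phi e I = Md.D.zero := Md.D.eq_zero _ (by omega)
  have a4 := H.c_phi e (Md.D.cl I)
  rw [← Md.cl_Phi, a3, Md.D.cl_zero] at a4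
  have a5 : H.c (Md.D.cl I) = 0 := by
    have : fe e • H.c (Md.D.cl I) = 0 := by rw [← a4]; simp [GH.c]
    exact (smul_eq_zero.1 this).resolve_left (fe_pos e).ne'
  refine h0 (hI.eq_zero (fun x => ?_))
  have a6 := congrFun a5 x.1
  rw [GH.c, ev_apply, Pi.zero_apply] at a6
  have a7 := (Finset.sum_eq_zero_iff_of_nonneg (fun a _ => mul_nonneg (fp_pos a).le (by
    rw [GH.L_symm_apply]; exact_mod_cast hI.mul_nonneg _))).1 a6 x.2 (Finset.mem_univ _)
  rw [GH.L_symm_apply] at a7
  have a8 := (mul_eq_zero.1 a7).resolve_left (fp_pos _).ne'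
  exact (Int.cast_eq_zero.1 a8).le

/-- (E1) No first extensions inside one good heart: the form `- bf` is non-negative, and it
vanishes only for totally orthogonal objects. -/
theorem GH.E1 (hM : Small M) (H : Md.GH) {A B : Md.D.Obj} (hA : H.1.M A) (hB : H.1.M B)
    (h1 : ∀ l, Md.D.hom A (Md.D.s (Md.PhiW l B)) = 0) :
    bf M (H.c (Md.D.cl A)) (H.c (Md.D.cl B)) ≤ 0 ∧
      (bf M (H.c (Md.D.cl A)) (H.c (Md.D.cl B)) = 0 →
        ∀ l n, Md.D.hom A (Md.D.sh n (Md.PhiW l B)) = 0) := by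
  have e : ∀ l, Md.D.form (Md.D.cl A) (Md.D.cl (Md.PhiW l B)) =
      Md.D.hom A (Md.PhiW l B) + Md.D.hom (Md.PhiW l B) A := fun l => by
    have := hA.euler (H.2.hrtW l hB)
    rw [h1] at this
    omega
  obtain ⟨k1, k2⟩ := H.bf_nonpos_of hM (A := A) (B := B) (fun l => by rw [e]; omega)
  refine ⟨k1, fun h0 l n => ?_⟩
  have hB' := H.2.hrtW l hB
  have k3 := k2 h0 (true :: l)
  rw [e] at k3
  have b1 : Md.D.hom A (Md.PhiW l B) = 0 :=
    H.faith true hA hB' ((Md.Phi_adj _ _ _).2 (by simp only [PhiW_cons] at k3; omega))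
  have b2 : Md.D.hom (Md.PhiW l B) A = 0 :=
    H.faith true hB' hA ((Md.Phi_adj _ _ _).1 (by simp only [PhiW_cons] at k3; omega))
  rcases lt_trichotomy n 0 with hn | rfl | hn
  · exact hA.hom_neg hB' hn
  · simpa using b1
  · by_cases hn1 : n = 1
    · rw [hn1, Md.D.sh_one]; exact h1 l
    · rw [Md.D.cy_sh]
      by_cases hn2 : n = 2
      · rw [hn2]; simpa using b2
      · exact hB'.hom_neg hA (by omega)

/-- (E) for arbitrary objects, from faithfulness of one fusion functor. -/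
theorem GH.E (hM : Small M) (H : Md.GH)
    (hf : ∀ A B, Md.D.hom (Md.Phi true A) (Md.Phi true B) = 0 → Md.D.hom A B = 0)
    {A B : Md.D.Obj} (h : ∀ l (n : ℤ), Odd n → Md.D.hom (Md.PhiW l A) (Md.D.sh n B) = 0) :
    bf M (H.c (Md.D.cl A)) (H.c (Md.D.cl B)) ≤ 0 ∧
      (bf M (H.c (Md.D.cl A)) (H.c (Md.D.cl B)) = 0 →
        ∀ l n, Md.D.hom (Md.PhiW l A) (Md.D.sh n B) = 0) := by
  have e := fun l => H.1.form_even (A := A) (B := Md.PhiW l B)
    (fun n hn => Md.PhiW_swap.1 (fun l => h l n hn) l)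
  obtain ⟨k1, k2⟩ := H.bf_nonpos_of hM (A := A) (B := B) (fun l => (e l).1)
  refine ⟨k1, fun h0 l n => Md.PhiW_swap.2 (fun l => hf _ _ ?_) l⟩
  rw [Md.Phi_adj, Md.Phi_sh, Md.Phi_sh]
  exact (e (true :: true :: l)).2 (k2 h0 _) n

end Model

end Pool.Agent.HT
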