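import Pool.Agent.Lib.HT.Unit

set_option autoImplicit false

/-! Bounded t-structures given by their co-aisles. -/

namespace Pool.Agent.HT

universe u

variable {K : Type} [AddCommGroup K]

/-- A bounded t-structure, given by its co-aisle `D^{≥ 0}`. -/
@[ext] structure TS (D : TD.{u} K) where
  co : D.Obj → Prop
  sh_mem : ∀ Y, co Y → co (D.sh (-1) Y)
  trunc0 : ∀ Y, ∃ A B, (∀ W, co W → D.hom A W = 0) ∧ co B ∧ D.Ext A Y B
  bdd : ∀ Y, ∃ N : ℤ, co (D.sh (-N) Y) ∧ ∀ W, co W → D.hom (D.sh N Y) W = 0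

namespace TS

variable {D : TD.{u} K} (t : TS D)

/-- The co-aisle `D^{≥ -a} = D^{≥ 0}[a]`. -/
def V (a : ℤ) (Y : D.Obj) : Prop := t.co (D.sh (-a) Y)

/-- The aisle `D^{≤ -a} = D^{≤ 0}[a]`. -/
def U (a : ℤ) (Y : D.Obj) : Prop := ∀ W, t.V (a - 1) W → D.hom Y W = 0

/-- The heart. -/
def M (Y : D.Obj) : Prop := t.U 0 Y ∧ t.V 0 Y

variable {t}

lemma V_zero {Y : D.Obj} : t.V 0 Y ↔ t.co Y := by simp [V]

lemma V_sh {a : ℤ} (m : ℤ) {Y : D.Obj} : t.V (a + m) (D.sh m Y) ↔ t.V a Y := by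
  unfold V
  rw [D.sh_sh, show -(a + m) + m = -a by ring]

lemma U_sh {a : ℤ} (m : ℤ) {Y : D.Obj} : t.U (a + m) (D.sh m Y) ↔ t.U a Y := by
  constructor
  · intro h W hW
    rw [← D.hom_sh m]
    exact h _ (by rw [show a + m - 1 = a - 1 + m by ring]; exact (V_sh m).2 hW)
  · intro h W hW
    rw [D.hom_sh_left]
    refine h _ ((V_sh m).1 ?_)
    rw [show a - 1 + m = a + m - 1 by ring]; simpa using hW

lemma V.sh {a b : ℤ} (m : ℤ) (h : b = a + m) {Y : D.Obj} (hY : t.V a Y) : t.V b (D.sh m Y) :=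
  h ▸ (V_sh m).2 hY

lemma U.sh {a b : ℤ} (m : ℤ) (h : b = a + m) {Y : D.Obj} (hY : t.U a Y) : t.U b (D.sh m Y) :=
  h ▸ (U_sh m).2 hY

lemma V.of_sh {a b : ℤ} (m : ℤ) (h : b = a + m) {Y : D.Obj} (hY : t.V b (D.sh m Y)) : t.V a Y :=
  (V_sh m).1 (h ▸ hY)

lemma U.of_sh {a b : ℤ} (m : ℤ) (h : b = a + m) {Y : D.Obj} (hY : t.U b (D.sh m Y)) : t.U a Y :=
  (U_sh m).1 (h ▸ hY)

lemma U_one {Y : D.Obj} : t.U 1 Y ↔ ∀ W, t.co W → D.hom Y W = 0 := by simp [U, V]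

lemma V.mono {a b : ℤ} (hab : a ≤ b) {Y : D.Obj} (h : t.V a Y) : t.V b Y := by
  induction b, hab using Int.leInduction with
  | base => exact h
  | succ n _ ih =>
    have := t.sh_mem _ ih
    unfold V
    rwa [D.sh_sh, show -1 + -n = -(n + 1) by ring] at this

lemma U.mono {a b : ℤ} (hab : b ≤ a) {Y : D.Obj} (h : t.U a Y) : t.U b Y :=
  fun W hW => h W (hW.mono (by omega))

lemma hom_U_V {a b : ℤ} (hab : b < a) {A B : D.Obj} (hA : t.U a A) (hB : t.V b B) :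
    D.hom A B = 0 := hA B (hB.mono (by omega))

lemma trunc (t : TS D) (a : ℤ) (Y : D.Obj) :
    ∃ A B, t.U a A ∧ t.V (a - 1) B ∧ D.Ext A Y B := by
  obtain ⟨A, B, hA, hB, hE⟩ := t.trunc0 (D.sh (1 - a) Y)
  refine ⟨D.sh (a - 1) A, D.sh (a - 1) B, (U_one.2 hA).sh _ (by ring),
    (V_zero.2 hB).sh _ (by ring), ?_⟩
  simpa using (D.ext_sh (a - 1)).2 hE

lemma V_of_perp {a : ℤ} {Y : D.Obj} (h : ∀ A, t.U (a + 1) A → D.hom A Y = 0) : t.V a Y := by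
  obtain ⟨A, B, hA, hB, hE⟩ := t.trunc (a + 1) Y
  have h2 : D.hom A (D.sh (-1) B) = 0 :=
    hom_U_V (b := a - 1) (by omega) hA (hB.sh _ (by ring))
  have h3 := D.les A _ _ _ (D.rot' hE)
  have h1 := h A hA
  have h4 : A = D.zero := D.eq_zero _ (by omega)
  subst h4
  rw [D.eq_of_ext_zero _ _ hE]; simpa using hB

lemma V_iff {a : ℤ} {Y : D.Obj} : t.V a Y ↔ ∀ A, t.U (a + 1) A → D.hom A Y = 0 :=
  ⟨fun h _ hA => hom_U_V (by omega) hA h, V_of_perp⟩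

lemma U.zero {a : ℤ} : t.U a D.zero := fun W _ => D.zero_hom W

lemma V.zero {a : ℤ} : t.V a D.zero := V_of_perp (fun A _ => D.hom_zero A)

lemma M.zero : t.M D.zero := ⟨U.zero, V.zero⟩

lemma U.ext {a : ℤ} {A Y B : D.Obj} (hA : t.U a A) (hB : t.U a B) (h : D.Ext A Y B) :
    t.U a Y := fun W hW => by
  have := D.les' W h
  rw [hA W hW, hB W hW] at this; omega

lemma V.ext {a : ℤ} {A Y B : D.Obj} (hA : t.V a A) (hB : t.V a B) (h : D.Ext A Y B) :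
    t.V a Y := V_of_perp (fun W hW => by
  have := D.les W _ _ _ h
  rw [V_iff.1 hA W hW, V_iff.1 hB W hW] at this; omega)

lemma M.ext {A Y B : D.Obj} (hA : t.M A) (hB : t.M B) (h : D.Ext A Y B) : t.M Y :=
  ⟨hA.1.ext hB.1 h, hA.2.ext hB.2 h⟩

/-- In a triangle `A → Y → B`: `B ∈ Y * A[1]`. -/
lemma U.quot {a : ℤ} {A Y B : D.Obj} (hA : t.U (a - 1) A) (hY : t.U a Y) (h : D.Ext A Y B) :
    t.U a B := hY.ext (hA.sh 1 (by ring)) (D.rot1 h)

lemma V.quot {a : ℤ} {A Y B : D.Obj} (hA : t.V (a - 1) A) (hY : t.V a Y) (h : D.Ext A Y B) :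
    t.V a B := hY.ext (hA.sh 1 (by ring)) (D.rot1 h)

/-- In a triangle `A → Y → B`: `A ∈ B[-1] * Y`. -/
lemma U.sub {a : ℤ} {A Y B : D.Obj} (hB : t.U (a + 1) B) (hY : t.U a Y) (h : D.Ext A Y B) :
    t.U a A := (hB.sh (-1) (by ring)).ext hY (D.rot' h)

lemma V.sub {a : ℤ} {A Y B : D.Obj} (hB : t.V (a + 1) B) (hY : t.V a Y) (h : D.Ext A Y B) :
    t.V a A := (hB.sh (-1) (by ring)).ext hY (D.rot' h)

lemma eq_zero_of_U_V {a b : ℤ} (hab : b < a) {Y : D.Obj} (hU : t.U a Y) (hV : t.V b Y) :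
    Y = D.zero := D.eq_zero _ (hom_U_V hab hU hV)

lemma bounded (t : TS D) (Y : D.Obj) : ∃ N : ℤ, 0 ≤ N ∧ t.U (-N) Y ∧ t.V N Y := by
  obtain ⟨N, h1, h2⟩ := t.bdd Y
  have h3 : t.U (1 - N) Y := (U_one.2 h2).of_sh N (by ring)
  have h4 : t.V N Y := h1
  exact ⟨|N|, abs_nonneg N, h3.mono (by have := le_abs_self N; omega),
    h4.mono (le_abs_self N)⟩

lemma trunc_unique {a : ℤ} {A Y B A' B' : D.Obj} (h : D.Ext A Y B) (h' : D.Ext A' Y B')
    (hA : t.U a A) (hA' : t.U a A') (hB : t.V (a - 1) B) (hB' : t.V (a - 1) B') :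
    A = A' ∧ B = B' :=
  D.trunc_unique (U := {X | t.U a X}) (V := {X | t.V (a - 1) X}) (fun _ hA _ hB => hA _ hB)
    (fun X hX => by
      rw [← D.sh_one]; exact U.mono (a := a + 1) (by omega) (U.sh 1 rfl hX))
    (fun X hX => V.mono (a := a - 1 + -1) (by omega) (V.sh (-1) rfl hX))
    (fun _ _ _ hE hA hB => U.ext hA hB hE) (fun _ _ _ hE hA hB => V.ext hA hB hE)
    h h' hA hA' hB hB'

/-- Top cohomology: `Y ∈ U a` is an extension of `T[a]` by `U (a+1)`. -/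
lemma U.top {a : ℤ} {Y : D.Obj} (hY : t.U a Y) :
    ∃ A T, t.U (a + 1) A ∧ t.M T ∧ D.Ext A Y (D.sh a T) := by
  obtain ⟨A, B, hA, hB, hE⟩ := t.trunc (a + 1) Y
  have hBU : t.U a B := U.quot (hA.mono (by omega)) hY hE
  exact ⟨A, D.sh (-a) B, hA, ⟨hBU.sh _ (by ring), hB.sh _ (by ring)⟩, by simpa using hE⟩

/-- Bottom cohomology: `Y ∈ V a` is an extension of `V (a-1)` by `N[a]`. -/
lemma V.bot {a : ℤ} {Y : D.Obj} (hY : t.V a Y) :
    ∃ N B, t.M N ∧ t.V (a - 1) B ∧ D.Ext (D.sh a N) Y B := by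
  obtain ⟨A, B, hA, hB, hE⟩ := t.trunc a Y
  have hAV : t.V a A := V.sub (hB.mono (by omega)) hY hE
  exact ⟨D.sh (-a) A, B, ⟨hA.sh _ (by ring), hAV.sh _ (by ring)⟩, hB, by simpa using hE⟩

lemma U.top0 {Y : D.Obj} (hY : t.U 0 Y) : ∃ A T, t.U 1 A ∧ t.M T ∧ D.Ext A Y T := by
  simpa using hY.top

lemma V.bot0 {Y : D.Obj} (hY : t.V 0 Y) : ∃ N B, t.M N ∧ t.V (-1) B ∧ D.Ext N Y B := by
  simpa using hY.bot

/-- Maps to `V a` only see the quotient by `U (a+1)`. -/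
lemma hom_eq_of_U {a : ℤ} {A Y B W : D.Obj} (hA : t.U (a + 1) A) (hW : t.V a W)
    (h : D.Ext A Y B) : D.hom Y W = D.hom B W := by
  have h1 := D.les' W h
  have h2 := D.les' W (D.rot1 h)
  have h3 := hom_U_V (by omega) hA hW
  have h4 := hom_U_V (a := a + 2) (by omega) (hA.sh 1 (by ring)) hW
  omega

/-- Maps from `U a` only see the subobject with quotient in `V (a-1)`. -/
lemma hom_eq_of_V {a : ℤ} {A Y B W : D.Obj} (hB : t.V (a - 1) B) (hW : t.U a W)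
    (h : D.Ext A Y B) : D.hom W Y = D.hom W A := by
  have h1 := D.les W _ _ _ h
  have h2 := D.les W _ _ _ (D.rot' h)
  have h3 := hom_U_V (by omega) hW hB
  have h4 := hom_U_V (b := a - 2) (by omega) hW (hB.sh (-1) (by ring))
  omega

/-- Induction over the cohomology objects. -/
lemma ind (t : TS D) {P : D.Obj → Prop} (h0 : P D.zero)
    (hM : ∀ n T, t.M T → P (D.sh n T)) (hE : ∀ A Y B, D.Ext A Y B → P A → P B → P Y)
    (Y : D.Obj) : P Y := by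
  obtain ⟨N, -, h1, h2⟩ := t.bounded Y
  have key : ∀ k : ℕ, ∀ Y, t.U (N + 1 - k) Y → t.V N Y → P Y := by
    intro k
    induction k with
    | zero => intro Y hU hV; rw [eq_zero_of_U_V (by omega) hU hV]; exact h0
    | succ k ih =>
      intro Y hU hV
      obtain ⟨A, T, hA, hT, h⟩ := hU.top
      by_cases hk : N + 1 - ((k + 1 : ℕ) : ℤ) ≤ N
      · refine hE _ _ _ h (ih A (hA.mono (by push_cast; omega)) ?_) (hM _ _ hT)
        exact V.sub ((hT.2.sh _ rfl).mono (by omega)) hV h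
      · push_cast at hk; omega
  exact key (2 * N + 1).toNat Y (h1.mono (by omega)) h2

lemma M.hom_neg {A B : D.Obj} (hA : t.M A) (hB : t.M B) {n : ℤ} (hn : n < 0) :
    D.hom A (D.sh n B) = 0 := hom_U_V hn hA.1 (hB.2.sh n (by ring))

lemma M.hom_big {A B : D.Obj} (hA : t.M A) (hB : t.M B) {n : ℤ} (hn : 2 < n) :
    D.hom A (D.sh n B) = 0 := by rw [D.cy_sh]; exact hB.hom_neg hA (by omega)

lemma M.euler {A B : D.Obj} (hA : t.M A) (hB : t.M B) :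
    D.form (D.cl A) (D.cl B) = (D.hom A B : ℤ) - D.hom A (D.s B) + D.hom B A :=
  D.euler3 (fun _ hn => hA.hom_neg hB hn) (fun _ hn => hB.hom_neg hA hn)

lemma M.sh_eq_zero {A : D.Obj} {n : ℤ} (hn : n ≠ 0) (hA : t.M A) (hA' : t.M (D.sh n A)) :
    A = D.zero := by
  rcases lt_or_gt_of_ne hn with h | h
  · exact eq_zero_of_U_V (a := -n) (b := 0) (by omega) (hA'.1.of_sh n (by ring)) hA.2
  · exact eq_zero_of_U_V (a := 0) (b := -n) (by omega) hA.1 (hA'.2.of_sh n (by ring))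

/-- A non-zero map between objects of the heart has a non-zero image. -/
lemma M.image {A B : D.Obj} (hA : t.M A) (hB : t.M B) (h : D.hom A B ≠ 0) :
    ∃ N I C, t.M N ∧ t.M I ∧ t.M C ∧ I ≠ D.zero ∧ D.Ext N A I ∧ D.Ext I B C := by
  obtain ⟨Y, hY, h1, -⟩ := D.cone (D.sh (-1) B) A (by rw [D.s_sh]; simpa using h)
  have hYU : t.U (-1) Y := (hB.1.sh (-1) (by ring)).ext (hA.1.mono (by omega)) hY
  have hYV : t.V 0 Y := ((hB.2.sh (b := -1) (-1) (by ring)).mono (by omega)).ext hA.2 hY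
  obtain ⟨N, C', hN, hC', hE⟩ := hYV.bot0
  have hC : t.M (D.sh 1 C') :=
    ⟨(U.quot (a := -1) (hN.1.mono (by omega)) hYU hE).sh 1 (by ring), hC'.sh 1 (by ring)⟩
  have hY' : D.Ext Y A B := by simpa using D.rot1 hY
  obtain ⟨I, h2, h3⟩ := D.assoc _ _ _ _ _ hY' hE
  have hI : t.M I :=
    ⟨U.quot (hN.1.mono (by omega)) hA.1 h2, (hC'.mono (by omega)).ext hB.2 h3⟩
  refine ⟨N, I, D.sh 1 C', hN, hI, hC, ?_, h2, D.rot1 h3⟩
  rintro rfl
  have h4 : N = A := D.eq_of_ext_zero_right h2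
  subst h4
  have h5 := hom_eq_of_V (a := 0) (by simpa using hC') hA.1 hE
  have h7 := hA.hom_neg hB (n := -1) (by omega)
  omega

lemma M.hom_quot {N A I W : D.Obj} (hN : t.U 0 N) (hW : t.V 0 W) (h : D.Ext N A I) :
    D.hom I W ≤ D.hom A W := by
  have h1 := D.les' W (D.rot1 h)
  have h2 := hom_U_V (a := 1) (by omega) (hN.sh 1 (by ring)) hW
  omega

lemma M.hom_sub {I B C W : D.Obj} (hC : t.V 0 C) (hW : t.U 0 W) (h : D.Ext I B C) :
    D.hom W I ≤ D.hom W B := by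
  have h1 := D.les W _ _ _ (D.rot' h)
  have h2 := hom_U_V (b := -1) (by omega) hW (hC.sh (-1) (by ring))
  omega

/-- Simple objects of the heart. -/
structure Simple (t : TS D) (S : D.Obj) : Prop where
  mem : t.M S
  ne : S ≠ D.zero
  sub : ∀ A B, t.M A → t.M B → D.Ext A S B → A = D.zero ∨ B = D.zero

lemma Simple.sub_of_hom {S Y : D.Obj} (hS : t.Simple S) (hY : t.M Y) (h : D.hom S Y ≠ 0) :
    ∃ C, t.M C ∧ D.Ext S Y C := by
  obtain ⟨N, I, C, hN, hI, hC, h0, h1, h2⟩ := hS.mem.image hY h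
  rcases hS.sub _ _ hN hI h1 with h3 | h3
  · subst h3
    rw [← D.eq_of_ext_zero _ _ h1] at h2
    exact ⟨C, hC, h2⟩
  · exact absurd h3 h0

lemma Simple.quot_of_hom {S Y : D.Obj} (hS : t.Simple S) (hY : t.M Y) (h : D.hom Y S ≠ 0) :
    ∃ N, t.M N ∧ D.Ext N Y S := by
  obtain ⟨N, I, C, hN, hI, hC, h0, h1, h2⟩ := hY.image hS.mem h
  rcases hS.sub _ _ hI hC h2 with h3 | h3
  · exact absurd h3 h0
  · subst h3
    rw [D.eq_of_ext_zero_right h2] at h1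
    exact ⟨N, hN, h1⟩

lemma Simple.eq_of_hom {S S' : D.Obj} (hS : t.Simple S) (hS' : t.Simple S')
    (h : D.hom S S' ≠ 0) : S = S' := by
  obtain ⟨C, hC, hE⟩ := hS.sub_of_hom hS'.mem h
  rcases hS'.sub _ _ hS.mem hC hE with h1 | h1
  · exact absurd h1 hS.ne
  · subst h1; exact D.eq_of_ext_zero_right hE

lemma V_of_U {t t' : TS D} {a b : ℤ} (h : ∀ Y, t.U (a + 1) Y → t'.U (b + 1) Y) (Y : D.Obj)
    (hY : t'.V b Y) : t.V a Y := V_of_perp (fun A hA => hom_U_V (by omega) (h A hA) hY)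

lemma U_of_V {t t' : TS D} {a b : ℤ} (h : ∀ Y, t.V (a - 1) Y → t'.V (b - 1) Y) (Y : D.Obj)
    (hY : t'.U b Y) : t.U a Y := fun W hW => hY W (h W hW)

lemma V_shift {t t' : TS D} {a b : ℤ} (h : ∀ Y, t.V a Y → t'.V b Y) (m : ℤ) (Y : D.Obj)
    (hY : t.V (a + m) Y) : t'.V (b + m) Y :=
  (h _ (hY.sh (-m) (by ring))).of_sh (-m) (by ring)

lemma U_shift {t t' : TS D} {a b : ℤ} (h : ∀ Y, t.U a Y → t'.U b Y) (m : ℤ) (Y : D.Obj)
    (hY : t.U (a + m) Y) : t'.U (b + m) Y :=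
  (h _ (hY.sh (-m) (by ring))).of_sh (-m) (by ring)

/-- The shifted t-structure, with co-aisle `D^{≥ 0}[n]`. -/
def sh (t : TS D) (n : ℤ) : TS D where
  co := t.V n
  sh_mem Y h := (h.sh (-1) rfl).mono (by omega)
  trunc0 Y := by
    obtain ⟨A, B, hA, hB, hE⟩ := t.trunc (n + 1) Y
    exact ⟨A, B, fun W hW => hom_U_V (by omega) hA hW, by simpa using hB, hE⟩
  bdd Y := by
    obtain ⟨N, h0, h1, h2⟩ := t.bounded Y
    refine ⟨N + |n| + 1, (h2.sh _ rfl).mono (by have := neg_abs_le n; omega), fun W hW => ?_⟩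
    exact hom_U_V (by have := le_abs_self n; omega) (h1.sh _ rfl) hW

lemma sh_V (t : TS D) (n a : ℤ) (Y : D.Obj) : (t.sh n).V a Y ↔ t.V (a + n) Y :=
  ⟨fun h => V.of_sh (-a) (by ring) h, fun h => V.sh (t := t) (-a) (by ring) h⟩

lemma sh_U (t : TS D) (n a : ℤ) (Y : D.Obj) : (t.sh n).U a Y ↔ t.U (a + n) Y := by
  unfold U
  simp only [sh_V]
  rw [show a - 1 + n = a + n - 1 by ring]

lemma sh_M (t : TS D) (n : ℤ) (Y : D.Obj) : (t.sh n).M Y ↔ t.M (D.sh (-n) Y) := by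
  unfold M
  rw [sh_U, sh_V]
  exact ⟨fun h => ⟨h.1.sh _ (by ring), h.2.sh _ (by ring)⟩,
    fun h => ⟨h.1.of_sh _ (by ring), h.2.of_sh _ (by ring)⟩⟩

/-- The opposite t-structure. -/
def op (t : TS D) : TS D.op where
  co := t.U 0
  sh_mem Y h := by rw [D.op_sh]; exact (h.sh _ rfl).mono (by omega)
  trunc0 Y := by
    obtain ⟨A, B, hA, hB, hE⟩ := t.trunc 0 Y
    exact ⟨B, A, fun W hW => hW B hB, hA, hE⟩
  bdd Y := by
    obtain ⟨N, h0, h1, h2⟩ := t.bounded Y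
    refine ⟨N + 1, ?_, fun W hW => ?_⟩
    · rw [D.op_sh]; exact (h1.sh _ rfl).mono (by omega)
    · rw [D.op_sh]; exact hW _ (h2.sh _ (by ring))

lemma op_V (t : TS D) (a : ℤ) (Y : D.Obj) : t.op.V a Y ↔ t.U (-a) Y := by
  show t.U 0 (D.op.sh (-a) Y) ↔ _
  rw [D.op_sh]
  exact ⟨fun h => h.of_sh _ (by ring), fun h => h.sh _ (by ring)⟩

lemma op_U (t : TS D) (a : ℤ) (Y : D.Obj) : t.op.U a Y ↔ t.V (-a) Y := by
  rw [V_iff]
  unfold U
  simp only [op_V]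
  rw [show -(a - 1) = -a + 1 by ring]
  rfl

lemma op_M (t : TS D) (Y : D.Obj) : t.op.M Y ↔ t.M Y := by
  unfold M
  rw [op_U, op_V, neg_zero, and_comm]

/-- The tilt at a torsion class `T` of the heart: co-aisle `D^{≥ 0} ∩ T^⊥`. -/
def tilt (t : TS D) (T : D.Obj → Prop)
    (hT : ∀ Y, t.M Y → ∃ A B, (∀ W, t.V 0 W → (∀ X, T X → D.hom X W = 0) → D.hom A W = 0) ∧
      t.V 0 B ∧ (∀ X, T X → D.hom X B = 0) ∧ D.Ext A Y B)
    (hU : ∀ X, T X → t.U 0 X) : TS D where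
  co Y := t.V 0 Y ∧ ∀ X, T X → D.hom X Y = 0
  sh_mem Y h := ⟨(h.1.sh (-1) rfl).mono (by omega),
    fun X hX => hom_U_V (by omega) (hU X hX) (h.1.sh (b := -1) (-1) (by ring))⟩
  trunc0 Y := by
    obtain ⟨A, B, hA, hB, hE⟩ := t.trunc 1 Y
    obtain ⟨N, C, hN, hC, hE'⟩ := V.bot0 (t := t) (Y := B) (by simpa using hB)
    obtain ⟨A', B', hA', hB', h0, hE''⟩ := hT N hN
    obtain ⟨F, h1, h2⟩ := D.assoc _ _ _ _ _ hE' hE''
    obtain ⟨G, h3, h4⟩ := D.assoc' hE h1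
    refine ⟨G, F, fun W hW => ?_, ⟨hB'.ext (hC.mono (by omega)) h2, fun X hX => ?_⟩, h4⟩
    · have e1 := D.les' W h3
      rw [hom_U_V (by omega) hA hW.1, hA' W hW.1 hW.2] at e1
      omega
    · have e1 := D.les X _ _ _ h2
      rw [h0 X hX, hom_U_V (by omega) (hU X hX) hC] at e1
      omega
  bdd Y := by
    obtain ⟨N, h0, h1, h2⟩ := t.bounded Y
    have h3 : t.V (-1) (D.sh (-(N + 1)) Y) := h2.sh _ (by ring)
    exact ⟨N + 1, ⟨h3.mono (by omega), fun X hX => hom_U_V (by omega) (hU X hX) h3⟩,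
      fun W hW => hom_U_V (a := 1) (by omega) (h1.sh _ (by ring)) hW.1⟩

end TS

namespace Heart

variable {D : TD.{u} K} {ι : Type}

/-- The t-structure of a labelled heart. -/
def ts (H : Heart D ι) : TS D where
  co := H.V 0
  sh_mem Y h := ((V_sh (-1)).2 h).mono (by omega)
  trunc0 Y := by
    obtain ⟨A, B, hA, hB, hE⟩ := H.trunc 1 Y
    exact ⟨A, B, fun W hW => hom_U_V (by omega) hA hW, by simpa using hB, hE⟩
  bdd Y := by
    obtain ⟨N, h1, h2⟩ := H.bounded Y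
    exact ⟨N + 1, ((V_sh (-(N + 1))).2 h2).mono (by omega), fun W hW =>
      hom_U_V (a := -N + (N + 1)) (by omega) ((U_sh _).2 h1) hW⟩

lemma ts_V (H : Heart D ι) (a : ℤ) (Y : D.Obj) : H.ts.V a Y ↔ H.V a Y := by
  show H.V 0 (D.sh (-a) Y) ↔ _
  rw [← V_sh (a := a) (-a), add_neg_cancel]

lemma ts_U (H : Heart D ι) (a : ℤ) (Y : D.Obj) : H.ts.U a Y ↔ H.U a Y := by
  unfold TS.U
  simp only [ts_V]
  exact ⟨fun h => U_iff.2 (fun _ _ hn => h _ (Lv.simple (by omega))),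
    fun h W hW => hom_U_V (by omega) h hW⟩

lemma ts_M (H : Heart D ι) (Y : D.Obj) : H.ts.M Y ↔ H.M Y := by
  rw [TS.M, ts_U, ts_V, M_iff]

lemma ts_simple (H : Heart D ι) (i : ι) : H.ts.Simple (H.S i) where
  mem := (H.ts_M _).2 (M.simple H i)
  ne h0 := by
    have := H.one i
    rw [h0, D.hom_zero] at this
    omega
  sub A B hA hB h := ((H.ts_M _).1 hA).sub_simple ((H.ts_M _).1 hB) h

end Heart

end Pool.Agent.HT
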