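import Pool.Agent.Lib.HT.Centre2
import Pool.Agent.Lib.HT.RealForm
import Pool.Agent.Lib.HT.Emb
import Pool.Agent.Lib.HT.TS

set_option autoImplicit false
set_option linter.unusedSectionVars false

/-! Facts on tilts and on the frames of an Artin group inside the model with one more vertex. -/

namespace Pool.Agent.HT

open Pool.Agent.Lib.MP_6d85b4_al

universe u

namespace Heart

variable {K : Type} [AddCommGroup K] {D : TD.{u} K} {ι : Type}

lemma Lv.pieces {H : Heart D ι} {P : ι → ℤ → Prop} {a : ℤ} {A Y B : D.Obj} (h : H.Lv P Y)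
    (hE : D.Ext A Y B) (hA : H.U a A) (hB : H.V (a - 1) B) :
    H.Lv (fun i n => P i n ∧ a ≤ n) A ∧ H.Lv (fun i n => P i n ∧ n < a) B := by
  obtain ⟨A', B', hA', hB', hE'⟩ := h.trunc a
  obtain ⟨e1, e2⟩ := TS.trunc_unique (t := H.ts) hE hE' ((H.ts_U _ _).2 hA)
    ((H.ts_U _ _).2 (hA'.mono (fun _ _ h => h.2))) ((H.ts_V _ _).2 hB)
    ((H.ts_V _ _).2 (hB'.mono (fun _ _ h => by omega)))
  rw [e1, e2]; exact ⟨hA', hB'⟩

lemma Lv.mul_eq_zero {H : Heart D ι} {P : ι → Prop} {Q : ℤ → Prop} {Y : D.Obj}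
    (h : H.Lv (fun i n => P i ∧ Q n) Y) {j : ι} (hj : ¬ P j) : H.mul Y j = 0 := by
  refine Lv.ind (R := fun Y => H.mul Y j = 0) (mul_zero j) ?_ ?_ h
  · intro i n hi
    have := mul_ne (H := H) (i := i) (j := j) (fun e => hj (e ▸ hi.1))
    unfold mul at this ⊢
    rw [D.cl_sh, map_zsmul, Finsupp.smul_apply, this, smul_zero]
  · intro A Y B hE hA hB
    rw [mul_ext hE, hA, hB]; rfl

lemma Lv.serre {H : Heart D ι} {P : ι → Prop} {A Y B : D.Obj}
    (h : H.Lv (fun i n => P i ∧ n = 0) Y) (hA : H.M A) (hB : H.M B) (hE : D.Ext A Y B) :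
    H.Lv (fun i n => P i ∧ n = 0) A ∧ H.Lv (fun i n => P i ∧ n = 0) B := by
  have key : ∀ j, ¬ P j → H.mul A j = 0 ∧ H.mul B j = 0 := fun j hj => by
    have h1 := h.mul_eq_zero hj
    rw [mul_ext hE] at h1
    have := hA.mul_nonneg j
    have := hB.mul_nonneg j
    omega
  refine ⟨hA.supp.mono (fun i n hi => ⟨?_, hi.1⟩), hB.supp.mono (fun i n hi => ⟨?_, hi.1⟩)⟩
  · by_contra hc; have := (key i hc).1; omega
  · by_contra hc; have := (key i hc).2; omega

lemma IsUp.Lv_iff {H H' : Heart D ι} {R : Finset ι} (h : H.IsUp R H') {P : ι → ℤ → Prop}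
    (hP : ∀ i ∈ R, ∀ n, P i n) (Y : D.Obj) : H.Lv P Y ↔ H'.Lv P Y := by
  constructor
  · intro hY
    have hR : ∀ i ∈ R, ∀ n, H'.Lv P (D.sh n (H.S i)) := fun i hi n => by
      have : D.sh n (H.S i) = D.sh (n - 1) (H'.S i) := by rw [h.mem i hi, D.sh_s]; simp
      rw [this]; exact Lv.simple (hP i hi _)
    refine Lv.ind Lv.zero (fun i n hi => ?_) (fun A Y B hE hA hB => Lv.ext hA hB hE) hY
    by_cases h1 : i ∈ R
    · exact hR i h1 n
    · obtain ⟨A, hA, hE, -⟩ := h.not_mem i h1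
      refine Lv.ext (Lv.simple hi) ?_ ((D.ext_sh n).2 (D.rot1 hE))
      rw [D.sh_sh]
      have hA' : H.Lv (fun i _ => i ∈ R) (D.sh (n + 1) A) := hA.sh _ (fun _ _ h => h.1)
      exact Lv.ind Lv.zero (fun j m hj => hR j hj m) (fun A Y B hE hA hB => Lv.ext hA hB hE) hA'
  · intro hY
    refine Lv.ind Lv.zero (fun i n hi => ?_) (fun A Y B hE hA hB => Lv.ext hA hB hE) hY
    by_cases h1 : i ∈ R
    · rw [h.mem i h1, D.sh_s]; exact Lv.simple (hP i h1 _)
    · obtain ⟨A, hA, hE, -⟩ := h.not_mem i h1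
      exact Lv.ext (hA.sh n (fun j _ hj => hP j hj.1 _)) (Lv.simple hi) ((D.ext_sh n).2 hE)

/-- The co-aisle of an upward tilt. -/
lemma IsUp.V_star [Fintype ι] {H H' : Heart D ι} {R : Finset ι} (h : H.IsUp R H') (Y : D.Obj) :
    H'.V 0 Y ↔ ∃ A B, H.Lv (fun i n => i ∈ R ∧ n = 1) A ∧ H.V 0 B ∧ D.Ext A Y B := by
  constructor
  · intro hY
    obtain ⟨A, B, hA, hB, hE⟩ := H.trunc 1 Y
    have hB0 : H.V 0 B := by simpa using hB
    have hBm : H.V (-1) (D.sh (-1) B) := by simpa using (V_sh (-1)).2 hB0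
    have hA' : H'.V 0 A := Lv.ext ((h.V_le _ _ hBm).mono (by omega)) hY (D.rot' hE)
    have hN : H.M (D.sh (-1) A) := M_iff.2
      ⟨by simpa using (U_sh (-1)).2 hA, by simpa using (V_sh (-1)).2 (h.le_V 0 A hA')⟩
    obtain ⟨T, F, hT, hF, h0, hE'⟩ := M.torsionFree (F := H.Lv (fun i n => i ∈ R ∧ n = 0))
      Lv.zero (fun _ hX => hX.mono (fun _ _ h => h.2))
      (fun I B C hI hC hE hB => (hB.serre hI hC hE).1)
      (fun _ _ _ hE hA hB => Lv.ext hA hB hE) hN
    have hTU : H'.U 0 T := (h.U_iff T).2 ⟨(M_iff.1 hT).1, fun i hi => h0 _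
      (by simpa using Lv.simple (H := H) (P := fun i n => i ∈ R ∧ n = 0) (n := 0) ⟨hi, rfl⟩)⟩
    have h1 : D.hom T (D.sh (-1) A) = 0 :=
      hom_U_V (b := -1) (by omega) hTU (by simpa using (V_sh (-1)).2 hA')
    have h2 := D.les T _ _ _ (D.rot' hE')
    have h3 := hT.hom_neg (hF.mono (fun _ _ h => h.2)) (n := -1) (by omega)
    have h4 : T = D.zero := D.eq_zero _ (by omega)
    rw [h4] at hE'
    rw [← D.eq_of_ext_zero _ _ hE'] at hF
    refine ⟨A, B, ?_, hB0, hE⟩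
    simpa using hF.sh (Q := fun i n => i ∈ R ∧ n = 1) 1 (fun _ _ h => ⟨h.1, by omega⟩)
  · rintro ⟨A, B, hA, hB, hE⟩
    refine Lv.ext ?_ (h.V_le 0 B hB) hE
    refine Lv.ind Lv.zero ?_ (fun A Y B hE hA hB => Lv.ext hA hB hE) hA
    rintro i n ⟨hi, rfl⟩
    rw [D.sh_one, ← h.mem i hi]
    exact (M_iff.1 (M.simple H' i)).2

end Heart

variable {S : Type} [Fintype S] [DecidableEq S] {M : CoxeterMatrix S}

/-- Multiplicities in a word of fusion functors applied to a simple. -/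
def nW (F : List Bool) (a : Irr) : Irr → ℤ :=
  F.foldr (fun e v b => ∑ c, nF e b c * v c) (fun b => if a = b then 1 else 0)

lemma nW_pos (a b : Irr) :
    0 < nW [true, true, false, false] a b ∨ 0 < nW [true, false, false] a b := by
  revert a b; decide

namespace Model

variable {Md : Model (fun s t => M s t)}

lemma GH.mul_Phi (H : Md.GH) (e : Bool) (Y : Md.D.Obj) (x : S × Irr) :
    H.1.mul (Md.Phi e Y) x = ∑ c, nF e x.2 c * H.1.mul Y (x.1, c) := by
  obtain ⟨y, hy⟩ := H.L.surjective (Md.D.cl Y)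
  simp only [← GH.L_symm_apply]
  rw [Md.cl_Phi, ← hy, H.phi_L, LinearEquiv.symm_apply_apply, LinearEquiv.symm_apply_apply,
    phi_apply]

lemma GH.mul_PhiW (H : Md.GH) (F : List Bool) (s : S) (a b : Irr) :
    H.1.mul (Md.PhiW F (H.1.S (s, a))) (s, b) = nW F a b := by
  induction F generalizing b with
  | nil =>
    by_cases h : a = b
    · subst h; simp [nW, Heart.mul_self]
    · simp [nW, h, Heart.mul_ne (H := H.1) (i := (s, a)) (j := (s, b)) (by simpa using h)]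
  | cons e F ih =>
    show H.1.mul (Md.Phi e (Md.PhiW F _)) _ = ∑ c, nF e b c * nW F a c
    rw [GH.mul_Phi]
    simp only [ih]

lemma GH.Lv_PhiW (H : Md.GH) (F : List Bool) {P : S → ℤ → Prop} {Y : Md.D.Obj}
    (hY : H.1.Lv (fun x n => P x.1 n) Y) : H.1.Lv (fun x n => P x.1 n) (Md.PhiW F Y) := by
  induction F with
  | nil => exact hY
  | cons e F ih => exact H.2.Lv e ih

lemma GH.blk_PhiW (H : Md.GH) (F : List Bool) (x : S × Irr) :
    H.1.Lv (fun y n => y ∈ blk x.1 ∧ n = 0) (Md.PhiW F (H.1.S x)) := by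
  have h0 : H.1.Lv (fun y n => y.1 = x.1 ∧ n = 0) (H.1.S x) := by
    simpa using Heart.Lv.simple (H := H.1) (P := fun y n => y.1 = x.1 ∧ n = 0) (i := x) (n := 0)
      ⟨rfl, rfl⟩
  exact (H.Lv_PhiW F (P := fun s n => s = x.1 ∧ n = 0) h0).mono
    (fun _ _ h => ⟨mem_blk.2 h.1, h.2⟩)

lemma GH.hom_PhiW (H : Md.GH) (s : S) (a b : Irr) :
    ∃ F, Md.D.hom (H.1.S (s, b)) (Md.PhiW F (H.1.S (s, a))) ≠ 0 := by
  have key : ∀ F, 0 < nW F a b → Md.D.hom (H.1.S (s, b)) (Md.PhiW F (H.1.S (s, a))) ≠ 0 := by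
    intro F hF h0
    have h1 := (H.2.orth s).hom_R (H.blk_PhiW F (s, a))
    have h2 := H.mul_PhiW F s a b
    unfold Heart.mul at h2
    rw [h1, sum_blk] at h2
    simp only [map_sum, map_zsmul, Module.Basis.repr_self] at h2
    simp [Finsupp.single_apply, h0] at h2
    omega
  rcases nW_pos a b with h | h
  · exact ⟨_, key _ h⟩
  · exact ⟨_, key _ h⟩

/-- Every simple of a block is a direct summand of a fusion image of any other one. -/
lemma GH.summand (H : Md.GH) (s : S) (a b : Irr) : ∃ F, ∀ W,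
    Md.D.hom (H.1.S (s, b)) W ≤ Md.D.hom (Md.PhiW F (H.1.S (s, a))) W ∧
      Md.D.hom W (H.1.S (s, b)) ≤ Md.D.hom W (Md.PhiW F (H.1.S (s, a))) := by
  obtain ⟨F, hF⟩ := H.hom_PhiW s a b
  have hL := H.blk_PhiW F (s, a)
  obtain ⟨C, hC, hE⟩ := Heart.M.sub_of_hom (hL.mono (fun _ _ h => h.2)) hF
  have hC' := (hL.serre (Heart.M.simple H.1 (s, b)) hC hE).2
  have h0 : Md.D.hom C (Md.D.s (H.1.S (s, b))) = 0 :=
    Heart.Lv.hom_left (by
      rintro i n ⟨hi, rfl⟩
      simpa using H.2.orth s i hi (s, b) (mem_blk.2 rfl)) hC'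
  refine ⟨F, fun W => ⟨?_, ?_⟩⟩
  · rw [Md.D.split_hom' h0 hE]; omega
  · rw [Md.D.split_hom h0 hE]; omega

lemma c_act (hM : Small M) (H : Md.GH) (a : Art M) (y : KK S) :
    H.c y = rho M (pr M a) ((act hM H a).c y) := by
  obtain ⟨z, rfl⟩ := (act hM H a).L.surjective y
  rw [GH.c, GH.c, LinearEquiv.symm_apply_apply, L_act, LinearEquiv.symm_apply_apply, ev_krho]

lemma GH.c_S (H : Md.GH) (x : S × Irr) : H.c (Md.D.cl (H.1.S x)) = fp x.2 • al x.1 := by
  rw [H.1.cl_S, ← GH.L_single, GH.c, LinearEquiv.symm_apply_apply, ev_single]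

lemma GH.c_add (H : Md.GH) (x y : KK S) : H.c (x + y) = H.c x + H.c y := by simp [GH.c]

lemma GH.c_apply (H : Md.GH) (Y : Md.D.Obj) (s : S) :
    H.c (Md.D.cl Y) s = ∑ a, fp a * H.1.mul Y (s, a) := rfl

lemma GH.c_eq_zero (H : Md.GH) {P : S → Prop} {Y : Md.D.Obj} (hY : H.1.Lv (fun x _ => P x.1) Y)
    {s : S} (hs : ¬ P s) : H.c (Md.D.cl Y) s = 0 := by
  rw [GH.c_apply]
  refine Finset.sum_eq_zero (fun a _ => ?_)
  have := Heart.Lv.mul_eq_zero (P := fun x : S × Irr => P x.1) (Q := fun _ => True)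
    (hY.mono (fun _ _ h => ⟨h, trivial⟩)) (j := (s, a)) hs
  rw [this]; simp

lemma GH.ht_pos (H : Md.GH) {Y : Md.D.Obj} (hY : H.1.M Y) (h0 : Y ≠ Md.D.zero) :
    0 < ∑ s, H.c (Md.D.cl Y) s := by
  obtain ⟨x, B, hB, hE⟩ := hY.exists_sub h0
  rw [Md.D.cl_ext _ _ _ hE, GH.c_add, GH.c_S]
  simp only [Pi.add_apply, Finset.sum_add_distrib]
  have h1 : 0 ≤ ∑ s, H.c (Md.D.cl B) s := Finset.sum_nonneg (fun s _ => H.c_M hB s)
  have h2 : ∑ s, (fp x.2 • al x.1) s = fp x.2 := by simp [al, Pi.single_apply]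
  have := fp_pos x.2
  linarith

end Model

/-- The embedding of a diagram in the diagram with one more vertex. -/
def plusE (M : CoxeterMatrix S) : Emb M (plus M) where
  e := some
  inj := Option.some_injective _
  eq _ _ := rfl

lemma incl_eq (a : Art M) : incl M a = (plusE M).A a := by
  have : incl M = (plusE M).A := PresentedGroup.ext (fun s => by
    show incl M (gen M s) = (plusE M).A (gen M s)
    rw [incl_gen, Emb.A_gen]; rfl)
  rw [this]

lemma pr_incl (a : Art M) : pr (plus M) (incl M a) = (plusE M).W (pr M a) := by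
  rw [incl_eq, Emb.pr_A]

lemma cc_plus_none (s : S) : cc (plus M) none (some s) = 1 := by
  rw [cc, plus_none_some]; simp

lemma art_ind_iff {p : Art M → Prop} (h1 : p 1) (hs : ∀ a s, p a ↔ p (a * gen M s)) (a : Art M) :
    p a := by
  have key : ∀ (g : FreeGroup S) (b : Art M), p b → p (b * PresentedGroup.mk (rels M) g) := by
    intro g
    induction g using FreeGroup.induction_on with
    | C1 => intro b hb; simpa using hb
    | of s => intro b hb; exact (hs b s).1 hb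
    | inv_of s _ =>
      intro b hb
      refine (hs _ s).2 ?_
      rw [map_inv, mul_assoc]
      have : (PresentedGroup.mk (rels M) (FreeGroup.of s))⁻¹ * gen M s = 1 := inv_mul_cancel _
      rwa [this, mul_one]
    | mul g g' ih ih' => intro b hb; rw [map_mul, ← mul_assoc]; exact ih' _ (ih _ hb)
  induction a using PresentedGroup.induction_on with
  | _ g => simpa using key g 1 h1

namespace Model

variable (hM : Small M) {Md : Model (fun x y => plus M x y)} (H : Md.GH)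

/-- The frame of an element of the Artin group. -/
noncomputable def fr (x : Art M) : Md.GH := act (small_plus hM) H (incl M x)

lemma fr_one : fr hM H 1 = H := by rw [fr, map_one, act_one]

lemma fr_up (x : Art M) (s : S) :
    (fr hM H x).1.IsUp (blk (some s)) (fr hM H (x * gen M s)).1 := by
  unfold fr
  rw [map_mul, act_mul, incl_gen]
  exact isUp_act _ _ _

lemma fr_Lv (x : Art M) (Q : ℤ → Prop) (Y : Md.D.Obj) :
    H.1.Lv (fun i n => i.1 ≠ none ∨ Q n) Y ↔ (fr hM H x).1.Lv (fun i n => i.1 ≠ none ∨ Q n) Y := by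
  induction x using art_ind_iff with
  | h1 => rw [fr_one]
  | hs a s =>
    rw [(fr_up hM H a s).Lv_iff (P := fun i n => i.1 ≠ none ∨ Q n)
      (fun i hi _ => Or.inl (by rw [mem_blk.1 hi]; simp)) Y]

lemma fr_D (x : Art M) (Y : Md.D.Obj) :
    H.1.Lv (fun i _ => i.1 ≠ none) Y ↔ (fr hM H x).1.Lv (fun i _ => i.1 ≠ none) Y := by
  simpa using fr_Lv hM H x (fun _ => False) Y

lemma fr_c (x : Art M) (y : KK (Option S)) :
    H.c y = rho (plus M) ((plusE M).W (pr M x)) ((fr hM H x).c y) := by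
  rw [← pr_incl]; exact c_act _ _ _ _

lemma fr_c_none (x : Art M) (y : KK (Option S)) : H.c y none = (fr hM H x).c y none := by
  rw [fr_c hM H x]
  exact (plusE M).rho_out _ _ (fun s => by simp [plusE])

lemma fr_c_S (x : Art M) (s : S) (a : Irr) :
    H.c (Md.D.cl ((fr hM H x).1.S (some s, a))) =
      fp a • (plusE M).ext (rho M (pr M x) (al s)) := by
  rw [fr_c hM H x, GH.c_S, map_smul, ← Emb.rho_ext, Emb.ext_al]; rfl

/-- Axiom (Z). -/
lemma fr_Z (x : Art M) {z : S → ℝ} (hz : Pos z) (h : ∀ s, 0 ≤ ip M s z) {N : Md.D.Obj}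
    (hN : (fr hM H x).1.M N) :
    (∑ s, z s) * H.c (Md.D.cl N) none ≤
      bf (plus M) ((plusE M).ext (rho M (pr M x) z)) (H.c (Md.D.cl N)) := by
  rw [fr_c_none hM H x, fr_c hM H x (Md.D.cl N), ← Emb.rho_ext, bf_rho, bf_symm, bf,
    Fintype.sum_option]
  have h1 : ip (plus M) none ((plusE M).ext z) = ∑ s, z s := by
    rw [Emb.ip_ext']
    exact Finset.sum_congr rfl (fun s _ => by
      show z s * cc (plus M) none (some s) = _
      rw [cc_plus_none, mul_one])
  have h2 : 0 ≤ ∑ s, (fr hM H x).c (Md.D.cl N) (some s) *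
      ip (plus M) (some s) ((plusE M).ext z) :=
    Finset.sum_nonneg (fun s _ => mul_nonneg ((fr hM H x).c_M hN _) (by
      have := (plusE M).ip_ext s z
      exact le_of_le_of_eq (h s) this.symm))
  rw [h1]; linarith [mul_comm (∑ s, z s) ((fr hM H x).c (Md.D.cl N) none)]

/-- Axiom (O). -/
lemma fr_O (x : Art M) (a : Irr) {A B N C : Md.D.Obj} (hE : Md.D.Ext A (H.1.S (none, a)) B)
    (hA : (fr hM H x).1.U 1 A) (hB : (fr hM H x).1.V 0 B) (hE' : Md.D.Ext N B C)
    (hN : (fr hM H x).1.U 0 N) (hC : (fr hM H x).1.V (-1) C) : 0 < H.c (Md.D.cl N) none := by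
  have h0 : (fr hM H x).1.Lv (fun i n => i.1 ≠ none ∨ n = 0) (H.1.S (none, a)) :=
    (fr_Lv hM H x (fun n => n = 0) _).1 ((Heart.M.simple H.1 _).mono (fun _ _ h => Or.inr h))
  obtain ⟨h1, h2⟩ := h0.pieces hE hA (by simpa using hB)
  obtain ⟨-, h3⟩ := h2.pieces hE' hN (by simpa using hC)
  have e1 : H.c (Md.D.cl A) none = 0 := H.c_eq_zero (P := fun s => s ≠ none)
    ((fr_D hM H x A).2 (h1.mono (fun _ _ h => h.1.resolve_right (by omega)))) (by simp)
  have e2 : H.c (Md.D.cl C) none = 0 := H.c_eq_zero (P := fun s => s ≠ none)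
    ((fr_D hM H x C).2 (h3.mono (fun _ _ h => h.1.1.resolve_right (by omega)))) (by simp)
  have e3 := congrFun (H.c_S (none, a)) none
  rw [Md.D.cl_ext _ _ _ hE, Md.D.cl_ext _ _ _ hE', GH.c_add, GH.c_add] at e3
  simp only [Pi.add_apply, Pi.smul_apply, al_self, smul_eq_mul, mul_one, e1, e2] at e3
  have := fp_pos a
  linarith

end Model

end Pool.Agent.HT
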