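import Pool.Agent.Lib.HT.Centre2

set_option autoImplicit false
set_option linter.unusedSectionVars false

/-! Peeling of negative words and freeness from connectivity. -/

namespace Pool.Agent.HT

open Pool.Agent.Lib.MP_6d85b4_al CoxeterSystem

universe u

lemma Heart.IsUp.Lv_iff {K : Type} [AddCommGroup K] {D : TD.{u} K} {ι : Type}
    {H H' : Heart D ι} {R : Finset ι} (h : H.IsUp R H') {P : ι → ℤ → Prop}
    (hP : ∀ i ∈ R, ∀ n, P i n) {Y : D.Obj} : H'.Lv P Y ↔ H.Lv P Y := by
  constructor
  · intro hY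
    refine Heart.Lv.ind (R := fun Y => H.Lv P Y) Heart.Lv.zero ?_
      (fun A Y B hE hA hB => Heart.Lv.ext hA hB hE) hY
    intro i n hn
    by_cases hi : i ∈ R
    · rw [h.mem i hi, D.sh_s]; exact Heart.Lv.simple (hP i hi _)
    · obtain ⟨A, hA, hE, -⟩ := h.not_mem i hi
      exact Heart.Lv.ext (hA.sh n (fun j _ h => hP j h.1 _)) (Heart.Lv.simple hn)
        ((D.ext_sh n).2 hE)
  · intro hY
    have hR : ∀ i ∈ R, ∀ n, H'.Lv P (D.sh n (H.S i)) := fun i hi n => by
      have e : D.sh n (H.S i) = D.sh (n - 1) (H'.S i) := by rw [h.mem i hi, D.sh_s]; simp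
      rw [e]; exact Heart.Lv.simple (hP i hi _)
    refine Heart.Lv.ind (R := fun Y => H'.Lv P Y) Heart.Lv.zero ?_
      (fun A Y B hE hA hB => Heart.Lv.ext hA hB hE) hY
    intro i n hn
    by_cases hi : i ∈ R
    · exact hR i hi n
    · obtain ⟨A, hA, hE, -⟩ := h.not_mem i hi
      refine Heart.Lv.ext (Heart.Lv.simple hn) ?_ ((D.ext_sh n).2 (D.rot1 hE))
      rw [D.sh_sh]
      have hA' : H.Lv (fun i _ => i ∈ R) (D.sh (n + 1) A) := hA.sh _ (fun _ _ h => h.1)
      exact Heart.Lv.ind (R := fun Y => H'.Lv P Y) Heart.Lv.zero (fun i n hi => hR i hi n)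
        (fun A Y B hE hA hB => Heart.Lv.ext hA hB hE) hA'

variable {S : Type} [Fintype S] [DecidableEq S] {M : CoxeterMatrix S}

lemma pos_alt (k : ℕ) {i j : S} (hij : i ≠ j) (hk : k + 1 ≤ M i j) :
    Pos (rho M (M.toCoxeterSystem.wordProd (alternatingWord j i k)) (al j)) := by
  have hk' : k + 1 ≤ M j i := by rwa [M.symmetric]
  have c1 : 0 ≤ sq (cc M j i) 0 1 k :=
    ch_nonneg (M.off_diagonal j i hij.symm) (by omega)
  have c2 : 0 ≤ sq (cc M j i) 0 1 (k + 1) :=
    ch_nonneg (M.off_diagonal j i hij.symm) (Or.inr hk')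
  have e := wE_alt M j i 0 1 k
  rw [zero_smul, zero_add, one_smul] at e
  rw [rho_word, e]
  intro b
  exact add_nonneg (mul_nonneg c1 (pos_al _ b)) (mul_nonneg c2 (pos_al _ b))

namespace Model

section

variable {Md : Model (fun s t => M s t)}

lemma act_prod (hM : Small M) (H : Md.GH) (l : List S) :
    act hM H (l.map (gen M)).prod = run H l := by
  induction l using List.reverseRecOn with
  | nil => simp [run, act_one]
  | append_singleton l s ih =>
    rw [run_concat, ← ih, List.map_append, List.prod_append, act_mul]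
    simp [act_gen]

lemma run_Lv (H : Md.GH) {P : S → Prop} {l : List S} (hl : ∀ s ∈ l, P s) {Y : Md.D.Obj}
    (hY : (run H l).1.Lv (fun i _ => P i.1) Y) : H.1.Lv (fun i _ => P i.1) Y := by
  induction l using List.reverseRecOn with
  | nil => exact hY
  | append_singleton l s ih =>
    rw [run_concat] at hY
    refine ih (fun t ht => hl t (List.mem_append_left _ ht)) (((isUp_upE s _).Lv_iff ?_).1 hY)
    intro i hi _
    rw [mem_blk.1 hi]
    exact hl s (by simp)

/-- The simples crossed along an alternating word lie in the rank two part of the first heart. -/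
lemma alt_simple (hM : Small M) (H : Md.GH) (k : ℕ) {i j : S} (hij : i ≠ j) (hk : k + 1 ≤ M i j)
    (g : Irr) : H.1.Lv (fun x n => (x.1 = i ∨ x.1 = j) ∧ n = 0)
      ((run H (alternatingWord j i k)).1.S (j, g)) := by
  have h1 : H.1.M ((run H (alternatingWord j i k)).1.S (j, g)) :=
    M_of_pos hM (unit_alt hM H k hij.symm (by rw [M.symmetric]; omega)) (L_run hM H _)
      (pos_alt k hij hk)
  have h2 : H.1.Lv (fun x _ => x.1 = i ∨ x.1 = j) ((run H (alternatingWord j i k)).1.S (j, g)) := by
    refine run_Lv H (P := fun s => s = i ∨ s = j) (l := alternatingWord j i k)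
      (fun s hs => (mem_alt hs).symm) ?_
    simpa using Heart.Lv.simple (H := (run H (alternatingWord j i k)).1)
      (P := fun x _ => x.1 = i ∨ x.1 = j) (i := (j, g)) (n := 0) (Or.inr rfl)
  exact ((h2.inter_U (Heart.M_iff.1 h1).1).inter_V (Heart.M_iff.1 h1).2).mono
    (fun _ _ h => ⟨h.1.1, by omega⟩)

end

variable {Md : Model (fun x y => plus M x y)}

/-- The frame of an element of the Artin group in the framed model. -/
noncomputable def fr (hM : Small M) (H : Md.GH) (x : Art M) : Md.GH :=
  act (small_plus hM) H (incl M x)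

lemma fr_one (hM : Small M) (H : Md.GH) : fr hM H 1 = H := by rw [fr, map_one, act_one]

lemma fr_mul (hM : Small M) (H : Md.GH) (x y : Art M) :
    fr hM H (x * y) = fr hM (fr hM H x) y := by rw [fr, map_mul, act_mul]; rfl

lemma fr_up (hM : Small M) (H : Md.GH) (x : Art M) (s : S) :
    (fr hM H x).1.IsUp (blk (some s)) (fr hM H (x * gen M s)).1 := by
  rw [fr_mul, fr, fr, incl_gen]
  exact isUp_act _ _ _

lemma fr_dn (hM : Small M) (H : Md.GH) (x : Art M) (s : S) :
    (fr hM H (x * (gen M s)⁻¹)).1.IsUp (blk (some s)) (fr hM H x).1 := by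
  have := fr_up hM H (x * (gen M s)⁻¹) s
  rwa [inv_mul_cancel_right] at this

lemma fr_prod (hM : Small M) (H : Md.GH) (l : List S) :
    fr hM H (l.map (gen M)).prod = run H (l.map some) := by
  rw [← act_prod (small_plus hM), fr, map_list_prod, List.map_map, List.map_map]
  congr 2

/-- Classes containing all shifts of the old simples do not depend on the frame. -/
lemma fr_Lv (hM : Small M) (H : Md.GH) (x : Art M) {P : Option S × Irr → ℤ → Prop}
    (hP : ∀ i n, i.1 ≠ none → P i n) {Y : Md.D.Obj} : (fr hM H x).1.Lv P Y ↔ H.1.Lv P Y := by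
  have hb : ∀ s : S, ∀ i ∈ blk (some s), ∀ n, P i n := fun s i hi n =>
    hP i n (by rw [mem_blk.1 hi]; simp)
  induction x using PresentedGroup.induction_on with
  | _ a =>
    induction a using FreeGroup.induction_on generalizing H with
    | C1 => rw [map_one, fr_one]
    | of s =>
      have := (fr_up hM H 1 s).Lv_iff (hb s) (Y := Y)
      rwa [one_mul, fr_one] at this
    | inv_of s _ =>
      have := (fr_dn hM H 1 s).Lv_iff (hb s) (Y := Y)
      rw [one_mul, fr_one] at this
      rw [map_inv]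
      exact this.symm
    | mul a b iha ihb =>
      rw [map_mul, fr_mul]
      exact (ihb _).trans (iha _)

end Model

/-- Products of `n` inverse generators. -/
inductive Ngw (M : CoxeterMatrix S) : ℕ → Art M → Prop
  | zero : Ngw M 0 1
  | succ {n : ℕ} {x : Art M} (s : S) : Ngw M n x → Ngw M (n + 1) (x * (gen M s)⁻¹)

lemma Ngw.peel {l : List S} {r : ℕ} {y : Art M} (h : Ngw M r (y * (l.map (gen M)).prod)) :
    Ngw M (r + l.length) y := by
  induction l using List.reverseRecOn generalizing r with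
  | nil => simpa using h
  | append_singleton l s ih =>
    have h1 := Ngw.succ s h
    rw [List.map_append, List.prod_append, List.map_singleton, List.prod_singleton, ← mul_assoc,
      mul_inv_cancel_right] at h1
    have := ih h1
    rw [List.length_append, List.length_singleton]
    convert this using 1
    omega

namespace Model

variable {Md : Model (fun x y => plus M x y)}

lemma ngw_V (hM : Small M) (H : Md.GH) {n : ℕ} {x : Art M} (h : Ngw M n x) (a : ℤ)
    (Y : Md.D.Obj) (hY : (fr hM H x).1.V a Y) : H.1.V a Y := by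
  induction h with
  | zero => rwa [fr_one] at hY
  | succ s _ ih => exact ih ((fr_dn hM H _ s).V_le a Y hY)

/-- Peeling lemma. -/
theorem bt (hM : Small M) (H : Md.GH) (n : ℕ) : ∀ (x : Art M) (s : S), Ngw M n x →
    (∀ g, H.1.V (-1) ((fr hM H x).1.S (some s, g))) →
    ∃ m, n = m + 1 ∧ Ngw M m (x * gen M s) := by
  induction n using Nat.strong_induction_on with
  | _ n ih =>
  intro x s hx hs
  cases hx with
  | zero =>
    have h1 := hs (0, 0)
    rw [fr_one] at h1
    have h2 := Heart.hom_U_V (by omega) (Heart.M_iff.1 (Heart.M.simple H.1 (some s, (0, 0)))).1 h1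
    rw [H.1.one] at h2
    omega
  | @succ m x' t hx' =>
    refine ⟨m, rfl, ?_⟩
    by_cases hst : s = t
    · subst hst
      rwa [inv_mul_cancel_right]
    set x := x' * (gen M t)⁻¹ with hx
    have ht : ∀ g, H.1.V (-1) ((fr hM H x).1.S (some t, g)) := fun g => by
      have e := (fr_dn hM H x' t).mem (some t, g) (mem_blk.2 rfl)
      have h1 := ngw_V hM H hx' 0 _ (Heart.M_iff.1 (Heart.M.simple _ (some t, g))).2
      rw [e, ← Md.D.sh_one] at h1
      exact (Heart.V_sh 1).1 h1
    have hA : ∀ Y, (fr hM H x).1.Lv (fun i n => (i.1 = some s ∨ i.1 = some t) ∧ n = 0) Y →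
        H.1.V (-1) Y := by
      intro Y hY
      refine Heart.Lv.ind (R := fun Y => H.1.V (-1) Y) Heart.Lv.zero ?_
        (fun A Y B hE hA hB => Heart.Lv.ext hA hB hE) hY
      rintro ⟨_, g⟩ _ ⟨rfl | rfl, rfl⟩
      · simpa using hs g
      · simpa using ht g
    have key : ∀ k, k + 1 ≤ M s t → ∀ i j : S,
        (i = s ∧ j = t ∧ Even k) ∨ (i = t ∧ j = s ∧ ¬ Even k) →
        ∃ r, m = r + k ∧ Ngw M r (x * ((alternatingWord i j (k + 1)).map (gen M)).prod) := by
      intro k
      induction k with
      | zero =>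
        rintro - i j (⟨rfl, rfl, -⟩ | ⟨-, -, h⟩)
        · refine ⟨m, rfl, ?_⟩
          simpa [alternatingWord, hx] using hx'
        · simp at h
      | succ k ihk =>
        intro hk i j hij
        obtain ⟨r, hr, h1⟩ := ihk (by omega) j i (by
          rcases hij with ⟨rfl, rfl, h⟩ | ⟨rfl, rfl, h⟩
          · exact Or.inr ⟨rfl, rfl, Nat.even_add_one.1 h⟩
          · exact Or.inl ⟨rfl, rfl, by simpa [Nat.even_add_one] using h⟩)
        have hne : i ≠ j := by
          rcases hij with ⟨rfl, rfl, -⟩ | ⟨rfl, rfl, -⟩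
          · exact hst
          · exact Ne.symm hst
        have hk' : k + 1 + 1 ≤ M i j := by
          rcases hij with ⟨rfl, rfl, -⟩ | ⟨rfl, rfl, -⟩
          · exact hk
          · rwa [M.symmetric]
        obtain ⟨r', hr', h2⟩ := ih r (by omega) _ j h1 (fun g => hA _ (by
          rw [fr_mul hM H x, fr_prod, alt_map]
          refine (alt_simple (small_plus hM) (fr hM H x) (k + 1) (i := some i) (j := some j)
            (fun e => hne (Option.some.inj e)) hk' g).mono (fun y n h => ⟨?_, h.2⟩)
          rcases hij with ⟨rfl, rfl, -⟩ | ⟨rfl, rfl, -⟩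
          · exact h.1
          · exact h.1.symm))
        refine ⟨r', by omega, ?_⟩
        rw [alternatingWord_succ i j (k + 1), List.concat_eq_append, List.map_append,
          List.prod_append, List.map_singleton, List.prod_singleton, ← mul_assoc]
        exact h2
    obtain ⟨k, hk⟩ : ∃ k, M s t = k + 1 := ⟨M s t - 1, by have := hM s t hst; omega⟩
    have hb := braid M (i := s) (j := t) (by omega)
    rw [hk] at hb
    by_cases he : Even k
    · obtain ⟨r, hr, h1⟩ := key k hk.ge s t (Or.inl ⟨rfl, rfl, he⟩)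
      rw [hb, alternatingWord_succ', if_pos he, List.map_cons, List.prod_cons, ← mul_assoc] at h1
      have := h1.peel
      rwa [length_alternatingWord, ← hr] at this
    · obtain ⟨r, hr, h1⟩ := key k hk.ge t s (Or.inr ⟨rfl, rfl, he⟩)
      rw [← hb, alternatingWord_succ', if_neg he, List.map_cons, List.prod_cons, ← mul_assoc] at h1
      have := h1.peel
      rwa [length_alternatingWord, ← hr] at this

/-- The frames below the reference heart. -/
def Om (hM : Small M) (H : Md.GH) (x : Art M) : Prop := ∀ i, (fr hM H x).1.U 0 (H.1.S i)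

lemma Om.V {hM : Small M} {H : Md.GH} {x : Art M} (h : Om hM H x) (a : ℤ) (Y : Md.D.Obj)
    (hY : (fr hM H x).1.V a Y) : H.1.V a Y :=
  Heart.V_iff.2 (fun i n hn => Heart.hom_U_V hn (by simpa using (Heart.U_sh n).2 (h i)) hY)

lemma om_one (hM : Small M) (H : Md.GH) : Om hM H 1 := fun i => by
  rw [fr_one]; exact (Heart.M_iff.1 (Heart.M.simple _ i)).1

/-- One move inside the set of frames below the reference heart. -/
def OmMv (hM : Small M) (H : Md.GH) (x y : Art M) : Prop :=
  Om hM H y ∧ ∃ s, y = x * gen M s ∨ y = x * (gen M s)⁻¹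

lemma ngw_of_path (hM : Small M) (H : Md.GH) {x : Art M}
    (h : Relation.ReflTransGen (OmMv hM H) 1 x) : ∃ n, Ngw M n x := by
  induction h with
  | refl => exact ⟨0, Ngw.zero⟩
  | @tail x y _ h ih =>
    obtain ⟨n, hn⟩ := ih
    obtain ⟨hy, s, rfl | rfl⟩ := h
    · obtain ⟨m, -, hm⟩ := bt hM H n x s hn (fun g => by
        have e := (fr_up hM H x s).mem (some s, g) (mem_blk.2 rfl)
        have h1 := hy.V 0 _ (Heart.M_iff.1 (Heart.M.simple _ (some s, g))).2
        rw [e, ← Md.D.sh_one] at h1
        exact (Heart.V_sh 1).1 h1)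
      exact ⟨m, hm⟩
    · exact ⟨n + 1, hn.succ s⟩

/-- If the old simples of `H` lie in level `n` of the frame, the old simples of the frame lie in
level `-n` of `H`. -/
lemma fr_back (hM : Small M) (H : Md.GH) (x : Art M) {n : ℤ}
    (h : ∀ i : Option S × Irr, i.1 ≠ none → (fr hM H x).1.Lv (fun _ m => m = n) (H.1.S i))
    {j : Option S × Irr} (hj : j.1 ≠ none) :
    H.1.Lv (fun i m => i.1 ≠ none ∧ m = -n) ((fr hM H x).1.S j) := by
  have h0 := Heart.M_iff.1 (Heart.M.simple (fr hM H x).1 j)
  have h1 : H.1.Lv (fun i _ => i.1 ≠ none) ((fr hM H x).1.S j) :=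
    (fr_Lv hM H x (fun _ _ h => h)).1 (by
      simpa using Heart.Lv.simple (H := (fr hM H x).1) (P := fun i _ => i.1 ≠ none) (n := 0) hj)
  have h2 := h1.of_perp_left (-n + 1) (fun i m hi hm =>
    Heart.hom_U_V (a := 1) (b := 0) (by omega) ((h i hi).sh m (fun _ _ h => by omega)) h0.2)
  have h3 := h2.of_perp_right (-n) (fun i m hi hm =>
    Heart.hom_U_V (a := 0) (b := -1) (by omega) h0.1 ((h i hi.1).sh m (fun _ _ h => by omega)))
  exact h3.mono (fun _ _ h => ⟨h.1.1, by omega⟩)

/-- Freeness from connectivity. -/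
theorem free (hM : Small M) (H : Md.GH)
    (top : ∀ x, Om hM H x → Relation.ReflTransGen (OmMv hM H) 1 x) {x : Art M}
    (h : ∀ i : Option S × Irr, i.1 ≠ none → (fr hM H x).1.M (H.1.S i)) : x = 1 := by
  have hb : ∀ j : Option S × Irr, j.1 ≠ none →
      H.1.Lv (fun i m => i.1 ≠ none ∧ m = -0) ((fr hM H x).1.S j) := fun j hj =>
    fr_back hM H x h hj
  have h1 : Om hM H x := by
    intro i
    have e1 : (fr hM H x).1.Lv (fun j m => j.1 ≠ none ∨ 0 ≤ m) (H.1.S i) :=
      (fr_Lv hM H x (fun _ _ h => Or.inl h)).2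
        ((Heart.M.simple H.1 i).mono (fun _ _ h => Or.inr h.ge))
    refine (e1.of_perp_right 0 (fun j m hj hm => ?_)).mono (fun _ _ h => h.2)
    exact Heart.hom_U_V (a := 0) (b := -1) (by omega) (Heart.M_iff.1 (Heart.M.simple H.1 i)).1
      ((hb j (hj.resolve_right (by omega))).sh m (fun _ _ h => by omega))
  obtain ⟨n, hn⟩ := ngw_of_path hM H (top x h1)
  cases hn with
  | zero => rfl
  | @succ m x' t hx' =>
    exfalso
    have e := (fr_dn hM H x' t).mem (some t, (0, 0)) (mem_blk.2 rfl)
    have h2 := ngw_V hM H hx' 0 _ (Heart.M_iff.1 (Heart.M.simple _ (some t, (0, 0)))).2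
    rw [e, ← Md.D.sh_one] at h2
    have h3 : H.1.U 1 (Md.D.sh 1 ((fr hM H (x' * (gen M t)⁻¹)).1.S (some t, (0, 0)))) :=
      (hb (some t, (0, 0)) (by simp)).sh 1 (fun _ _ h => by omega)
    have h4 := Heart.hom_U_V (by omega) h3 h2
    rw [Md.D.hom_sh, Heart.one] at h4
    omega

end Model

end Pool.Agent.HT
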