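import Pool.Agent.Lib.HT.Stmt
import Pool.Agent.Lib.MP_6d85b4_al.Main

set_option autoImplicit false
set_option linter.unusedSectionVars false

/-! A central element moves every good heart to a shift. -/

namespace Pool.Agent.HT

open Pool.Agent.Lib.MP_6d85b4_al

universe u

namespace Heart

variable {K : Type} [AddCommGroup K] {D : TD.{u} K} {ι : Type}

lemma hom_ne_level (H : Heart D ι) {i j : ι} (h : i ≠ j) {p q : ℤ} (hpq : q ≠ p + 1) :
    D.hom (D.sh p (H.S i)) (D.sh q (H.S j)) = 0 := by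
  by_cases h1 : q ≤ p
  · exact H.hom_simple (by rcases h1.lt_or_eq with h2 | h2; exact Or.inl h2; exact Or.inr ⟨h2, h⟩)
  · rw [D.cy', D.sh_sh]
    refine H.hom_simple ?_
    by_cases h2 : 2 + p = q
    · exact Or.inr ⟨h2, h.symm⟩
    · exact Or.inl (by omega)

lemma Orth.hom_ne {H : Heart D ι} {R : Finset ι} (h : H.Orth R) {i j : ι} (hi : i ∈ R)
    (hj : j ∈ R) (hij : i ≠ j) (p q : ℤ) : D.hom (D.sh p (H.S i)) (D.sh q (H.S j)) = 0 := by
  by_cases h1 : q = p + 1
  · subst h1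
    rw [← D.sh_s, D.hom_sh]; exact h i hi j hj
  · exact H.hom_ne_level hij h1

lemma Orth.hom_level {H : Heart D ι} {R : Finset ι} (h : H.Orth R) {i j : ι} (hi : i ∈ R)
    (hj : j ∈ R) {p q : ℤ} (h1 : q ≠ p) (h2 : q ≠ p + 2) :
    D.hom (D.sh p (H.S i)) (D.sh q (H.S j)) = 0 := by
  by_cases h3 : q = p + 1
  · subst h3
    rw [← D.sh_s, D.hom_sh]; exact h i hi j hj
  by_cases h4 : q < p
  · exact H.hom_simple (Or.inl h4)
  · rw [D.cy', D.sh_sh]
    exact H.hom_simple (Or.inl (by omega))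

lemma IsUp.Lv_blk {H H' : Heart D ι} {R : Finset ι} (h : H.IsUp R H') {Q : ℤ → Prop}
    {Y : D.Obj} (hY : H'.Lv (fun i n => i ∈ R ∨ Q n) Y) : H.Lv (fun i n => i ∈ R ∨ Q n) Y := by
  refine Lv.ind (R := fun Y => H.Lv (fun i n => i ∈ R ∨ Q n) Y) Lv.zero ?_
    (fun A Y B hE hA hB => Lv.ext hA hB hE) hY
  intro i n hn
  by_cases hi : i ∈ R
  · rw [h.mem i hi, D.sh_s]; exact Lv.simple (Or.inl hi)
  · obtain ⟨A, hA, hE, -⟩ := h.not_mem i hi
    exact Lv.ext (hA.sh n (fun _ _ h => Or.inl h.1)) (Lv.simple hn) ((D.ext_sh n).2 hE)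

variable [DecidableEq ι]

/-- A brick built from an orthogonal block involves one simple only. -/
lemma Orth.brick_single {H : Heart D ι} {R : Finset ι} (h : H.Orth R) {X : D.Obj}
    (h1 : D.hom X X = 1) (hX : H.Lv (fun i _ => i ∈ R) X) :
    ∃ y ∈ R, H.Lv (fun i _ => i = y) X := by
  induction R using Finset.induction_on with
  | empty =>
    have := Lv.hom_left (W := X) (fun i n hi => by simp at hi) hX
    omega
  | insert y R hy ih =>
    have hyR : ∀ j ∈ R, ∀ p q, D.hom (D.sh p (H.S y)) (D.sh q (H.S j)) = 0 ∧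
        D.hom (D.sh p (H.S j)) (D.sh q (H.S y)) = 0 := fun j hj p q =>
      ⟨h.hom_ne (Finset.mem_insert_self _ _) (Finset.mem_insert_of_mem hj)
        (fun e => hy (e ▸ hj)) p q,
       h.hom_ne (Finset.mem_insert_of_mem hj) (Finset.mem_insert_self _ _)
        (fun e => hy (e ▸ hj)) p q⟩
    obtain ⟨A, B, hA, hB, hE⟩ := TD.Cl.sort (D := D)
      (X₁ := {A | ∃ i n, i = y ∧ A = D.sh n (H.S i)})
      (X₂ := {A | ∃ i n, i ∈ R ∧ A = D.sh n (H.S i)}) (Y := X) (by
        rintro _ ⟨i, p, rfl, rfl⟩ _ ⟨j, q, hj, rfl⟩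
        rw [D.s_sh]; exact (hyR j hj _ _).1) (TD.Cl.mono (by
        rintro _ ⟨i, n, hi, rfl⟩
        apply TD.Cl.of_mem
        rcases Finset.mem_insert.1 hi with hi | hi
        · exact Or.inl ⟨i, n, hi, rfl⟩
        · exact Or.inr ⟨i, n, hi, rfl⟩) hX)
    have hA' : H.Lv (fun i _ => i = y) A := hA
    have hB' : H.Lv (fun i _ => i ∈ R) B := hB
    have h0 : D.hom B (D.s A) = 0 := by
      have hA1 : H.Lv (fun i _ => i = y) (D.sh 1 A) := hA'.sh 1 (fun _ _ h => h)
      rw [← D.sh_one]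
      refine Lv.hom_left (fun j p hj => Lv.hom_right ?_ hA1) hB'
      rintro i q rfl
      exact (hyR j hj _ _).2
    rcases D.dich _ _ _ hE with ⟨-, h2⟩ | ⟨h2, -⟩
    swap
    · exact absurd h0 h2
    have e1 := h2 X
    have e2 := D.add_left h2 A
    have e3 := D.add_left h2 B
    by_cases hA0 : D.hom A A = 0
    · rw [D.eq_zero _ hA0] at hE
      rw [← D.eq_of_ext_zero _ _ hE] at hB'
      obtain ⟨z, hz, h3⟩ := ih (fun i hi j hj =>
        h i (Finset.mem_insert_of_mem hi) j (Finset.mem_insert_of_mem hj)) hB'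
      exact ⟨z, Finset.mem_insert_of_mem hz, h3⟩
    · have hB0 : D.hom B B = 0 := by omega
      rw [D.eq_zero _ hB0] at hE
      rw [D.eq_of_ext_zero_right hE] at hA'
      exact ⟨y, Finset.mem_insert_self _ _, hA'⟩

lemma hom_ne_zero_single {H : Heart D ι} {y : ι} {P Q : D.Obj}
    (hP : H.Lv (fun i n => i = y ∧ n = 0) P) (hQ : H.Lv (fun i n => i = y ∧ n = 0) Q)
    (hP0 : P ≠ D.zero) (hQ0 : Q ≠ D.zero) : D.hom P Q ≠ 0 := by
  have ho : H.Orth {y} := by
    intro i hi j hj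
    rw [Finset.mem_singleton.1 hi, Finset.mem_singleton.1 hj]; exact H.rig y
  have h1 : D.hom (H.S y) Q ≠ 0 := by
    intro h0
    have := ho.hom_R (A := Q) (hQ.mono (fun i n h => ⟨Finset.mem_singleton.2 h.1, h.2⟩))
    rw [Finset.sum_singleton, h0] at this
    exact hQ0 (M.eq_zero_of_cl (hQ.mono (fun _ _ h => h.2)) (by simpa using this))
  cases hP with
  | zero => exact absurd rfl hP0
  | @cons A Y B hA hE hB =>
    obtain ⟨i, n, ⟨rfl, rfl⟩, rfl⟩ := hA
    rw [D.sh_zero] at hE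
    have hB' : H.Lv (fun j n => j = i ∧ n = 0) B := hB
    have h0 : D.hom B (D.s (H.S i)) = 0 := by
      refine Lv.hom_left ?_ hB'
      rintro j n ⟨rfl, rfl⟩
      rw [D.sh_zero]; exact H.rig j
    rcases D.dich _ _ _ hE with ⟨-, h2⟩ | ⟨h2, -⟩
    · have := D.add_left h2 Q
      omega
    · exact absurd h0 h2

/-- An object built from one simple, without negative self extensions, has one level. -/
lemma single_level {H : Heart D ι} {y : ι} {X : D.Obj} (h1 : D.hom X X ≠ 0)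
    (h2 : ∀ n : ℤ, n < 0 → D.hom X (D.sh n X) = 0) (hX : H.Lv (fun i _ => i = y) X) :
    ∃ a : ℤ, H.Lv (fun i n => i = y ∧ n = a) X := by
  obtain ⟨N, hU, hV⟩ := H.bounded X
  obtain ⟨a, ha, ha'⟩ := Int.exists_greatest_of_bdd (P := fun c => H.U c X)
    ⟨N, fun c hc => by
      by_contra h
      exact h1 (hom_U_V (by omega) hc hV)⟩ ⟨_, hU⟩
  obtain ⟨b, hb, hb'⟩ := Int.exists_least_of_bdd (P := fun c => H.V c X)
    ⟨-N, fun c hc => by
      by_contra h
      exact h1 (hom_U_V (by omega) hU hc)⟩ ⟨_, hV⟩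
  have h3 := (hX.inter_U ha).inter_V hb
  by_cases hab : b ≤ a
  · exact ⟨a, h3.mono (fun _ _ h => ⟨h.1.1, by omega⟩)⟩
  exfalso
  obtain ⟨A, B, hA, hB, hE⟩ := h3.trunc b
  obtain ⟨A', B', hA', hB', hE'⟩ := h3.trunc (a + 1)
  have hA0 : A ≠ D.zero := by
    rintro rfl
    rw [← D.eq_of_ext_zero _ _ hE] at hB
    have := hb' (b - 1) (hB.mono (fun _ _ h => by omega))
    omega
  have hB0 : B' ≠ D.zero := by
    rintro rfl
    rw [D.eq_of_ext_zero_right hE'] at hA'
    have := ha' (a + 1) (hA'.mono (fun _ _ h => h.2))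
    omega
  have e1 : D.hom B' (D.sh (a - b) A) ≠ 0 := by
    rw [← D.hom_sh (-a), D.sh_sh]
    refine hom_ne_zero_single (H := H) (y := y)
      (hB'.sh _ (fun _ _ h => ⟨h.1.1.1, by omega⟩))
      (hA.sh _ (fun _ _ h => ⟨h.1.1.1, by omega⟩)) (fun h => hB0 ?_) (fun h => hA0 ?_)
    · exact D.sh_inj (-a) (by rw [h, D.sh_zero_obj])
    · exact D.sh_inj (-a + (a - b)) (by rw [h, D.sh_zero_obj])
  have e2 := D.les' (D.sh (a - b) A) (D.rot1 hE')
  have e3 : D.hom (D.sh 1 A') (D.sh (a - b) A) = 0 :=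
    hom_U_V (H := H) (a := a + 2) (b := a) (by omega) (hA'.sh _ (fun _ _ h => by omega))
      (hA.sh _ (fun _ _ h => by omega))
  have e4 := D.les X _ _ _ ((D.ext_sh (a - b)).2 (D.rot' hE))
  have e5 : D.hom X (D.sh (a - b) (D.sh (-1) B)) = 0 := by
    rw [D.sh_sh]
    exact hom_U_V (H := H) (a := a) (b := a - 2) (by omega) ha (hB.sh _ (fun _ _ h => by omega))
  have e6 := h2 (a - b) (by omega)
  omega

end Heart

variable {S : Type} [Fintype S] [DecidableEq S] {M : CoxeterMatrix S}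

namespace Model

variable {Md : Model (fun s t => M s t)}

/-- Every group element moves hearts by a bounded amount. -/
lemma near (hM : Small M) (a : Art M) : ∃ N : ℕ, ∀ (H : Md.GH) (c : ℤ) (Y : Md.D.Obj),
    (H.1.U (c + N) Y → (act hM H a).1.U c Y) ∧ ((act hM H a).1.U (c + N) Y → H.1.U c Y) := by
  induction a using PresentedGroup.induction_on with
  | _ a =>
    induction a using FreeGroup.induction_on with
    | C1 =>
      refine ⟨0, fun H c Y => ?_⟩
      rw [map_one, act_one]; simp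
    | of s =>
      refine ⟨1, fun H c Y => ⟨fun h => (isUp_act hM H s).le_U c Y h, fun h => ?_⟩⟩
      exact ((isUp_act hM H s).U_le _ Y h).mono (by omega)
    | inv_of s _ =>
      rw [map_inv]
      refine ⟨1, fun H c Y => ⟨fun h => ?_, fun h => (isUp_act_inv hM H s).le_U c Y h⟩⟩
      exact ((isUp_act_inv hM H s).U_le _ Y h).mono (by omega)
    | mul a b iha ihb =>
      obtain ⟨N, hN⟩ := iha
      obtain ⟨N', hN'⟩ := ihb
      refine ⟨N + N', fun H c Y => ?_⟩
      rw [map_mul, act_mul]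
      constructor
      · intro h
        refine (hN' _ c Y).1 ((hN H _ Y).1 (h.mono ?_))
        push_cast; omega
      · intro h
        refine (hN H c Y).2 ((hN' _ _ Y).2 (h.mono ?_))
        push_cast; omega

lemma pow_S (hM : Small M) (H : Md.GH) (x : S × Irr) (k : ℕ) :
    (act hM H (gen M x.1 ^ k)).1.S x = Md.D.sh k (H.1.S x) := by
  induction k with
  | zero => rw [pow_zero, act_one]; simp
  | succ k ih =>
    rw [pow_succ, act_mul, (isUp_act hM _ x.1).mem x (mem_blk.2 rfl), ih, Md.D.s_sh]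
    push_cast; rfl

lemma pow_Lv (hM : Small M) (H : Md.GH) (s : S) (k : ℕ) {Q : ℤ → Prop} {Y : Md.D.Obj}
    (hY : (act hM H (gen M s ^ k)).1.Lv (fun i n => i ∈ blk s ∨ Q n) Y) :
    H.1.Lv (fun i n => i ∈ blk s ∨ Q n) Y := by
  induction k with
  | zero => rwa [pow_zero, act_one] at hY
  | succ k ih =>
    rw [pow_succ, act_mul] at hY
    exact ih ((isUp_act hM _ s).Lv_blk hY)

lemma central_blk (hM : Small M) (H : Md.GH) {a : Art M} (ha : a ∈ Subgroup.center (Art M))
    (x : S × Irr) : (act hM H a).1.Lv (fun i _ => i ∈ blk x.1) (H.1.S x) := by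
  obtain ⟨N, hN⟩ := near (Md := Md) hM a
  have h1 : (act hM H a).1.U (-N) (H.1.S x) :=
    (hN H _ _).1 (by simpa using (Heart.M_iff.1 (Heart.M.simple H.1 x)).1)
  have h2 : (act hM H (gen M x.1 ^ (2 * N + 1))).1.V 0 (Md.D.sh (2 * N + 1 : ℕ) (H.1.S x)) := by
    rw [← pow_S hM]; exact (Heart.M_iff.1 (Heart.M.simple _ x)).2
  have h3 : (act hM (act hM H (gen M x.1 ^ (2 * N + 1))) a).1.V N
      (Md.D.sh (2 * N + 1 : ℕ) (H.1.S x)) :=
    Heart.V_of_U (b := 0) (fun Y hY => (hN _ _ Y).2 (hY.mono (by omega))) _ h2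
  rw [← act_mul, Subgroup.mem_center_iff.1 ha, act_mul] at h3
  have h4 := pow_Lv hM (act hM H a) x.1 (2 * N + 1) (Q := fun n => n ≤ N)
    (Heart.Lv.mono (fun _ _ h => Or.inr h) h3)
  have h5 : (act hM H a).1.Lv (fun i n => i ∈ blk x.1 ∨ n < -N)
      (Md.D.sh (-(2 * N + 1 : ℕ)) (Md.D.sh (2 * N + 1 : ℕ) (H.1.S x))) :=
    h4.sh _ (fun i n h => h.imp id (fun h => by push_cast; omega))
  rw [Md.D.sh_sh, neg_add_cancel, Md.D.sh_zero] at h5
  exact (h5.inter_U h1).mono (fun i n h => h.1.resolve_right (by omega))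

lemma central_level (hM : Small M) (H : Md.GH) {a : Art M} (ha : a ∈ Subgroup.center (Art M))
    (x : S × Irr) : ∃ c : ℤ, (act hM H a).1.Lv (fun i n => i.1 = x.1 ∧ n = c) (H.1.S x) := by
  obtain ⟨y, hy, h1⟩ := ((act hM H a).2.orth x.1).brick_single (H.1.one x) (central_blk hM H ha x)
  obtain ⟨c, h2⟩ := Heart.single_level (by rw [H.1.one]; omega) (H.1.neg x x) h1
  exact ⟨c, h2.mono (fun i n h => ⟨by rw [h.1]; exact mem_blk.1 hy, h.2⟩)⟩

end Model

lemma exists_nL {m : ℕ} (h : m = 3 ∨ m = 4 ∨ m = 5) : ∃ a b, nL m a b = 1 := by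
  rcases h with rfl | rfl | rfl
  · exact ⟨(0, 0), (0, 0), by decide⟩
  · exact ⟨(0, 0), (1, 0), by decide⟩
  · exact ⟨(0, 0), (0, 1), by decide⟩

lemma irr_const {f : Irr → ℤ} (h : ∀ e a b, nF e a b = 1 → f a = f b) (a : Irr) :
    f a = f (1, 1) := by
  have h1 : ∀ g : Fin 3, f (g, 0) = f (g, 1) := fun g => h false _ _ (by revert g; decide)
  have h2 : f (0, 1) = f (1, 1) := h true _ _ (by decide)
  have h3 : f (2, 1) = f (1, 1) := h true _ _ (by decide)
  obtain ⟨g, u⟩ := a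
  fin_cases g <;> fin_cases u <;> simp_all

theorem centre_thm : CentreStmt := by
  intro S _ _ M hM Md hc H a ha
  choose c hcx using Model.central_level hM H ha
  set H' := Model.act hM H a
  have hin : ∀ e (s : S) g g', nF e g g' = 1 → c (s, g) = c (s, g') ∨ c (s, g) = c (s, g') + 2 := by
    intro e s g g' h
    have h1 := (H.2.orth s).hom_R (A := Md.Phi e (H.1.S (s, g)))
      ((H.2.Phi_S e (s, g)).mono (fun i n h => ⟨mem_blk.2 h.1, h.2⟩))
    have h2 := H.2.mul_Phi e (s, g) (s, g')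
    unfold Heart.mul at h2
    rw [h1, sum_blk] at h2
    have h3 : Md.D.hom (H.1.S (s, g')) (Md.Phi e (H.1.S (s, g))) = 1 := by
      simp only [map_sum, map_zsmul, Module.Basis.repr_self] at h2
      simp [Finsupp.single_apply, h] at h2
      exact_mod_cast h2
    have h4 := H'.2.Lv e (P := fun t n => t = s ∧ n = c (s, g)) (hcx (s, g))
    by_contra hne
    push Not at hne
    have h5 : Md.D.hom (H.1.S (s, g')) (Md.Phi e (H.1.S (s, g))) = 0 := by
      refine Heart.Lv.hom_left ?_ (hcx (s, g'))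
      rintro i p ⟨hi, rfl⟩
      refine Heart.Lv.hom_right ?_ h4
      rintro j q ⟨hj, rfl⟩
      exact (H'.2.orth s).hom_level (mem_blk.2 hi) (mem_blk.2 hj) hne.1 hne.2
    omega
  have hblk : ∀ (s : S) g, c (s, g) = c (s, (1, 1)) := fun s =>
    irr_const (f := fun g => c (s, g)) (fun e g g' h => by
      have h1 := hin e s g g' h
      have h2 := hin e s g' g (by rw [nF_symm]; exact h)
      omega)
  have hedge : ∀ s t : S, s ≠ t → M s t ≠ 2 → c (s, (1, 1)) = c (t, (1, 1)) := by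
    intro s t hst h
    obtain ⟨g, g', hg⟩ := exists_nL (m := M s t) ((hM s t hst).resolve_left h)
    rw [← hblk s g, ← hblk t g']
    have h1 := H.1.form_ne (i := (s, g)) (j := (t, g')) (fun e => hst (congrArg Prod.fst e))
    rw [H.2.gram] at h1
    simp only [cartan, hst, if_false, hg] at h1
    by_contra hne
    have h2 : H'.1.Lv (fun i n => i.1 = t ∧ n = c (t, g') + 1) (Md.D.sh 1 (H.1.S (t, g'))) :=
      (hcx (t, g')).sh 1 (fun _ _ h => ⟨h.1, by omega⟩)
    have h5 : Md.D.hom (H.1.S (s, g)) (Md.D.sh 1 (H.1.S (t, g'))) = 0 := by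
      refine Heart.Lv.hom_left ?_ (hcx (s, g))
      rintro i p ⟨hi, rfl⟩
      refine Heart.Lv.hom_right ?_ h2
      rintro j q ⟨hj, rfl⟩
      refine H'.1.hom_ne_level (fun e => hst ?_) (by omega)
      rw [← hj, ← e]; exact hi.symm
    rw [Md.D.sh_one] at h5
    omega
  obtain ⟨s₀⟩ := hc.nonempty
  have hall : ∀ x : S × Irr, c x = c (s₀, (1, 1)) := by
    rintro ⟨s, g⟩
    rw [hblk s g]
    obtain ⟨w⟩ := hc.preconnected s s₀
    induction w with
    | nil => rfl
    | cons h _ ih =>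
      rw [← ih]
      rw [SimpleGraph.fromRel_adj] at h
      refine hedge _ _ h.1 ?_
      rcases h.2 with h2 | h2
      · exact h2
      · rwa [M.symmetric]
  obtain ⟨n, hn⟩ : ∃ n, ∀ x, c x = n := ⟨_, hall⟩
  have hL : ∀ (P Q : ℤ → Prop), (∀ m, P m → Q (m + n)) → ∀ Y, H.1.Lv (fun _ m => P m) Y →
      H'.1.Lv (fun _ m => Q m) Y := by
    intro P Q hPQ Y hY
    refine Heart.Lv.ind (R := fun Y => H'.1.Lv (fun _ m => Q m) Y) Heart.Lv.zero ?_
      (fun A Y B hE hA hB => Heart.Lv.ext hA hB hE) hY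
    intro i m hm
    exact (hcx i).sh m (fun j p h => by rw [h.2, hn]; exact hPQ m hm)
  refine ⟨-n, fun Y => ⟨fun hY => ?_, fun hY => ?_⟩⟩
  · exact Heart.U_of_V (fun Y hY => hL (fun m => m ≤ -n - 1) (fun m => m ≤ 0 - 1)
      (fun m h => by omega) Y hY) Y hY
  · exact hL (fun m => -n ≤ m) (fun m => 0 ≤ m) (fun m h => by omega) Y hY

/-- The centre conjecture from the model and the freeness statement. -/
theorem final_thm (h1 : ModelStmt) (h2 : FreeStmt) :
    ∀ (n : ℕ) (M : CoxeterMatrix (Fin n)),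
      (SimpleGraph.fromRel (fun i j : Fin n => M i j ≠ 2)).Connected →
      Infinite M.Group →
      Subgroup.center
        (PresentedGroup
          {r : FreeGroup (Fin n) | ∃ i j : Fin n, M i j ≠ 0 ∧
            r = ((CoxeterSystem.alternatingWord i j (M i j)).map FreeGroup.of).prod *
              (((CoxeterSystem.alternatingWord j i (M i j)).map FreeGroup.of).prod)⁻¹}) = ⊥ := by
  intro n M hc hi
  by_cases h : ∃ i j : Fin n, M i j = 0 ∨ 6 ≤ M i j
  · obtain ⟨i, j, h⟩ := h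
    exact center_large hc hi h
  · push Not at h
    have hM : Small M := fun s t hst => by
      have e1 := h s t
      have e2 := M.off_diagonal s t hst
      omega
    obtain ⟨Md⟩ := h1 (Fin n) (fun s t => M s t) M.symmetric
    refine eq_bot_iff.2 (fun a ha => ?_)
    obtain ⟨k, hk⟩ := centre_thm (Fin n) M hM Md hc ⟨Md.H, Md.good_H⟩ a ha
    exact h2 (Fin n) M hM Md hc hi _ a k hk

end Pool.Agent.HT
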