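import Pool.Agent.Lib.HT.Centre

set_option autoImplicit false
set_option linter.unusedSectionVars false

/-! The framed Coxeter matrix and central elements acting on the framed model. -/

namespace Pool.Agent.HT

open Pool.Agent.Lib.MP_6d85b4_al

variable {S : Type} [Fintype S] [DecidableEq S]

/-- One more vertex, joined to every old vertex by the label three. -/
def plus (M : CoxeterMatrix S) : CoxeterMatrix (Option S) where
  M := Matrix.of fun x y => match x, y with
    | some s, some t => M s t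
    | some _, none => 3
    | none, some _ => 3
    | none, none => 1
  isSymm := by
    ext x y
    rcases x with _ | s <;> rcases y with _ | t
    · rfl
    · rfl
    · rfl
    · exact M.symmetric t s
  diagonal x := by
    rcases x with _ | s
    · rfl
    · exact M.diagonal s
  off_diagonal x y h := by
    rcases x with _ | s <;> rcases y with _ | t
    · exact absurd rfl h
    · change (3 : ℕ) ≠ 1; omega
    · change (3 : ℕ) ≠ 1; omega
    · exact M.off_diagonal s t (fun e => h (congrArg some e))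

variable {M : CoxeterMatrix S}

@[simp] lemma plus_some (s t : S) : plus M (some s) (some t) = M s t := rfl

@[simp] lemma plus_some_none (s : S) : plus M (some s) none = 3 := rfl

@[simp] lemma plus_none_some (s : S) : plus M none (some s) = 3 := rfl

lemma small_plus (hM : Small M) : Small (plus M) := by
  intro x y h
  rcases x with _ | s <;> rcases y with _ | t
  · exact absurd rfl h
  · simp
  · simp
  · exact hM s t (fun e => h (congrArg some e))

variable (M) in
/-- The map of Artin groups induced by the inclusion of the old vertices. -/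
noncomputable def incl : Art M →* Art (plus M) :=
  PresentedGroup.toGroup (lift_ok M (fun s => gen (plus M) (some s)) (fun i j h => by
    have := braid (plus M) (i := some i) (j := some j) h
    rw [← alt_map some, ← alt_map some, List.map_map, List.map_map] at this
    exact this))

lemma incl_gen (s : S) : incl M (gen M s) = gen (plus M) (some s) :=
  PresentedGroup.toGroup.of _

namespace Model

variable {Md : Model (fun s t => M s t)}

lemma comm_blk (hM : Small M) (H : Md.GH) {a : Art M} (x : S × Irr)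
    (ha : Commute (gen M x.1) a) :
    (act hM H a).1.Lv (fun i _ => i ∈ blk x.1) (H.1.S x) := by
  obtain ⟨N, hN⟩ := near (Md := Md) hM a
  have h1 : (act hM H a).1.U (-N) (H.1.S x) :=
    (hN H _ _).1 (by simpa using (Heart.M_iff.1 (Heart.M.simple H.1 x)).1)
  have h2 : (act hM H (gen M x.1 ^ (2 * N + 1))).1.V 0 (Md.D.sh (2 * N + 1 : ℕ) (H.1.S x)) := by
    rw [← pow_S hM]; exact (Heart.M_iff.1 (Heart.M.simple _ x)).2
  have h3 : (act hM (act hM H (gen M x.1 ^ (2 * N + 1))) a).1.V N
      (Md.D.sh (2 * N + 1 : ℕ) (H.1.S x)) :=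
    Heart.V_of_U (b := 0) (fun Y hY => (hN _ _ Y).2 (hY.mono (by omega))) _ h2
  rw [← act_mul, (ha.pow_left _).eq, act_mul] at h3
  have h4 := pow_Lv hM (act hM H a) x.1 (2 * N + 1) (Q := fun n => n ≤ N)
    (Heart.Lv.mono (fun _ _ h => Or.inr h) h3)
  have h5 : (act hM H a).1.Lv (fun i n => i ∈ blk x.1 ∨ n < -N)
      (Md.D.sh (-(2 * N + 1 : ℕ)) (Md.D.sh (2 * N + 1 : ℕ) (H.1.S x))) :=
    h4.sh _ (fun i n h => h.imp id (fun h => by push_cast; omega))
  rw [Md.D.sh_sh, neg_add_cancel, Md.D.sh_zero] at h5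
  exact (h5.inter_U h1).mono (fun i n h => h.1.resolve_right (by omega))

lemma comm_level (hM : Small M) (H : Md.GH) {a : Art M} (x : S × Irr)
    (ha : Commute (gen M x.1) a) :
    ∃ c : ℤ, (act hM H a).1.Lv (fun i n => i.1 = x.1 ∧ n = c) (H.1.S x) := by
  obtain ⟨y, hy, h1⟩ := ((act hM H a).2.orth x.1).brick_single (H.1.one x) (comm_blk hM H x ha)
  obtain ⟨c, h2⟩ := Heart.single_level (by rw [H.1.one]; omega) (H.1.neg x x) h1
  exact ⟨c, h2.mono (fun i n h => ⟨by rw [h.1]; exact mem_blk.1 hy, h.2⟩)⟩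

lemma level_fus {H H' : Md.GH} {s : S} {g g' : Irr} {e : Bool} (h : nF e g g' = 1) {c c' : ℤ}
    (hc : H'.1.Lv (fun i n => i.1 = s ∧ n = c) (H.1.S (s, g)))
    (hc' : H'.1.Lv (fun i n => i.1 = s ∧ n = c') (H.1.S (s, g'))) : c = c' ∨ c = c' + 2 := by
  have h1 := (H.2.orth s).hom_R (A := Md.Phi e (H.1.S (s, g)))
    ((H.2.Phi_S e (s, g)).mono (fun i n h => ⟨mem_blk.2 h.1, h.2⟩))
  have h2 := H.2.mul_Phi e (s, g) (s, g')
  unfold Heart.mul at h2
  rw [h1, sum_blk] at h2
  have h3 : Md.D.hom (H.1.S (s, g')) (Md.Phi e (H.1.S (s, g))) = 1 := by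
    simp only [map_sum, map_zsmul, Module.Basis.repr_self] at h2
    simp [Finsupp.single_apply, h] at h2
    exact_mod_cast h2
  have h4 := H'.2.Lv e (P := fun t n => t = s ∧ n = c) hc
  by_contra hne
  push Not at hne
  have h5 : Md.D.hom (H.1.S (s, g')) (Md.Phi e (H.1.S (s, g))) = 0 := by
    refine Heart.Lv.hom_left ?_ hc'
    rintro i p ⟨hi, rfl⟩
    refine Heart.Lv.hom_right ?_ h4
    rintro j q ⟨hj, rfl⟩
    exact (H'.2.orth s).hom_level (mem_blk.2 hi) (mem_blk.2 hj) hne.1 hne.2
  omega

lemma level_edge {H H' : Md.GH} {s t : S} (hst : s ≠ t) {g g' : Irr}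
    (hg : nL (M s t) g g' = 1) {c c' : ℤ}
    (hc : H'.1.Lv (fun i n => i.1 = s ∧ n = c) (H.1.S (s, g)))
    (hc' : H'.1.Lv (fun i n => i.1 = t ∧ n = c') (H.1.S (t, g'))) : c = c' := by
  have h1 := H.1.form_ne (i := (s, g)) (j := (t, g')) (fun e => hst (congrArg Prod.fst e))
  rw [H.2.gram] at h1
  simp only [cartan, hst, if_false, hg] at h1
  by_contra hne
  have h2 : H'.1.Lv (fun i n => i.1 = t ∧ n = c' + 1) (Md.D.sh 1 (H.1.S (t, g'))) :=
    hc'.sh 1 (fun _ _ h => ⟨h.1, by omega⟩)
  have h5 : Md.D.hom (H.1.S (s, g)) (Md.D.sh 1 (H.1.S (t, g'))) = 0 := by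
    refine Heart.Lv.hom_left ?_ hc
    rintro i p ⟨hi, rfl⟩
    refine Heart.Lv.hom_right ?_ h2
    rintro j q ⟨hj, rfl⟩
    refine H'.1.hom_ne_level (fun e => hst ?_) (by omega)
    rw [← hj, ← e]; exact hi.symm
  rw [Md.D.sh_one] at h5
  omega

end Model

/-- A central element of the Artin group puts all simples over the old vertices in one level of
the moved heart of the framed model. -/
theorem centre2 (hM : Small M) (Md : Model (fun x y => plus M x y))
    (hc : (SimpleGraph.fromRel (fun i j : S => M i j ≠ 2)).Connected) (H : Md.GH) {a : Art M}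
    (ha : a ∈ Subgroup.center (Art M)) :
    ∃ n : ℤ, ∀ (s : S) (g : Irr),
      (Model.act (small_plus hM) H (incl M a)).1.Lv (fun i m => i.1 = some s ∧ m = n)
        (H.1.S (some s, g)) := by
  have h0 : ∀ x : S × Irr, ∃ c : ℤ, (Model.act (small_plus hM) H (incl M a)).1.Lv
      (fun i n => i.1 = some x.1 ∧ n = c) (H.1.S (some x.1, x.2)) := fun x =>
    Model.comm_level (small_plus hM) H (some x.1, x.2) (by
      rw [← incl_gen]
      exact (show Commute (gen M x.1) a from Subgroup.mem_center_iff.1 ha _).map _)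
  choose c hcx using h0
  have hblk : ∀ (s : S) g, c (s, g) = c (s, (1, 1)) := fun s =>
    irr_const (f := fun g => c (s, g)) (fun e g g' h => by
      have h1 := Model.level_fus h (hcx (s, g)) (hcx (s, g'))
      have h2 := Model.level_fus (show nF e g' g = 1 by rw [nF_symm]; exact h) (hcx (s, g'))
        (hcx (s, g))
      omega)
  have hedge : ∀ s t : S, s ≠ t → M s t ≠ 2 → c (s, (1, 1)) = c (t, (1, 1)) := by
    intro s t hst h
    obtain ⟨g, g', hg⟩ := exists_nL (m := M s t) ((hM s t hst).resolve_left h)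
    rw [← hblk s g, ← hblk t g']
    exact Model.level_edge (M := plus M) (s := some s) (t := some t)
      (fun e => hst (Option.some.inj e)) hg (hcx (s, g)) (hcx (t, g'))
  obtain ⟨s₀⟩ := hc.nonempty
  refine ⟨c (s₀, (1, 1)), fun s g => ?_⟩
  have hall : c (s, g) = c (s₀, (1, 1)) := by
    rw [hblk s g]
    obtain ⟨w⟩ := hc.preconnected s s₀
    induction w with
    | nil => rfl
    | cons h _ ih =>
      rw [← ih]
      rw [SimpleGraph.fromRel_adj] at h
      refine hedge _ _ h.1 ?_
      rcases h.2 with h2 | h2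
      · exact h2
      · rwa [M.symmetric]
  rw [← hall]
  exact hcx (s, g)

/-- Consequence: objects built from the old simples are moved by one global shift. -/
theorem centre2_Lv (hM : Small M) (Md : Model (fun x y => plus M x y))
    (hc : (SimpleGraph.fromRel (fun i j : S => M i j ≠ 2)).Connected) (H : Md.GH) {a : Art M}
    (ha : a ∈ Subgroup.center (Art M)) :
    ∃ n : ℤ, ∀ (P : ℤ → Prop) (Y : Md.D.Obj), H.1.Lv (fun i m => i.1 ≠ none ∧ P (m + n)) Y →
      (Model.act (small_plus hM) H (incl M a)).1.Lv (fun i m => i.1 ≠ none ∧ P m) Y := by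
  obtain ⟨n, hn⟩ := centre2 hM Md hc H ha
  refine ⟨n, fun P Y hY => ?_⟩
  refine Heart.Lv.ind (R := fun Y => (Model.act (small_plus hM) H (incl M a)).1.Lv
    (fun i m => i.1 ≠ none ∧ P m) Y) Heart.Lv.zero ?_
    (fun A Y B hE hA hB => Heart.Lv.ext hA hB hE) hY
  rintro ⟨_ | s, g⟩ m ⟨h1, h2⟩
  · exact absurd rfl h1
  · exact (hn s g).sh m (fun j p h => ⟨by rw [h.1]; simp, by rw [h.2]; exact h2⟩)

end Pool.Agent.HT
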