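import Pool.Agent.Lib.HT.Tits
import Pool.Agent.Lib.HT.Aff

set_option autoImplicit false
set_option linter.unusedSectionVars false

/-! Components of a Coxeter diagram, products, gates of residues. -/

namespace Pool.Agent.HT.Tits

open Pool.Agent.Lib.MP_6d85b4_al CoxeterSystem

variable {S : Type} [Fintype S] [DecidableEq S] {M : CoxeterMatrix S} {L T J C : Finset S}

theorem conn_of_aff (h : Aff.Conn M L) : Conn M L := by
  classical
  intro P hP s hs ps t ht
  have := h.2 (L.filter P) (Finset.filter_subset _ _) ⟨s, Finset.mem_filter.2 ⟨hs, ps⟩⟩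
    fun a ha b hb hn => by
      by_contra e
      have ha' := Finset.mem_filter.1 ha
      exact hn (Finset.mem_filter.2 ⟨hb, hP a ha'.1 b hb e ha'.2⟩)
  rw [← this] at ht
  exact (Finset.mem_filter.1 ht).2

theorem aff_conn (hne : L.Nonempty) (h : Conn M L) : Aff.Conn M L := by
  refine ⟨hne, fun T hT ⟨a, ha⟩ h2 => Finset.Subset.antisymm hT fun t ht => ?_⟩
  refine h (fun s => s ∈ T) (fun b _ c hc e hb => ?_) a (hT ha) ha t ht
  by_contra hn
  exact e (h2 b hb c hc hn)

variable (M) in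
/-- no edges between two sets of generators -/
def Orth (L T : Finset S) : Prop := ∀ s ∈ L, ∀ t ∈ T, M s t = 2

variable (M) in
/-- `C` is a connected component of `L` -/
structure IsComp (L C : Finset S) : Prop where
  sub : C ⊆ L
  conn : Aff.Conn M C
  orth : Orth M C (L \ C)

theorem Orth.symm (h : Orth M L T) : Orth M T L := fun s hs t ht => by
  rw [M.symmetric]
  exact h t ht s hs

theorem Orth.mono {L' T' : Finset S} (h : Orth M L T) (h1 : L' ⊆ L) (h2 : T' ⊆ T) :
    Orth M L' T' := fun s hs t ht => h s (h1 hs) t (h2 ht)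

theorem Orth.not_mem (h : Orth M L T) {s : S} (hs : s ∈ L) : s ∉ T := fun ht => by
  have := h s hs s ht
  rw [M.diagonal] at this
  omega

theorem Orth.disj (h : Orth M L T) : Disjoint L T := Finset.disjoint_left.2 fun _ => h.not_mem

theorem exists_comp {s : S} (hs : s ∈ L) : ∃ C, IsComp M L C ∧ s ∈ C := by
  classical
  let R : S → S → Prop := fun a b => b ∈ L ∧ M a b ≠ 2
  let C : Finset S := L.filter fun t => Relation.ReflTransGen R s t
  have hsC : s ∈ C := Finset.mem_filter.2 ⟨hs, .refl⟩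
  have st : ∀ a ∈ C, ∀ b ∈ L, M a b ≠ 2 → b ∈ C := fun a ha b hb e =>
    Finset.mem_filter.2 ⟨hb, (Finset.mem_filter.1 ha).2.tail ⟨hb, e⟩⟩
  refine ⟨C, ⟨Finset.filter_subset _ _, aff_conn ⟨s, hsC⟩ ?_, fun a ha b hb => ?_⟩, hsC⟩
  · intro P hP a ha pa b hb
    have key : ∀ t, Relation.ReflTransGen R s t → t ∈ C ∧ (P s ↔ P t) := by
      intro t ht
      induction ht with
      | refl => exact ⟨hsC, Iff.rfl⟩
      | @tail u v _ h2 ih =>
        have hv := st u ih.1 v h2.1 h2.2
        exact ⟨hv, ih.2.trans ⟨hP u ih.1 v hv h2.2,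
          hP v hv u ih.1 (by rw [M.symmetric]; exact h2.2)⟩⟩
    exact (key b (Finset.mem_filter.1 hb).2).2.1 ((key a (Finset.mem_filter.1 ha).2).2.2 pa)
  · by_contra e
    have := Finset.mem_sdiff.1 hb
    exact this.2 (st a ha b this.1 e)

/-- either connected, empty, or an orthogonal union of two nonempty parts -/
theorem conn_or_split (L : Finset S) : L = ∅ ∨ Aff.Conn M L ∨
    ∃ A B : Finset S, A.Nonempty ∧ B.Nonempty ∧ A ∪ B = L ∧ Orth M A B := by
  rcases L.eq_empty_or_nonempty with e | ⟨s, hs⟩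
  · exact Or.inl e
  obtain ⟨C, hC, hsC⟩ := exists_comp (M := M) hs
  rcases (L \ C).eq_empty_or_nonempty with e | e
  · have : C = L := Finset.Subset.antisymm hC.sub (Finset.sdiff_eq_empty_iff_subset.1 e)
    exact Or.inr (Or.inl (this ▸ hC.conn))
  · exact Or.inr (Or.inr ⟨C, L \ C, ⟨s, hsC⟩, e, Finset.union_sdiff_of_subset hC.sub, hC.orth⟩)

/-- a component of a proper part of a connected diagram has a neighbour outside the part -/
theorem IsComp.exists_adj (h : IsComp M L C) (hJ : Aff.Conn M J) (hL : L ⊆ J) (hne : L ≠ J) :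
    ∃ a ∈ C, ∃ u ∈ J, u ∉ L ∧ M a u ≠ 2 := by
  by_contra hc
  push Not at hc
  have := hJ.2 C (h.sub.trans hL) h.conn.1 fun a ha b hb hn => by
    by_cases e : b ∈ L
    · exact h.orth a ha b (Finset.mem_sdiff.2 ⟨e, hn⟩)
    · exact hc a ha b hb e
  exact hne (Finset.Subset.antisymm hL (this ▸ h.sub))

theorem cc_two {s t : S} (h : M s t = 2) : cc M s t = 0 := by
  simp [cc, h]

theorem Orth.ip_eq (h : Orth M L T) {s : S} (hs : s ∈ L) {x : S → ℝ} (hx : Sup T x) :
    ip M s x = 0 := by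
  rw [ip_apply]
  refine Finset.sum_eq_zero fun t _ => ?_
  by_cases ht : t ∈ T
  · rw [cc_two (h s hs t ht), zero_mul]
  · rw [hx t ht, mul_zero]

theorem Orth.rho_eq (h : Orth M L T) {u : M.Group} (hu : u ∈ W M L) {x : S → ℝ} (hx : Sup T x) :
    rho M u x = x := Core.fixes hu fun _ hs => h.ip_eq hs hx

theorem Orth.bf_eq (h : Orth M L T) {x y : S → ℝ} (hx : Sup L x) (hy : Sup T y) :
    bf M x y = 0 := Aff.bf_eq_zero hx fun _ hs => h.ip_eq hs hy

theorem sm_comm {s t : S} (h : M s t = 2) : sm M s * sm M t = sm M t * sm M s := by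
  have := M.toCoxeterSystem.simple_mul_simple_pow s t
  rw [h, pow_two, mul_eq_one_iff_eq_inv, mul_inv_rev, inv_simple, inv_simple] at this
  exact this

theorem Orth.comm (h : Orth M L T) {u v : M.Group} (hu : u ∈ W M L) (hv : v ∈ W M T) :
    u * v = v * u := by
  refine W_ind (p := fun u => u * v = v * u) (by simp) ?_ u hu
  intro w _ s hs ih
  have e : sm M s * v = v * sm M s := by
    refine W_ind (p := fun v => sm M s * v = v * sm M s) (by simp) ?_ v hv
    intro x _ t ht ih
    rw [← mul_assoc, ih, mul_assoc, sm_comm (h s hs t ht), mul_assoc]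
  rw [mul_assoc, e, ← mul_assoc, ih, mul_assoc]

theorem Orth.prod (h : Orth M L T) {w : M.Group} (hw : w ∈ W M (L ∪ T)) :
    ∃ u ∈ W M L, ∃ v ∈ W M T, w = u * v := by
  refine W_ind (p := fun w => ∃ u ∈ W M L, ∃ v ∈ W M T, w = u * v)
    ⟨1, one_mem _, 1, one_mem _, by simp⟩ ?_ w hw
  rintro _ _ s hs ⟨u, hu, v, hv, rfl⟩
  rcases Finset.mem_union.1 hs with e | e
  · exact ⟨u * sm M s, mul_mem hu (sm_mem e), v, hv, by
      rw [mul_assoc, ← h.comm (sm_mem e) hv, mul_assoc]⟩
  · exact ⟨u, hu, v * sm M s, mul_mem hv (sm_mem e), mul_assoc _ _ _⟩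

theorem Orth.finite (h : Orth M L T) (h1 : Finite (W M L)) (h2 : Finite (W M T)) :
    Finite (W M (L ∪ T)) := by
  refine Finite.of_surjective (fun p : W M L × W M T => (⟨p.1 * p.2,
    mul_mem (W_mono Finset.subset_union_left p.1.2) (W_mono Finset.subset_union_right p.2.2)⟩ :
      W M (L ∪ T))) fun w => ?_
  obtain ⟨u, hu, v, hv, e⟩ := h.prod w.2
  exact ⟨(⟨u, hu⟩, ⟨v, hv⟩), Subtype.ext e.symm⟩

theorem finite_mono (h : T ⊆ L) (hL : Finite (W M L)) : Finite (W M T) :=
  Finite.of_injective _ (Subgroup.inclusion_injective (W_mono (M := M) h))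

theorem W_empty {w : M.Group} (hw : w ∈ W M (∅ : Finset S)) : w = 1 :=
  eq_one_of_pos hw fun _ hs => absurd hs (Finset.notMem_empty _)

theorem finite_empty : Finite (W M (∅ : Finset S)) :=
  haveI : Subsingleton (W M (∅ : Finset S)) :=
    ⟨fun a b => Subtype.ext ((W_empty a.2).trans (W_empty b.2).symm)⟩
  inferInstance

theorem IsComp.of_sdiff {C' : Finset S} (h : IsComp M L C) (h' : IsComp M (L \ C) C') :
    IsComp M L C' := by
  refine ⟨h'.sub.trans Finset.sdiff_subset, h'.conn, fun a ha b hb => ?_⟩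
  have hb' := Finset.mem_sdiff.1 hb
  by_cases e : b ∈ C
  · exact h.orth.symm a (h'.sub ha) b e
  · exact h'.orth a ha b (Finset.mem_sdiff.2 ⟨Finset.mem_sdiff.2 ⟨hb'.1, e⟩, hb'.2⟩)

/-- induction over the components -/
theorem comp_ind {P : Finset S → Prop} (h0 : P ∅)
    (h1 : ∀ L C, IsComp M L C → P (L \ C) → P L) (L : Finset S) : P L := by
  induction L using Finset.strongInduction with
  | H L ih =>
    rcases L.eq_empty_or_nonempty with e | ⟨s, hs⟩
    · exact e ▸ h0
    · obtain ⟨C, hC, hsC⟩ := exists_comp (M := M) hs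
      exact h1 L C hC (ih _ (Finset.sdiff_ssubset hC.sub ⟨s, hsC⟩))

theorem finite_of_comp (h : ∀ C, IsComp M L C → Finite (W M C)) : Finite (W M L) := by
  revert h
  refine comp_ind (M := M) (P := fun L => (∀ C, IsComp M L C → Finite (W M C)) → Finite (W M L))
    (fun _ => finite_empty) (fun L C hC ih h => ?_) L
  have := hC.orth.finite (h C hC) (ih fun C' h' => h C' (hC.of_sdiff h'))
  rwa [Finset.union_sdiff_of_subset hC.sub] at this

/-- the chamber of the residue `c W_T` closest to `p` -/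
theorem gate (p c : M.Group) (T : Finset S) :
    ∃ u ∈ W M T, ∀ s ∈ T, PosAt M p (rho M (c * u) (al s)) := by
  obtain ⟨u, hu, h⟩ := term p (fun u => c * u) (fun u => u ∈ W M T)
    (fun u => ∀ s ∈ T, PosAt M p (rho M (c * u) (al s))) (fun u hu => by
      by_cases e : ∀ s ∈ T, PosAt M p (rho M (c * u) (al s))
      · exact Or.inl e
      · push Not at e
        obtain ⟨s, hs, hn⟩ := e
        exact Or.inr ⟨u * sm M s, s, mul_mem hu (sm_mem hs), (mul_assoc _ _ _).symm, hn⟩)
    1 (one_mem _)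
  exact ⟨u, hu, h⟩

/-- from the gate every positive root of the residue is positive at `p` -/
theorem gate_pos {p c : M.Group} (h : ∀ s ∈ T, PosAt M p (rho M c (al s))) {x : S → ℝ}
    (hx : Sup T x) (hp : Pos x) : PosAt M p (rho M c x) := by
  intro i
  have := Ch.nonneg (M := M) (L := T) (th := (LinearMap.proj i).comp (rho M p⁻¹)) (w := c)
    (fun s hs => h s hs i) hx hp
  exact this

/-- the chamber of a finite residue farthest from `p` -/
theorem antigate (hT : Finite (W M T)) (p c : M.Group) :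
    ∃ u ∈ W M T, ∀ s ∈ T, PosAt M p (-rho M (c * u) (al s)) := by
  obtain ⟨u, hu⟩ := Finite.exists_max fun u : W M T =>
    M.toCoxeterSystem.length (p⁻¹ * (c * u))
  refine ⟨u, u.2, fun s hs => ?_⟩
  by_contra hn
  have := len_step (p := p) (w := c * u * sm M s) (s := s) (by rwa [rho_sm_al])
  have h2 := hu ⟨u * sm M s, mul_mem u.2 (sm_mem hs)⟩
  rw [mul_assoc (c * u), simple_mul_simple_self, mul_one] at this
  rw [← mul_assoc c] at h2
  omega

/-- a root supported on `T` is a root of `W_T` -/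
theorem Rt.of_sup {g : S → ℝ} (h : Rt M L g) (hg : Sup T g) : Rt M T g := by
  obtain ⟨w, -, t, -, rfl⟩ := h
  obtain ⟨v, hv, hp⟩ := gate w 1 T
  rw [one_mul] at hp
  have hb := hg.act (inv_mem hv)
  have e : ∀ j, al t j = ∑ s, rho M v⁻¹ (rho M w (al t)) s * rho M w⁻¹ (rho M v (al s)) j := by
    intro j
    have := th_sum (M := M) ((LinearMap.proj j).comp (rho M w⁻¹)) v (rho M v⁻¹ (rho M w (al t)))
    rw [rho_inv', LinearMap.comp_apply, rho_inv] at this
    exact this
  have pb : Pos (rho M v⁻¹ (rho M w (al t))) := by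
    have := dichotomy M (v⁻¹ * w) t
    rw [rho_mul] at this
    refine this.resolve_right fun hn => ?_
    have := gate_pos hp hb.neg hn t
    rw [map_neg, rho_inv', map_neg, rho_inv, Pi.neg_apply, al_self] at this
    linarith
  have nn : ∀ j, ∀ s ∈ Finset.univ,
      0 ≤ rho M v⁻¹ (rho M w (al t)) s * rho M w⁻¹ (rho M v (al s)) j := by
    intro j s _
    by_cases hs : s ∈ T
    · exact mul_nonneg (pb s) (hp s hs j)
    · rw [hb s hs, zero_mul]
  obtain ⟨s, hs⟩ : ∃ s, rho M v⁻¹ (rho M w (al t)) s ≠ 0 := by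
    by_contra hc
    push Not at hc
    have := e t
    rw [al_self, Finset.sum_eq_zero fun s _ => by rw [hc s, zero_mul]] at this
    exact one_ne_zero this
  have hT : s ∈ T := by_contra fun hn => hs (hb s hn)
  have e2 : rho M (w⁻¹ * v) (al s) = rho M (w⁻¹ * v) (al s) t • al t := by
    funext j
    by_cases hj : j = t
    · simp [hj]
    · have := e j
      rw [al_ne hj] at this
      have z := (Finset.sum_eq_zero_iff_of_nonneg (nn j)).1 this.symm s (Finset.mem_univ s)
      rw [Pi.smul_apply, al_ne hj, smul_zero, rho_mul]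
      exact (mul_eq_zero.1 z).resolve_left hs
  have e3 := root_eq M (by rw [rho_mul]; exact hp s hT t) e2
  rw [e3, one_smul] at e2
  exact ⟨v, hv, s, hT, by rw [← e2, rho_mul, rho_inv']⟩

theorem Rt.mono {g : S → ℝ} (h : Rt M T g) (hT : T ⊆ L) : Rt M L g := by
  obtain ⟨v, hv, s, hs, rfl⟩ := h
  exact rt_al (W_mono hT hv) (hT hs)

theorem rt_iff_aff {g : S → ℝ} : Rt M L g ↔ Aff.Rt M L g := Iff.rfl

theorem ch_iff_core {th : (S → ℝ) →ₗ[ℝ] ℝ} {w : M.Group} : Ch M L th w ↔ Core.Ch M L w th :=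
  Iff.rfl

end Pool.Agent.HT.Tits
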