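import Pool.Agent.Lib.HT.CoreA

/-! A convex family of vectors on the chambers that dominates an antidominant vector has an
antidominant point in the convex hull of a spherical residue. -/

set_option linter.unusedSectionVars false

namespace Pool.Agent.HT.Core

open Pool.Agent.Lib.MP_6d85b4_al Filter Topology

variable {B : Type} [Fintype B] [DecidableEq B] {M : CoxeterMatrix B} {L T : Finset B}
  {z : B → ℝ} {b : M.Group → B → ℝ}

variable (M L z b) in
/-- The hypotheses on the family `b`. -/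
structure Fam : Prop where
  hb : ∀ v ∈ WL M L, Cn L (rho M v⁻¹ (b v) - z)
  mx : ∀ v ∈ WL M L, ∀ v' ∈ WL M L, ∀ θ, Ch M L v θ → θ (b v') ≤ θ (b v)

variable (M L T z b) in
/-- The points of the convex hull all of whose conjugates dominate `z`. -/
def Cs : Set (B → ℝ) := {y | (∀ v ∈ WL M T, Cn L (rho M v⁻¹ y - z)) ∧
  ∀ (θ : (B → ℝ) →ₗ[ℝ] ℝ) (t : ℝ), (∀ v ∈ WL M T, θ (b v) ≤ t) → θ y ≤ t}

theorem Ch.le {v : M.Group} {θ : (B → ℝ) →ₗ[ℝ] ℝ} (h : Ch M L v θ) {x : B → ℝ}
    (hx : Cn L (rho M v⁻¹ x - z)) : θ (rho M v z) ≤ θ x := by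
  have := h.nonneg (x := x - rho M v z) (by rwa [map_sub, rho_inv])
  rwa [map_sub, sub_nonneg] at this

theorem cs_nonempty (hT : T ⊆ L) (hz : ∀ s ∈ L, 0 ≤ ip M s z) (F : Fam M L z b) :
    (Cs M L T z b).Nonempty := by
  have lo : ∀ v ∈ WL M T, ∀ θ, Ch M L v θ → ∀ u ∈ WL M T, θ (rho M v z) ≤ θ (rho M u z) :=
    fun v hv θ h u hu => h.le (by
      rw [← rho_mul]; exact least hz (WL_mono hT (mul_mem (inv_mem hv) hu)))
  obtain ⟨y, h1, h2⟩ := sandwich
    (fun (θ : (B → ℝ) →ₗ[ℝ] ℝ) s => (∃ v ∈ WL M T, Ch M L v θ) ∧ ∀ v ∈ WL M T, s ≤ θ (rho M v z))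
    (fun θ t => ∀ v ∈ WL M T, θ (b v) ≤ t)
    (fun a s c t ⟨⟨u, hu, ha⟩, h⟩ ⟨⟨w, hw, hc⟩, k⟩ =>
      ⟨tits hT hu hw ha hc, fun v hv => add_le_add (h v hv) (k v hv)⟩)
    (fun c a s hc ⟨⟨u, hu, ha⟩, h⟩ =>
      ⟨⟨u, hu, ha.smul hc⟩, fun v hv => mul_le_mul_of_nonneg_left (h v hv) hc⟩)
    (fun a s c t h k v hv => add_le_add (h v hv) (k v hv))
    (fun c a s hc h v hv => mul_le_mul_of_nonneg_left (h v hv) hc)
    (fun a s t ⟨⟨u, hu, ha⟩, h⟩ k =>
      (h u hu).trans ((ha.le (F.hb u (WL_mono hT hu))).trans (k u hu)))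
    (fun a => by
      obtain ⟨c, hc, k⟩ := shift (M := M) (L := L) a
      have k' : Ch M L 1 (c • ht) := Ch.smul (fun s _ => by simp [ht_al]) hc
      exact ⟨_, _, _, _, fun v hv => F.mx 1 (one_mem _) v (WL_mono hT hv) _ k,
        ⟨⟨1, one_mem _, k'⟩, lo 1 (one_mem _) _ k'⟩, (add_sub_cancel_right _ _).symm⟩)
  obtain ⟨y, rfl⟩ := (Module.evalEquiv ℝ (B → ℝ)).surjective y
  refine ⟨y, fun v hv => ?_, h2⟩
  have := cn_of (M := M) (L := L) (v := v) (x := y - rho M v z) fun θ h => by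
    rw [map_sub, sub_nonneg]
    exact h1 θ _ ⟨⟨v, hv, h⟩, lo v hv θ h⟩
  rwa [map_sub, rho_inv] at this

theorem cs_compact (F : Fam M L z b) : IsCompact (Cs M L L z b) := by
  refine (isCompact_Icc (a := z) (b := b 1)).of_isClosed_subset ?_ fun y hy => ⟨fun i => ?_,
    fun i => hy.2 (LinearMap.proj i) _ fun v hv => F.mx 1 (one_mem _) v hv (LinearMap.proj i)
      fun s _ => by simpa using pos_al s i⟩
  · have c : ∀ (v : M.Group) (i : B), Continuous fun y => (rho M v⁻¹ y - z) i := fun v i =>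
      (continuous_apply i).comp
        ((rho M v⁻¹).continuous_of_finiteDimensional.sub continuous_const)
    simp only [Cs, Cn, Pos, Set.ofPred_and, Set.ofPred_forall]
    exact (isClosed_iInter fun v => isClosed_iInter fun _ =>
      (isClosed_iInter fun i => isClosed_le continuous_const (c v i)).inter
        (isClosed_iInter fun i => isClosed_iInter fun _ => isClosed_eq (c v i) continuous_const)).inter
      (isClosed_iInter fun θ => isClosed_iInter fun t => isClosed_iInter fun _ =>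
        isClosed_le θ.continuous_of_finiteDimensional continuous_const)
  · simpa using (hy.1 1 (one_mem _)).1 i

theorem Fam.rebase (F : Fam M L z b) {g : M.Group} (hg : g ∈ WL M L) :
    Fam M L z fun v => rho M g⁻¹ (b (g * v)) := by
  refine ⟨fun v hv => ?_, fun v hv u hu θ h => F.mx _ (mul_mem hg hv) _ (mul_mem hg hu)
    (θ.comp (rho M g⁻¹)) fun s hs => ?_⟩
  · rw [← rho_mul, ← mul_inv_rev]
    exact F.hb _ (mul_mem hg hv)
  · rw [LinearMap.comp_apply, rho_mul, rho_inv]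
    exact h s hs

theorem cs_rebase {g : M.Group} (hg : g ∈ WL M L) {y : B → ℝ} (hy : y ∈ Cs M L L z b) :
    rho M g⁻¹ y ∈ Cs M L L z fun v => rho M g⁻¹ (b (g * v)) := by
  refine ⟨fun v hv => ?_, fun θ t h => hy.2 (θ.comp (rho M g⁻¹)) t fun v hv => ?_⟩
  · rw [← rho_mul, ← mul_inv_rev]
    exact hy.1 _ (mul_mem hg hv)
  · simpa using h _ (mul_mem (inv_mem hg) hv)

theorem small {ι : Type} [Finite ι] (a c : ι → ℝ) :
    ∀ᶠ t in 𝓝[>] (0 : ℝ), ∀ i, 0 < a i → 0 ≤ a i + t * c i := by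
  refine eventually_all.2 fun i => ?_
  by_cases h : 0 < a i
  · have : ContinuousAt (fun t : ℝ => a i + t * c i) 0 := by fun_prop
    exact ((this.eventually (lt_mem_nhds (by simpa using h))).mono
      fun t ht _ => le_of_lt ht).filter_mono nhdsWithin_le_nhds
  · exact Eventually.of_forall fun _ k => absurd k h

variable (M) in
/-- The form as a functional. -/
noncomputable def bl (y : B → ℝ) : (B → ℝ) →ₗ[ℝ] ℝ := ∑ i, y i • ip M i

theorem bl_apply (y x : B → ℝ) : bl M y x = bf M y x := by simp [bl, bf, LinearMap.sum_apply]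

theorem bl_root (y : B → ℝ) (u : M.Group) (s : B) :
    bl M y (rho M u (al s)) = ip M s (rho M u⁻¹ y) := by
  rw [bl_apply, ← bf_rho M u⁻¹, rho_inv, bf_symm, bf_al]

theorem core_one (hz : ∀ s ∈ L, 0 ≤ ip M s z) (F : Fam M L z b) {y : B → ℝ}
    (hy : y ∈ Cs M L L z b) (mx : ∀ x ∈ Cs M L L z b, bf M x x ≤ bf M y y)
    (ha : ∀ s ∈ L, 0 ≤ ip M s y) (hf : Finite (WL M (L.filter fun s => ip M s y = 0)))
    (ψ : (B → ℝ) →ₗ[ℝ] ℝ) : ∃ u ∈ WL M (L.filter fun s => ip M s y = 0), ψ y ≤ ψ (b u) := by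
  set J := L.filter fun s => ip M s y = 0 with hJ
  have JL : J ⊆ L := Finset.filter_subset _ _
  have fx : ∀ u ∈ WL M J, rho M u⁻¹ y = y := fun u hu =>
    fixes (inv_mem hu) fun s hs => (Finset.mem_filter.1 hs).2
  have pos : ∀ s ∈ L, s ∉ J → 0 < ip M s y := fun s hs h =>
    (ha s hs).lt_of_ne' fun e => h (Finset.mem_filter.2 ⟨hs, e⟩)
  obtain ⟨x, hx⟩ := cs_nonempty JL hz F
  have k1 : bf M y (x - y) ≤ 0 := by
    by_contra c
    obtain ⟨t, ⟨⟨h1, h2⟩, h3⟩, t0⟩ := ((((small (fun p : WL M J × B => ip M p.2 y)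
      fun p => ip M p.2 (rho M (p.1 : M.Group)⁻¹ (x - y))).and (small (fun _ : Unit => bf M y (x - y))
      fun _ => bf M (x - y) (x - y))).and (small (fun _ : Unit => 1) fun _ => -1)).and
      self_mem_nhdsWithin).exists
    have t0 : 0 < t := t0
    have t1 : 0 ≤ 1 - t := by linarith [h3 () one_pos]
    have m : y + t • (x - y) ∈ Cs M L L z b := by
      refine ⟨fun v hv => ?_, fun θ r h => ?_⟩
      · obtain ⟨u, hu, cu⟩ := chamber hf (bl M (y + t • (x - y)))
        have a : ∀ s ∈ L, 0 ≤ ip M s (rho M u⁻¹ (y + t • (x - y))) := fun s hs => by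
          by_cases e : s ∈ J
          · exact bl_root _ u s ▸ cu s e
          · rw [map_add, map_smul, fx u hu, map_add, map_smul]
            exact h1 (⟨u, hu⟩, s) (pos s hs e)
        have := (least a (mul_mem (inv_mem hv) (WL_mono JL hu))).add
          (((hy.1 u (WL_mono JL hu)).smul t1).add ((hx.1 u hu).smul t0.le))
        rw [rho_mul, rho_inv'] at this
        convert this using 1
        simp only [map_add, map_smul, map_sub]
        module
      · have a1 := hy.2 θ r h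
        have a2 := hx.2 θ r fun v hv => h v (WL_mono JL hv)
        rw [map_add, map_smul, map_sub, smul_eq_mul]
        nlinarith
    have := mx _ m
    rw [bf_add_smul, bf_symm M y, bf_add_smul, bf_symm M (x - y) (y + _), bf_add_smul,
      bf_symm M (x - y) y] at this
    have := h2 () (not_le.1 c)
    nlinarith [mul_pos t0 (not_le.1 c)]
  obtain ⟨u, hu, cu⟩ := chamber hf ψ
  have k2 : bl M y (b u) ≤ bl M y x := by
    have := hx.2 (-bl M y) (-bl M y (b u)) fun v hv => neg_le_neg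
      (F.mx v (WL_mono JL hv) u (WL_mono JL hu) _ fun s hs => by
        rw [bl_root, fx v hv]; exact ha s hs)
    exact neg_le_neg_iff.1 this
  obtain ⟨t, h1, t0⟩ := ((small (fun s => ip M s y) fun s => ψ (rho M u (al s))).and
    self_mem_nhdsWithin).exists
  have t0 : 0 < t := t0
  have k3 := hy.2 (bl M y + t • ψ) _ fun v hv => F.mx u (WL_mono JL hu) v hv _ fun s hs => by
    rw [LinearMap.add_apply, bl_root, fx u hu]
    by_cases e : s ∈ J
    · exact add_nonneg (ha s hs) (mul_nonneg t0.le (cu s e))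
    · exact h1 s (pos s hs e)
  rw [← bl_apply, map_sub] at k1
  simp only [LinearMap.add_apply, LinearMap.smul_apply, smul_eq_mul] at k3
  exact ⟨u, hu, le_of_mul_le_mul_left (by linarith) t0⟩

/-- CORE. -/
theorem core (hz : ∀ s ∈ L, 0 ≤ ip M s z) (hf : Finite (WL M (L.filter fun s => ip M s z = 0)))
    (hb : ∀ v ∈ WL M L, Cn L (rho M v⁻¹ (b v) - z))
    (mx : ∀ v ∈ WL M L, ∀ v' ∈ WL M L, ∀ θ, Ch M L v θ → θ (b v') ≤ θ (b v)) :
    ∃ v0 ∈ WL M L, ∃ y, Cn L (rho M v0⁻¹ y - z) ∧ (∀ s ∈ L, 0 ≤ ip M s (rho M v0⁻¹ y)) ∧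
      Finite (WL M (L.filter fun s => ip M s (rho M v0⁻¹ y) = 0)) ∧
      ∀ ψ : (B → ℝ) →ₗ[ℝ] ℝ, ∃ u ∈ WL M (L.filter fun s => ip M s (rho M v0⁻¹ y) = 0),
        ψ y ≤ ψ (b (v0 * u)) := by
  have F : Fam M L z b := ⟨hb, mx⟩
  obtain ⟨y, hy, hm⟩ := (cs_compact F).exists_isMaxOn (cs_nonempty subset_rfl hz F)
    (f := fun x => bf M x x) (Continuous.continuousOn (continuous_finsetSum _ fun i _ =>
      (continuous_apply i).mul (ip M i).continuous_of_finiteDimensional))
  have fin : ∀ R, {v | v ∈ WL M L ∧ ht (rho M v⁻¹ y) ≤ R}.Finite := fun R => by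
    have f := fin_ht hz hf (R + ht y - ht z)
    refine (f.image2 (fun a c => a * c⁻¹) f).subset fun v hv => ?_
    obtain ⟨w, hw, c⟩ := tits subset_rfl hv.1 (one_mem _) (a := ht.comp (rho M v⁻¹)) (b := ht)
      (fun s _ => by rw [LinearMap.comp_apply, rho_inv, ht_al]; exact zero_le_one)
      fun s _ => by simp [ht_al]
    have m := mul_mem (inv_mem hv.1) hw
    have a := c.le (hy.1 w hw)
    have a1 := ht_nonneg (least hz hw).1
    have a2 := ht_nonneg (least hz m).1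
    have a3 := hv.2
    simp only [LinearMap.add_apply, LinearMap.comp_apply, map_sub, ← rho_mul] at a a1 a2
    exact ⟨w, ⟨hw, by linarith⟩, _, ⟨m, by linarith⟩, by group⟩
  obtain ⟨g, ⟨hg, g1⟩, mn⟩ := Set.exists_min_image _ (fun v => ht (rho M v⁻¹ y)) (fin (ht y))
    ⟨1, one_mem _, by simp⟩
  have ha : ∀ s ∈ L, 0 ≤ ip M s (rho M g⁻¹ y) := fun s hs => by
    by_contra c
    have e : ht (rho M (g * M.toCoxeterSystem.simple s)⁻¹ y) =
        ht (rho M g⁻¹ y) + ip M s (rho M g⁻¹ y) := by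
      rw [mul_inv_rev, M.toCoxeterSystem.inv_simple, rho_mul, rho_simple, rf_apply, map_add,
        map_smul, ht_al, smul_eq_mul, mul_one]
    have := mn _ ⟨mul_mem hg (simple_mem hs), by linarith⟩
    linarith
  have hf' : Finite (WL M (L.filter fun s => ip M s (rho M g⁻¹ y) = 0)) := by
    refine ((fin (ht y)).image (g⁻¹ * ·)).subset fun u hu => ⟨g * u, ⟨mul_mem hg
      (WL_mono (Finset.filter_subset _ _) hu), ?_⟩, inv_mul_cancel_left _ _⟩
    rwa [mul_inv_rev, rho_mul, fixes (inv_mem hu) fun s hs => (Finset.mem_filter.1 hs).2]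
  refine ⟨g, hg, y, hy.1 g hg, ha, hf', fun ψ => ?_⟩
  obtain ⟨u, hu, h⟩ := core_one hz (F.rebase hg) (cs_rebase hg hy) (fun x hx => by
    have := cs_rebase (inv_mem hg) hx
    simp only [inv_inv, rho_inv', mul_inv_cancel_left] at this
    rw [bf_rho, ← bf_rho M g x]
    exact hm this) ha hf' (ψ.comp (rho M g))
  exact ⟨u, hu, by simpa only [LinearMap.comp_apply, rho_inv'] using h⟩

end Pool.Agent.HT.Core
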