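import Pool.Agent.Lib.MP_6d85b4_al.Roots

/-! Parabolic subgroups in the geometric representation: descents, the Tits cone, sandwiches. -/

set_option linter.unusedSectionVars false

namespace Pool.Agent.HT.Core

open Pool.Agent.Lib.MP_6d85b4_al

/-- A superadditive lower datum below a subadditive upper datum is separated by a linear map. -/
theorem sandwich {V : Type} [AddCommGroup V] [Module ℝ V] (G H : V → ℝ → Prop)
    (aG : ∀ a s b t, G a s → G b t → G (a + b) (s + t))
    (mG : ∀ c a s, 0 ≤ c → G a s → G (c • a) (c * s))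
    (aH : ∀ a s b t, H a s → H b t → H (a + b) (s + t))
    (mH : ∀ c a s, 0 ≤ c → H a s → H (c • a) (c * s))
    (le : ∀ a s t, G a s → H a t → s ≤ t)
    (dn : ∀ a, ∃ b t c s, H b t ∧ G c s ∧ a = b - c) :
    ∃ y : V →ₗ[ℝ] ℝ, (∀ a s, G a s → s ≤ y a) ∧ ∀ a t, H a t → y a ≤ t := by
  obtain ⟨b0, t0, c0, s0, h0, g0, -⟩ := dn 0
  have G0 : G 0 0 := by simpa using mG 0 _ _ le_rfl g0
  have H0 : H 0 0 := by simpa using mH 0 _ _ le_rfl h0
  let N : PointedCone ℝ (V × ℝ) :=
    { carrier := {p | ∃ b t c r, H b t ∧ G c r ∧ p.1 = b - c ∧ t - r ≤ p.2}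
      add_mem' := by
        rintro p q ⟨b, t, c, r, h1, h2, h3, h4⟩ ⟨b', t', c', r', k1, k2, k3, k4⟩
        refine ⟨_, _, _, _, aH _ _ _ _ h1 k1, aG _ _ _ _ h2 k2, ?_, ?_⟩
        · rw [Prod.fst_add, h3, k3]; abel
        · rw [Prod.snd_add]; linarith
      zero_mem' := ⟨0, 0, 0, 0, H0, G0, by simp, by simp⟩
      smul_mem' := by
        rintro ⟨k, hk⟩ p ⟨b, t, c, r, h1, h2, h3, h4⟩
        refine ⟨_, _, _, _, mH k _ _ hk h1, mG k _ _ hk h2, ?_, ?_⟩
        · change k • p.1 = _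
          rw [h3, smul_sub]
        · change _ ≤ k * p.2
          rw [← mul_sub]
          exact mul_le_mul_of_nonneg_left h4 hk }
  obtain ⟨g, g1, g2⟩ := riesz_extension N
    ((LinearMap.snd ℝ V ℝ).toPMap (LinearMap.ker (LinearMap.fst ℝ V ℝ))) (by
      rintro ⟨p, hp⟩ ⟨b, t, c, r, h1, h2, h3, h4⟩
      have e : b = c := sub_eq_zero.1 (h3.symm.trans hp)
      have := le _ _ _ h2 (e ▸ h1)
      change 0 ≤ p.2
      change _ ≤ p.2 at h4
      linarith) (by
      intro p
      obtain ⟨b, t, c, r, h1, h2, h3⟩ := dn p.1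
      exact ⟨⟨(0, t - r - p.2), rfl⟩, b, t, c, r, h1, h2, by simpa using h3, by simp⟩)
  have e : ∀ (a : V) (t : ℝ), g (a, t) = g (a, 0) + t := fun a t => by
    have := g1 ⟨(0, t), rfl⟩
    change g (0, t) = t at this
    rw [← this, ← map_add, this]
    simp
  refine ⟨-(g.comp (LinearMap.inl ℝ V ℝ)), fun a s h => ?_, fun a t h => ?_⟩
  · have := g2 (-(a, s)) ⟨0, 0, a, s, H0, h, by simp, by simp⟩
    rw [map_neg, e] at this
    change s ≤ -g (a, 0)
    linarith
  · have := g2 (a, t) ⟨a, t, 0, 0, h, G0, by simp, by simp⟩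
    rw [e] at this
    change -g (a, 0) ≤ t
    linarith

variable {B : Type} [Fintype B] [DecidableEq B] (M : CoxeterMatrix B)

/-- The standard parabolic subgroup. -/
abbrev WL (L : Finset B) : Subgroup M.Group :=
  Subgroup.closure (M.toCoxeterSystem.simple '' L)

/-- The cone spanned by the simple roots of `L`. -/
def Cn (L : Finset B) (x : B → ℝ) : Prop := Pos x ∧ ∀ i ∉ L, x i = 0

/-- The closed chamber of `v` for the reflection group of `L`. -/
def Ch (L : Finset B) (v : M.Group) (θ : (B → ℝ) →ₗ[ℝ] ℝ) : Prop :=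
  ∀ s ∈ L, 0 ≤ θ (rho M v (al s))

variable {M} {L T : Finset B}

theorem simple_mem {s : B} (h : s ∈ L) : M.toCoxeterSystem.simple s ∈ WL M L :=
  Subgroup.subset_closure ⟨s, h, rfl⟩

theorem WL_mono (h : T ⊆ L) : WL M T ≤ WL M L :=
  Subgroup.closure_mono (Set.image_mono h)

theorem rho_inv' (w : M.Group) (x : B → ℝ) : rho M w (rho M w⁻¹ x) = x := by
  rw [← rho_mul, mul_inv_cancel, map_one]
  rfl

theorem coord {w : M.Group} (hw : w ∈ WL M L) {i : B} (hi : i ∉ L) (x : B → ℝ) :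
    rho M w x i = x i := by
  induction hw using Subgroup.closure_induction generalizing x with
  | mem w h =>
    obtain ⟨s, hs, rfl⟩ := h
    rw [rho_simple, rf_coord M (ne_of_mem_of_not_mem hs hi).symm]
  | one => simp
  | mul a b _ _ ha hb => rw [rho_mul, ha, hb]
  | inv a _ ha => rw [← ha (rho M a⁻¹ x), rho_inv']

theorem fixes {w : M.Group} (hw : w ∈ WL M L) {z : B → ℝ} (hz : ∀ s ∈ L, ip M s z = 0) :
    rho M w z = z := by
  induction hw using Subgroup.closure_induction with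
  | mem w h =>
    obtain ⟨s, hs, rfl⟩ := h
    rw [rho_simple, rf_apply, hz s hs, zero_smul, add_zero]
  | one => simp
  | mul a b _ _ ha hb => rw [rho_mul, hb, ha]
  | inv a _ ha => conv_lhs => rw [← ha, rho_inv]

theorem neg_of_descent {w : M.Group} {i : B} (h : M.toCoxeterSystem.IsRightDescent w i) :
    Pos (-rho M w (al i)) := by
  have := pos_of_not_descent M _ i
    ((M.toCoxeterSystem.isRightDescent_iff_not_isRightDescent_mul).1 h)
  rwa [rho_mul, rho_simple, rf_self, map_neg] at this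

theorem mem_of_neg {w : M.Group} (hw : w ∈ WL M L) {i : B} (h : Pos (-rho M w (al i))) :
    i ∈ L := by
  by_contra hi
  have := h i
  rw [Pi.neg_apply, coord hw hi, al_self] at this
  linarith

/-- Induction along reduced words inside a parabolic subgroup. -/
theorem ind {P : M.Group → Prop} (h1 : P 1)
    (hs : ∀ w ∈ WL M L, ∀ s ∈ L, Pos (rho M w (al s)) → P w → P (w * M.toCoxeterSystem.simple s))
    {w : M.Group} (hw : w ∈ WL M L) : P w := by
  induction hn : M.toCoxeterSystem.length w using Nat.strong_induction_on generalizing w with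
  | _ n ih =>
  by_cases e : w = 1
  · exact e ▸ h1
  obtain ⟨s, hd⟩ := M.toCoxeterSystem.exists_rightDescent_of_ne_one e
  have sL := mem_of_neg hw (neg_of_descent hd)
  have m := mul_mem hw (simple_mem (M := M) sL)
  have := hs _ m s sL (by
    rw [rho_mul, rho_simple, rf_self, map_neg]; exact neg_of_descent hd)
    (ih _ (hn ▸ hd) m rfl)
  rwa [M.toCoxeterSystem.simple_mul_simple_cancel_right] at this

theorem Cn.add {x y : B → ℝ} (hx : Cn L x) (hy : Cn L y) : Cn L (x + y) :=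
  ⟨fun i => add_nonneg (hx.1 i) (hy.1 i), fun i h => by simp [hx.2 i h, hy.2 i h]⟩

theorem Cn.smul {x : B → ℝ} {c : ℝ} (hc : 0 ≤ c) (hx : Cn L x) : Cn L (c • x) :=
  ⟨fun i => mul_nonneg hc (hx.1 i), fun i h => by simp [hx.2 i h]⟩

theorem cn_root {w : M.Group} (hw : w ∈ WL M L) {s : B} (hs : s ∈ L)
    (h : Pos (rho M w (al s))) : Cn L (rho M w (al s)) :=
  ⟨h, fun i hi => by rw [coord hw hi, al_ne (ne_of_mem_of_not_mem hs hi).symm]⟩

theorem expand (θ : (B → ℝ) →ₗ[ℝ] ℝ) (x : B → ℝ) : θ x = ∑ i, x i * θ (al i) := by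
  conv_lhs => rw [pi_eq_sum_univ' x, map_sum]
  exact Finset.sum_congr rfl fun i _ => by rw [map_smul]; rfl

theorem Cn.nonneg {x : B → ℝ} (hx : Cn L x) {θ : (B → ℝ) →ₗ[ℝ] ℝ} (h : ∀ s ∈ L, 0 ≤ θ (al s)) :
    0 ≤ θ x := by
  rw [expand]
  refine Finset.sum_nonneg fun i _ => ?_
  by_cases hi : i ∈ L
  · exact mul_nonneg (hx.1 i) (h i hi)
  · rw [hx.2 i hi, zero_mul]

theorem Ch.nonneg {v : M.Group} {θ : (B → ℝ) →ₗ[ℝ] ℝ} (h : Ch M L v θ) {x : B → ℝ}
    (hx : Cn L (rho M v⁻¹ x)) : 0 ≤ θ x := by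
  have := hx.nonneg (θ := θ.comp (rho M v)) h
  rwa [LinearMap.comp_apply, rho_inv'] at this

theorem cn_of {v : M.Group} {x : B → ℝ} (h : ∀ θ, Ch M L v θ → 0 ≤ θ x) :
    Cn L (rho M v⁻¹ x) := by
  have p : ∀ i, 0 ≤ rho M v⁻¹ x i := fun i =>
    h ((LinearMap.proj i).comp (rho M v⁻¹)) fun s _ => by
      rw [LinearMap.comp_apply, rho_inv]; exact pos_al s i
  refine ⟨p, fun i hi => le_antisymm ?_ (p i)⟩
  have := h (-(LinearMap.proj i).comp (rho M v⁻¹)) fun s hs => by
    rw [LinearMap.neg_apply, LinearMap.comp_apply, rho_inv, LinearMap.proj_apply,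
      al_ne (ne_of_mem_of_not_mem hs hi).symm, neg_zero]
  exact neg_nonneg.1 this

theorem rho_mul_simple (w : M.Group) (s : B) (z : B → ℝ) :
    rho M (w * M.toCoxeterSystem.simple s) z = rho M w z + ip M s z • rho M w (al s) := by
  rw [rho_mul, rho_simple, rf_apply, map_add, map_smul]

/-- An antidominant vector is the least element of its orbit. -/
theorem least {z : B → ℝ} (hz : ∀ s ∈ L, 0 ≤ ip M s z) {w : M.Group} (hw : w ∈ WL M L) :
    Cn L (rho M w z - z) := by
  refine ind (P := fun w => Cn L (rho M w z - z)) ⟨fun i => by simp, fun i _ => by simp⟩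
    (fun w hw s hs p ih => ?_) hw
  rw [rho_mul_simple, add_sub_right_comm]
  exact ih.add ((cn_root hw hs p).smul (hz s hs))

/-- The height. -/
noncomputable def ht : (B → ℝ) →ₗ[ℝ] ℝ := ∑ i, LinearMap.proj i

theorem ht_apply (x : B → ℝ) : ht x = ∑ i, x i := by simp [ht, LinearMap.sum_apply]

theorem ht_al (s : B) : ht (al s) = 1 := by simp [ht_apply, al, Pi.single_apply]

theorem ht_nonneg {x : B → ℝ} (h : Pos x) : 0 ≤ ht x :=
  ht_apply x ▸ Finset.sum_nonneg fun i _ => h i

theorem cc_nonneg {i j : B} (h : i ≠ j) : 0 ≤ cc M i j := by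
  have := ch_nonneg (k := 2) (M.off_diagonal i j h) (by have := M.off_diagonal i j h; omega)
  simpa [cc, ch, Pool.Agent.Lib.MP_6d85b4_al.sq] using this

/-- Positive roots have height at least one. -/
theorem one_le_ht {w : M.Group} {s : B} (h : Pos (rho M w (al s))) : 1 ≤ ht (rho M w (al s)) := by
  have n := root_norm M w s
  generalize rho M w (al s) = x at h n
  have b : ∀ i, -2 * ht x ≤ ip M i x := fun i => by
    rw [ip_apply, ht_apply, Finset.mul_sum]
    refine Finset.sum_le_sum fun j _ => mul_le_mul_of_nonneg_right ?_ (h j)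
    by_cases e : i = j
    · rw [e, cc_self]
    · linarith [cc_nonneg (M := M) e]
  have c : ht x * (-2 * ht x) ≤ bf M x x := by
    rw [bf]
    nth_rewrite 1 [ht_apply]
    rw [Finset.sum_mul]
    exact Finset.sum_le_sum fun i _ => mul_le_mul_of_nonneg_left (b i) (h i)
  nlinarith [ht_nonneg h]

theorem Ch.smul {v : M.Group} {θ : (B → ℝ) →ₗ[ℝ] ℝ} (h : Ch M L v θ) {c : ℝ} (hc : 0 ≤ c) :
    Ch M L v (c • θ) := fun s hs => mul_nonneg hc (h s hs)

theorem Ch.mul {u v : M.Group} {θ : (B → ℝ) →ₗ[ℝ] ℝ} :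
    Ch M L (u * v) θ ↔ Ch M L v (θ.comp (rho M u)) := by
  simp only [Ch, rho_mul, LinearMap.comp_apply]

theorem tits_one (hT : T ⊆ L) {w : M.Group} (hw : w ∈ WL M T) {a b : (B → ℝ) →ₗ[ℝ] ℝ}
    (ha : Ch M L 1 a) (hb : Ch M L w b) : ∃ v ∈ WL M T, Ch M L v (a + b) := by
  induction hn : M.toCoxeterSystem.length w using Nat.strong_induction_on generalizing w a b with
  | _ n ih =>
  by_cases h : Ch M L 1 (a + b)
  · exact ⟨1, one_mem _, h⟩
  simp only [Ch, map_one, Module.End.one_apply, not_forall, not_le, LinearMap.add_apply] at h ha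
  obtain ⟨s0, m0, h0⟩ := h
  obtain ⟨s, m, hs⟩ := (L.filter fun s => b (al s) < 0).exists_min_image
    (fun s => a (al s) / -b (al s)) ⟨s0, Finset.mem_filter.2 ⟨m0, by linarith [ha s0 m0]⟩⟩
  obtain ⟨sL, sb⟩ := Finset.mem_filter.1 m
  set τ := a (al s) / -b (al s) with hτ
  have τ0 : 0 ≤ τ := div_nonneg (ha s sL) (by linarith)
  have τ1 : τ ≤ 1 := (hs s0 (Finset.mem_filter.2 ⟨m0, by linarith [ha s0 m0]⟩)).trans
    (div_le_one_of_le₀ (by linarith) (by linarith [ha s0 m0]))
  have z : (a + τ • b) (al s) = 0 := by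
    rw [LinearMap.add_apply, LinearMap.smul_apply, smul_eq_mul, hτ]
    field_simp [sb.ne]
    ring
  have np : ¬Pos (rho M w⁻¹ (al s)) := fun p =>
    (hb.nonneg (cn_root (inv_mem (WL_mono hT hw)) sL p)).not_gt sb
  have sT := mem_of_neg (inv_mem hw) ((dichotomy M w⁻¹ s).resolve_left np)
  have d : M.toCoxeterSystem.IsLeftDescent w s :=
    M.toCoxeterSystem.isRightDescent_inv_iff.1 (by_contra fun c => np (pos_of_not_descent M _ _ c))
  have f : (a + τ • b).comp (rho M (M.toCoxeterSystem.simple s)) = a + τ • b :=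
    LinearMap.ext fun x => by
      rw [LinearMap.comp_apply, rho_simple, rf_apply, map_add, map_smul, z, smul_zero, add_zero]
  obtain ⟨v, hv, c⟩ := ih _ (hn ▸ d) (mul_mem (simple_mem sT) hw) (a := a + τ • b)
    (b := ((1 - τ) • b).comp (rho M (M.toCoxeterSystem.simple s))) (fun t ht => by
      simp only [map_one, Module.End.one_apply, LinearMap.add_apply, LinearMap.smul_apply,
        smul_eq_mul]
      by_cases e : b (al t) < 0
      · have := hs t (Finset.mem_filter.2 ⟨ht, e⟩)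
        rw [le_div_iff₀ (by linarith)] at this
        linarith
      · exact add_nonneg (ha t ht) (mul_nonneg τ0 (not_lt.1 e)))
    (by rw [← Ch.mul, M.toCoxeterSystem.simple_mul_simple_cancel_left]
        exact hb.smul (by linarith)) rfl
  refine ⟨_, mul_mem (simple_mem sT) hv, Ch.mul.2 ?_⟩
  rw [← f, ← LinearMap.add_comp] at c
  rwa [show a + b = a + τ • b + (1 - τ) • b by module]

/-- The union of the chambers of a residue is closed under addition. -/
theorem tits (hT : T ⊆ L) {u w : M.Group} (hu : u ∈ WL M T) (hw : w ∈ WL M T)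
    {a b : (B → ℝ) →ₗ[ℝ] ℝ} (ha : Ch M L u a) (hb : Ch M L w b) :
    ∃ v ∈ WL M T, Ch M L v (a + b) := by
  obtain ⟨v, hv, c⟩ := tits_one hT (mul_mem (inv_mem hu) hw) (a := a.comp (rho M u))
    (b := b.comp (rho M u)) (Ch.mul.1 (by rwa [mul_one]))
    (Ch.mul.1 (by rwa [mul_inv_cancel_left]))
  exact ⟨_, mul_mem hu hv, Ch.mul.2 (by rwa [LinearMap.add_comp])⟩

theorem shift (ψ : (B → ℝ) →ₗ[ℝ] ℝ) :
    ∃ c : ℝ, 0 ≤ c ∧ Ch M L 1 (ψ + c • ht) := by
  refine ⟨∑ i : B, |ψ (al i)|, Finset.sum_nonneg fun _ _ => abs_nonneg _, fun s _ => ?_⟩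
  have := Finset.single_le_sum (f := fun i : B => |ψ (al i)|) (fun _ _ => abs_nonneg _)
    (Finset.mem_univ s)
  simp only [map_one, Module.End.one_apply, LinearMap.add_apply, LinearMap.smul_apply, ht_al,
    smul_eq_mul, mul_one]
  linarith [neg_abs_le (ψ (al s))]

/-- The longest element of a finite parabolic subgroup. -/
theorem longest (hf : Finite (WL M T)) : ∃ w ∈ WL M T, ∀ s ∈ T, Pos (-rho M w (al s)) := by
  obtain ⟨w, hw⟩ := Finite.exists_max fun w : WL M T => M.toCoxeterSystem.length w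
  refine ⟨w, w.2, fun s hs => neg_of_descent (by_contra fun c => ?_)⟩
  have := hw ⟨_, mul_mem w.2 (simple_mem hs)⟩
  rw [M.toCoxeterSystem.not_isRightDescent_iff.1 c] at this
  omega

/-- For a finite parabolic subgroup every functional lies in a chamber. -/
theorem chamber (hf : Finite (WL M T)) (ψ : (B → ℝ) →ₗ[ℝ] ℝ) : ∃ v ∈ WL M T, Ch M T v ψ := by
  obtain ⟨w, hw, h⟩ := longest hf
  obtain ⟨c, hc, k⟩ := shift (M := M) (L := T) ψ
  have := tits_one subset_rfl hw k (b := c • -ht) (Ch.smul (fun s hs => by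
    rw [LinearMap.neg_apply, ← (ht (B := B)).map_neg]; exact ht_nonneg (h s hs)) hc)
  rwa [smul_neg, add_neg_cancel_right] at this

/-- Only finitely many elements move an antidominant vector with finite stabiliser by a bounded
height. -/
theorem fin_ht {z : B → ℝ} (hz : ∀ s ∈ L, 0 ≤ ip M s z)
    (hf : Finite (WL M (L.filter fun s => ip M s z = 0))) (R : ℝ) :
    {v | v ∈ WL M L ∧ ht (rho M v z) ≤ R}.Finite := by
  obtain ⟨ε, ε0, hε⟩ : ∃ ε : ℝ, 0 < ε ∧ ∀ s ∈ L, ip M s z ≠ 0 → ε ≤ ip M s z := by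
    rcases (L.filter fun s => ip M s z ≠ 0).eq_empty_or_nonempty with e | e
    · exact ⟨1, one_pos, fun s hs h =>
        absurd (e ▸ Finset.mem_filter.2 ⟨hs, h⟩) (Finset.notMem_empty s)⟩
    · obtain ⟨s, m, hs⟩ := Finset.exists_min_image _ (fun s => ip M s z) e
      obtain ⟨m1, m2⟩ := Finset.mem_filter.1 m
      exact ⟨_, (hz s m1).lt_of_ne' m2, fun t ht h => hs t (Finset.mem_filter.2 ⟨ht, h⟩)⟩
  have key : ∀ k : ℕ, {v | v ∈ WL M L ∧ ht (rho M v z) < ht z + k * ε}.Finite := by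
    intro k
    induction k with
    | zero =>
      refine Set.finite_empty.subset fun v hv => ?_
      have := ht_nonneg (least hz hv.1).1
      rw [map_sub] at this
      have := hv.2
      simp at this
      linarith
    | succ k ih =>
      have fz : (WL M (L.filter fun s => ip M s z = 0) : Set M.Group).Finite := hf
      have fin := ((ih.image2 (fun v s => v * M.toCoxeterSystem.simple s) Set.finite_univ).insert
        1).image2 (· * ·) fz
      refine fin.subset fun v hv => ?_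
      refine ind (P := fun v => ht (rho M v z) < ht z + ((k + 1 : ℕ) : ℝ) * ε → v ∈ Set.image2
        (· * ·) (insert 1 (Set.image2 (fun v s => v * M.toCoxeterSystem.simple s)
          {v | v ∈ WL M L ∧ ht (rho M v z) < ht z + k * ε} Set.univ))
        (WL M (L.filter fun s => ip M s z = 0) : Set M.Group))
        (fun _ => ⟨1, Or.inl rfl, 1, one_mem _, mul_one _⟩) (fun w hw s hs p h c => ?_) hv.1 hv.2
      rw [rho_mul_simple] at c
      by_cases e : ip M s z = 0
      · rw [e, zero_smul, add_zero] at c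
        obtain ⟨x, hx, u, hu, rfl⟩ := h c
        exact ⟨x, hx, _, mul_mem hu (simple_mem (Finset.mem_filter.2 ⟨hs, e⟩)),
          (mul_assoc _ _ _).symm⟩
      · refine ⟨_, Or.inr ⟨w, ⟨hw, ?_⟩, s, trivial, rfl⟩, 1, one_mem _, mul_one _⟩
        rw [map_add, map_smul, smul_eq_mul] at c
        push_cast at c
        nlinarith [hε s hs e, one_le_ht p]
  obtain ⟨k, hk⟩ := exists_nat_gt ((R - ht z) / ε)
  rw [div_lt_iff₀ ε0] at hk
  exact (key k).subset fun v hv => ⟨hv.1, by linarith [hv.2]⟩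

end Pool.Agent.HT.Core
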