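import Pool.Agent.Lib.HT.Aff

/-! Spherical subsets: definite form, finite parabolic subgroup, longest element. -/

set_option autoImplicit false
set_option linter.unusedSectionVars false

namespace Pool.Agent.HT

open Pool.Agent.Lib.MP_6d85b4_al

variable {S : Type} [Fintype S] [DecidableEq S]

/-- The form is definite on the span of the simple roots of `R`. -/
def Sph (M : CoxeterMatrix S) (R : Finset S) : Prop :=
  ∀ x : S → ℝ, (∀ s, s ∉ R → x s = 0) → x ≠ 0 → bf M x x < 0

/-- The standard parabolic subgroup of `R`. -/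
def WP (M : CoxeterMatrix S) (R : Finset S) : Subgroup M.Group :=
  Subgroup.closure (M.toCoxeterSystem.simple '' R)

variable {M : CoxeterMatrix S} {R T : Finset S}

theorem WP_eq : WP M R = Core.WL M R := rfl

theorem sph_iff_nd : Sph M R ↔ Aff.ND M R := Iff.rfl

theorem Sph.mono (h : Sph M R) (hT : T ⊆ R) : Sph M T := Aff.ND.mono h hT

theorem sph_empty : Sph M ∅ := fun x hx e =>
  absurd (funext fun i => hx i (Finset.notMem_empty i)) e

theorem WP_empty : WP M ∅ = ⊥ := by simp [WP]

theorem simple_mem_WP {s : S} (h : s ∈ R) : M.toCoxeterSystem.simple s ∈ WP M R :=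
  Core.simple_mem h

theorem WP_mono (h : T ⊆ R) : WP M T ≤ WP M R := Core.WL_mono h

theorem WP_univ : WP M Finset.univ = ⊤ := by
  rw [WP, Finset.coe_univ, Set.image_univ]
  exact M.toCoxeterSystem.subgroup_closure_range_simple

/-- A spherical parabolic subgroup is finite. -/
theorem sph_finite (h : Sph M R) : Finite (WP M R) := by
  obtain ⟨z, hz, e⟩ := Aff.ND.rep (sph_iff_nd.1 h) fun _ => 1
  have f : (R.filter fun s => ip M s z = 0) = ∅ :=
    Finset.filter_eq_empty_iff.2 fun s hs => by rw [e s hs]; exact one_ne_zero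
  have k := Core.fin_ht (M := M) (L := R) (z := z) (fun s hs => by rw [e s hs]; exact zero_le_one)
    (by rw [f, ← WP_eq, WP_empty]; infer_instance) (-bf M z z)
  refine Set.Finite.subset k fun v hv => ⟨hv, ?_⟩
  have hx := hz.rho hv
  have a := (sph_iff_nd.1 h).ns _ (hx.add hz)
  rw [Aff.bf_add_l, Aff.bf_add_r, Aff.bf_add_r, bf_rho, bf_symm M z (rho M v z)] at a
  have b : Core.ht (rho M v z) = bf M (rho M v z) z := by
    rw [Core.ht_apply, bf]
    refine Finset.sum_congr rfl fun i _ => ?_
    by_cases c : i ∈ R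
    · rw [e i c, mul_one]
    · rw [hx i c, zero_mul]
  linarith

/-- An element that makes the simple roots of `R` negative makes the cone of `R` negative. -/
theorem neg_cn {w : M.Group} (h : ∀ s ∈ R, Pos (-rho M w (al s))) {p : S → ℝ}
    (hp : Core.Cn R p) : Pos (-rho M w p) := fun i =>
  hp.nonneg (θ := -(LinearMap.proj i).comp (rho M w)) fun s hs => h s hs i

/-- A finite parabolic subgroup is spherical. -/
theorem finite_sph (h : Finite (WP M R)) : Sph M R := by
  rcases R.eq_empty_or_nonempty with c | c
  · rw [c]; exact sph_empty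
  obtain ⟨p, l, hp, h0, he, -, hb⟩ := Aff.pf (M := M) c
  have l0 : l < 0 := by
    by_contra hl
    obtain ⟨w, hw, k⟩ := Core.longest (M := M) (T := R) h
    have a := (Core.least (z := p) (fun s hs => by
      rw [he s hs]; exact mul_nonneg (not_lt.1 hl) (hp.1 s)) hw).1
    refine h0 (funext fun i => le_antisymm ?_ (hp.1 i))
    have a1 := a i
    have a2 := neg_cn k hp i
    rw [Pi.sub_apply] at a1
    rw [Pi.neg_apply] at a2
    change p i ≤ 0
    linarith
  intro x hx e
  refine (hb x hx).trans_lt (mul_neg_of_neg_of_pos l0 ?_)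
  obtain ⟨i, hi⟩ := Function.ne_iff.1 e
  exact Finset.sum_pos' (fun j _ => sq_nonneg _)
    ⟨i, Finset.mem_univ i, lt_of_le_of_ne (sq_nonneg _) (pow_ne_zero 2 hi).symm⟩

theorem sph_iff_finite : Sph M R ↔ Finite (WP M R) := ⟨sph_finite, finite_sph⟩

/-- The longest element of a spherical parabolic subgroup. -/
theorem exists_w0 (h : Sph M R) : ∃ w ∈ WP M R, ∀ s ∈ R, Pos (-(rho M w (al s))) :=
  Core.longest (M := M) (T := R) (sph_finite h)

theorem root_ne_zero (w : M.Group) (s : S) : rho M w (al s) ≠ 0 := fun c => by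
  have := root_norm M w s
  rw [c, Aff.bf_zero_l] at this
  norm_num at this

theorem not_pos_neg {w : M.Group} {s : S} (h : Pos (rho M w (al s))) :
    ¬ Pos (-rho M w (al s)) := fun k => root_ne_zero w s (funext fun i => by
  have := k i
  rw [Pi.neg_apply] at this
  exact le_antisymm (by simpa using this) (h i))

/-- Right descents are the simple roots that are made negative. -/
theorem descent_iff {w : M.Group} {s : S} :
    M.toCoxeterSystem.IsRightDescent w s ↔ Pos (-rho M w (al s)) :=
  ⟨Core.neg_of_descent, fun h => by_contra fun c => not_pos_neg (pos_of_not_descent M w s c) h⟩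

/-- An element of a parabolic subgroup that keeps its simple roots positive is trivial. -/
theorem eq_one_of_pos {w : M.Group} (hw : w ∈ WP M R) (h : ∀ s ∈ R, Pos (rho M w (al s))) :
    w = 1 := by
  by_contra c
  obtain ⟨s, hs⟩ := M.toCoxeterSystem.exists_rightDescent_of_ne_one c
  have k := Core.neg_of_descent hs
  exact not_pos_neg (h s (Core.mem_of_neg hw k)) k

theorem rho_eq_one {w : M.Group} (h : ∀ s, rho M w (al s) = al s) : w = 1 :=
  eq_one_of_pos (R := Finset.univ) (by rw [WP_univ]; exact Subgroup.mem_top w) fun s _ => by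
    rw [h s]; exact pos_al s

/-- The geometric representation is faithful. -/
theorem rho_injective : Function.Injective (rho M) :=
  (injective_iff_map_eq_one _).2 fun _ h => rho_eq_one fun s => by rw [h]; rfl

/-- The longest element is unique. -/
theorem w0_unique {w w' : M.Group} (hw : w ∈ WP M R) (hw' : w' ∈ WP M R)
    (h : ∀ s ∈ R, Pos (-rho M w (al s))) (h' : ∀ s ∈ R, Pos (-rho M w' (al s))) : w = w' := by
  have i : ∀ s ∈ R, Pos (-rho M w⁻¹ (al s)) := fun s hs => by
    refine (dichotomy M w⁻¹ s).resolve_left fun p => ?_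
    have := neg_cn h (Core.cn_root (inv_mem hw) hs p)
    rw [Core.rho_inv'] at this
    have := this s
    rw [Pi.neg_apply, al_self] at this
    linarith
  refine (inv_mul_eq_one.1 (eq_one_of_pos (mul_mem (inv_mem hw) hw') fun s hs => ?_))
  have := neg_cn i (p := -rho M w' (al s)) ⟨h' s hs, fun j hj => by
    rw [Pi.neg_apply, Core.coord hw' hj, al_ne (ne_of_mem_of_not_mem hs hj).symm, neg_zero]⟩
  rwa [map_neg, neg_neg, ← rho_mul] at this

theorem not_sph_univ (h : Infinite M.Group) : ¬ Sph M Finset.univ := fun c => by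
  have := sph_finite c
  rw [WP_univ] at this
  exact not_finite_iff_infinite.2 h (Finite.of_equiv _ Subgroup.topEquiv.toEquiv)

end Pool.Agent.HT
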