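import Pool.Agent.Lib.HT.Heart

set_option autoImplicit false

/-! Target statement for the categorical model: the unfolded graph of a Coxeter matrix with labels
2, 3, 4, 5 over the fusion ring Ising x Fibonacci. -/

namespace Pool.Agent.HT

/-- Simple objects of Ising (0 = 1, 1 = sigma, 2 = psi) times Fibonacci (0 = 1, 1 = tau). -/
abbrev Irr : Type := Fin 3 × Fin 2

/-- Fusion with sigma. -/
def nS (a b : Irr) : ℤ := if a.2 = b.2 ∧ (a.1 = 1 ∨ b.1 = 1) ∧ a.1 ≠ b.1 then 1 else 0

/-- Fusion with tau. -/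
def nT (a b : Irr) : ℤ := if a.1 = b.1 ∧ (a.2 = 1 ∨ b.2 = 1) then 1 else 0

/-- Number of edges between `(s, a)` and `(t, b)` when the label of `s, t` is `m`. -/
def nL (m : ℕ) (a b : Irr) : ℤ :=
  if m = 3 then (if a = b then 1 else 0) else if m = 4 then nS a b else if m = 5 then nT a b else 0

/-- Cartan matrix of the unfolded graph. -/
def cartan {S : Type} [DecidableEq S] (m : S → S → ℕ) (x y : S × Irr) : ℤ :=
  if x.1 = y.1 then (if x.2 = y.2 then 2 else 0) else - nL (m x.1 y.1) x.2 y.2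

/-- The two fusion matrices. -/
def nF (e : Bool) : Irr → Irr → ℤ := if e then nS else nT

/-- The model. -/
structure Model {S : Type} [Fintype S] [DecidableEq S] (m : S → S → ℕ) where
  D : TD.{1} (S × Irr → ℤ)
  H : Heart D (S × Irr)
  basis : H.b = Pi.basisFun ℤ (S × Irr)
  form_eq : ∀ x y, D.form (Pi.single x 1) (Pi.single y 1) = cartan m x y
  Phi : Bool → D.Obj → D.Obj
  Phi_ext : ∀ e A Y B, D.Ext A Y B → D.Ext (Phi e A) (Phi e Y) (Phi e B)
  Phi_s : ∀ e A, Phi e (D.s A) = D.s (Phi e A)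
  Phi_adj : ∀ e A B, D.hom (Phi e A) B = 0 ↔ D.hom A (Phi e B) = 0
  Phi_cl : ∀ e A (x : S × Irr), D.cl (Phi e A) x = ∑ a : Irr, nF e x.2 a * D.cl A (x.1, a)
  Phi_M : ∀ e x, H.M (Phi e (H.S x))

/-- The statement to be proved by the model builders. -/
def ModelStmt : Prop :=
  ∀ (S : Type) [Fintype S] [DecidableEq S] (m : S → S → ℕ), (∀ s t, m s t = m t s) →
    Nonempty (Model m)

end Pool.Agent.HT
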