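import Pool.Agent.Lib.HT.Comp
import Pool.Agent.Lib.HT.Sph

set_option autoImplicit false
set_option linter.unusedSectionVars false

/-! Alternating words, and sections: involutive moves that close up in rank two give an orbit
indexed by the Coxeter group. -/

namespace Pool.Agent.HT.Tits

open Pool.Agent.Lib.MP_6d85b4_al CoxeterSystem

variable {S : Type} [Fintype S] [DecidableEq S] {M : CoxeterMatrix S} {L : Finset S}

/-- Before the end of the braid word the next root is positive. -/
theorem alt_pos {s t : S} (hst : s ≠ t) {k : ℕ} (hk : M s t = 0 ∨ k < M s t) :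
    Pos (rho M (M.toCoxeterSystem.wordProd (alternatingWord s t k)) (al s)) := by
  have c1 : 0 ≤ sq (cc M s t) 0 1 k := ch_nonneg (M.off_diagonal s t hst) (by omega)
  have c2 : 0 ≤ sq (cc M s t) 0 1 (k + 1) := ch_nonneg (M.off_diagonal s t hst) (by omega)
  have e := wE_alt M s t 0 1 k
  rw [zero_smul, zero_add, one_smul] at e
  rw [rho_word, e]
  intro b
  exact add_nonneg (mul_nonneg c1 (pos_al _ b)) (mul_nonneg c2 (pos_al _ b))

theorem alt_braid (s t : S) : M.toCoxeterSystem.wordProd (alternatingWord s t (M s t)) =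
    M.toCoxeterSystem.wordProd (alternatingWord t s (M s t)) := by
  have h1 := M.toCoxeterSystem.wordProd_braidWord_eq s t
  unfold CoxeterSystem.braidWord at h1
  rwa [M.symmetric t s] at h1

theorem alt_succ (s t : S) (k : ℕ) : M.toCoxeterSystem.wordProd (alternatingWord s t (k + 1)) =
    M.toCoxeterSystem.wordProd (alternatingWord t s k) * sm M t := by
  rw [alternatingWord_succ, wordProd_concat]

theorem alt_mem {s t : S} (hs : s ∈ L) (ht : t ∈ L) (k : ℕ) :
    M.toCoxeterSystem.wordProd (alternatingWord s t k) ∈ W M L := by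
  induction k generalizing s t with
  | zero => simp [alternatingWord]
  | succ k ih => rw [alt_succ]; exact mul_mem (ih ht hs) (sm_mem ht)

/-- The braid word makes both simple roots negative. -/
theorem alt_neg {s t : S} (hst : s ≠ t) (h0 : M s t ≠ 0) {r : S} (hr : r = s ∨ r = t) :
    Pos (-rho M (M.toCoxeterSystem.wordProd (alternatingWord s t (M s t))) (al r)) := by
  have key : ∀ a b : S, a ≠ b → M a b = M s t →
      Pos (-rho M (M.toCoxeterSystem.wordProd (alternatingWord a b (M s t))) (al b)) := by
    intro a b hab e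
    obtain ⟨k, hk⟩ : ∃ k, M s t = k + 1 := ⟨M s t - 1, by omega⟩
    rw [hk, alt_succ, rho_sm_al, neg_neg]
    exact alt_pos hab.symm (Or.inr (by rw [M.symmetric]; omega))
  rcases hr with rfl | rfl
  · rw [alt_braid]; exact key t r hst.symm (M.symmetric t r)
  · exact key s r hst rfl

/-- An element that makes all simple roots negative forces finiteness. -/
theorem finite_of_neg {w : M.Group} (h : ∀ s ∈ L, Pos (-rho M w (al s))) (hw : w ∈ W M L) :
    Finite (W M L) := by
  have h1 : {g | Rt M L g ∧ PosAt M 1 g}.Finite := by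
    refine (fin_sep (L := L) 1 w).subset fun g ⟨h1, h2⟩ => ⟨h1, h2, fun h3 => ?_⟩
    have h4 := neg_cn h ⟨h3, (h1.act (inv_mem hw)).sup⟩
    rw [rho_inv'] at h4
    exact h1.not_both h2 ((posAt_one _).2 h4)
  refine finite_of_roots ((h1.union (h1.image fun g => -g)).subset fun g hg => ?_)
  rcases Rt.dich hg 1 with h2 | h2
  · exact Or.inl ⟨hg, h2⟩
  · exact Or.inr ⟨-g, ⟨Rt.neg hg, h2⟩, neg_neg g⟩

theorem finite_pair {s t : S} (hst : s ≠ t) (h0 : M s t ≠ 0) : Finite (W M {s, t}) :=
  finite_of_neg (fun _ hr => alt_neg hst h0 (by simpa using hr)) (alt_mem (by simp) (by simp) _)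

/-- Apply the moves of a word, first letter first. -/
def run {X : Type*} (τ : S → X → X) (l : List S) (x : X) : X := l.foldl (fun y r => τ r y) x

theorem run_alt {X : Type*} (τ : S → X → X) (s t : S) (k : ℕ) (x : X) :
    run τ (alternatingWord s t (k + 1)) x = τ t (run τ (alternatingWord t s k) x) := by
  simp [run, alternatingWord_succ]

/-- Reachable by moves of types in `L`. -/
def Orb {X : Type*} (τ : S → X → X) (L : Finset S) : X → X → Prop :=
  Relation.ReflTransGen fun a b => ∃ r ∈ L, b = τ r a

theorem Orb.step {X : Type*} {τ : S → X → X} {x y : X} (h : Orb τ L x y) {r : S} (hr : r ∈ L) :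
    Orb τ L x (τ r y) := Relation.ReflTransGen.tail h ⟨r, hr, rfl⟩

theorem Orb.refl {X : Type*} (τ : S → X → X) (x : X) : Orb τ L x x := Relation.ReflTransGen.refl

theorem Orb.trans {X : Type*} {τ : S → X → X} {x y z : X} (h : Orb τ L x y) (h' : Orb τ L y z) :
    Orb τ L x z := Relation.ReflTransGen.trans h h'

theorem orb_alt {X : Type*} (τ : S → X → X) {s t : S} (hs : s ∈ L) (ht : t ∈ L) (k : ℕ) (x : X) :
    Orb τ L x (run τ (alternatingWord s t k) x) := by
  induction k generalizing s t with
  | zero => exact Relation.ReflTransGen.refl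
  | succ k ih => rw [run_alt]; exact (ih ht hs).step ht

theorem Orb.inv {X : Type*} {τ : S → X → X} {I : X → Prop} (hI : ∀ s ∈ L, ∀ x, I x → I (τ s x))
    {x y : X} (h : Orb τ L x y) (hx : I x) : I y := by
  induction h with
  | refl => exact hx
  | tail _ h2 ih => obtain ⟨r, hr, rfl⟩ := h2; exact hI r hr _ ih

theorem liftable_of {Y : Type*} (T : S → Equiv.Perm Y) (hT : ∀ s, T s * T s = 1)
    (h : ∀ s t, s ≠ t → M s t ≠ 0 → ∀ y, ∃ p, Orb (fun r => T r) {s, t} y p ∧
      run (fun r => T r) (alternatingWord s t (M s t)) p =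
        run (fun r => T r) (alternatingWord t s (M s t)) p) : M.IsLiftable T := by
  have hi : ∀ s, (T s)⁻¹ = T s := fun s => inv_eq_of_mul_eq_one_right (hT s)
  have hTT : ∀ s y, T s (T s y) = y := fun s y => by rw [← Equiv.Perm.mul_apply, hT]; rfl
  intro s t
  by_cases hst : s = t
  · rw [hst, M.diagonal, pow_one, hT]
  by_cases h0 : M s t = 0
  · rw [h0, pow_zero]
  have c1 : ∀ (a b : S) (k : ℕ) (y : Y), ((T a * T b) ^ k) (T a y) = T a (((T b * T a) ^ k) y) := by
    intro a b k y
    have : (T a * T b) ^ k * T a = T a * (T b * T a) ^ k := mul_pow_mul _ _ _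
    rw [← Equiv.Perm.mul_apply, this, Equiv.Perm.mul_apply]
  have c2 : ∀ (a b : S) (k : ℕ) (y : Y), ((T a * T b) ^ k) y = y → ((T b * T a) ^ k) y = y := by
    intro a b k y hy
    have : (T b * T a) ^ k = ((T a * T b) ^ k)⁻¹ := by rw [← inv_pow, mul_inv_rev, hi, hi]
    rw [this, Equiv.Perm.inv_eq_iff_eq, hy]
  have c3 : ∀ r ∈ ({s, t} : Finset S), ∀ y, ((T s * T t) ^ M s t) y = y →
      ((T s * T t) ^ M s t) (T r y) = T r y := by
    intro r hr y hy
    rcases Finset.mem_insert.1 hr with rfl | hr
    · rw [c1, c2 _ _ _ _ hy]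
    · rw [Finset.mem_singleton.1 hr]
      exact c2 _ _ _ _ (by rw [c1, hy])
  have c4 : ∀ y p, Orb (fun r => T r) {s, t} y p → ((T s * T t) ^ M s t) p = p →
      ((T s * T t) ^ M s t) y = y := by
    intro y p hp
    induction hp with
    | refl => exact id
    | tail _ h2 ih =>
      obtain ⟨r, hr, rfl⟩ := h2
      exact fun hy => ih (by simpa only [hTT] using c3 r hr _ hy)
  have c5 : ∀ (k : ℕ) (a b : S) (p : Y), run (fun r => T r) (alternatingWord a b k) p =
      ((T b * T a) ^ k) (run (fun r => T r) (alternatingWord b a k) p) := by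
    intro k
    induction k with
    | zero => intro a b p; rfl
    | succ k ih =>
      intro a b p
      rw [run_alt, run_alt, ih b a, pow_succ, Equiv.Perm.mul_apply, Equiv.Perm.mul_apply, hTT, c1]
  refine Equiv.ext fun y => ?_
  obtain ⟨p, h1, h2⟩ := h s t hst h0 y
  refine c4 y _ (h1.trans (orb_alt _ (s := s) (t := t) (by simp) (by simp) (M s t) p)) ?_
  rw [← c5, h2]

/-- Involutive moves that close up somewhere in each finite rank two orbit give a section. -/
theorem exists_sec {X : Type*} (τ : S → X → X) (I : X → Prop) (hI : ∀ s x, I x → I (τ s x))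
    (hτ : ∀ s x, I x → τ s (τ s x) = x)
    (h : ∀ s t, s ≠ t → M s t ≠ 0 → ∀ x, I x → ∃ p, Orb τ {s, t} x p ∧
      run τ (alternatingWord s t (M s t)) p = run τ (alternatingWord t s (M s t)) p)
    {x : X} (hx : I x) : ∃ sig : M.Group → X, sig 1 = x ∧ (∀ v, I (sig v)) ∧
      ∀ v s, sig (v * sm M s) = τ s (sig v) := by
  let T : S → Equiv.Perm {y // I y} := fun s => Function.Involutive.toPerm
    (fun y => ⟨τ s y.1, hI s _ y.2⟩) fun y => Subtype.ext (hτ s _ y.2)
  have e1 : ∀ (l : List S) (y : {y // I y}), (run (fun r => T r) l y).1 = run τ l y.1 := by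
    intro l
    induction l with
    | nil => exact fun _ => rfl
    | cons r l ih => exact fun y => ih (T r y)
  have hl : M.IsLiftable T := liftable_of T
    (fun s => Equiv.ext fun y => Subtype.ext (hτ s _ y.2)) fun s t hst h0 y => by
      obtain ⟨p, h1, h2⟩ := h s t hst h0 y.1 y.2
      have h3 : ∃ q : {y // I y}, q.1 = p ∧ Orb (fun r => T r) {s, t} y q := by
        clear h2
        induction h1 with
        | refl => exact ⟨y, rfl, Relation.ReflTransGen.refl⟩
        | tail _ h4 ih =>
          obtain ⟨r, hr, rfl⟩ := h4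
          obtain ⟨q, rfl, hq⟩ := ih
          exact ⟨T r q, rfl, hq.step hr⟩
      obtain ⟨q, rfl, hq⟩ := h3
      exact ⟨q, hq, Subtype.ext (by rw [e1, e1, h2])⟩
  refine ⟨fun v => (M.toCoxeterSystem.lift ⟨T, hl⟩ v⁻¹ ⟨x, hx⟩).1, by simp, fun v => Subtype.prop _,
    fun v s => ?_⟩
  simp only [mul_inv_rev, inv_simple, map_mul, lift_apply_simple]
  rfl

/-- From a top the moves along a braid word are the moves `dn`. -/
theorem run_top {X : Type*} {τ dn : S → X → X} {w : X → M.Group} {p : X}
    (hw : ∀ y, Orb τ L p y → ∀ r ∈ L, w (τ r y) = w y * sm M r)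
    (hp : ∀ y, Orb τ L p y → ∀ r ∈ L, PosAt M (w p) (rho M (w y) (al r)) → τ r y = dn r y)
    {s t : S} (hs : s ∈ L) (ht : t ∈ L) (hst : s ≠ t) (k : ℕ) (hk : M s t = 0 ∨ k ≤ M s t) :
    run τ (alternatingWord s t k) p = run dn (alternatingWord s t k) p ∧
      w (run τ (alternatingWord s t k) p) =
        w p * M.toCoxeterSystem.wordProd (alternatingWord s t k) := by
  induction k generalizing s t with
  | zero => exact ⟨rfl, by simp [run, alternatingWord]⟩
  | succ k ih =>
    obtain ⟨h1, h2⟩ := ih ht hs hst.symm (by rw [M.symmetric]; omega)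
    have h3 := orb_alt τ ht hs k p
    refine ⟨?_, by rw [run_alt, hw _ h3 t ht, h2, alt_succ, mul_assoc]⟩
    rw [run_alt, run_alt, ← h1]
    refine hp _ h3 t ht ?_
    rw [PosAt, h2, rho_mul, rho_inv]
    exact alt_pos hst.symm (by rw [M.symmetric]; omega)

/-- The section theorem. -/
theorem sec {X : Type*} (τ dn : S → X → X) (w : X → M.Group) (I : X → Prop)
    (hI : ∀ s x, I x → I (τ s x)) (hτ : ∀ s x, I x → τ s (τ s x) = x)
    (hw : ∀ s x, I x → w (τ s x) = w x * sm M s)
    (braid : ∀ s t, s ≠ t → M s t ≠ 0 → ∀ x,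
      run dn (alternatingWord s t (M s t)) x = run dn (alternatingWord t s (M s t)) x)
    (top : ∀ s t, s ≠ t → M s t ≠ 0 → ∀ x, I x → ∃ p, Orb τ {s, t} x p ∧ ∀ y, Orb τ {s, t} p y →
      ∀ r ∈ ({s, t} : Finset S), PosAt M (w p) (rho M (w y) (al r)) → τ r y = dn r y)
    {x : X} (hx : I x) : ∃ sig : M.Group → X, sig 1 = x ∧ (∀ v, I (sig v)) ∧
      (∀ v s, sig (v * sm M s) = τ s (sig v)) ∧ ∀ v, w (sig v) = w x * v := by
  obtain ⟨sig, h1, h2, h3⟩ := exists_sec (M := M) τ I hI hτ (fun s t hst h0 x hx => by
    obtain ⟨p, a1, a2⟩ := top s t hst h0 x hx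
    have a3 : ∀ y, Orb τ {s, t} p y → ∀ r ∈ ({s, t} : Finset S), w (τ r y) = w y * sm M r :=
      fun y hy r _ => hw r y (Orb.inv (fun s _ => hI s) (a1.trans hy) hx)
    refine ⟨p, a1, ?_⟩
    rw [(run_top a3 a2 (by simp) (by simp) hst _ (Or.inr le_rfl)).1,
      (run_top a3 a2 (by simp) (by simp) hst.symm _ (Or.inr (M.symmetric s t).le)).1,
      braid s t hst h0]) hx
  refine ⟨sig, h1, h2, h3, fun v => W_ind (L := Finset.univ) (p := fun v => w (sig v) = w x * v)
    (by rw [h1, mul_one]) (fun v _ s _ hv => ?_) v (mem_W_univ v)⟩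
  rw [h3, hw s _ (h2 v), hv, mul_assoc]

/-- The orbits of a section are the residues. -/
theorem orb_iff {X : Type*} {τ : S → X → X} {sig : M.Group → X}
    (h : ∀ v s, sig (v * sm M s) = τ s (sig v)) (v : M.Group) (y : X) :
    Orb τ L (sig v) y ↔ ∃ u ∈ W M L, y = sig (v * u) := by
  constructor
  · intro hy
    induction hy with
    | refl => exact ⟨1, one_mem _, by rw [mul_one]⟩
    | tail _ h2 ih =>
      obtain ⟨r, hr, rfl⟩ := h2
      obtain ⟨u, hu, rfl⟩ := ih
      exact ⟨u * sm M r, mul_mem hu (sm_mem hr), by rw [← mul_assoc, h]⟩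
  · rintro ⟨u, hu, rfl⟩
    refine W_ind (p := fun u => Orb τ L (sig v) (sig (v * u))) ?_ (fun u _ s hs ih => ?_) u hu
    · rw [mul_one]; exact Relation.ReflTransGen.refl
    · rw [← mul_assoc, h]; exact ih.step hs

/-- The braid relation passes to the inverse moves. -/
theorem braid_inv {X : Type*} {up dn : S → X → X} (h1 : ∀ s x, dn s (up s x) = x)
    (h2 : ∀ s x, up s (dn s x) = x) {s t : S} {m : ℕ}
    (h : ∀ x, run up (alternatingWord s t m) x = run up (alternatingWord t s m) x) (x : X) :
    run dn (alternatingWord s t m) x = run dn (alternatingWord t s m) x := by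
  have a1 : ∀ (l : List S) (y : X), run dn l.reverse (run up l y) = y := by
    intro l
    induction l with
    | nil => exact fun _ => rfl
    | cons r l ih =>
      intro y
      have := ih (up r y)
      simp only [run, List.reverse_cons, List.foldl_append, List.foldl_cons, List.foldl_nil] at *
      rw [this, h1]
  have a2 : ∀ (l : List S) (y : X), run up l (run dn l.reverse y) = y := by
    intro l
    induction l with
    | nil => exact fun _ => rfl
    | cons r l ih =>
      intro y
      have := ih y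
      simp only [run, List.reverse_cons, List.foldl_append, List.foldl_cons, List.foldl_nil] at *
      rw [h2, this]
  have a3 : ∀ (k : ℕ) (a b : S), (alternatingWord a b k).reverse =
      if Even k then alternatingWord b a k else alternatingWord a b k := by
    intro k
    induction k with
    | zero => intro a b; simp [alternatingWord]
    | succ k ih =>
      intro a b
      have e : (alternatingWord a b (k + 1)).reverse = b :: (alternatingWord b a k).reverse := by
        simp [alternatingWord_succ]
      rw [e, ih]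
      by_cases hk : Even k <;> simp [hk, Nat.even_add_one, alternatingWord_succ']
  have a4 : run dn (alternatingWord s t m).reverse x = run dn (alternatingWord t s m).reverse x := by
    have := a1 (alternatingWord t s m) (run dn (alternatingWord s t m).reverse x)
    rw [← h, a2] at this
    exact this.symm
  rw [a3, a3] at a4
  split_ifs at a4
  · exact a4.symm
  · exact a4

end Pool.Agent.HT.Tits
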