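import Pool.Agent.Lib.HT.TD

set_option autoImplicit false

/-! Hearts given by a finite family of spherical simple objects. -/

namespace Pool.Agent.HT

universe u

variable {K : Type} [AddCommGroup K]

/-- A labelled algebraic heart: a simple minded collection of rigid objects whose classes form a
basis of the Grothendieck group. -/
structure Heart (D : TD.{u} K) (ι : Type) where
  S : ι → D.Obj
  b : Module.Basis ι ℤ K
  cl_S : ∀ i, D.cl (S i) = b i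
  neg : ∀ i j (n : ℤ), n < 0 → D.hom (S i) (D.sh n (S j)) = 0
  one : ∀ i, D.hom (S i) (S i) = 1
  off : ∀ i j, i ≠ j → D.hom (S i) (S j) = 0
  rig : ∀ i, D.hom (S i) (D.s (S i)) = 0
  gen : ∀ Y, D.Cl {A | ∃ i n, A = D.sh n (S i)} Y

namespace Heart

variable {D : TD.{u} K} {ι : Type} (H : Heart D ι)

/-- Objects filtered by the shifted simples `S i [n]` with `P i n`. -/
def Lv (P : ι → ℤ → Prop) (Y : D.Obj) : Prop := D.Cl {A | ∃ i n, P i n ∧ A = D.sh n (H.S i)} Y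

/-- The aisle `D^{≤ -a}`. -/
def U (a : ℤ) (Y : D.Obj) : Prop := H.Lv (fun _ n => a ≤ n) Y

/-- The co-aisle `D^{≥ -a}`. -/
def V (a : ℤ) (Y : D.Obj) : Prop := H.Lv (fun _ n => n ≤ a) Y

/-- The heart. -/
def M (Y : D.Obj) : Prop := H.Lv (fun _ n => n = 0) Y

variable {H}

lemma Lv.zero {P : ι → ℤ → Prop} : H.Lv P D.zero := TD.Cl.zero

lemma Lv.simple {P : ι → ℤ → Prop} {i : ι} {n : ℤ} (h : P i n) : H.Lv P (D.sh n (H.S i)) :=
  TD.Cl.of_mem ⟨i, n, h, rfl⟩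

lemma Lv.ext {P : ι → ℤ → Prop} {A Y B : D.Obj} (hA : H.Lv P A) (hB : H.Lv P B)
    (h : D.Ext A Y B) : H.Lv P Y := TD.Cl.ext hA hB h

lemma Lv.mono {P Q : ι → ℤ → Prop} (hPQ : ∀ i n, P i n → Q i n) {Y : D.Obj} (h : H.Lv P Y) :
    H.Lv Q Y :=
  TD.Cl.mono (by rintro _ ⟨i, n, h1, rfl⟩; exact Lv.simple (hPQ i n h1)) h

lemma Lv.ind {P : ι → ℤ → Prop} {R : D.Obj → Prop} (h0 : R D.zero)
    (hS : ∀ i n, P i n → R (D.sh n (H.S i)))
    (hE : ∀ A Y B, D.Ext A Y B → R A → R B → R Y) {Y : D.Obj} (h : H.Lv P Y) : R Y :=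
  TD.Cl.le h0 (by rintro _ ⟨i, n, h1, rfl⟩; exact hS i n h1) hE h

lemma Lv.sh {P Q : ι → ℤ → Prop} (m : ℤ) (hPQ : ∀ i n, P i n → Q i (m + n)) {Y : D.Obj}
    (h : H.Lv P Y) : H.Lv Q (D.sh m Y) := by
  refine Lv.ind (R := fun Y => H.Lv Q (D.sh m Y)) ?_ ?_ ?_ h
  · simpa using Lv.zero
  · intro i n hP
    simpa using Lv.simple (hPQ i n hP)
  · intro A Y B hE hA hB
    exact Lv.ext hA hB ((D.ext_sh m).2 hE)

lemma Lv.top (Y : D.Obj) : H.Lv (fun _ _ => True) Y :=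
  TD.Cl.mono (by rintro _ ⟨i, n, rfl⟩; exact Lv.simple (P := fun _ _ => True) trivial) (H.gen Y)

lemma Lv.hom_left {P : ι → ℤ → Prop} {W Y : D.Obj}
    (hX : ∀ i n, P i n → D.hom (D.sh n (H.S i)) W = 0) (h : H.Lv P Y) : D.hom Y W = 0 :=
  TD.Cl.hom_left (by rintro _ ⟨i, n, h1, rfl⟩; exact hX i n h1) h

lemma Lv.hom_right {P : ι → ℤ → Prop} {W Y : D.Obj}
    (hX : ∀ i n, P i n → D.hom W (D.sh n (H.S i)) = 0) (h : H.Lv P Y) : D.hom W Y = 0 :=
  TD.Cl.hom_right (by rintro _ ⟨i, n, h1, rfl⟩; exact hX i n h1) h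

lemma hom_simple (H : Heart D ι) {i j : ι} {p q : ℤ} (h : q < p ∨ (q = p ∧ i ≠ j)) :
    D.hom (D.sh p (H.S i)) (D.sh q (H.S j)) = 0 := by
  rw [D.hom_sh_sh]
  rcases h with h | ⟨h, h'⟩
  · exact H.neg _ _ _ (by omega)
  · subst h; simpa using H.off _ _ h'

lemma Lv.hom_eq_zero {P Q : ι → ℤ → Prop}
    (hPQ : ∀ i p j q, P i p → Q j q → q < p ∨ (q = p ∧ i ≠ j))
    {A B : D.Obj} (hA : H.Lv P A) (hB : H.Lv Q B) : D.hom A B = 0 :=
  Lv.hom_left (fun i p hp => Lv.hom_right (fun j q hq => H.hom_simple (hPQ i p j q hp hq)) hB) hA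

lemma ext_simple (H : Heart D ι) {i j : ι} {p q : ℤ} (h : q < p) {F : D.Obj}
    (hF : D.Ext (D.sh q (H.S j)) F (D.sh p (H.S i))) :
    D.Ext (D.sh p (H.S i)) F (D.sh q (H.S j)) ∨ F = D.zero := by
  by_cases h1 : q + 1 = p ∧ i = j
  · obtain ⟨h1, h2⟩ := h1
    subst h1 h2
    rw [← D.s_sh] at hF ⊢
    refine TD.ext_brick ?_ ?_ ?_ hF
    · rw [D.hom_sh]; exact H.one i
    · rw [D.s_sh, ← D.sh_s, D.hom_sh]; exact H.rig i
    · rw [D.s_sh]; exact H.hom_simple (Or.inl (by omega))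
  · left
    refine D.split ?_ hF
    rw [D.s_sh]
    apply H.hom_simple
    by_cases h2 : q + 1 = p
    · exact Or.inr ⟨h2, fun h3 => h1 ⟨h2, h3⟩⟩
    · exact Or.inl (by omega)

/-- Truncation at level `a`. -/
lemma Lv.trunc {P : ι → ℤ → Prop} (a : ℤ) {Y : D.Obj} (h : H.Lv P Y) :
    ∃ A B, H.Lv (fun i n => P i n ∧ a ≤ n) A ∧ H.Lv (fun i n => P i n ∧ n < a) B ∧
      D.Ext A Y B := by
  refine TD.Cl.sort' ?_ (TD.Cl.mono ?_ h)
  · rintro _ ⟨i, p, hp, rfl⟩ _ ⟨j, q, hq, rfl⟩ F hF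
    exact H.ext_simple (by omega) hF
  · rintro _ ⟨i, n, hn, rfl⟩
    apply TD.Cl.of_mem
    by_cases h1 : a ≤ n
    · exact Or.inl ⟨i, n, ⟨hn, h1⟩, rfl⟩
    · exact Or.inr ⟨i, n, ⟨hn, by omega⟩, rfl⟩

lemma Lv.of_perp_left {P : ι → ℤ → Prop} (a : ℤ) {Y : D.Obj} (h : H.Lv P Y)
    (h0 : ∀ i n, P i n → a ≤ n → D.hom (D.sh n (H.S i)) Y = 0) :
    H.Lv (fun i n => P i n ∧ n < a) Y := by
  obtain ⟨A, B, hA, hB, hE⟩ := h.trunc a
  have h1 : D.hom A Y = 0 := Lv.hom_left (fun i n hn => h0 i n hn.1 hn.2) hA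
  have h2 : D.hom A (D.sh (-1) B) = 0 :=
    Lv.hom_eq_zero (Q := fun _ n => n < a) (fun i p j q hp hq => Or.inl (by omega)) hA
      (Lv.sh (-1) (fun i n hn => by omega) hB)
  have h3 := D.les A _ _ _ (D.rot' hE)
  have h4 : A = D.zero := D.eq_zero _ (by omega)
  subst h4
  rw [D.eq_of_ext_zero _ _ hE]; exact hB

lemma Lv.of_perp_right {P : ι → ℤ → Prop} (a : ℤ) {Y : D.Obj} (h : H.Lv P Y)
    (h0 : ∀ i n, P i n → n < a → D.hom Y (D.sh n (H.S i)) = 0) :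
    H.Lv (fun i n => P i n ∧ a ≤ n) Y := by
  obtain ⟨A, B, hA, hB, hE⟩ := h.trunc a
  have h1 : D.hom Y B = 0 := Lv.hom_right (fun i n hn => h0 i n hn.1 hn.2) hB
  have h2 : D.hom (D.sh 1 A) B = 0 :=
    Lv.hom_eq_zero (P := fun _ n => a ≤ n) (fun i p j q hp hq => Or.inl (by omega))
      (Lv.sh 1 (fun i n hn => by omega) hA) hB
  have h3 := D.les' B (D.rot1 hE)
  have h4 : B = D.zero := D.eq_zero _ (by omega)
  subst h4
  rw [← D.eq_of_ext_zero_right hE]; exact hA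

lemma hom_U_V {a b : ℤ} (hab : b < a) {A B : D.Obj} (hA : H.U a A) (hB : H.V b B) :
    D.hom A B = 0 :=
  Lv.hom_eq_zero (fun _ _ _ _ hp hq => Or.inl (by omega)) hA hB

lemma Lv.inter_U {P : ι → ℤ → Prop} {a : ℤ} {Y : D.Obj} (h : H.Lv P Y) (hU : H.U a Y) :
    H.Lv (fun i n => P i n ∧ a ≤ n) Y :=
  h.of_perp_right a (fun _ n _ hn => hom_U_V hn hU (Lv.simple (le_refl n)))

lemma Lv.inter_V {P : ι → ℤ → Prop} {a : ℤ} {Y : D.Obj} (h : H.Lv P Y) (hV : H.V a Y) :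
    H.Lv (fun i n => P i n ∧ n ≤ a) Y :=
  (h.of_perp_left (a + 1) (fun _ n _ hn =>
    hom_U_V (show a < n by omega) (Lv.simple (le_refl n)) hV)).mono
      (fun _ _ h => ⟨h.1, by omega⟩)

lemma U_iff {a : ℤ} {Y : D.Obj} :
    H.U a Y ↔ ∀ i n, n < a → D.hom Y (D.sh n (H.S i)) = 0 :=
  ⟨fun h _ n hn => hom_U_V hn h (Lv.simple (le_refl n)),
   fun h => ((Lv.top Y).of_perp_right a (fun i n _ hn => h i n hn)).mono (fun _ _ h => h.2)⟩

lemma V_iff {a : ℤ} {Y : D.Obj} :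
    H.V a Y ↔ ∀ i n, a < n → D.hom (D.sh n (H.S i)) Y = 0 :=
  ⟨fun h _ n hn => hom_U_V hn (Lv.simple (le_refl n)) h,
   fun h => ((Lv.top Y).of_perp_left (a + 1) (fun i n _ hn => h i n (by omega))).mono
     (fun _ _ h => by omega)⟩

lemma M_iff {Y : D.Obj} : H.M Y ↔ H.U 0 Y ∧ H.V 0 Y :=
  ⟨fun h => ⟨h.mono (fun _ _ h => by omega), h.mono (fun _ _ h => by omega)⟩,
   fun h => (Lv.inter_V h.1 h.2).mono (fun _ _ h => by omega)⟩

lemma U.mono {a b : ℤ} (hab : b ≤ a) {Y : D.Obj} (h : H.U a Y) : H.U b Y :=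
  Lv.mono (fun _ _ h => by omega) h

lemma V.mono {a b : ℤ} (hab : a ≤ b) {Y : D.Obj} (h : H.V a Y) : H.V b Y :=
  Lv.mono (fun _ _ h => by omega) h

lemma U_sh {a : ℤ} (m : ℤ) {Y : D.Obj} : H.U (a + m) (D.sh m Y) ↔ H.U a Y :=
  ⟨fun h => by simpa [U] using Lv.sh (Q := fun _ n => a ≤ n) (-m) (fun _ _ h => by omega) h,
   fun h => Lv.sh m (fun _ _ h => by omega) h⟩

lemma V_sh {a : ℤ} (m : ℤ) {Y : D.Obj} : H.V (a + m) (D.sh m Y) ↔ H.V a Y :=
  ⟨fun h => by simpa [V] using Lv.sh (Q := fun _ n => n ≤ a) (-m) (fun _ _ h => by omega) h,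
   fun h => Lv.sh m (fun _ _ h => by omega) h⟩

lemma trunc (H : Heart D ι) (a : ℤ) (Y : D.Obj) :
    ∃ A B, H.U a A ∧ H.V (a - 1) B ∧ D.Ext A Y B := by
  obtain ⟨A, B, hA, hB, hE⟩ := (Lv.top (H := H) Y).trunc a
  exact ⟨A, B, hA.mono (fun _ _ h => h.2), hB.mono (fun _ _ h => by omega), hE⟩

lemma bounded (H : Heart D ι) (Y : D.Obj) : ∃ N : ℤ, H.U (-N) Y ∧ H.V N Y := by
  refine Lv.ind (R := fun Y => ∃ N : ℤ, H.U (-N) Y ∧ H.V N Y) ⟨0, Lv.zero, Lv.zero⟩ ?_ ?_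
    (Lv.top (H := H) Y)
  · intro i n _
    exact ⟨|n|, Lv.simple (neg_abs_le n), Lv.simple (le_abs_self n)⟩
  · rintro A Y B hE ⟨N, h1, h2⟩ ⟨N', h3, h4⟩
    exact ⟨max N N', Lv.ext (h1.mono (by omega)) (h3.mono (by omega)) hE,
      Lv.ext (h2.mono (by omega)) (h4.mono (by omega)) hE⟩

lemma M.simple (H : Heart D ι) (i : ι) : H.M (H.S i) := by
  simpa [M] using Lv.simple (H := H) (P := fun _ n => n = 0) (i := i) (n := 0) rfl

lemma M.hom_neg {A B : D.Obj} (hA : H.M A) (hB : H.M B) {n : ℤ} (hn : n < 0) :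
    D.hom A (D.sh n B) = 0 :=
  hom_U_V hn (M_iff.1 hA).1 (by simpa using (V_sh n).2 (M_iff.1 hB).2)

lemma M.euler {A B : D.Obj} (hA : H.M A) (hB : H.M B) :
    D.form (D.cl A) (D.cl B) = (D.hom A B : ℤ) - D.hom A (D.s B) + D.hom B A :=
  D.euler3 (fun _ hn => hA.hom_neg hB hn) (fun _ hn => hB.hom_neg hA hn)

/-- A non-zero map between objects of the heart has a non-zero image. -/
lemma M.image {A B : D.Obj} (hA : H.M A) (hB : H.M B) (h : D.hom A B ≠ 0) :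
    ∃ N I C, H.M N ∧ H.M I ∧ H.M C ∧ I ≠ D.zero ∧ D.Ext N A I ∧ D.Ext I B C := by
  obtain ⟨Y, hY, h1, -⟩ := D.cone (D.sh (-1) B) A (by rw [D.s_sh]; simpa using h)
  have hB1 : H.Lv (fun _ n => n = -1) (D.sh (-1) B) := Lv.sh (-1) (fun _ _ h => by omega) hB
  have hYl : H.Lv (fun _ n => n = -1 ∨ n = 0) Y :=
    Lv.ext (hB1.mono (fun _ _ h => Or.inl h)) (hA.mono (fun _ _ h => Or.inr h)) hY
  obtain ⟨N, C', hN, hC', hE⟩ := hYl.trunc 0
  have hN' : H.M N := hN.mono (fun _ _ h => by omega)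
  have hC : H.M (D.sh 1 C') := Lv.sh 1 (fun _ _ h => by omega) hC'
  have hY' : D.Ext Y A B := by simpa using D.rot1 hY
  obtain ⟨I, h2, h3⟩ := D.assoc _ _ _ _ _ hY' hE
  have hI : H.M I := by
    refine M_iff.2 ⟨?_, ?_⟩
    · exact Lv.ext (M_iff.1 hA).1 (Lv.sh 1 (fun _ _ h => by omega) hN') (D.rot1 h2)
    · exact Lv.ext (hC'.mono (fun _ _ h => by omega)) (M_iff.1 hB).2 h3
  refine ⟨N, I, D.sh 1 C', hN', hI, hC, ?_, h2, D.rot1 h3⟩
  rintro rfl
  have h4 : N = A := D.eq_of_ext_zero_right h2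
  subst h4
  have h5 := D.les N _ _ _ (D.rot' hE)
  have h6 : D.hom N (D.sh (-1) C') = 0 := by
    have := hA.hom_neg hC (n := -2) (by omega)
    simpa using this
  have h7 := hA.hom_neg hB (n := -1) (by omega)
  omega

lemma M.hom_quot {N A I W : D.Obj} (hN : H.M N) (hW : H.M W) (h : D.Ext N A I) :
    D.hom I W ≤ D.hom A W := by
  have h1 := D.les' W (D.rot1 h)
  have h2 : D.hom (D.sh 1 N) W = 0 := by rw [D.hom_sh_left]; exact hN.hom_neg hW (by omega)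
  omega

lemma M.hom_sub {I B C W : D.Obj} (hC : H.M C) (hW : H.M W) (h : D.Ext I B C) :
    D.hom W I ≤ D.hom W B := by
  have h1 := D.les W _ _ _ (D.rot' h)
  have h2 := hW.hom_neg hC (n := -1) (by omega)
  omega

/-- Multiplicities of the simples in the class of an object. -/
noncomputable def mul (H : Heart D ι) (Y : D.Obj) (i : ι) : ℤ := H.b.repr (D.cl Y) i

lemma mul_ext {A Y B : D.Obj} (h : D.Ext A Y B) (i : ι) : H.mul Y i = H.mul A i + H.mul B i := by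
  simp [mul, D.cl_ext _ _ _ h]

lemma mul_zero (i : ι) : H.mul D.zero i = 0 := by simp [mul, D.cl_zero]

lemma mul_self (i : ι) : H.mul (H.S i) i = 1 := by simp [mul, H.cl_S]

lemma mul_ne {i j : ι} (h : i ≠ j) : H.mul (H.S i) j = 0 := by
  simp [mul, H.cl_S, Finsupp.single_apply, h]

lemma mul_S_nonneg (i j : ι) : 0 ≤ H.mul (H.S i) j := by
  by_cases h : i = j
  · subst h; rw [mul_self]; omega
  · rw [mul_ne h]

lemma M.mul_nonneg {Y : D.Obj} (h : H.M Y) (i : ι) : 0 ≤ H.mul Y i := by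
  refine Lv.ind (R := fun Y => 0 ≤ H.mul Y i) (by rw [mul_zero]) ?_ ?_ h
  · rintro j n rfl
    simpa using mul_S_nonneg j i
  · intro A Y B hE hA hB
    rw [mul_ext hE]; omega

/-- An object of the heart is filtered by the simples of its support. -/
lemma M.supp {Y : D.Obj} (h : H.M Y) : H.Lv (fun i n => n = 0 ∧ 0 < H.mul Y i) Y := by
  induction h with
  | zero => exact Lv.zero
  | @cons A Y B hA hE hB ih =>
    obtain ⟨i, n, rfl, rfl⟩ := hA
    have hB' : H.M B := hB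
    rw [D.sh_zero] at hE
    refine Lv.ext (A := H.S i) ?_ (Lv.mono ?_ ih) hE
    · have := Lv.simple (H := H) (P := fun j n => n = 0 ∧ 0 < H.mul Y j) (i := i) (n := 0)
        ⟨rfl, by rw [mul_ext hE, mul_self]; have := hB'.mul_nonneg i; omega⟩
      simpa using this
    · intro j n hj
      refine ⟨hj.1, ?_⟩
      rw [mul_ext hE]
      have := mul_S_nonneg (H := H) i j
      omega

lemma M.eq_zero {Y : D.Obj} (h : H.M Y) (h0 : ∀ i, H.mul Y i ≤ 0) : Y = D.zero :=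
  D.eq_zero _ (Lv.hom_left (fun i n hn => by have := h0 i; omega) h.supp)

lemma M.eq_zero_of_cl {Y : D.Obj} (h : H.M Y) (h0 : D.cl Y = 0) : Y = D.zero :=
  h.eq_zero (fun i => by simp [mul, h0])

lemma M.exists_sub {Y : D.Obj} (h : H.M Y) (h0 : Y ≠ D.zero) :
    ∃ i B, H.M B ∧ D.Ext (H.S i) Y B := by
  cases h with
  | zero => exact absurd rfl h0
  | @cons A Y B hA hE hB =>
    obtain ⟨i, n, rfl, rfl⟩ := hA
    exact ⟨i, B, hB, by simpa using hE⟩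

/-- A simple object has no proper subobject. -/
lemma M.sub_simple {i : ι} {A B : D.Obj} (hA : H.M A) (hB : H.M B) (h : D.Ext A (H.S i) B) :
    A = D.zero ∨ B = D.zero := by
  by_cases h1 : H.mul A i ≤ 0
  · left
    refine hA.eq_zero (fun j => ?_)
    by_cases hj : i = j
    · subst hj; exact h1
    · have := mul_ext (H := H) h j
      rw [mul_ne hj] at this
      have := hB.mul_nonneg j
      omega
  · right
    refine hB.eq_zero (fun j => ?_)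
    have h2 := mul_ext (H := H) h j
    by_cases hj : i = j
    · subst hj; rw [mul_self] at h2; omega
    · rw [mul_ne hj] at h2
      have := hA.mul_nonneg j
      omega

lemma M.sub_of_hom {i : ι} {Y : D.Obj} (hY : H.M Y) (h : D.hom (H.S i) Y ≠ 0) :
    ∃ C, H.M C ∧ D.Ext (H.S i) Y C := by
  obtain ⟨N, I, C, hN, hI, hC, h0, h1, h2⟩ := (M.simple H i).image hY h
  rcases hN.sub_simple hI h1 with h3 | h3
  · subst h3
    rw [← D.eq_of_ext_zero _ _ h1] at h2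
    exact ⟨C, hC, h2⟩
  · exact absurd h3 h0

lemma M.quot_of_hom {i : ι} {Y : D.Obj} (hY : H.M Y) (h : D.hom Y (H.S i) ≠ 0) :
    ∃ N, H.M N ∧ D.Ext N Y (H.S i) := by
  obtain ⟨N, I, C, hN, hI, hC, h0, h1, h2⟩ := hY.image (M.simple H i) h
  rcases hI.sub_simple hC h2 with h3 | h3
  · exact absurd h3 h0
  · subst h3
    rw [D.eq_of_ext_zero_right h2] at h1
    exact ⟨N, hN, h1⟩

section Length

variable [Fintype ι]

/-- Length of an object of the heart. -/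
noncomputable def len (H : Heart D ι) (Y : D.Obj) : ℤ := ∑ i, H.mul Y i

lemma len_ext {A Y B : D.Obj} (h : D.Ext A Y B) : H.len Y = H.len A + H.len B := by
  simp [len, mul_ext h, Finset.sum_add_distrib]

lemma M.len_nonneg {Y : D.Obj} (h : H.M Y) : 0 ≤ H.len Y :=
  Finset.sum_nonneg (fun i _ => h.mul_nonneg i)

lemma M.len_pos {Y : D.Obj} (h : H.M Y) (h0 : Y ≠ D.zero) : 0 < H.len Y := by
  by_contra hc
  apply h0
  refine h.eq_zero (fun i => ?_)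
  have := Finset.single_le_sum (f := H.mul Y) (fun i _ => h.mul_nonneg i) (Finset.mem_univ i)
  unfold len at hc
  omega

/-- Induction on the length of an object of the heart. -/
lemma M.len_ind {R : D.Obj → Prop}
    (step : ∀ Y, H.M Y → (∀ Z, H.M Z → H.len Z < H.len Y → R Z) → R Y) {Y : D.Obj}
    (h : H.M Y) : R Y := by
  have key : ∀ n : ℕ, ∀ Y, H.M Y → H.len Y < n → R Y := by
    intro n
    induction n with
    | zero => intro Y hY h1; have := hY.len_nonneg; omega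
    | succ n ih => intro Y hY h1; exact step Y hY (fun Z hZ h2 => ih Z hZ (by omega))
  exact key ((H.len Y).toNat + 1) Y h (by omega)

/-- A class closed under quotients and extensions is a torsion class. -/
lemma M.torsion {T : D.Obj → Prop} (h0 : T D.zero) (hM : ∀ A, T A → H.M A)
    (hq : ∀ N A I, H.M N → H.M I → D.Ext N A I → T A → T I)
    (he : ∀ A Y B, D.Ext A Y B → T A → T B → T Y) {Y : D.Obj} (h : H.M Y) :
    ∃ A B, T A ∧ H.M B ∧ (∀ W, T W → D.hom W B = 0) ∧ D.Ext A Y B := by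
  refine M.len_ind (R := fun Y => ∃ A B, T A ∧ H.M B ∧ (∀ W, T W → D.hom W B = 0) ∧ D.Ext A Y B)
    ?_ h
  intro Y hY ih
  by_cases hc : ∀ W, T W → D.hom W Y = 0
  · exact ⟨D.zero, Y, h0, hY, hc, D.ext_zero _⟩
  · push Not at hc
    obtain ⟨W, hW, h1⟩ := hc
    obtain ⟨N, I, C, hN, hI, hC, h2, h3, h4⟩ := (hM W hW).image hY h1
    have := hI.len_pos h2
    obtain ⟨A, B, hA, hB, h5, h6⟩ := ih C hC (by rw [len_ext h4]; omega)
    obtain ⟨F, h7, h8⟩ := D.assoc' h4 h6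
    exact ⟨F, B, he _ _ _ h7 (hq _ _ _ hN hI h3 hW) hA, hB, h5, h8⟩

/-- A class closed under subobjects and extensions is a torsion free class. -/
lemma M.torsionFree {F : D.Obj → Prop} (h0 : F D.zero) (hM : ∀ A, F A → H.M A)
    (hq : ∀ I B C, H.M I → H.M C → D.Ext I B C → F B → F I)
    (he : ∀ A Y B, D.Ext A Y B → F A → F B → F Y) {Y : D.Obj} (h : H.M Y) :
    ∃ A B, H.M A ∧ F B ∧ (∀ W, F W → D.hom A W = 0) ∧ D.Ext A Y B := by
  refine M.len_ind (R := fun Y => ∃ A B, H.M A ∧ F B ∧ (∀ W, F W → D.hom A W = 0) ∧ D.Ext A Y B)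
    ?_ h
  intro Y hY ih
  by_cases hc : ∀ W, F W → D.hom Y W = 0
  · exact ⟨Y, D.zero, hY, h0, hc, D.ext_zero_right _⟩
  · push Not at hc
    obtain ⟨W, hW, h1⟩ := hc
    obtain ⟨N, I, C, hN, hI, hC, h2, h3, h4⟩ := hY.image (hM W hW) h1
    have := hI.len_pos h2
    obtain ⟨A, B, hA, hB, h5, h6⟩ := ih N hN (by rw [len_ext h3]; omega)
    obtain ⟨G, h7, h8⟩ := D.assoc _ _ _ _ _ h3 h6
    exact ⟨A, G, hA, he _ _ _ h8 hB (hq _ _ _ hI hC h4 hW), h5, h7⟩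

end Length

end Heart

end Pool.Agent.HT
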