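import Pool.Agent.Lib.HT.AffR
import Pool.Agent.Lib.HT.Tits

/-! Orthogonal decompositions, connected components and restriction of a Coxeter matrix. -/

set_option linter.unusedSectionVars false

namespace Pool.Agent.HT.Aff

open Pool.Agent.Lib.MP_6d85b4_al Pool.Agent.HT.Core

variable {B : Type} [Fintype B] [DecidableEq B] {M : CoxeterMatrix B} {L T U : Finset B}

/-- The two notions of connectedness agree. -/
theorem conn_iff : Conn M L ↔ L.Nonempty ∧ Tits.Conn M L := by
  classical
  refine and_congr_right fun _ => ⟨fun h P hP s hs ps t ht => ?_, fun h T hT ⟨s, hs⟩ c => ?_⟩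
  · have := h (L.filter P) (Finset.filter_subset _ _) ⟨s, Finset.mem_filter.2 ⟨hs, ps⟩⟩
      fun a ha b hb n => by_contra fun k => n (Finset.mem_filter.2
        ⟨hb, hP a (Finset.mem_filter.1 ha).1 b hb k (Finset.mem_filter.1 ha).2⟩)
    rw [← this] at ht
    exact (Finset.mem_filter.1 ht).2
  · exact hT.antisymm fun t ht => h (· ∈ T)
      (fun a _ b hb k pa => by_contra fun n => k (c a pa b hb n)) s (hT hs) hs t ht

variable (M) in
/-- All labels between the two sets are two. -/
def Orth (T U : Finset B) : Prop := ∀ s ∈ T, ∀ t ∈ U, M s t = 2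

theorem Orth.symm (h : Orth M T U) : Orth M U T := fun s hs t ht => M.symmetric t s ▸ h t ht s hs

theorem Orth.mono (h : Orth M T U) {T' U' : Finset B} (a : T' ⊆ T) (b : U' ⊆ U) :
    Orth M T' U' := fun s hs t ht => h s (a hs) t (b ht)

theorem Orth.disjoint (h : Orth M T U) : Disjoint T U :=
  Finset.disjoint_left.2 fun s a b => by simpa using h s a s b

theorem cc_of_two {s t : B} (h : M s t = 2) : cc M s t = 0 := by simp [cc, h]

theorem Orth.ip (h : Orth M T U) {s : B} (hs : s ∈ T) {x : B → ℝ} (hx : Sup U x) :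
    ip M s x = 0 := by
  rw [ip_apply]
  refine Finset.sum_eq_zero fun t _ => ?_
  by_cases c : t ∈ U
  · rw [cc_of_two (h s hs t c), zero_mul]
  · rw [hx t c, mul_zero]

theorem Orth.bf (h : Orth M T U) {x y : B → ℝ} (hx : Sup T x) (hy : Sup U y) : bf M x y = 0 :=
  bf_eq_zero hx fun _ hs => h.ip hs hy

theorem Orth.fix (h : Orth M T U) {w : M.Group} (hw : w ∈ WL M T) {x : B → ℝ} (hx : Sup U x) :
    rho M w x = x := fixes hw fun _ hs => h.ip hs hx

theorem commute_of_two {s t : B} (h : M s t = 2) :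
    Commute (M.toCoxeterSystem.simple s) (M.toCoxeterSystem.simple t) := by
  have := M.toCoxeterSystem.simple_mul_simple_pow s t
  rw [h, pow_two, mul_eq_one_iff_eq_inv, mul_inv_rev, M.toCoxeterSystem.inv_simple,
    M.toCoxeterSystem.inv_simple] at this
  exact this

theorem Orth.commute (h : Orth M T U) {u v : M.Group} (hu : u ∈ WL M T) (hv : v ∈ WL M U) :
    Commute u v := by
  refine ind (P := fun u => Commute u v) (Commute.one_left _)
    (fun _ _ s hs _ a => a.mul_left ?_) hu
  exact ind (P := fun v => Commute (M.toCoxeterSystem.simple s) v) (Commute.one_right _)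
    (fun _ _ t ht _ b => b.mul_right (commute_of_two (h s hs t ht))) hv

theorem Orth.mem_union (h : Orth M T U) {w : M.Group} :
    w ∈ WL M (T ∪ U) ↔ ∃ u ∈ WL M T, ∃ v ∈ WL M U, w = u * v := by
  refine ⟨fun hw => ind (P := fun w => ∃ u ∈ WL M T, ∃ v ∈ WL M U, w = u * v)
    ⟨1, one_mem _, 1, one_mem _, (mul_one _).symm⟩ ?_ hw, ?_⟩
  · rintro _ - s hs - ⟨u, hu, v, hv, rfl⟩
    rcases Finset.mem_union.1 hs with c | c
    · exact ⟨_, mul_mem hu (simple_mem c), v, hv, by
        rw [mul_assoc, mul_assoc, (h.commute (simple_mem c) hv).eq]⟩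
    · exact ⟨u, hu, _, mul_mem hv (simple_mem c), mul_assoc _ _ _⟩
  · rintro ⟨u, hu, v, hv, rfl⟩
    exact mul_mem (WL_mono Finset.subset_union_left hu) (WL_mono Finset.subset_union_right hv)

theorem eq_one_of_disjoint (h : Disjoint T U) {w : M.Group} (a : w ∈ WL M T) (b : w ∈ WL M U) :
    w = 1 := by
  by_contra c
  obtain ⟨s, hs⟩ := M.toCoxeterSystem.exists_rightDescent_of_ne_one c
  exact Finset.disjoint_left.1 h (mem_of_neg a (neg_of_descent hs))
    (mem_of_neg b (neg_of_descent hs))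

theorem Orth.finite (h : Orth M T U) (a : Finite (WL M T)) (b : Finite (WL M U)) :
    Finite (WL M (T ∪ U)) := by
  have a' : (WL M T : Set M.Group).Finite := a
  have b' : (WL M U : Set M.Group).Finite := b
  refine ((a'.image2 (· * ·) b').subset fun w hw => ?_ : (WL M (T ∪ U) : Set M.Group).Finite)
  obtain ⟨u, hu, v, hv, rfl⟩ := h.mem_union.1 hw
  exact ⟨u, hu, v, hv, rfl⟩

theorem finite_mono (h : T ⊆ U) (b : Finite (WL M U)) : Finite (WL M T) :=
  (Set.Finite.subset (s := (WL M U : Set M.Group)) b (WL_mono h) : (WL M T : Set M.Group).Finite)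

theorem finite_empty : Finite (WL M ∅) := ND.finite fun _ hx c =>
  absurd (funext fun i => hx i (Finset.notMem_empty i)) c

theorem Orth.rt (h : Orth M T U) {g : B → ℝ} (hg : Rt M (T ∪ U) g) : Rt M T g ∨ Rt M U g := by
  obtain ⟨w, hw, s, hs, rfl⟩ := hg
  obtain ⟨u, hu, v, hv, rfl⟩ := h.mem_union.1 hw
  rcases Finset.mem_union.1 hs with c | c
  · exact Or.inl ⟨u, hu, s, c, by rw [rho_mul, h.symm.fix hv (sup_al c)]⟩
  · exact Or.inr ⟨v, hv, s, c, by rw [rho_mul, h.fix hu ((sup_al c).rho hv)]⟩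

/-- The part of a vector supported on `T`. -/
def cut (T : Finset B) : (B → ℝ) →ₗ[ℝ] (B → ℝ) :=
  LinearMap.pi fun i => if i ∈ T then LinearMap.proj i else 0

theorem cut_mem {i : B} (h : i ∈ T) (x : B → ℝ) : cut T x i = x i := by simp [cut, h]

theorem cut_not {i : B} (h : i ∉ T) (x : B → ℝ) : cut T x i = 0 := by simp [cut, h]

theorem sup_cut (x : B → ℝ) : Sup T (cut T x) := fun _ h => cut_not h x

theorem Sup.cut_eq {x : B → ℝ} (h : Sup T x) : cut T x = x := funext fun i => by
  by_cases c : i ∈ T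
  · exact cut_mem c x
  · rw [cut_not c, h i c]

theorem pos_cut {x : B → ℝ} (h : Pos x) : Pos (cut T x) := fun i => by
  by_cases c : i ∈ T
  · exact cut_mem c x ▸ h i
  · exact (cut_not c x).ge

theorem Sup.sub_cut {x : B → ℝ} (h : Sup L x) : Sup (L \ T) (x - cut T x) := fun i hi => by
  by_cases c : i ∈ T
  · rw [Pi.sub_apply, cut_mem c, sub_self]
  · rw [Pi.sub_apply, cut_not c, sub_zero, h i fun k => hi (Finset.mem_sdiff.2 ⟨k, c⟩)]

theorem Orth.bf_cut (h : Orth M T (L \ T)) {x y : B → ℝ} (hx : Sup L x) (hy : Sup T y) :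
    Lib.MP_6d85b4_al.bf M (cut T x) y = Lib.MP_6d85b4_al.bf M x y := by
  have := h.symm.bf (hx.sub_cut (T := T)) hy
  rw [bf_sub_l] at this
  linarith

theorem Orth.rho_cut (h : Orth M T (L \ T)) (hT : T ⊆ L) {w : M.Group} (hw : w ∈ WL M L)
    {x : B → ℝ} (hx : Sup L x) : cut T (rho M w x) = rho M w (cut T x) := by
  rw [← Finset.union_sdiff_of_subset hT] at hw
  obtain ⟨u, hu, v, hv, rfl⟩ := h.mem_union.1 hw
  have a : Sup T (rho M (u * v) (cut T x)) := by
    rw [rho_mul, h.symm.fix hv (sup_cut x)]; exact (sup_cut x).rho hu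
  have b : Sup (L \ T) (rho M (u * v) (x - cut T x)) := by
    rw [rho_mul, h.fix hu (hx.sub_cut.rho hv)]; exact hx.sub_cut.rho hv
  funext i
  by_cases c : i ∈ T
  · have := b i fun k => (Finset.mem_sdiff.1 k).2 c
    rw [map_sub, Pi.sub_apply] at this
    rw [cut_mem c]
    linarith
  · rw [cut_not c, a i c]

variable (M) in
open Classical in
/-- The connected component of `s` in `L`. -/
noncomputable def comp (L : Finset B) (s : B) : Finset B :=
  L.filter (Relation.ReflTransGen (fun a b => b ∈ L ∧ M a b ≠ 2) s)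

theorem comp_subset (s : B) : comp M L s ⊆ L := by
  classical
  exact fun _ h => Finset.mem_of_mem_filter _ h

theorem mem_comp {s t : B} :
    t ∈ comp M L s ↔ t ∈ L ∧ Relation.ReflTransGen (fun a b => b ∈ L ∧ M a b ≠ 2) s t := by
  simp [comp]

theorem mem_comp_self {s : B} (hs : s ∈ L) : s ∈ comp M L s := mem_comp.2 ⟨hs, .refl⟩

theorem orth_comp (s : B) : Orth M (comp M L s) (L \ comp M L s) := fun _ ha _ hb =>
  by_contra fun c => (Finset.mem_sdiff.1 hb).2 (mem_comp.2 ⟨(Finset.mem_sdiff.1 hb).1,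
    (mem_comp.1 ha).2.tail ⟨(Finset.mem_sdiff.1 hb).1, c⟩⟩)

theorem comp_union (s : B) : comp M L s ∪ (L \ comp M L s) = L :=
  Finset.union_sdiff_of_subset (comp_subset s)

theorem conn_comp {s : B} (hs : s ∈ L) : Conn M (comp M L s) := by
  refine ⟨⟨s, mem_comp_self hs⟩, fun T hT ⟨a, ha⟩ h => ?_⟩
  have key : ∀ b, Relation.ReflTransGen (fun a b => b ∈ L ∧ M a b ≠ 2) s b →
      b ∈ comp M L s ∧ (b ∈ T ↔ s ∈ T) := fun b hb => by
    induction hb with
    | refl => exact ⟨mem_comp_self hs, Iff.rfl⟩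
    | @tail c d p q ih =>
      have m := mem_comp.2 ⟨q.1, p.tail q⟩
      exact ⟨m, Iff.trans ⟨fun k => by_contra fun n => q.2 (M.symmetric d c ▸ h d k c ih.1 n),
        fun k => by_contra fun n => q.2 (h c k d m n)⟩ ih.2⟩
  exact hT.antisymm fun b hb =>
    (key b (mem_comp.1 hb).2).2.2 ((key a (mem_comp.1 (hT ha)).2).2.1 ha)

/-- A connected subset meeting a component lies in it. -/
theorem Conn.subset_comp (h : Conn M T) (hT : T ⊆ L) {s t : B} (ht : t ∈ T)
    (hc : t ∈ comp M L s) : T ⊆ comp M L s :=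
  Finset.inter_eq_left.1 (h.2 _ Finset.inter_subset_left ⟨t, Finset.mem_inter.2 ⟨ht, hc⟩⟩
    fun a ha b hb n => orth_comp s a (Finset.mem_inter.1 ha).2 b
      (Finset.mem_sdiff.2 ⟨hT hb, fun c => n (Finset.mem_inter.2 ⟨hb, c⟩)⟩))

theorem comp_eq {s t : B} (hs : s ∈ L) (ht : t ∈ comp M L s) : comp M L t = comp M L s :=
  ((conn_comp (comp_subset s ht)).subset_comp (comp_subset t)
    (mem_comp_self (comp_subset s ht)) ht).antisymm
    ((conn_comp hs).subset_comp (comp_subset s) ht (mem_comp_self (comp_subset s ht)))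

/-- A nonempty diagram is connected or splits into two nonempty orthogonal parts. -/
theorem conn_or_split (h : L.Nonempty) : Conn M L ∨
    ∃ T U : Finset B, T.Nonempty ∧ U.Nonempty ∧ Orth M T U ∧ T ∪ U = L := by
  obtain ⟨s, hs⟩ := h
  rcases (L \ comp M L s).eq_empty_or_nonempty with e | e
  · have := comp_union (M := M) (L := L) s
    rw [e, Finset.union_empty] at this
    exact Or.inl (this ▸ conn_comp hs)
  · exact Or.inr ⟨_, _, ⟨s, mem_comp_self hs⟩, e, orth_comp s, comp_union s⟩

/-- In a connected diagram every component of a proper subset has a neighbour outside. -/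
theorem Conn.exists_nbr {J : Finset B} (h : Conn M J) (hL : L ⊂ J) {s : B} (hs : s ∈ L) :
    ∃ t ∈ comp M L s, ∃ u ∈ J, u ∉ L ∧ M t u ≠ 2 := by
  by_contra c
  refine hL.2 ((h.2 (comp M L s) ((comp_subset s).trans hL.1) ⟨s, mem_comp_self hs⟩
    fun a ha b hb n => ?_).ge.trans (comp_subset s))
  by_cases k : b ∈ L
  · exact orth_comp s a ha b (Finset.mem_sdiff.2 ⟨k, n⟩)
  · exact by_contra fun e => c ⟨a, ha, b, hb, k, e⟩

theorem finite_of_comp (h : ∀ s ∈ L, Finite (WL M (comp M L s))) : Finite (WL M L) := by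
  induction L using Finset.strongInduction with
  | _ L ih =>
  rcases L.eq_empty_or_nonempty with rfl | ⟨s, hs⟩
  · exact finite_empty
  · rw [← comp_union (M := M) (L := L) s]
    refine (orth_comp s).finite (h s hs) (ih _ (Finset.sdiff_ssubset (comp_subset s)
      ⟨s, mem_comp_self hs⟩) fun t ht => finite_mono ?_ (h t (Finset.mem_sdiff.1 ht).1))
    exact (conn_comp ht).subset_comp ((comp_subset t).trans Finset.sdiff_subset)
      (mem_comp_self ht) (mem_comp_self (Finset.mem_sdiff.1 ht).1)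

theorem Orth.nd (h : Orth M T U) (a : ND M T) (b : ND M U) : ND M (T ∪ U) := fun x hx c => by
  have s := (Sup.sub_cut (T := T) hx).mono (show (T ∪ U) \ T ⊆ U by
    rw [Finset.union_sdiff_left]; exact Finset.sdiff_subset)
  have e : x = cut T x + (x - cut T x) := by abel
  rw [e, bf_add_l, bf_add_r, bf_add_r, h.bf (sup_cut x) s, h.symm.bf s (sup_cut x)]
  by_cases k : cut T x = 0
  · linarith [a.ns _ (sup_cut x), b _ s (by rwa [k, sub_zero])]
  · linarith [a _ (sup_cut x) k, b.ns _ s]

/-- Finite if and only if definite. -/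
theorem nd_iff_finite : ND M L ↔ Finite (WL M L) := by
  refine ⟨ND.finite, ?_⟩
  induction L using Finset.strongInduction with
  | _ L ih =>
  intro f
  rcases L.eq_empty_or_nonempty with rfl | ne
  · exact fun x hx c => absurd (funext fun i => hx i (Finset.notMem_empty i)) c
  · rcases conn_or_split (M := M) ne with c | ⟨T, U, ⟨t, ht⟩, ⟨u, hu⟩, o, rfl⟩
    · exact c.nd_of_finite f
    · exact o.nd (ih T ⟨Finset.subset_union_left, fun k => Finset.disjoint_left.1 o.disjoint
          (k (Finset.mem_union_right _ hu)) hu⟩ (finite_mono Finset.subset_union_left f))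
        (ih U ⟨Finset.subset_union_right, fun k => Finset.disjoint_left.1 o.disjoint ht
          (k (Finset.mem_union_left _ ht))⟩ (finite_mono Finset.subset_union_right f))

theorem Rt.exists_comp {g : B → ℝ} (h : Rt M L g) : ∃ s ∈ L, Rt M (comp M L s) g := by
  obtain ⟨w, hw, s, hs, rfl⟩ := h
  refine ⟨s, hs, Rt.of_sup ⟨w, hw, s, hs, rfl⟩ ?_⟩
  have := (orth_comp s).rho_cut (comp_subset s) hw (sup_al hs)
  rw [(sup_al (mem_comp_self hs)).cut_eq] at this
  exact this ▸ sup_cut _

section Res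

variable {J : Type} [Fintype J] [DecidableEq J] (M) (f : J ↪ B)

/-- Restriction of a Coxeter matrix along an embedding. -/
def res : CoxeterMatrix J where
  M := Matrix.submatrix M f f
  isSymm := M.isSymm.submatrix _
  diagonal i := M.diagonal (f i)
  off_diagonal i j h := M.off_diagonal (f i) (f j) (f.injective.ne h)

theorem res_apply (a b : J) : res M f a b = M (f a) (f b) := rfl

theorem cc_res (a b : J) : cc (res M f) a b = cc M (f a) (f b) := rfl

/-- Extension by zero. -/
noncomputable def ext0 : (J → ℝ) →ₗ[ℝ] (B → ℝ) :=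
  ∑ a, (LinearMap.proj a : (J → ℝ) →ₗ[ℝ] ℝ).smulRight (al (f a))

theorem res_liftable : (res M f).IsLiftable fun a => M.toCoxeterSystem.simple (f a) :=
  fun a b => M.toCoxeterSystem.simple_mul_simple_pow (f a) (f b)

/-- The inclusion of the Coxeter group of a restriction. -/
noncomputable def inc : (res M f).Group →* M.Group :=
  (res M f).toCoxeterSystem.lift ⟨_, res_liftable M f⟩

theorem inc_simple (a : J) :
    inc M f ((res M f).toCoxeterSystem.simple a) = M.toCoxeterSystem.simple (f a) :=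
  (res M f).toCoxeterSystem.lift_apply_simple (res_liftable M f) a

theorem ext0_eq (x : J → ℝ) : ext0 f x = ∑ a, x a • al (f a) := by
  simp [ext0, LinearMap.sum_apply]

theorem ext0_apply (x : J → ℝ) (a : J) : ext0 f x (f a) = x a := by
  simp [ext0_eq, Finset.sum_apply, al, Pi.single_apply]

theorem ext0_al (a : J) : ext0 f (al a) = al (f a) := by
  simp [ext0_eq, al, Pi.single_apply]

theorem ext0_out (x : J → ℝ) {i : B} (h : ∀ a, f a ≠ i) : ext0 f x i = 0 := by
  rw [ext0_eq, Finset.sum_apply]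
  exact Finset.sum_eq_zero fun a _ => by rw [Pi.smul_apply, al_ne (h a).symm, smul_zero]

theorem ext0_inj : Function.Injective (ext0 f) := fun x y h =>
  funext fun a => by rw [← ext0_apply f x, h, ext0_apply]

theorem ext0_comp {T : Finset J} {y : B → ℝ} (h : Sup (T.map f) y) :
    ext0 f (fun a => y (f a)) = y := funext fun i => by
  by_cases c : ∃ a, f a = i
  · obtain ⟨a, rfl⟩ := c
    exact ext0_apply f _ a
  · rw [ext0_out f _ (not_exists.1 c), h i fun k => c ((Finset.mem_map.1 k).imp fun _ p => p.2)]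

theorem sup_ext0 {T : Finset J} {x : J → ℝ} : Sup (T.map f) (ext0 f x) ↔ Sup T x := by
  refine ⟨fun h a ha => by rw [← ext0_apply f x, h _ (by simpa using ha)], fun h i hi => ?_⟩
  by_cases c : ∃ a, f a = i
  · obtain ⟨a, rfl⟩ := c
    rw [ext0_apply, h a (by simpa using hi)]
  · exact ext0_out f _ (not_exists.1 c)

theorem pos_ext0 {x : J → ℝ} : Pos (ext0 f x) ↔ Pos x := by
  refine ⟨fun h a => ext0_apply f x a ▸ h (f a), fun h i => ?_⟩
  by_cases c : ∃ a, f a = i
  · obtain ⟨a, rfl⟩ := c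
    exact (ext0_apply f x a).symm ▸ h a
  · exact (ext0_out f _ (not_exists.1 c)).ge

theorem ip_ext0 (a : J) (x : J → ℝ) : ip M (f a) (ext0 f x) = ip (res M f) a x := by
  rw [ext0_eq, map_sum, ip_apply]
  exact Finset.sum_congr rfl fun b _ => by rw [map_smul, ip_al, cc_res, smul_eq_mul, mul_comm]

theorem bf_ext0 (x y : J → ℝ) : bf M (ext0 f x) (ext0 f y) = bf (res M f) x y := by
  rw [bf_symm, ← bL_apply, ext0_eq f x, map_sum, bf]
  exact Finset.sum_congr rfl fun a _ => by rw [map_smul, bL_apply, bf_al_r, ip_ext0, smul_eq_mul]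

theorem rho_inc (u : (res M f).Group) (x : J → ℝ) :
    rho M (inc M f u) (ext0 f x) = ext0 f (rho (res M f) u x) := by
  induction u using (res M f).toCoxeterSystem.simple_induction_left with
  | one => simp
  | mul_simple_left w a ih =>
    rw [map_mul, rho_mul, ih, inc_simple, rho_mul, rho_simple, rho_simple, rf_apply, rf_apply,
      map_add, map_smul, ip_ext0, ext0_al]

theorem inc_inj : Function.Injective (inc M f) := (injective_iff_map_eq_one _).2 fun u hu =>
  Tits.eq_one_of_pos (Tits.mem_W_univ u) fun a _ => by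
    have := rho_inc M f u (al a)
    rw [hu, map_one, Module.End.one_apply] at this
    exact ext0_inj f this ▸ pos_al a

theorem map_inc (T : Finset J) : (WL (res M f) T).map (inc M f) = WL M (T.map f) := by
  rw [MonoidHom.map_closure, ← Set.image_comp, WL, Finset.coe_map, ← Set.image_comp]
  exact congrArg (fun g => Subgroup.closure (g '' (T : Set J))) (funext (inc_simple M f))

theorem inc_mem {T : Finset J} {u : (res M f).Group} :
    inc M f u ∈ WL M (T.map f) ↔ u ∈ WL (res M f) T := by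
  rw [← map_inc, Subgroup.mem_map_iff_mem (inc_inj M f)]

theorem exists_inc {T : Finset J} {w : M.Group} (h : w ∈ WL M (T.map f)) :
    ∃ u ∈ WL (res M f) T, inc M f u = w := by
  rwa [← map_inc] at h

theorem finite_res {T : Finset J} : Finite (WL (res M f) T) ↔ Finite (WL M (T.map f)) := by
  rw [← map_inc]
  exact (Subgroup.equivMapOfInjective _ _ (inc_inj M f)).toEquiv.finite_iff

theorem rt_ext0 {T : Finset J} {x : J → ℝ} : Rt M (T.map f) (ext0 f x) ↔ Rt (res M f) T x := by
  constructor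
  · rintro ⟨w, hw, s, hs, e⟩
    obtain ⟨u, hu, rfl⟩ := exists_inc M f hw
    obtain ⟨a, ha, rfl⟩ := Finset.mem_map.1 hs
    exact ⟨u, hu, a, ha, ext0_inj f (by rw [e, ← rho_inc, ext0_al])⟩
  · rintro ⟨u, hu, a, ha, rfl⟩
    exact ⟨_, (inc_mem M f).2 hu, _, Finset.mem_map_of_mem f ha, by rw [← rho_inc, ext0_al]⟩

theorem conn_res {T : Finset J} : Conn (res M f) T ↔ Conn M (T.map f) := by
  refine and_congr Finset.map_nonempty.symm ⟨fun h U hU ne c => ?_, fun h U hU ne c => ?_⟩
  · obtain ⟨V, hV, rfl⟩ := Finset.subset_map_iff.1 hU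
    rw [h V hV (Finset.map_nonempty.1 ne) fun a ha b hb n => c _ (Finset.mem_map_of_mem f ha) _
      (Finset.mem_map_of_mem f hb) (by simpa using n)]
  · refine Finset.map_injective f (h _ (Finset.map_subset_map.2 hU) (Finset.map_nonempty.2 ne)
      fun s hs t ht n => ?_)
    obtain ⟨a, ha, rfl⟩ := Finset.mem_map.1 hs
    obtain ⟨b, hb, rfl⟩ := Finset.mem_map.1 ht
    exact c a ha b hb (by simpa using n)

theorem isAff_res {T : Finset J} {d : J → ℝ} :
    IsAff (res M f) T d ↔ IsAff M (T.map f) (ext0 f d) := by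
  refine ⟨fun h => ⟨(conn_res M f).1 h.conn, (sup_ext0 f).2 h.sup, fun s hs => ?_, fun s hs => ?_⟩,
    fun h => ⟨(conn_res M f).2 h.conn, (sup_ext0 f).1 h.sup, fun a ha => ?_, fun a ha => ?_⟩⟩
  · obtain ⟨a, ha, rfl⟩ := Finset.mem_map.1 hs
    exact (ext0_apply f d a).symm ▸ h.pos a ha
  · obtain ⟨a, ha, rfl⟩ := Finset.mem_map.1 hs
    rw [ip_ext0, h.rad a ha]
  · exact ext0_apply f d a ▸ h.pos _ (Finset.mem_map_of_mem f ha)
  · rw [← ip_ext0, h.rad _ (Finset.mem_map_of_mem f ha)]

theorem rank_res : (Matrix.of (cc (res M f))).rank ≤ (Matrix.of (cc M)).rank :=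
  Matrix.rank_submatrix_le (Matrix.of (cc M)) f f

theorem map_subtype (L : Finset B) :
    (Finset.univ : Finset L).map (Function.Embedding.subtype _) = L := by
  ext a
  simp

end Res

end Pool.Agent.HT.Aff
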