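import Pool.Agent.Lib.HT.Prism1

set_option autoImplicit false
set_option linter.unusedSectionVars false

/-! Prisms: the reflection subgroup of the roots that are killed by a linear form. -/

namespace Pool.Agent.HT.Prism

open Real CoxeterSystem Pool.Agent.Lib.MP_6d85b4_al

variable {B : Type} [Fintype B] [DecidableEq B] {M : CoxeterMatrix B} {θ : (B → ℝ) →ₗ[ℝ] ℝ}

/-- The chambers `w` and `w'` are on the same side of all walls in the kernel of `θ`. -/
def Sm (M : CoxeterMatrix B) (θ : (B → ℝ) →ₗ[ℝ] ℝ) (w w' : M.Group) : Prop :=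
  ∀ β, Rt M β → θ β = 0 → (Pos (rho M w⁻¹ β) ↔ Pos (rho M w'⁻¹ β))

/-- A move across a wall that is not in the kernel of `θ`. -/
def Mv (M : CoxeterMatrix B) (θ : (B → ℝ) →ₗ[ℝ] ℝ) (v v' : M.Group) : Prop :=
  ∃ s, θ (rho M v (al s)) ≠ 0 ∧ v' = v * M.toCoxeterSystem.simple s

theorem Sm.refl (w : M.Group) : Sm M θ w w := fun _ _ _ => Iff.rfl

theorem Sm.symm {w w' : M.Group} (h : Sm M θ w w') : Sm M θ w' w := fun β a b => (h β a b).symm

theorem Sm.trans {w w' w'' : M.Group} (h : Sm M θ w w') (h' : Sm M θ w' w'') : Sm M θ w w'' :=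
  fun β a b => (h β a b).trans (h' β a b)

theorem Sm.mul {w w' : M.Group} (h : Sm M θ w w') {g : M.Group}
    (hg : ∀ x, θ (rho M g x) = θ x) : Sm M θ (g * w) (g * w') := fun β a b => by
  rw [mul_inv_rev, mul_inv_rev, rho_mul, rho_mul]
  exact h _ (a.rho _) (by rw [← hg, rho_inv', b])

theorem rho_step (w : M.Group) (s : B) (x : B → ℝ) :
    rho M (w * M.toCoxeterSystem.simple s)⁻¹ x = rf M s (rho M w⁻¹ x) := by
  rw [mul_inv_rev, inv_simple, rho_mul, rho_simple]

theorem rho_step_al (w : M.Group) (s : B) :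
    rho M (w * M.toCoxeterSystem.simple s) (al s) = -rho M w (al s) := by
  rw [rho_mul, rho_simple, rf_self, map_neg]

theorem sm_step {w : M.Group} {s : B} (h : θ (rho M w (al s)) ≠ 0) :
    Sm M θ w (w * M.toCoxeterSystem.simple s) := fun β a b => by
  rw [rho_step]
  refine ⟨fun p => (a.rho _).pos_rf p fun e => h (by rw [← e, rho_inv', b]), fun p => ?_⟩
  have r : Rt M (rf M s (rho M w⁻¹ β)) := by rw [← rho_step]; exact a.rho _
  have := r.pos_rf (u := s) p fun e => h (by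
    have e' := congrArg (rf M s) e
    rw [rf_rf, rf_self] at e'
    rw [← neg_eq_zero, ← map_neg, ← map_neg, ← e', rho_inv', b])
  rwa [rf_rf] at this

theorem Sm.conn {w w' : M.Group} (h : Sm M θ w w') : Relation.ReflTransGen (Mv M θ) w w' := by
  induction hn : M.toCoxeterSystem.length (w⁻¹ * w') using Nat.strong_induction_on
    generalizing w' with
  | _ n ih =>
  by_cases hw : w⁻¹ * w' = 1
  · rw [inv_mul_eq_one] at hw
    rw [hw]
  obtain ⟨s, hs⟩ := M.toCoxeterSystem.exists_rightDescent_of_ne_one hw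
  have ne : θ (rho M w' (al s)) ≠ 0 := fun e => by
    have p := (h _ ((rt_al s).rho w') e).2 (by rw [rho_inv]; exact pos_al s)
    rw [← rho_mul] at p
    exact ((rt_al s).rho _).not_both p (neg_of_descent hs)
  refine (ih _ ?_ (h.trans (sm_step ne)) rfl).tail ⟨s, ?_, ?_⟩
  · rw [← hn, ← mul_assoc]
    exact hs
  · rwa [rho_step_al, map_neg, neg_ne_zero]
  · rw [simple_mul_simple_cancel_right]

theorem sm_of_conn {w w' : M.Group} (h : Relation.ReflTransGen (Mv M θ) w w') : Sm M θ w w' := by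
  induction h with
  | refl => exact Sm.refl _
  | tail _ h ih =>
    obtain ⟨s, a, rfl⟩ := h
    exact ih.trans (sm_step a)

/-- The walls of the prism of `w₀`. -/
def De (M : CoxeterMatrix B) (θ : (B → ℝ) →ₗ[ℝ] ℝ) (w₀ : M.Group) : Set (B → ℝ) :=
  {b | ∃ w s, Sm M θ w₀ w ∧ b = rho M w (al s) ∧ θ b = 0}

/-- Roots in the kernel that are positive on the prism. -/
def Pz (M : CoxeterMatrix B) (θ : (B → ℝ) →ₗ[ℝ] ℝ) (w₀ : M.Group) (x : B → ℝ) : Prop :=
  Rt M x ∧ θ x = 0 ∧ Pos (rho M w₀⁻¹ x)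

variable {w₀ : M.Group}

theorem de_pz {b : B → ℝ} (h : b ∈ De M θ w₀) : Pz M θ w₀ b := by
  obtain ⟨w, s, a, rfl, e⟩ := h
  exact ⟨(rt_al s).rho w, e, (a _ ((rt_al s).rho w) e).2 (by rw [rho_inv]; exact pos_al s)⟩

theorem de_refl {b x : B → ℝ} (h : b ∈ De M θ w₀) (hx : Pz M θ w₀ x) (hn : x ≠ b) :
    Pz M θ w₀ (x + bf M b x • b) := by
  obtain ⟨w, s, a, rfl, e⟩ := h
  have z : θ (x + bf M (rho M w (al s)) x • rho M w (al s)) = 0 := by
    rw [map_add, map_smul, hx.2.1, e, smul_zero, add_zero]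
  rw [← rho_rr] at z ⊢
  refine ⟨hx.1.rho _, z, (a _ (hx.1.rho _) z).2 ?_⟩
  rw [← rho_mul, rr, mul_assoc, inv_mul_cancel_left, rho_mul, rho_simple]
  exact (hx.1.rho _).pos_rf ((a _ hx.1 hx.2.1).1 hx.2.2) fun e => hn (by rw [← e, rho_inv'])

/-- The height as a linear form. -/
def htl : (B → ℝ) →ₗ[ℝ] ℝ where
  toFun := ht
  map_add' x y := by simpa using ht_comb 1 1 x y
  map_smul' c x := by simpa using ht_comb c 0 x x

theorem de_label (h : ∀ x, bf M x x ≤ 0) {a b : B → ℝ} (ha : a ∈ De M θ w₀) (hb : b ∈ De M θ w₀)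
    (hab : a ≠ b) : ∃ m : ℕ, m ≠ 1 ∧ bf M a b = 2 * cos (π / m) := by
  have na := (de_pz ha).1.norm
  have nb := (de_pz hb).1.norm
  rw [bl_apply] at na nb
  have fa : ∀ p q : ℝ, bf M a (p • a + q • b) = bf M a b * q - 2 * p := fun p q => by
    simp only [bl_apply, map_add, map_smul, smul_eq_mul, na]; ring
  have fb : ∀ p q : ℝ, bf M b (p • a + q • b) = bf M a b * p - 2 * q := fun p q => by
    simp only [bl_apply, map_add, map_smul, smul_eq_mul, nb, bl_symm b a]; ring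
  refine label (Pz M θ w₀) (htl ∘ₗ rho M w₀⁻¹) (fun x hx => ht_pos hx.2.2 (hx.1.rho _).ne)
    (de_pz ha) (de_pz hb) hab ?_ (fun c2 c0 p q e => ?_) (fun p q s n => ?_) (fun p q s n => ?_)
  · have := h (a + b)
    simp only [bl_apply, map_add, LinearMap.add_apply, na, nb, bl_symm b a] at this ⊢
    linarith
  · have e1 := fa p q
    have e2 := fb p q
    rw [e, bl_apply, map_zero] at e1 e2
    have d : (bf M a b - 2) * (bf M a b + 2) ≠ 0 :=
      mul_ne_zero (sub_ne_zero.2 c2) (by linarith)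
    exact ⟨(mul_eq_zero.1 (show _ * p = 0 by
        linear_combination -2 * e1 - bf M a b * e2)).resolve_left d,
      (mul_eq_zero.1 (show _ * q = 0 by
        linear_combination -bf M a b * e1 - 2 * e2)).resolve_left d⟩
  · have := de_refl ha s n
    rw [fa] at this
    rwa [show (bf M a b * q - p) • a + q • b = p • a + q • b + (bf M a b * q - 2 * p) • a by
      module]
  · have := de_refl hb s n
    rw [fb] at this
    rwa [show p • a + (bf M a b * p - q) • b = p • a + q • b + (bf M a b * p - 2 * q) • b by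
      module]

theorem cos_nonneg {m : ℕ} (h : m ≠ 1) : 0 ≤ 2 * cos (π / m) := by
  rcases Nat.eq_zero_or_pos m with rfl | h0
  · simp
  · have : (2 : ℝ) ≤ m := by exact_mod_cast (by omega : 2 ≤ m)
    refine mul_nonneg (by norm_num) (cos_nonneg_of_mem_Icc ⟨?_, ?_⟩)
    · have : 0 ≤ π / m := by positivity
      linarith [pi_pos]
    · exact div_le_div_of_nonneg_left pi_pos.le (by norm_num) this

theorem de_finite (h : ∀ x, bf M x x ≤ 0) : (De M θ w₀).Finite :=
  finite_obtuse h (fun _ hb => (de_pz hb).1.norm) fun a ha b hb hab => by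
    obtain ⟨m, h1, e⟩ := de_label h ha hb hab
    rw [e]
    exact cos_nonneg h1

/-- The label of a number. -/
noncomputable def lab (c : ℝ) : ℕ := Classical.epsilon fun m : ℕ => c = 2 * cos (π / m)

theorem lab_eq {c : ℝ} {m : ℕ} (h : c = 2 * cos (π / m)) : lab c = m := by
  have := Classical.epsilon_spec (p := fun m : ℕ => c = 2 * cos (π / m)) ⟨m, h⟩
  exact cos_inj (mul_left_cancel₀ two_ne_zero (this.symm.trans h))

theorem neg_two : (-2 : ℝ) = 2 * cos (π / (1 : ℕ)) := by simp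

/-- The Coxeter matrix of the prism. -/
noncomputable def mat (h : ∀ x, bf M x x ≤ 0) (θ : (B → ℝ) →ₗ[ℝ] ℝ) (w₀ : M.Group) :
    CoxeterMatrix (De M θ w₀) where
  M := Matrix.of fun a b => lab (bf M a.1 b.1)
  isSymm := by
    ext a b
    simp [bf_symm M a.1 b.1]
  diagonal a := lab_eq ((de_pz a.2).1.norm.trans neg_two)
  off_diagonal a b hab := by
    obtain ⟨m, h1, e⟩ := de_label h a.2 b.2 fun e => hab (Subtype.ext e)
    exact (lab_eq e).trans_ne h1

theorem cc_mat (h : ∀ x, bf M x x ≤ 0) (a b : De M θ w₀) : cc (mat h θ w₀) a b = bf M a.1 b.1 := by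
  have : ∃ m : ℕ, bf M a.1 b.1 = 2 * cos (π / m) := by
    rcases eq_or_ne a b with rfl | hab
    · exact ⟨1, (de_pz a.2).1.norm.trans neg_two⟩
    · obtain ⟨m, -, e⟩ := de_label h a.2 b.2 fun e => hab (Subtype.ext e)
      exact ⟨m, e⟩
  obtain ⟨m, e⟩ := this
  have e' : mat h θ w₀ a b = m := lab_eq e
  rw [cc, e', e]

/-- The data of a prism decomposition. -/
structure IsPrism (M : CoxeterMatrix B) (θ : (B → ℝ) →ₗ[ℝ] ℝ) (w₀ : M.Group) {J : Type}
    [Fintype J] [DecidableEq J] (N : CoxeterMatrix J) (j : (J → ℝ) →ₗ[ℝ] (B → ℝ))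
    (φ : N.Group →* M.Group) (p : M.Group → N.Group) : Prop where
  form : ∀ x y, bf M (j x) (j y) = bf N x y
  eqv : ∀ u x, rho M (φ u) (j x) = j (rho N u x)
  ker : ∀ x, θ (j x) = 0
  inv : ∀ u x, θ (rho M (φ u) x) = θ x
  base : p w₀ = 1
  mul : ∀ u w, p (φ u * w) = u * p w
  sign : ∀ w w', p w = p w' ↔ Sm M θ w w'
  off : ∀ w s, θ (rho M w (al s)) ≠ 0 → p (w * M.toCoxeterSystem.simple s) = p w
  on : ∀ w s, θ (rho M w (al s)) = 0 → ∃ b, rho M w (al s) = j (rho N (p w) (al b)) ∧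
    p (w * M.toCoxeterSystem.simple s) = p w * N.toCoxeterSystem.simple b
  wall : ∀ u b, ∃ w s, p w = u ∧ rho M w (al s) = j (rho N u (al b))
  uniq : ∀ u b b', j (rho N u (al b)) = j (rho N u (al b')) → b = b'
  pos : ∀ w x, Pos x → Pos (rho M w⁻¹ (j (rho N (p w) x)))
  nz : ∀ x, Pos x → j x = 0 → x = 0

section Build

variable {J : Type} [Fintype J] [DecidableEq J] {N : CoxeterMatrix J}

theorem lift_ok (j : (J → ℝ) →ₗ[ℝ] (B → ℝ)) (hj : ∀ x y, bf M (j x) (j y) = bf N x y)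
    (r : J → M.Group) (hr : ∀ b x, rho M (r b) x = x + bf M (j (al b)) x • j (al b)) :
    N.IsLiftable r := by
  have e1 : ∀ b x, rho M (r b) (j x) = j (rf N b x) := fun b x => by
    rw [hr, hj, bf_al, rf_apply, map_add, map_smul]
  intro a b
  rcases Nat.eq_zero_or_pos (N a b) with h0 | h0
  · rw [h0, pow_zero]
  have e2 : ∀ (k : ℕ) x, rho M ((r a * r b) ^ k) (j x) = j (((rf N a * rf N b) ^ k) x) := by
    intro k
    induction k with
    | zero => intro x; simp
    | succ k ih =>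
      intro x
      rw [pow_succ, pow_succ, rho_mul, rho_mul, e1, e1, ih]
      rfl
  have e3 : ∀ (k : ℕ) y, bf M (j (al a)) y = 0 → bf M (j (al b)) y = 0 →
      rho M ((r a * r b) ^ k) y = y := by
    intro k y ha hb
    induction k with
    | zero => simp
    | succ k ih => rw [pow_succ, rho_mul, rho_mul, hr b, hb, zero_smul, add_zero, hr a, ha,
        zero_smul, add_zero, ih]
  refine rho_inj fun x => ?_
  obtain ⟨z, za, zb⟩ : ∃ z, ip N a z = bf M (j (al a)) x ∧ ip N b z = bf M (j (al b)) x := by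
    rcases eq_or_ne a b with rfl | hab
    · have : ip N a ((-(bf M (j (al a)) x) / 2) • al a) = bf M (j (al a)) x := by
        rw [map_smul, ip_al, cc_self, smul_eq_mul]; ring
      exact ⟨_, this, this⟩
    have hm : 2 ≤ N a b := by
      have := N.off_diagonal a b hab
      omega
    have hd : 4 - cc N a b ^ 2 ≠ 0 := by
      have h1 := sin_pos_m hm
      have h2 := sin_sq_add_cos_sq (π / N a b)
      have : 4 - cc N a b ^ 2 = 4 * sin (π / N a b) ^ 2 := by
        rw [cc]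
        nlinarith
      rw [this]
      positivity
    refine ⟨(-(2 * bf M (j (al a)) x + cc N a b * bf M (j (al b)) x) / (4 - cc N a b ^ 2)) • al a +
      (-(2 * bf M (j (al b)) x + cc N a b * bf M (j (al a)) x) / (4 - cc N a b ^ 2)) • al b,
      ?_, ?_⟩
    all_goals
      rw [map_add, map_smul, map_smul, ip_al, ip_al, cc_self, smul_eq_mul, smul_eq_mul]
      try rw [cc_symm N b a]
      field_simp
      ring
  have hx : x = (x - j z) + j z := by abel
  rw [hx, map_add, e2, liftable N a b, e3 _ _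
    (by rw [bl_apply, map_sub, ← bl_apply, ← bl_apply, hj, bf_al, za, sub_self])
    (by rw [bl_apply, map_sub, ← bl_apply, ← bl_apply, hj, bf_al, zb, sub_self]), map_one]
  rfl

theorem build (j : (J → ℝ) →ₗ[ℝ] (B → ℝ)) (hj : ∀ x y, bf M (j x) (j y) = bf N x y)
    (hd : ∀ b, j (al b) ∈ De M θ w₀) (hs : ∀ v ∈ De M θ w₀, ∃ b, j (al b) = v)
    (hi : ∀ b b', j (al b) = j (al b') → b = b') :
    ∃ (φ : N.Group →* M.Group) (p : M.Group → N.Group), IsPrism M θ w₀ N j φ p := by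
  choose wb sb hb1 hb2 hb3 using hd
  have hd : ∀ b, j (al b) ∈ De M θ w₀ := fun b => ⟨wb b, sb b, hb1 b, hb2 b, hb3 b⟩
  have hr : ∀ b x, rho M (rr (wb b) (sb b)) x = x + bf M (j (al b)) x • j (al b) :=
    fun b x => by rw [rho_rr, ← hb2]
  set φ : N.Group →* M.Group := N.toCoxeterSystem.lift ⟨_, lift_ok j hj _ hr⟩ with hφ
  have φs : ∀ b, φ (N.toCoxeterSystem.simple b) = rr (wb b) (sb b) := fun b =>
    N.toCoxeterSystem.lift_apply_simple (lift_ok j hj _ hr) b
  have ex : ∀ x : J → ℝ, x = ∑ b, x b • al b := fun x => by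
    funext i
    simp [al, Finset.sum_apply, Pi.single_apply]
  have eqv : ∀ u x, rho M (φ u) (j x) = j (rho N u x) := fun u => by
    induction u using N.toCoxeterSystem.simple_induction_left with
    | one => intro x; simp
    | mul_simple_left u b ih =>
      intro x
      rw [map_mul, rho_mul, rho_mul, ih, φs, hr, hj, bf_al, rho_simple, rf_apply, map_add,
        map_smul]
  have ker : ∀ x, θ (j x) = 0 := fun x => by
    rw [ex x, map_sum, map_sum]
    exact Finset.sum_eq_zero fun b _ => by rw [map_smul, map_smul, hb3, smul_zero]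
  have inv : ∀ u x, θ (rho M (φ u) x) = θ x := fun u => by
    induction u using N.toCoxeterSystem.simple_induction_left with
    | one => intro x; simp
    | mul_simple_left u b ih =>
      intro x
      rw [map_mul, rho_mul, φs, hr, map_add, map_smul, ker, smul_zero, add_zero, ih]
  have cone : ∀ w, Sm M θ w₀ w → ∀ x, Pos x → Pos (rho M w⁻¹ (j x)) := fun w hw x hx i => by
    rw [ex x, map_sum, map_sum, Finset.sum_apply]
    refine Finset.sum_nonneg fun b _ => ?_
    rw [map_smul, map_smul]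
    exact mul_nonneg (hx b) ((hw _ (de_pz (hd b)).1 (hb3 b)).1 (de_pz (hd b)).2.2 i)
  have stp : ∀ q s, Sm M θ w₀ q → θ (rho M q (al s)) = 0 → ∃ b, j (al b) = rho M q (al s) ∧
      φ (N.toCoxeterSystem.simple b) * q = q * M.toCoxeterSystem.simple s := fun q s h1 h2 => by
    obtain ⟨b, e⟩ := hs _ ⟨q, s, h1, rfl, h2⟩
    exact ⟨b, e, by rw [φs, rr_congr ((hb2 b).symm.trans e), rr_mul]⟩
  have exi : ∀ w, ∃ u, Sm M θ w₀ ((φ u)⁻¹ * w) := fun w => by
    obtain ⟨v, rfl⟩ : ∃ v, w = w₀ * v := ⟨w₀⁻¹ * w, by rw [mul_inv_cancel_left]⟩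
    induction v using M.toCoxeterSystem.simple_induction_right with
    | one => exact ⟨1, by simpa using Sm.refl w₀⟩
    | mul_simple_right v s ih =>
      obtain ⟨u, hu⟩ := ih
      by_cases c : θ (rho M ((φ u)⁻¹ * (w₀ * v)) (al s)) = 0
      · obtain ⟨b, -, e⟩ := stp _ s hu c
        refine ⟨u * N.toCoxeterSystem.simple b, ?_⟩
        rwa [map_mul, mul_inv_rev, ← map_inv, inv_simple, ← mul_assoc w₀, mul_assoc,
          ← mul_assoc (φ u)⁻¹, ← mul_assoc, e, simple_mul_simple_cancel_right]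
      · exact ⟨u, by rw [← mul_assoc w₀, ← mul_assoc]; exact hu.trans (sm_step c)⟩
  have uni : ∀ w u u', Sm M θ w₀ ((φ u)⁻¹ * w) → Sm M θ w₀ ((φ u')⁻¹ * w) → u = u' := by
    intro w u u' h1 h2
    refine inv_mul_eq_one.1 (eq_one_of_pos fun b => (dichotomy N _ b).resolve_right fun c => ?_)
    have p1 := cone _ h1 _ c
    have p2 := cone _ h2 _ (pos_al b)
    rw [map_neg, map_neg, ← eqv, ← rho_mul, map_mul φ, map_inv φ] at p1
    rw [show ((φ u)⁻¹ * w)⁻¹ * ((φ u)⁻¹ * φ u') = ((φ u')⁻¹ * w)⁻¹ by group] at p1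
    exact ((de_pz (hd b)).1.rho _).not_both p2 p1
  choose p hp using exi
  have inv' : ∀ u x, θ (rho M (φ u)⁻¹ x) = θ x := fun u x => by rw [← map_inv, inv]
  have sign : ∀ w w', p w = p w' ↔ Sm M θ w w' := fun w w' => by
    refine ⟨fun e => ?_, fun h => uni w' _ _ ((hp w).trans (h.mul (inv' _))) (hp w')⟩
    have := ((hp w).symm.trans (e ▸ hp w')).mul (inv (p w))
    rwa [mul_inv_cancel_left, mul_inv_cancel_left] at this
  have mul : ∀ u w, p (φ u * w) = u * p w := fun u w => uni _ _ _ (hp _) (by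
    rw [map_mul, mul_inv_rev, mul_assoc, inv_mul_cancel_left]; exact hp w)
  refine ⟨φ, p, hj, eqv, ker, inv, uni _ _ _ (hp _) (by simpa using Sm.refl w₀), mul, sign,
    fun w s h => ((sign _ _).2 (sm_step h)).symm, fun w s h => ?_, fun u b => ?_,
    fun u b b' e => hi _ _ ?_, fun w x hx => ?_, fun x hx e => ?_⟩
  · obtain ⟨b, e1, e2⟩ := stp _ s (hp w) (by rw [rho_mul, inv', h])
    refine ⟨b, by rw [← eqv, e1, ← rho_mul, mul_inv_cancel_left], uni _ _ _ (hp _) ?_⟩
    rw [map_mul, mul_inv_rev, ← map_inv φ (N.toCoxeterSystem.simple b), inv_simple, mul_assoc,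
      ← mul_assoc (φ (p w))⁻¹, ← mul_assoc, e2, simple_mul_simple_cancel_right]
    exact hp w
  · refine ⟨φ u * wb b, sb b, ?_, by rw [rho_mul, ← hb2, eqv]⟩
    rw [mul, uni _ _ 1 (hp _) (by simpa using hb1 b), mul_one]
  · have := congrArg (rho M (φ u)⁻¹) e
    rwa [← eqv, ← eqv, rho_inv, rho_inv] at this
  · have := cone _ (hp w) x hx
    rwa [mul_inv_rev, inv_inv, rho_mul, eqv] at this
  · have : htl (rho M w₀⁻¹ (j x)) = 0 := by rw [e, map_zero, map_zero]
    rw [ex x, map_sum, map_sum, map_sum] at this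
    have ps : ∀ b, 0 < htl (rho M w₀⁻¹ (j (al b))) := fun b =>
      ht_pos (de_pz (hd b)).2.2 ((de_pz (hd b)).1.rho _).ne
    funext b
    have := (Finset.sum_eq_zero_iff_of_nonneg fun b _ => by
      rw [map_smul, map_smul, map_smul]
      exact mul_nonneg (hx b) (ps b).le).1 this b (Finset.mem_univ _)
    rw [map_smul, map_smul, map_smul, smul_eq_mul] at this
    exact (mul_eq_zero.1 this).resolve_right (ps b).ne'

end Build

/-- PRISM. -/
theorem exists_prism (h : ∀ x, bf M x x ≤ 0) (θ : (B → ℝ) →ₗ[ℝ] ℝ) (w₀ : M.Group) :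
    ∃ (J : Type) (_ : Fintype J) (_ : DecidableEq J) (N : CoxeterMatrix J)
      (j : (J → ℝ) →ₗ[ℝ] (B → ℝ)) (φ : N.Group →* M.Group) (p : M.Group → N.Group),
      IsPrism M θ w₀ N j φ p := by
  classical
  let _ : Fintype (De M θ w₀) := (de_finite h).fintype
  set j : (De M θ w₀ → ℝ) →ₗ[ℝ] (B → ℝ) := Fintype.linearCombination ℝ Subtype.val with hj
  have ja : ∀ b, j (al b) = b.1 := fun b => by simp [hj, al]
  obtain ⟨φ, p, H⟩ := build (N := mat h θ w₀) (θ := θ) (w₀ := w₀) j (fun x y => by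
    rw [hj, Fintype.linearCombination_apply, Fintype.linearCombination_apply, bl_apply]
    simp only [map_sum, map_smul, LinearMap.sum_apply, LinearMap.smul_apply, smul_eq_mul,
      ← bl_apply, ← cc_mat h]
    simp only [bf, ip_apply, Finset.mul_sum]
    rw [Finset.sum_comm]
    exact Finset.sum_congr rfl fun a _ => Finset.sum_congr rfl fun b _ => by ring)
    (fun b => ja b ▸ b.2) (fun v hv => ⟨⟨v, hv⟩, ja _⟩)
    (fun b b' e => Subtype.ext (by rwa [ja, ja] at e))
  exact ⟨_, _, _, _, j, φ, p, H⟩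

namespace IsPrism

variable {J : Type} [Fintype J] [DecidableEq J] {N : CoxeterMatrix J}
  {j : (J → ℝ) →ₗ[ℝ] (B → ℝ)} {φ : N.Group →* M.Group} {p : M.Group → N.Group}

theorem conn (H : IsPrism M θ w₀ N j φ p) (w w' : M.Group) :
    p w = p w' ↔ Relation.ReflTransGen (Mv M θ) w w' :=
  (H.sign w w').trans ⟨Sm.conn, sm_of_conn⟩

theorem psd (H : IsPrism M θ w₀ N j φ p) (h : ∀ x, bf M x x ≤ 0) (x : J → ℝ) : bf N x x ≤ 0 :=
  H.form x x ▸ h _

theorem root (H : IsPrism M θ w₀ N j φ p) {γ : J → ℝ} (hγ : Rt N γ) : Rt M (j γ) := by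
  obtain ⟨u, b, rfl⟩ := hγ
  obtain ⟨w, s, -, e⟩ := H.wall u b
  exact ⟨w, s, e.symm⟩

theorem root_ker (H : IsPrism M θ w₀ N j φ p) {β : B → ℝ} (hβ : Rt M β) (h0 : θ β = 0) :
    ∃ γ, Rt N γ ∧ β = j γ := by
  obtain ⟨w, s, rfl⟩ := hβ
  obtain ⟨b, e, -⟩ := H.on w s h0
  exact ⟨_, ⟨_, b, rfl⟩, e⟩

/-- Positive roots of the prism are positive roots of each of its alcoves. -/
theorem root_pos (H : IsPrism M θ w₀ N j φ p) (w : M.Group) {γ : J → ℝ} (hγ : Rt N γ)
    (hp : Pos γ) : ∃ β, Rt M β ∧ Pos β ∧ j (rho N (p w) γ) = rho M w β :=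
  ⟨_, (H.root (hγ.rho _)).rho _, H.pos w γ hp, (rho_inv' _ _).symm⟩

theorem inj (H : IsPrism M θ w₀ N j φ p) (h : ∀ x, bf M x x ≤ 0) (L : Set J)
    (hL : ∀ A ⊆ L, A.Nonempty → A ≠ L → ∃ a ∈ A, ∃ b ∈ L, b ∉ A ∧ N a b ≠ 2) (u : N.Group)
    (x : J → ℝ) (hx : ∀ b, b ∉ L → x b = 0) (e : j (rho N u x) = 0) : x = 0 := by
  refine inj_conn (H.psd h) j (fun x e y => ?_) H.nz L hL x hx ?_
  · rw [← H.form, e, bf_zero]
  · rw [← rho_inv M (φ u) (j x), H.eqv, e, map_zero]

theorem rank (H : IsPrism M θ w₀ N j φ p) (h0 : θ ≠ 0)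
    (hr : ∀ x, (∀ s, ip M s x = 0) → θ x = 0) :
    (Matrix.of (cc N)).rank < (Matrix.of (cc M)).rank := rank_lt j H.form θ h0 H.ker hr

end IsPrism

end Pool.Agent.HT.Prism
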