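import Pool.Agent.Lib.MP_6d85b4_al.Roots

set_option autoImplicit false
set_option linter.unusedSectionVars false

/-! Prisms, part 0: roots, faithfulness and the labels of two walls. -/

namespace Pool.Agent.HT.Prism

open Real CoxeterSystem Pool.Agent.Lib.MP_6d85b4_al

variable {B : Type} [Fintype B] [DecidableEq B] {M : CoxeterMatrix B}

/-- roots -/
def Rt (M : CoxeterMatrix B) (β : B → ℝ) : Prop := ∃ w s, β = rho M w (al s)

theorem rt_al (s : B) : Rt M (al s) := ⟨1, s, by simp⟩

theorem Rt.rho {β : B → ℝ} (h : Rt M β) (w : M.Group) : Rt M (rho M w β) :=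
  let ⟨v, s, e⟩ := h
  ⟨w * v, s, by rw [rho_mul, e]⟩

theorem Rt.neg {β : B → ℝ} (h : Rt M β) : Rt M (-β) :=
  let ⟨v, s, e⟩ := h
  ⟨v * M.toCoxeterSystem.simple s, s, by rw [rho_mul, rho_simple, rf_self, map_neg, e]⟩

theorem Rt.norm {β : B → ℝ} (h : Rt M β) : bf M β β = -2 := by
  obtain ⟨v, s, rfl⟩ := h
  exact root_norm M v s

theorem Rt.or {β : B → ℝ} (h : Rt M β) : Pos β ∨ Pos (-β) := by
  obtain ⟨v, s, rfl⟩ := h
  exact dichotomy M v s

theorem bf_zero (y : B → ℝ) : bf M 0 y = 0 := by simp [bf]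

theorem Rt.ne {β : B → ℝ} (h : Rt M β) : β ≠ 0 := fun e => by
  have := h.norm
  rw [e, bf_zero] at this
  norm_num at this

theorem pos_neg {x : B → ℝ} (h : Pos x) (h' : Pos (-x)) : x = 0 :=
  funext fun i => le_antisymm (by simpa using h' i) (h i)

theorem Rt.not_both {β : B → ℝ} (h : Rt M β) (h1 : Pos β) (h2 : Pos (-β)) : False :=
  h.ne (pos_neg h1 h2)

theorem rho_inv' (w : M.Group) (x : B → ℝ) : rho M w (rho M w⁻¹ x) = x := by
  have := rho_inv M w⁻¹ x
  rwa [inv_inv] at this

theorem neg_of_descent {w : M.Group} {i : B} (h : M.toCoxeterSystem.IsRightDescent w i) :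
    Pos (-rho M w (al i)) := by
  have := pos_of_not_descent M _ i
    ((M.toCoxeterSystem.isRightDescent_iff_not_isRightDescent_mul).1 h)
  rwa [rho_mul, rho_simple, rf_self, map_neg] at this

/-- An element that keeps all simple roots positive is trivial. -/
theorem eq_one_of_pos {w : M.Group} (h : ∀ s, Pos (rho M w (al s))) : w = 1 := by
  by_contra hw
  obtain ⟨j, hj⟩ := M.toCoxeterSystem.exists_rightDescent_of_ne_one hw
  exact ((rt_al j).rho w).not_both (h j) (neg_of_descent hj)

theorem rho_inj {w w' : M.Group} (h : ∀ x, rho M w x = rho M w' x) : w = w' := by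
  have : w'⁻¹ * w = 1 := eq_one_of_pos fun s => by
    rw [rho_mul, h, rho_inv]; exact pos_al s
  rw [inv_mul_eq_one] at this
  exact this.symm

theorem Rt.pos_rf {β : B → ℝ} (h : Rt M β) {u : B} (hp : Pos β) (hne : β ≠ al u) :
    Pos (rf M u β) := by
  obtain ⟨v, s, rfl⟩ := h
  exact Pool.Agent.Lib.MP_6d85b4_al.pos_rf M hp hne

/-- The reflection in the wall `s` of the chamber `w`. -/
def rr (w : M.Group) (s : B) : M.Group := w * M.toCoxeterSystem.simple s * w⁻¹

theorem rho_rr (w : M.Group) (s : B) (x : B → ℝ) :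
    rho M (rr w s) x = x + bf M (rho M w (al s)) x • rho M w (al s) := by
  rw [rr, rho_mul, rho_mul, rho_simple, rf_apply, map_add, map_smul, rho_inv', ← bf_al,
    ← bf_rho M w, rho_inv']

theorem rr_congr {w w' : M.Group} {s s' : B} (h : rho M w (al s) = rho M w' (al s')) :
    rr w s = rr w' s' := rho_inj fun x => by rw [rho_rr, rho_rr, h]

theorem rr_mul (w : M.Group) (s : B) : rr w s * w = w * M.toCoxeterSystem.simple s := by
  rw [rr, inv_mul_cancel_right]

theorem rr_sq (w : M.Group) (s : B) : rr w s * rr w s = 1 := by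
  rw [rr, mul_assoc, mul_assoc, mul_assoc, inv_mul_cancel_left,
    M.toCoxeterSystem.simple_mul_simple_cancel_left, mul_inv_cancel]

/-- The height. -/
def ht (x : B → ℝ) : ℝ := ∑ i, x i

theorem ht_nonneg {x : B → ℝ} (h : Pos x) : 0 ≤ ht x := Finset.sum_nonneg fun i _ => h i

theorem ht_pos {x : B → ℝ} (h : Pos x) (h0 : x ≠ 0) : 0 < ht x := by
  obtain ⟨i, hi⟩ := Function.ne_iff.1 h0
  exact Finset.sum_pos' (fun i _ => h i) ⟨i, Finset.mem_univ _, lt_of_le_of_ne (h i) (Ne.symm hi)⟩

theorem ht_comb (p q : ℝ) (x y : B → ℝ) : ht (p • x + q • y) = p * ht x + q * ht y := by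
  simp [ht, Finset.sum_add_distrib, Finset.mul_sum]

/-- The label of two walls: `S` is a set of vectors of positive height that contains `a` and `b`,
and the two reflections map `S` to itself, except at `a` and at `b`. -/
theorem label {V : Type} [AddCommGroup V] [Module ℝ V] (S : V → Prop) (h : V →ₗ[ℝ] ℝ)
    (hS : ∀ x, S x → 0 < h x) {a b : V} {c : ℝ} (ha : S a) (hb : S b) (hab : a ≠ b) (hc : c ≤ 2)
    (hi : c ≠ 2 → 0 ≤ c → ∀ p q : ℝ, p • a + q • b = 0 → p = 0 ∧ q = 0)
    (ra : ∀ p q : ℝ, S (p • a + q • b) → p • a + q • b ≠ a → S ((c * q - p) • a + q • b))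
    (rb : ∀ p q : ℝ, S (p • a + q • b) → p • a + q • b ≠ b → S (p • a + (c * p - q) • b)) :
    ∃ m : ℕ, m ≠ 1 ∧ c = 2 * cos (π / m) := by
  have pa := hS a ha
  have pb := hS b hb
  have c0 : 0 ≤ c := by
    by_contra hn
    push Not at hn
    have h1 := ra 0 1 (by simpa using hb) (by simpa using hab.symm)
    have h2 := rb 1 0 (by simpa using ha) (by simpa using hab)
    have h3 := rb _ _ h1 (fun e => by
      have := congrArg h e
      simp only [map_add, map_smul, smul_eq_mul] at this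
      nlinarith)
    have e1 := hS _ h1
    have e2 := hS _ h2
    have e3 := hS _ h3
    simp only [map_add, map_smul, smul_eq_mul] at e1 e2 e3
    have c1 : -1 < c := by
      by_contra hh
      push Not at hh
      nlinarith
    have : c * c - 1 < 0 := by nlinarith
    nlinarith [mul_pos (neg_pos.2 this) pb, mul_pos (neg_pos.2 hn) pa]
  rcases eq_or_ne c 2 with rfl | c2
  · exact ⟨0, by norm_num, by simp⟩
  have hi := hi c2 c0
  have c2' : c < 2 := lt_of_le_of_ne hc c2
  set t := arccos (c / 2) with ht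
  have hct : c = 2 * cos t := by rw [ht, cos_arccos (by linarith) (by linarith)]; ring
  have t0 : 0 < t := arccos_pos.2 (by linarith)
  have t1 : t ≤ π / 2 := arccos_le_pi_div_two.2 (by linarith)
  have st : 0 < sin t := sin_pos_of_pos_of_lt_pi t0 (by linarith [pi_pos])
  have ex : ∃ k : ℕ, π ≤ k * t := by
    obtain ⟨k, hk⟩ := exists_nat_ge (π / t)
    exact ⟨k, by rwa [div_le_iff₀ t0] at hk⟩
  classical
  set m := Nat.find ex with hm
  have m1 : π ≤ m * t := Nat.find_spec ex
  have m2 : ∀ k : ℕ, k < m → k * t < π := fun k hk => not_le.1 (Nat.find_min ex hk)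
  have m3 : 2 ≤ m := by
    by_contra hh
    have : (m : ℝ) ≤ 1 := by exact_mod_cast (by omega : m ≤ 1)
    nlinarith [pi_pos]
  rcases m1.eq_or_lt with e | m1
  · refine ⟨m, by omega, ?_⟩
    have : (m : ℝ) ≠ 0 := by exact_mod_cast (by omega : m ≠ 0)
    rw [hct, e, mul_div_cancel_left₀ _ this]
  exfalso
  have m4 : ((m - 1 : ℕ) : ℝ) * t < π := m2 _ (by omega)
  rw [Nat.cast_sub (by omega)] at m4
  push_cast at m4
  have sg : ∀ k : ℕ, sq c 0 1 k * sin t = sin (k * t) := fun k => by rw [hct]; exact sq_sin t k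
  have ng : ∀ k : ℕ, m ≤ k → k ≤ m + 1 → sq c 0 1 k < 0 := fun k h1 h2 => by
    have h1' : (m : ℝ) ≤ k := by exact_mod_cast h1
    have h2' : (k : ℝ) ≤ m + 1 := by exact_mod_cast h2
    have : sin (k * t) < 0 := by
      have := sin_pos_of_pos_of_lt_pi (x := k * t - π) (by nlinarith) (by nlinarith)
      rw [sin_sub_pi] at this
      linarith
    rw [← sg] at this
    by_contra hh
    push Not at hh
    nlinarith
  have nz : ∀ k : ℕ, 1 ≤ k → k ≤ m → sq c 0 1 k ≠ 0 := fun k h1 h2 => by
    rcases h2.eq_or_lt with e | h2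
    · exact (ng k e.ge (by omega)).ne
    · have h1' : (1 : ℝ) ≤ k := by exact_mod_cast h1
      have := sin_pos_of_pos_of_lt_pi (x := k * t) (by nlinarith) (m2 k h2)
      rw [← sg] at this
      intro e
      rw [e, zero_mul] at this
      exact lt_irrefl _ this
  have key : ∀ k : ℕ, k ≤ m → S (sq c 0 1 k • a + sq c 0 1 (k + 1) • b) ∧
      S (sq c 0 1 (k + 1) • a + sq c 0 1 k • b) := by
    intro k
    induction k with
    | zero =>
      intro _
      show S ((0 : ℝ) • a + (1 : ℝ) • b) ∧ S ((1 : ℝ) • a + (0 : ℝ) • b)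
      simpa using ⟨hb, ha⟩
    | succ k ih =>
      intro hk
      obtain ⟨i1, i2⟩ := ih (by omega)
      have z := nz (k + 1) (by omega) hk
      have e : sq c 0 1 (k + 1 + 1) = c * sq c 0 1 (k + 1) - sq c 0 1 k := rfl
      rw [e]
      refine ⟨rb _ _ i2 fun e => z (hi _ (sq c 0 1 k - 1) ?_).1,
        ra _ _ i1 fun e => z (hi (sq c 0 1 k - 1) _ ?_).2⟩
      · rw [sub_smul, one_smul, ← add_sub_assoc, e, sub_self]
      · rw [sub_smul, one_smul, sub_add_eq_add_sub, e, sub_self]
  have := hS _ (key m le_rfl).1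
  simp only [map_add, map_smul, smul_eq_mul] at this
  nlinarith [mul_pos (neg_pos.2 (ng m le_rfl (by omega))) pa,
    mul_pos (neg_pos.2 (ng (m + 1) (by omega) le_rfl)) pb]

end Pool.Agent.HT.Prism
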