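import Pool.Agent.Lib.HT.Prism0

set_option autoImplicit false
set_option linter.unusedSectionVars false

/-! Prisms, part 1: obtuse families of vectors for a semidefinite form. -/

namespace Pool.Agent.HT.Prism

open Pool.Agent.Lib.MP_6d85b4_al Matrix
open scoped MatrixOrder

variable {B : Type} [Fintype B] [DecidableEq B] {M : CoxeterMatrix B}

/-- The invariant form as a bilinear map. -/
noncomputable def bl (M : CoxeterMatrix B) : (B → ℝ) →ₗ[ℝ] (B → ℝ) →ₗ[ℝ] ℝ :=
  LinearMap.mk₂ ℝ (bf M) (fun x z y => by simpa using bf_add_smul M x z y 1)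
    (fun a z y => bf_smul M z y a)
    (fun y x z => by
      rw [bf_symm, bf_symm M y x, bf_symm M y z]; simpa using bf_add_smul M x z y 1)
    (fun a y z => by rw [bf_symm, bf_symm M y z]; exact bf_smul M z y a)

theorem bl_apply (x y : B → ℝ) : bf M x y = bl M x y := rfl

theorem bl_symm (x y : B → ℝ) : bl M x y = bl M y x := bf_symm M x y

theorem bf_mat (x y : B → ℝ) : bf M x y = x ⬝ᵥ (Matrix.of (cc M) *ᵥ y) := by
  simp [bf, ip_apply, dotProduct, mulVec]

theorem rad (h : ∀ x, bf M x x ≤ 0) {x : B → ℝ} (hx : bf M x x = 0) (y : B → ℝ) :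
    bf M x y = 0 := by
  have key : ∀ t : ℝ, 0 ≤ (-bf M y y) * (t * t) + (-2 * bf M x y) * t + 0 := fun t => by
    have := h (x + t • y)
    rw [bl_apply] at this hx
    simp only [map_add, map_smul, LinearMap.add_apply, LinearMap.smul_apply, smul_eq_mul,
      bl_symm y x, hx] at this
    rw [bl_apply, bl_apply]
    linarith
  have := discrim_le_zero key
  rw [discrim] at this
  nlinarith

/-- An obtuse family of roots is finite. -/
theorem finite_obtuse (h : ∀ x, bf M x x ≤ 0) {S : Set (B → ℝ)} (h1 : ∀ b ∈ S, bf M b b = -2)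
    (h2 : ∀ a ∈ S, ∀ b ∈ S, a ≠ b → 0 ≤ bf M a b) : S.Finite := by
  have hp : (-Matrix.of (cc M)).PosSemidef := by
    refine Matrix.PosSemidef.of_dotProduct_mulVec_nonneg ?_ fun x => ?_
    · ext i j
      simp [cc_symm M j i]
    · have := h x
      rw [bf_mat] at this
      rw [neg_mulVec, dotProduct_neg, star_trivial]
      linarith
  obtain ⟨C, hC⟩ := CStarAlgebra.nonneg_iff_eq_star_mul_self.1 hp.nonneg
  have hq : ∀ x : B → ℝ, -bf M x x = ‖(WithLp.toLp 2 (C *ᵥ x) : EuclideanSpace ℝ B)‖ ^ 2 := by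
    intro x
    rw [bf_mat, ← dotProduct_neg, ← neg_mulVec, hC, ← mulVec_mulVec, dotProduct_mulVec,
      EuclideanSpace.real_norm_sq_eq]
    simp [star_eq_conjTranspose, vecMul_transpose, dotProduct, pow_two]
  by_contra hn
  have hi : S.Infinite := hn
  set f := hi.natEmbedding S
  set g : ℕ → EuclideanSpace ℝ B := fun n => WithLp.toLp 2 (C *ᵥ (f n).1) with hg
  have hb : ∀ n, g n ∈ Metric.closedBall (0 : EuclideanSpace ℝ B) 2 := fun n => by
    have := hq (f n).1
    rw [h1 _ (f n).2] at this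
    rw [mem_closedBall_zero_iff]
    exact abs_le_of_sq_le_sq' (by rw [← this]; norm_num) (by norm_num) |>.2
  obtain ⟨a, -, k, hk, ha⟩ := (isCompact_closedBall _ _).tendsto_subseq hb
  obtain ⟨N, hN⟩ := Metric.cauchySeq_iff.1 ha.cauchySeq 1 one_pos
  have e := hN N le_rfl (N + 1) (by omega)
  have ne : (f (k N)).1 ≠ (f (k (N + 1))).1 := fun e =>
    absurd (hk.injective (f.injective (Subtype.ext e))) (by omega)
  have e1 := hq ((f (k N)).1 - (f (k (N + 1))).1)
  have a1 := h1 _ (f (k N)).2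
  have a2 := h1 _ (f (k (N + 1))).2
  have a3 := h2 _ (f (k N)).2 _ (f (k (N + 1))).2 ne
  rw [bl_apply] at e1 a1 a2 a3
  simp only [map_sub, LinearMap.sub_apply, bl_symm (f (k (N + 1))).1 (f (k N)).1, a1, a2,
    mulVec_sub, WithLp.toLp_sub] at e1
  rw [dist_eq_norm] at e
  have e' : ‖(WithLp.toLp 2 (C *ᵥ (f (k N)).1) : EuclideanSpace ℝ B) -
    WithLp.toLp 2 (C *ᵥ (f (k (N + 1))).1)‖ < 1 := e
  nlinarith [norm_nonneg ((WithLp.toLp 2 (C *ᵥ (f (k N)).1) : EuclideanSpace ℝ B) -
    WithLp.toLp 2 (C *ᵥ (f (k (N + 1))).1))]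

variable {J : Type} [Fintype J] [DecidableEq J] {N : CoxeterMatrix J}

theorem cc_nonneg {a b : J} (h : a ≠ b) : 0 ≤ cc N a b := by
  have h1 := N.off_diagonal a b h
  rcases Nat.eq_zero_or_pos (N a b) with h0 | h0
  · simp [cc, h0]
  · have : (2 : ℝ) ≤ N a b := by exact_mod_cast (by omega : 2 ≤ N a b)
    refine mul_nonneg (by norm_num) (Real.cos_nonneg_of_mem_Icc ⟨?_, ?_⟩)
    · have : 0 ≤ Real.pi / N a b := by positivity
      linarith [Real.pi_pos]
    · exact div_le_div_of_nonneg_left Real.pi_pos.le (by norm_num) this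

/-- A nonnegative isotropic vector has no edge from its support to the outside. -/
theorem no_edge (h : ∀ x, bf N x x ≤ 0) {y : J → ℝ} (hy : Pos y) (h0 : bf N y y = 0) {a b : J}
    (ha : y a ≠ 0) (hb : y b = 0) : N a b = 2 := by
  have e := rad h h0 (al b)
  rw [bf_symm, bf_al, ip_apply] at e
  have nn : ∀ i ∈ Finset.univ, 0 ≤ cc N b i * y i := fun i _ => by
    by_cases hi : b = i
    · rw [← hi, hb, mul_zero]
    · exact mul_nonneg (cc_nonneg hi) (hy i)
  have := (Finset.sum_eq_zero_iff_of_nonneg nn).1 e a (Finset.mem_univ _)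
  rw [N.symmetric]
  exact eq_two_of_cc N ((mul_eq_zero.1 this).resolve_right ha)

/-- Injectivity on connected subsets. -/
theorem inj_conn (h : ∀ x, bf N x x ≤ 0) {V : Type} [AddCommGroup V] [Module ℝ V]
    (j : (J → ℝ) →ₗ[ℝ] V) (hr : ∀ x, j x = 0 → ∀ y, bf N x y = 0)
    (hp : ∀ x, Pos x → j x = 0 → x = 0) (L : Set J)
    (hL : ∀ A ⊆ L, A.Nonempty → A ≠ L → ∃ a ∈ A, ∃ b ∈ L, b ∉ A ∧ N a b ≠ 2) :
    ∀ x, (∀ b, b ∉ L → x b = 0) → j x = 0 → x = 0 := by
  have key : ∀ x, (∀ b, b ∉ L → x b = 0) → j x = 0 → (∃ a, 0 < x a) → Pos x := by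
    rintro x hx h0 ⟨a0, ha0⟩
    set y : J → ℝ := fun i => max (x i) 0 with hy
    have py : Pos y := fun i => le_max_right _ _
    have e : bf N y y = bf N y (y - x) := by
      have := hr x h0 y
      rw [bf_symm] at this
      rw [bl_apply, bl_apply, map_sub, ← bl_apply y x, this, sub_zero]
    have nn : 0 ≤ bf N y (y - x) := by
      simp only [bf, ip_apply, Finset.mul_sum]
      refine Finset.sum_nonneg fun i _ => Finset.sum_nonneg fun k _ => ?_
      by_cases hik : i = k
      · subst hik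
        rcases le_total (x i) 0 with c | c
        · simp [hy, max_eq_right c]
        · simp [hy, max_eq_left c]
      · exact mul_nonneg (py i) (mul_nonneg (cc_nonneg hik) (sub_nonneg.2 (le_max_left _ _)))
    have z : bf N y y = 0 := le_antisymm (h y) (e ▸ nn)
    have hA : {i | 0 < x i} = L := by
      by_contra hne
      obtain ⟨a, ha, b, -, hb, hab⟩ := hL {i | 0 < x i}
        (fun i hi => by by_contra c; exact (hx i c).not_gt hi) ⟨a0, ha0⟩ hne
      exact hab (no_edge h py z (lt_max_of_lt_left ha).ne' (max_eq_right (not_lt.1 hb)))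
    intro i
    by_cases c : i ∈ L
    · rw [← hA] at c
      exact le_of_lt c
    · exact (hx i c).ge
  intro x hx h0
  by_cases c : ∃ a, 0 < x a
  · exact hp x (key x hx h0 c) h0
  · push Not at c
    exact neg_eq_zero.1 (hp (-x) (fun i => by simpa using c i) (by rw [map_neg, h0, neg_zero]))

/-- The rank drops. -/
theorem rank_lt (j : (J → ℝ) →ₗ[ℝ] (B → ℝ)) (hj : ∀ x y, bf M (j x) (j y) = bf N x y)
    (θ : (B → ℝ) →ₗ[ℝ] ℝ) (h0 : θ ≠ 0) (hk : ∀ x, θ (j x) = 0)
    (hr : ∀ x, (∀ s, ip M s x = 0) → θ x = 0) :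
    (Matrix.of (cc N)).rank < (Matrix.of (cc M)).rank := by
  set A := (Matrix.of (cc M)).mulVecLin with hA
  have hA' : ∀ x s, A x s = ip M s x := fun x s => by
    simp [hA, ip_apply, mulVec, dotProduct]
  let T : (B → ℝ) →ₗ[ℝ] (J → ℝ) := LinearMap.pi fun b =>
    { toFun := fun z => j (al b) ⬝ᵥ z
      map_add' := fun z z' => dotProduct_add _ _ _
      map_smul' := fun c z => dotProduct_smul _ _ _ }
  have h1 : LinearMap.range (Matrix.of (cc N)).mulVecLin ≤
      ((LinearMap.ker θ).map A).map T := by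
    rintro _ ⟨x, rfl⟩
    refine ⟨A (j x), ⟨j x, hk x, rfl⟩, funext fun b => ?_⟩
    have := hj (al b) x
    rw [bf_mat, bf_al, ip_apply] at this
    exact this
  have h2 : (LinearMap.ker θ).map A < LinearMap.range A := by
    refine lt_of_le_of_ne (LinearMap.map_le_range) fun e => h0 (LinearMap.ext fun x => ?_)
    have : A x ∈ (LinearMap.ker θ).map A := e ▸ LinearMap.mem_range_self A x
    obtain ⟨y, hy, hxy⟩ := this
    have := hr (x - y) fun s => by rw [← hA', map_sub, hxy, sub_self, Pi.zero_apply]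
    rw [map_sub, show θ y = 0 from hy, sub_zero] at this
    exact this
  exact ((Submodule.finrank_mono h1).trans (Submodule.finrank_map_le _ _)).trans_lt
    (Submodule.finrank_lt_finrank_of_lt h2)

end Pool.Agent.HT.Prism
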