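import Pool.Agent.Lib.HT.TS

set_option autoImplicit false

/-! Classes generated by simple objects of a heart: Serre property, truncations, torsion pairs. -/

namespace Pool.Agent.HT

universe u

variable {K : Type} [AddCommGroup K] {D : TD.{u} K}

namespace TD

/-- Objects filtered by shifts `S[n]` with `S ∈ X` and `P n`. -/
def Lx (D : TD.{u} K) (X : Set D.Obj) (P : ℤ → Prop) (Y : D.Obj) : Prop :=
  D.Cl {A | ∃ S ∈ X, ∃ n, P n ∧ A = D.sh n S} Y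

/-- The triangulated subcategory generated by `X`. -/
def Dk (D : TD.{u} K) (X : Set D.Obj) (Y : D.Obj) : Prop := D.Lx X (fun _ => True) Y

/-- Filtrations with `n` steps in `X`. -/
inductive Ln (D : TD.{u} K) (X : Set D.Obj) : ℕ → D.Obj → Prop
  | zero : Ln D X 0 D.zero
  | cons {A Y B : D.Obj} {n : ℕ} : A ∈ X → D.Ext A Y B → Ln D X n B → Ln D X (n + 1) Y

variable {X X' : Set D.Obj} {P Q : ℤ → Prop}

lemma Lx.zero : D.Lx X P D.zero := Cl.zero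

lemma Lx.simple {S : D.Obj} (hS : S ∈ X) {n : ℤ} (h : P n) : D.Lx X P (D.sh n S) :=
  Cl.of_mem ⟨S, hS, n, h, rfl⟩

lemma Lx.ext {A Y B : D.Obj} (hA : D.Lx X P A) (hB : D.Lx X P B) (h : D.Ext A Y B) :
    D.Lx X P Y := Cl.ext hA hB h

lemma Lx.ind {R : D.Obj → Prop} (h0 : R D.zero) (hS : ∀ S ∈ X, ∀ n, P n → R (D.sh n S))
    (hE : ∀ A Y B, D.Ext A Y B → R A → R B → R Y) {Y : D.Obj} (h : D.Lx X P Y) : R Y :=
  Cl.le h0 (by rintro _ ⟨S, h1, n, h2, rfl⟩; exact hS S h1 n h2) hE h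

lemma Lx.mono (hX : X ⊆ X') (hPQ : ∀ n, P n → Q n) {Y : D.Obj} (h : D.Lx X P Y) :
    D.Lx X' Q Y :=
  Lx.ind Lx.zero (fun _ h1 n h2 => Lx.simple (hX h1) (hPQ n h2))
    (fun _ _ _ hE hA hB => hA.ext hB hE) h

lemma Lx.sh (m : ℤ) (hPQ : ∀ n, P n → Q (m + n)) {Y : D.Obj} (h : D.Lx X P Y) :
    D.Lx X Q (D.sh m Y) := by
  refine Lx.ind (R := fun Y => D.Lx X Q (D.sh m Y)) ?_ ?_ ?_ h
  · simpa using Lx.zero
  · intro S hS n hP
    simpa using Lx.simple hS (hPQ n hP)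
  · intro A Y B hE hA hB
    exact hA.ext hB ((D.ext_sh m).2 hE)

lemma Lx.of_cl {Y : D.Obj} (h : D.Cl X Y) {n : ℤ} (hn : P n) : D.Lx X P (D.sh n Y) :=
  Cl.mono (by rintro _ ⟨S, hS, rfl⟩; exact Lx.simple hS hn) (h.sh n)

lemma Lx.cl {Y : D.Obj} (h : D.Lx X P Y) (hP : ∀ n, P n → n = 0) : D.Cl X Y :=
  Lx.ind Cl.zero (fun S hS n hn => by rw [hP n hn, D.sh_zero]; exact Cl.of_mem hS)
    (fun _ _ _ hE hA hB => hA.ext hB hE) h

lemma Lx.dk {Y : D.Obj} (h : D.Lx X P Y) : D.Dk X Y := h.mono subset_rfl fun _ _ => trivial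

lemma Dk.zero : D.Dk X D.zero := Lx.zero

lemma Dk.ext {A Y B : D.Obj} (hA : D.Dk X A) (hB : D.Dk X B) (h : D.Ext A Y B) : D.Dk X Y :=
  Lx.ext hA hB h

lemma Dk.sh (m : ℤ) {Y : D.Obj} (h : D.Dk X Y) : D.Dk X (D.sh m Y) :=
  Lx.sh m (fun _ _ => trivial) h

lemma Dk.of_sh (m : ℤ) {Y : D.Obj} (h : D.Dk X (D.sh m Y)) : D.Dk X Y := by
  simpa using h.sh (-m)

lemma Dk.s {Y : D.Obj} (h : D.Dk X Y) : D.Dk X (D.s Y) := D.sh_one Y ▸ h.sh 1

lemma Dk.quot {A Y B : D.Obj} (hA : D.Dk X A) (hY : D.Dk X Y) (h : D.Ext A Y B) : D.Dk X B :=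
  hY.ext (hA.sh 1) (D.rot1 h)

lemma Dk.sub {A Y B : D.Obj} (hB : D.Dk X B) (hY : D.Dk X Y) (h : D.Ext A Y B) : D.Dk X A :=
  (hB.sh (-1)).ext hY (D.rot' h)

lemma Dk.of_cl {Y : D.Obj} (h : D.Cl X Y) : D.Dk X Y := by
  have := Lx.of_cl (P := fun _ => True) (n := 0) h trivial
  rwa [D.sh_zero] at this

lemma Dk.of_mem {S : D.Obj} (h : S ∈ X) : D.Dk X S := Dk.of_cl (Cl.of_mem h)

lemma Dk.ind {R : D.Obj → Prop} (h0 : R D.zero) (hS : ∀ S ∈ X, ∀ n, R (D.sh n S))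
    (hE : ∀ A Y B, D.Ext A Y B → R A → R B → R Y) {Y : D.Obj} (h : D.Dk X Y) : R Y :=
  Lx.ind h0 (fun S h1 n _ => hS S h1 n) hE h

lemma Dk.le (hX : ∀ S ∈ X, D.Dk X' S) {Y : D.Obj} (h : D.Dk X Y) : D.Dk X' Y :=
  Dk.ind Dk.zero (fun S h1 n => (hX S h1).sh n) (fun _ _ _ hE hA hB => hA.ext hB hE) h

lemma Dk.mono (hX : X ⊆ X') {Y : D.Obj} (h : D.Dk X Y) : D.Dk X' Y :=
  h.le fun _ h1 => Dk.of_mem (hX h1)

lemma Dk.hom_left {W Y : D.Obj} (hX : ∀ S ∈ X, ∀ n, D.hom (D.sh n S) W = 0) (h : D.Dk X Y) :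
    D.hom Y W = 0 :=
  Cl.hom_left (by rintro _ ⟨S, h1, n, -, rfl⟩; exact hX S h1 n) h

lemma Dk.hom_right {W Y : D.Obj} (hX : ∀ S ∈ X, ∀ n, D.hom W (D.sh n S) = 0) (h : D.Dk X Y) :
    D.hom W Y = 0 :=
  Cl.hom_right (by rintro _ ⟨S, h1, n, -, rfl⟩; exact hX S h1 n) h

lemma Dk.empty {Y : D.Obj} (hX : ∀ S, S ∉ X) (h : D.Dk X Y) : Y = D.zero :=
  D.eq_zero _ (h.hom_left fun S h1 _ => absurd h1 (hX S))

/-- Totally orthogonal generators give orthogonal subcategories. -/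
lemma Dk.orth (h : ∀ S ∈ X, ∀ S' ∈ X', ∀ n, D.hom S (D.sh n S') = 0) {A B : D.Obj}
    (hA : D.Dk X A) (hB : D.Dk X' B) : D.hom A B = 0 :=
  hA.hom_left fun S h1 _ => hB.hom_right fun S' h2 _ => by
    rw [D.hom_sh_sh]; exact h S h1 S' h2 _

/-- An object right orthogonal to `Dk X` is also left orthogonal to it. -/
lemma Dk.perp_symm {Z : D.Obj} (h : ∀ B, D.Dk X B → D.hom B Z = 0) {B : D.Obj}
    (hB : D.Dk X B) : D.hom Z B = 0 := by
  rw [D.cy', ← D.hom_sh (-2), D.sh_sh]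
  simpa using h _ (hB.sh (-2))

lemma Ln.cl {n : ℕ} {Y : D.Obj} (h : D.Ln X n Y) : D.Cl X Y := by
  induction h with
  | zero => exact Cl.zero
  | cons hA hE _ ih => exact Cl.cons hA hE ih

lemma Cl.ln {Y : D.Obj} (h : D.Cl X Y) : ∃ n, D.Ln X n Y := by
  induction h with
  | zero => exact ⟨0, Ln.zero⟩
  | cons hA hE _ ih => obtain ⟨n, h⟩ := ih; exact ⟨n + 1, Ln.cons hA hE h⟩

lemma Ln.eq_zero {Y : D.Obj} (h : D.Ln X 0 Y) : Y = D.zero := by cases h; rfl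

lemma Ln.ext {m n : ℕ} {A Y B : D.Obj} (hA : D.Ln X m A) (hB : D.Ln X n B) (h : D.Ext A Y B) :
    D.Ln X (n + m) Y := by
  induction hA generalizing Y with
  | zero => rw [D.eq_of_ext_zero _ _ h]; exact hB
  | cons hC hE _ ih =>
    obtain ⟨F, h1, h2⟩ := D.assoc _ _ _ _ _ h hE
    exact Ln.cons hC h1 (ih h2)

lemma Ln.mono (hX : X ⊆ X') {n : ℕ} {Y : D.Obj} (h : D.Ln X n Y) : D.Ln X' n Y := by
  induction h with
  | zero => exact Ln.zero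
  | cons hA hE _ ih => exact Ln.cons (hX hA) hE ih

/-- An additive function which is at least `e` on `X` bounds the number of steps. -/
lemma Ln.le_of_add {l : D.Obj → ℝ} {e : ℝ} (hl : ∀ A Y B, D.Ext A Y B → l Y = l A + l B)
    (hX : ∀ S ∈ X, e ≤ l S) {n : ℕ} {Y : D.Obj} (h : D.Ln X n Y) : n * e ≤ l Y := by
  induction h with
  | zero =>
    have := hl _ _ _ (D.ext_zero D.zero)
    simp; linarith
  | cons hA hE _ ih =>
    rw [hl _ _ _ hE]; push_cast; linarith [hX _ hA]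

/-- Filtrations by two classes without extensions in one direction. -/
lemma Dk.split {X₁ X₂ : Set D.Obj} (h : ∀ S ∈ X₁, ∀ S' ∈ X₂, ∀ n, D.hom S (D.sh n S') = 0)
    {Y : D.Obj} (hY : D.Dk (X₁ ∪ X₂) Y) :
    ∃ A B, D.Dk X₁ A ∧ D.Dk X₂ B ∧ D.Ext A Y B ∧ D.Ext B Y A := by
  obtain ⟨A, B, hA, hB, hE⟩ := Cl.sort (X₁ := {A | D.Dk X₁ A}) (X₂ := {A | D.Dk X₂ A})
    (fun A hA B hB => Dk.orth h hA (Dk.s hB)) (Y := Y) (Cl.mono (by
      rintro _ ⟨S, h1 | h1, n, -, rfl⟩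
      · exact Cl.of_mem (Or.inl ((Dk.of_mem h1).sh n))
      · exact Cl.of_mem (Or.inr ((Dk.of_mem h1).sh n))) hY)
  have h1 : D.Dk X₁ A := Cl.le Dk.zero (fun _ h => h) (fun _ _ _ hE hA hB => hA.ext hB hE) hA
  have h2 : D.Dk X₂ B := Cl.le Dk.zero (fun _ h => h) (fun _ _ _ hE hA hB => hA.ext hB hE) hB
  refine ⟨A, B, h1, h2, hE, D.split ?_ hE⟩
  rw [D.cy]
  rw [D.hom_s]
  exact Dk.orth h h1 h2.s

lemma Cl.split {X₁ X₂ : Set D.Obj} (h : ∀ S ∈ X₁, ∀ S' ∈ X₂, D.hom S (D.s S') = 0)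
    {Y : D.Obj} (hY : D.Cl (X₁ ∪ X₂) Y) :
    ∃ A B, D.Cl X₁ A ∧ D.Cl X₂ B ∧ D.Ext A Y B ∧ D.Ext B Y A := by
  obtain ⟨A, B, hA, hB, hE⟩ := Cl.sort h hY
  refine ⟨A, B, hA, hB, hE, D.split ?_ hE⟩
  rw [D.cy, D.hom_s]
  refine hA.hom_left fun S h1 => ?_
  have := (hB.sh 1).hom_right (W := S) (by rintro _ ⟨S', h2, rfl⟩; rw [D.sh_one]; exact h S h1 S' h2)
  rwa [D.sh_one] at this

end TD

namespace TS

variable {t : TS D} {X : Set D.Obj} {P : ℤ → Prop}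

lemma U.summand {a : ℤ} {A Y B : D.Obj} (hY : t.U a Y) (h : D.Ext A Y B)
    (h0 : D.hom B (D.s A) = 0) : t.U a A ∧ t.U a B :=
  ⟨fun W hW => by have := D.split_hom' h0 h W; rw [hY W hW] at this; omega,
    fun W hW => by have := D.split_hom' h0 h W; rw [hY W hW] at this; omega⟩

lemma V.summand {a : ℤ} {A Y B : D.Obj} (hY : t.V a Y) (h : D.Ext A Y B)
    (h0 : D.hom B (D.s A) = 0) : t.V a A ∧ t.V a B :=
  ⟨V_of_perp fun W hW => by have := D.split_hom h0 h W; rw [V_iff.1 hY W hW] at this; omega,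
    V_of_perp fun W hW => by have := D.split_hom h0 h W; rw [V_iff.1 hY W hW] at this; omega⟩

lemma M.summand {A Y B : D.Obj} (hY : t.M Y) (h : D.Ext A Y B)
    (h0 : D.hom B (D.s A) = 0) : t.M A ∧ t.M B :=
  ⟨⟨(hY.1.summand h h0).1, (hY.2.summand h h0).1⟩, (hY.1.summand h h0).2, (hY.2.summand h h0).2⟩

/-- A simple object is indecomposable. -/
lemma Simple.indec {S A B : D.Obj} (hS : t.Simple S) (h : D.Ext A S B)
    (h0 : D.hom B (D.s A) = 0) : S = A ∨ S = B := by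
  obtain ⟨hA, hB⟩ := hS.mem.summand h h0
  rcases hS.sub _ _ hA hB h with h1 | h1 <;> subst h1
  · exact Or.inr (D.eq_of_ext_zero _ _ h)
  · exact Or.inl (D.eq_of_ext_zero_right h).symm

lemma cl_M (hX : ∀ S ∈ X, t.M S) {Y : D.Obj} (h : D.Cl X Y) : t.M Y :=
  TD.Cl.le M.zero hX (fun _ _ _ hE hA hB => hA.ext hB hE) h

/-- The cone of a map from a simple object to an object of the heart. -/
lemma Simple.cone {S B F : D.Obj} (hS : t.Simple S) (hB : t.M B) (h : D.Ext S B F) :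
    t.M F ∨ D.Ext (D.s S) F B := by
  have hU : t.U 0 F := U.quot (hS.mem.1.mono (by omega)) hB.1 h
  have hV : t.V 1 F := V.quot (by simpa using hS.mem.2) (hB.2.mono (by omega)) h
  obtain ⟨N, T, hN, hT, hE⟩ := hV.bot
  have hTU : t.U 0 T := U.quot ((hN.1.sh 1 rfl).mono (by omega)) hU hE
  have hE' : D.Ext N (D.sh (-1) F) (D.sh (-1) T) := by simpa using (D.ext_sh (-1)).2 hE
  obtain ⟨I, h1, h2⟩ := D.assoc _ _ _ _ _ (D.rot' h) hE'
  have hI : t.M I := ⟨U.quot (hN.1.mono (by omega)) hS.mem.1 h1,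
    ((hT.sh (-1) rfl).mono (by omega)).ext hB.2 h2⟩
  rcases hS.sub _ _ hN hI h1 with h3 | h3 <;> subst h3
  · left
    rw [D.sh_zero_obj] at hE
    rw [D.eq_of_ext_zero _ _ hE]
    exact ⟨hTU, by simpa using hT⟩
  · right
    have e1 := D.eq_of_ext_zero_right h1
    have e2 := D.eq_of_ext_zero_mid h2
    rw [D.s_sh] at e2
    simp only [neg_add_cancel, D.sh_zero] at e2
    rw [e1, ← e2, D.sh_one] at hE
    exact hE

/-- The extension closure of simple objects is closed under subobjects and quotients. -/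
theorem serre (hX : ∀ S ∈ X, t.Simple S) {A Y B : D.Obj} (hY : D.Cl X Y) (hA : t.M A)
    (hB : t.M B) (h : D.Ext A Y B) : D.Cl X A ∧ D.Cl X B := by
  induction hY generalizing A B with
  | zero =>
    have e := D.eq_of_ext_zero_mid h
    have h1 : A = D.zero := M.sh_eq_zero (n := 1) (by omega) hA (by rw [D.sh_one, ← e]; exact hB)
    subst h1
    rw [e, D.s_zero]
    exact ⟨TD.Cl.zero, TD.Cl.zero⟩
  | @cons S Y Y' hS hE hY' ih =>
    have hM : t.M Y' := cl_M (fun S h => (hX S h).mem) hY'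
    obtain ⟨F, h1, h2⟩ := D.assoc _ _ _ _ _ ((D.rot _ _ _).1 h) hE
    have h3 : D.Ext A Y' F := (D.rot _ _ _).2 h2
    rcases (hX S hS).cone hB h1 with h4 | h4
    · obtain ⟨i1, i2⟩ := ih hA h4 h3
      exact ⟨i1, TD.Cl.cons hS h1 i2⟩
    · obtain ⟨G, h5, h6⟩ := D.assoc' h3 h4
      have hG : t.M G := ⟨hA.1.ext (by
        rw [← D.sh_one]; exact ((hX S hS).mem.1.sh 1 rfl).mono (by omega)) h5,
        V.sub (hB.2.mono (by omega)) hM.2 h6⟩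
      obtain ⟨i1, i2⟩ := ih hG hB h6
      exact ⟨TD.Cl.cons hS ((D.rot _ _ _).2 h5) i1, i2⟩

lemma lx_U (hX : ∀ S ∈ X, t.M S) {a : ℤ} (hP : ∀ n, P n → a ≤ n) {Y : D.Obj}
    (h : D.Lx X P Y) : t.U a Y :=
  TD.Lx.ind U.zero (fun S h1 n h2 => ((hX S h1).1.sh n (zero_add n).symm).mono (hP n h2))
    (fun _ _ _ hE hA hB => hA.ext hB hE) h

lemma lx_V (hX : ∀ S ∈ X, t.M S) {a : ℤ} (hP : ∀ n, P n → n ≤ a) {Y : D.Obj}
    (h : D.Lx X P Y) : t.V a Y :=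
  TD.Lx.ind V.zero (fun S h1 n h2 => ((hX S h1).2.sh n (zero_add n).symm).mono (hP n h2))
    (fun _ _ _ hE hA hB => hA.ext hB hE) h

lemma ext_simple {S S' : D.Obj} (hS : t.Simple S) (hS' : t.Simple S') {p q : ℤ} (h : q < p)
    {F : D.Obj} (hF : D.Ext (D.sh q S') F (D.sh p S)) :
    D.Ext (D.sh p S) F (D.sh q S') ∨ F = D.zero := by
  by_cases h1 : q + 1 = p
  · subst h1
    have h2 : D.Ext S S' (D.sh (-q) F) := by
      have := (D.ext_sh (-q)).2 (D.rot' hF)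
      simpa [show -q + (-1 + (q + 1)) = 0 by ring] using this
    rcases hS.cone hS'.mem h2 with h3 | h3
    · right
      rcases hS'.sub _ _ hS.mem h3 h2 with h4 | h4
      · exact absurd h4 hS.ne
      · exact D.sh_inj (-q) (by rw [h4, D.sh_zero_obj])
    · left
      have := (D.ext_sh q).2 h3
      rw [D.sh_s] at this
      simpa using this
  · left
    refine D.split ?_ hF
    rw [D.s_sh, D.hom_sh_sh]
    exact hS.mem.hom_neg hS'.mem (by omega)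

lemma lx_trunc (hX : ∀ S ∈ X, t.Simple S) (a : ℤ) {Y : D.Obj} (h : D.Lx X P Y) :
    ∃ A B, D.Lx X (fun n => P n ∧ a ≤ n) A ∧ D.Lx X (fun n => P n ∧ n < a) B ∧
      D.Ext A Y B := by
  refine TD.Cl.sort' ?_ (TD.Cl.mono ?_ h)
  · rintro _ ⟨S, hS, p, hp, rfl⟩ _ ⟨S', hS', q, hq, rfl⟩ F hF
    exact ext_simple (hX S hS) (hX S' hS') (by omega) hF
  · rintro _ ⟨S, hS, n, hn, rfl⟩
    apply TD.Cl.of_mem
    by_cases h1 : a ≤ n
    · exact Or.inl ⟨S, hS, n, ⟨hn, h1⟩, rfl⟩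
    · exact Or.inr ⟨S, hS, n, ⟨hn, by omega⟩, rfl⟩

lemma lx_of_trunc (hX : ∀ S ∈ X, t.Simple S) {a : ℤ} {A Y B : D.Obj} (h : D.Lx X P Y)
    (hA : t.U a A) (hB : t.V (a - 1) B) (hE : D.Ext A Y B) :
    D.Lx X (fun n => P n ∧ a ≤ n) A ∧ D.Lx X (fun n => P n ∧ n < a) B := by
  obtain ⟨A', B', h1, h2, h3⟩ := lx_trunc hX a h
  obtain ⟨rfl, rfl⟩ := trunc_unique hE h3 hA (lx_U (fun S h => (hX S h).mem) (fun _ h => h.2) h1)
    hB (lx_V (fun S h => (hX S h).mem) (fun _ h => by omega) h2)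
  exact ⟨h1, h2⟩

/-- Truncations of an object of `Dk X` stay in `Dk X`. -/
theorem dk_trunc (hX : ∀ S ∈ X, t.Simple S) {a : ℤ} {A Y B : D.Obj} (h : D.Dk X Y)
    (hA : t.U a A) (hB : t.V (a - 1) B) (hE : D.Ext A Y B) : D.Dk X A ∧ D.Dk X B :=
  ⟨(lx_of_trunc hX h hA hB hE).1.dk, (lx_of_trunc hX h hA hB hE).2.dk⟩

lemma lx_inter_U (hX : ∀ S ∈ X, t.Simple S) {a : ℤ} {Y : D.Obj} (h : D.Lx X P Y)
    (hU : t.U a Y) : D.Lx X (fun n => P n ∧ a ≤ n) Y :=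
  (lx_of_trunc hX h hU V.zero (D.ext_zero_right Y)).1

lemma lx_inter_V (hX : ∀ S ∈ X, t.Simple S) {a : ℤ} {Y : D.Obj} (h : D.Lx X P Y)
    (hV : t.V a Y) : D.Lx X (fun n => P n ∧ n < a + 1) Y :=
  (lx_of_trunc hX (a := a + 1) h U.zero (by simpa using hV) (D.ext_zero Y)).2

/-- The heart meets `Dk X` in the extension closure of `X`. -/
theorem cl_of_dk (hX : ∀ S ∈ X, t.Simple S) {Y : D.Obj} (h : D.Dk X Y) (hM : t.M Y) :
    D.Cl X Y :=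
  (lx_inter_V hX (lx_inter_U hX h hM.1) hM.2).cl fun n hn => by omega

/-- An object of `Dk X` lies in the co-aisle if the shifted simples do not map to it. -/
lemma V_of_dk (hX : ∀ S ∈ X, t.Simple S) {a : ℤ} {Y : D.Obj} (h : D.Dk X Y)
    (h0 : ∀ S ∈ X, ∀ n, a < n → D.hom (D.sh n S) Y = 0) : t.V a Y := by
  obtain ⟨A, B, hA, hB, hE⟩ := t.trunc (a + 1) Y
  have h1 : D.hom A Y = 0 := TD.Cl.hom_left
    (by rintro _ ⟨S, hS, n, hn, rfl⟩; exact h0 S hS n (by omega)) (lx_of_trunc hX h hA hB hE).1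
  rw [hom_eq_of_V hB hA hE] at h1
  rw [D.eq_zero _ h1] at hE
  rw [D.eq_of_ext_zero _ _ hE]
  simpa using hB

lemma U_of_dk (hX : ∀ S ∈ X, t.Simple S) {a : ℤ} {Y : D.Obj} (h : D.Dk X Y)
    (h0 : ∀ S ∈ X, ∀ n, n < a → D.hom Y (D.sh n S) = 0) : t.U a Y := by
  obtain ⟨A, B, hA, hB, hE⟩ := t.trunc a Y
  have h1 : D.hom Y B = 0 := TD.Cl.hom_right
    (by rintro _ ⟨S, hS, n, hn, rfl⟩; exact h0 S hS n hn.2) (lx_of_trunc hX h hA hB hE).2
  rw [hom_eq_of_U (a := a - 1) (by simpa using hA) hB hE] at h1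
  rw [D.eq_zero _ h1] at hE
  rw [← D.eq_of_ext_zero_right hE]
  exact hA

/-- A nonzero object of `Cl X` has a subobject in `X`. -/
lemma exists_sub {Y : D.Obj} (h : D.Cl X Y) (h0 : Y ≠ D.zero) :
    ∃ S ∈ X, ∃ B, D.Cl X B ∧ D.Ext S Y B := by
  cases h with
  | zero => exact absurd rfl h0
  | cons hA hE hB => exact ⟨_, hA, _, hB, hE⟩

/-- A nonzero object of `Cl X` has a quotient in `X`. -/
lemma exists_quot {Y : D.Obj} (h : D.Cl X Y) (h0 : Y ≠ D.zero) :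
    ∃ S ∈ X, ∃ A, D.Cl X A ∧ D.Ext A Y S := by
  obtain ⟨S, hS, B, hB, hE⟩ := exists_sub (D := D.op) h.op h0
  exact ⟨S, hS, B, hB.unop, hE⟩

/-- A simple object in `Cl X` belongs to `X`. -/
lemma Simple.mem_of_cl (hX : ∀ S ∈ X, t.Simple S) {Y : D.Obj} (hY : t.Simple Y)
    (h : D.Cl X Y) : Y ∈ X := by
  obtain ⟨S, hS, B, hB, hE⟩ := exists_sub h hY.ne
  rcases hY.sub _ _ (hX S hS).mem (cl_M (fun S h => (hX S h).mem) hB) hE with h1 | h1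
  · exact absurd h1 (hX S hS).ne
  · subst h1
    exact D.eq_of_ext_zero_right hE ▸ hS

/-- Subobjects in `Cl X` of an object of the heart have bounded length. -/
def Bd (t : TS D) (X : Set D.Obj) : Prop :=
  ∀ N, t.M N → ∃ k : ℕ, ∀ n A B, D.Ln X n A → t.M B → D.Ext A N B → n ≤ k

lemma Bd.mono {X' : Set D.Obj} (h : t.Bd X) (hX : X' ⊆ X) : t.Bd X' := fun N hN => by
  obtain ⟨k, hk⟩ := h N hN
  exact ⟨k, fun n A B h1 => hk n A B (h1.mono hX)⟩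

/-- A class closed under quotients and extensions inside `Cl X`. -/
structure Tors (t : TS D) (X : Set D.Obj) (T : D.Obj → Prop) : Prop where
  zero : T D.zero
  cl : ∀ A, T A → D.Cl X A
  quot : ∀ N A I, T A → t.M N → t.M I → D.Ext N A I → T I
  ext : ∀ A Y B, T A → T B → D.Ext A Y B → T Y

theorem Tors.dec {T : D.Obj → Prop} (hT : t.Tors X T) (hX : ∀ S ∈ X, t.M S) (hb : t.Bd X)
    {N : D.Obj} (hN : t.M N) :
    ∃ A B, T A ∧ t.M B ∧ (∀ W, T W → D.hom W B = 0) ∧ D.Ext A N B := by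
  classical
  obtain ⟨k, hk⟩ := hb N hN
  let R : ℕ → Prop := fun n => ∃ A B, D.Ln X n A ∧ T A ∧ t.M B ∧ D.Ext A N B
  have h0 : R 0 := ⟨_, N, TD.Ln.zero, hT.zero, hN, D.ext_zero N⟩
  obtain ⟨A, B, h1, h2, h3, h4⟩ := Nat.findGreatest_spec (P := R) (Nat.zero_le k) h0
  refine ⟨A, B, h2, h3, fun W hW => by_contra fun c => ?_, h4⟩
  obtain ⟨N', I, C, hN', hI, hC, i0, e1, e2⟩ := (cl_M hX (hT.cl W hW)).image h3 c
  have hTI := hT.quot _ _ _ hW hN' hI e1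
  obtain ⟨F, e3, e4⟩ := D.assoc' h4 e2
  obtain ⟨m, hm⟩ := (hT.cl I hTI).ln
  have m0 : m ≠ 0 := by rintro rfl; exact i0 hm.eq_zero
  have h5 := h1.ext hm e3
  exact Nat.findGreatest_is_greatest (P := R) (n := k) (k := m + Nat.findGreatest R k) (by omega)
    (hk _ _ _ h5 hC e4) ⟨F, C, h5, hT.ext _ _ _ h2 hTI e3, hC, e4⟩

/-- The tilt at a torsion class inside `Cl X`. -/
def tp (t : TS D) {T : D.Obj → Prop} (hT : t.Tors X T) (hX : ∀ S ∈ X, t.M S) (hb : t.Bd X) :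
    TS D :=
  t.tilt T (fun Y hY => by
    obtain ⟨A, B, h1, h2, h3, h4⟩ := hT.dec hX hb hY
    exact ⟨A, B, fun W _ h => h A h1, h2.2, h3, h4⟩) fun A h => (cl_M hX (hT.cl A h)).1

section TP

variable {T : D.Obj → Prop} {hT : t.Tors X T} {hX : ∀ S ∈ X, t.M S} {hb : t.Bd X}

lemma tp_co {Y : D.Obj} : (t.tp hT hX hb).V 0 Y ↔ t.V 0 Y ∧ ∀ W, T W → D.hom W Y = 0 := V_zero

lemma tp_le {a : ℤ} {Y : D.Obj} (h : (t.tp hT hX hb).V a Y) : t.V a Y :=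
  V.of_sh (-a) (by ring) (h.1 : t.V 0 _)

lemma le_tp {a : ℤ} {Y : D.Obj} (h : t.V a Y) : (t.tp hT hX hb).V (a + 1) Y := by
  have h1 : t.V (-1) (D.sh (-(a + 1)) Y) := h.sh _ (by ring)
  exact ⟨h1.mono (by omega), fun W hW => hom_U_V (by omega) (cl_M hX (hT.cl W hW)).1 h1⟩

lemma U_tp {a : ℤ} {Y : D.Obj} (h : t.U a Y) : (t.tp hT hX hb).U a Y :=
  fun W hW => h W (tp_le hW)

lemma tp_U {a : ℤ} {Y : D.Obj} (h : (t.tp hT hX hb).U (a + 1) Y) : t.U a Y :=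
  fun W hW => h W (by simpa using le_tp hW)

lemma tp_T {A : D.Obj} (h : T A) : (t.tp hT hX hb).U 1 A := U_one.2 fun _ hW => hW.2 A h

/-- The torsion class is the part of the heart in the shifted aisle of the tilt. -/
lemma T_of_tp {A : D.Obj} (hA : t.V 0 A) (h : (t.tp hT hX hb).U 1 A) : T A := by
  obtain ⟨A', B, h1, h2, h3, h4⟩ := hT.dec hX hb ⟨tp_U (a := 0) (by simpa using h), hA⟩
  have h5 : (t.tp hT hX hb).U 1 B := U.quot ((tp_T h1).mono (by omega)) h h4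
  rw [eq_zero_of_U_V (b := 0) (by omega) h5 (tp_co.2 ⟨h2.2, h3⟩)] at h4
  exact D.eq_of_ext_zero_right h4 ▸ h1

/-- The aisle of the tilt. -/
lemma tp_U_dec {Y : D.Obj} (h : (t.tp hT hX hb).U 1 Y) :
    ∃ A B, t.U 1 A ∧ T B ∧ D.Ext A Y B := by
  obtain ⟨A, B, h1, h2, h3⟩ := (tp_U (a := 0) (by simpa using h)).top0
  exact ⟨A, B, h1, T_of_tp h2.2 (U.quot ((U_tp h1).mono (by omega)) h h3), h3⟩

/-- The tilt restricts to `Dk X`. -/
theorem tp_trunc (hS : ∀ S ∈ X, t.Simple S) {a : ℤ} {A Y B : D.Obj} (h : D.Dk X Y)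
    (hA : (t.tp hT hX hb).U a A) (hB : (t.tp hT hX hb).V (a - 1) B) (hE : D.Ext A Y B) :
    D.Dk X A ∧ D.Dk X B := by
  obtain ⟨A1, T1, h1, h2, h3⟩ := tp_U_dec (hA.sh (1 - a) (by ring))
  have h4 : D.Ext (D.sh (a - 1) A1) A (D.sh (a - 1) T1) := by
    simpa using (D.ext_sh (a - 1)).2 h3
  obtain ⟨F, h5, h6⟩ := D.assoc _ _ _ _ _ hE h4
  have hT1 := TD.Dk.of_cl (hT.cl _ h2)
  have hF : t.V (a - 1) F :=
    ((cl_M hX (hT.cl _ h2)).2.sh _ (by ring)).ext (tp_le hB) h6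
  have h7 := (dk_trunc hS h (h1.sh _ (by ring)) hF h5).1
  have h8 := h7.ext (hT1.sh _) h4
  exact ⟨h8, h8.quot h hE⟩

end TP

/-- The torsion class cut out by a class `O` in the aisle. -/
def CutT (t : TS D) (X : Set D.Obj) (O : D.Obj → Prop) (B : D.Obj) : Prop :=
  D.Cl X B ∧ ∀ Y, t.V 0 Y → (∀ A, O A → D.hom A Y = 0) → D.hom B Y = 0

lemma cutT_tors (hS : ∀ S ∈ X, t.Simple S) (O : D.Obj → Prop) : t.Tors X (t.CutT X O) where
  zero := ⟨TD.Cl.zero, fun Y _ _ => D.zero_hom Y⟩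
  cl _ h := h.1
  quot N A I h hN hI hE := ⟨(serre hS h.1 hN hI hE).2, fun Y h1 h2 => by
    have := M.hom_quot hN.1 h1 hE
    rw [h.2 Y h1 h2] at this; omega⟩
  ext A Y B hA hB hE := ⟨hA.1.ext hB.1 hE, fun W h1 h2 => by
    have := D.les' W hE
    rw [hA.2 W h1 h2, hB.2 W h1 h2] at this; omega⟩

/-- The co-aisle `CUT`. -/
def cut (t : TS D) (hS : ∀ S ∈ X, t.Simple S) (hb : t.Bd X) (O : D.Obj → Prop) : TS D :=
  t.tp (cutT_tors hS O) (fun S h => (hS S h).mem) hb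

section CUT

variable {hS : ∀ S ∈ X, t.Simple S} {hb : t.Bd X} {O : D.Obj → Prop}

lemma cut_le {a : ℤ} {Y : D.Obj} (h : (t.cut hS hb O).V a Y) : t.V a Y := tp_le h

lemma le_cut {a : ℤ} {Y : D.Obj} (h : t.V a Y) : (t.cut hS hb O).V (a + 1) Y := le_tp h

lemma cut_of_perp {Y : D.Obj} (h : t.V 0 Y) (h0 : ∀ A, O A → D.hom A Y = 0) :
    (t.cut hS hb O).V 0 Y := tp_co.2 ⟨h, fun _ hW => hW.2 Y h h0⟩

/-- A quotient in `Cl X` of the top cohomology of a member of `O` is torsion. -/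
lemma cutT_of_quot {A A1 A0 N I : D.Obj} (hA : O A) (h1 : t.U 1 A1) (e1 : D.Ext A1 A A0)
    (hN : t.U 0 N) (hI : D.Cl X I) (e2 : D.Ext N A0 I) : t.CutT X O I :=
  ⟨hI, fun Y hY h0 => by
    have a1 := M.hom_quot hN hY e2
    rw [← hom_eq_of_U (a := 0) (by simpa using h1) hY e1, h0 A hA] at a1
    omega⟩

lemma cut_perp {A B : D.Obj} (hA : O A) (hU : t.U 0 A) (hB : (t.cut hS hb O).V 0 B)
    (hD : D.Dk X B) : D.hom A B = 0 := by
  by_contra c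
  obtain ⟨A1, A0, h1, h2, e1⟩ := hU.top0
  obtain ⟨B0, B1, h3, h4, e2⟩ := (cut_le hB).bot0
  have hB0 := cl_of_dk hS (dk_trunc hS hD h3.1 (by simpa using h4) e2).1 h3
  rw [hom_eq_of_U (a := 0) (by simpa using h1) (cut_le hB) e1,
    hom_eq_of_V (a := 0) (by simpa using h4) h2.1 e2] at c
  obtain ⟨N, I, C, hN, hI, hC, i0, e3, e4⟩ := h2.image h3 c
  have h5 := (tp_co.1 hB).2 I (cutT_of_quot hA h1 e1 hN.1 (serre hS hB0 hI hC e4).1 e3)
  rw [hom_eq_of_V (a := 0) (by simpa using h4) hI.1 e2] at h5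
  have h6 := M.hom_sub hC.2 hI.1 e4
  exact i0 (D.eq_zero _ (by omega))

/-- A member of `O` whose top cohomology is in `Dk X` is left orthogonal to the whole cut. -/
lemma cut_U {A A1 A0 : D.Obj} (hA : O A) (h1 : t.U 1 A1) (h0 : t.M A0) (hD : D.Dk X A0)
    (e1 : D.Ext A1 A A0) : (t.cut hS hb O).U 1 A :=
  (U_tp h1).ext (tp_T (cutT_of_quot hA h1 e1 U.zero (cl_of_dk hS hD h0) (D.ext_zero _))) e1

lemma cut_trunc {a : ℤ} {A Y B : D.Obj} (h : D.Dk X Y) (hA : (t.cut hS hb O).U a A)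
    (hB : (t.cut hS hb O).V (a - 1) B) (hE : D.Ext A Y B) : D.Dk X A ∧ D.Dk X B :=
  tp_trunc hS h hA hB hE

end CUT

end TS

end Pool.Agent.HT
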