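import Pool.Agent.Lib.HT.Act

set_option autoImplicit false

/-! Top level statements of the hearts line. -/

namespace Pool.Agent.HT

open Pool.Agent.Lib.MP_6d85b4_al

/-- No non-trivial element of an irreducible non-spherical Artin group with labels 2, 3, 4, 5 moves
a good heart to one of its shifts. -/
def FreeStmt : Prop :=
  ∀ (S : Type) [Fintype S] [DecidableEq S] (M : CoxeterMatrix S) (hM : Small M)
    (Md : Model (fun s t => M s t)),
    (SimpleGraph.fromRel (fun i j : S => M i j ≠ 2)).Connected → Infinite M.Group →
    ∀ (H : Md.GH) (a : Art M) (n : ℤ),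
      (∀ Y, (Model.act hM H a).1.U 0 Y ↔ H.1.U n Y) → a = 1

/-- A central element moves every good heart to one of its shifts. -/
def CentreStmt : Prop :=
  ∀ (S : Type) [Fintype S] [DecidableEq S] (M : CoxeterMatrix S) (hM : Small M)
    (Md : Model (fun s t => M s t)),
    (SimpleGraph.fromRel (fun i j : S => M i j ≠ 2)).Connected →
    ∀ (H : Md.GH) (a : Art M), a ∈ Subgroup.center (Art M) →
      ∃ n : ℤ, ∀ Y, (Model.act hM H a).1.U 0 Y ↔ H.1.U n Y

/-- The real form of Frobenius-Perron classes is a positive combination of Euler forms. -/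
def RealFormStmt : Prop :=
  ∀ (S : Type) [Fintype S] [DecidableEq S] (M : CoxeterMatrix S) (_ : Small M)
    (Md : Model (fun s t => M s t)) (H : Md.GH) (x y : KK S),
    - bf M (H.c x) (H.c y) =
      Md.D.form x (phi true (phi true y)) + √2 * Md.D.form x (phi true y) +
        Real.goldenRatio * Md.D.form x (phi true (phi true (phi false y))) +
        √2 * Real.goldenRatio * Md.D.form x (phi true (phi false y))

end Pool.Agent.HT
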