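import Mathlib

set_option autoImplicit false

/-!
Numerical 2-Calabi-Yau triangulated data: objects are isomorphism classes, `Ext A Y B` means that
there is a distinguished triangle `A -> Y -> B -> A[1]`, `hom` is the dimension of the space of
morphisms, `cl` the class in the Grothendieck group.
-/

namespace Pool.Agent.HT

universe u

structure TD (K : Type) [AddCommGroup K] where
  Obj : Type u
  s : Equiv.Perm Obj
  zero : Obj
  Ext : Obj → Obj → Obj → Prop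
  hom : Obj → Obj → ℕ
  cl : Obj → K
  form : K →+ K →+ ℤ
  rot : ∀ A Y B, Ext A Y B ↔ Ext Y B (s A)
  ext_zero : ∀ A, Ext zero A A
  eq_of_ext_zero : ∀ Y B, Ext zero Y B → Y = B
  assoc : ∀ A Y B C E, Ext A Y B → Ext C A E → ∃ F, Ext C Y F ∧ Ext E F B
  fac : ∀ A Y B A' B', hom A B' = 0 → Ext A Y B → Ext A' Y B' →
    ∃ C, Ext A' C (s A) ∧ Ext C B B'
  hom_s : ∀ A B, hom (s A) (s B) = hom A B
  eq_zero : ∀ A, hom A A = 0 → A = zero
  hom_zero : ∀ A, hom A zero = 0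
  les : ∀ W A Y B, Ext A Y B → hom W Y ≤ hom W A + hom W B
  cy : ∀ A B, hom A B = hom B (s (s A))
  dich : ∀ A Y B, Ext A Y B → (Ext B Y A ∧ ∀ W, hom W Y = hom W A + hom W B) ∨
    (hom B (s A) ≠ 0 ∧
      hom B Y < hom B A + hom B B ∧ hom B (s Y) < hom B (s A) + hom B (s B) ∧
      hom Y A < hom A A + hom B A ∧ hom Y (s A) < hom A (s A) + hom B (s A))
  cone : ∀ A B, hom B (s A) ≠ 0 → ∃ Y, Ext A Y B ∧
    (hom B Y < hom B A + hom B B ∧ hom B (s Y) < hom B (s A) + hom B (s B) ∧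
      hom Y A < hom A A + hom B A ∧ hom Y (s A) < hom A (s A) + hom B (s A))
  sum : ∀ A B, ∃ Y, Ext A Y B ∧ Ext B Y A ∧ ∀ W, hom W Y = hom W A + hom W B
  cl_ext : ∀ A Y B, Ext A Y B → cl Y = cl A + cl B
  euler : ∀ A B, form (cl A) (cl B) =
    ∑ᶠ n : ℤ, ((n.negOnePow : ℤˣ) : ℤ) * (hom A ((s ^ n) B) : ℤ)

namespace TD

variable {K : Type} [AddCommGroup K] (D : TD.{u} K)

/-- The shift `A[n]`. -/
def sh (n : ℤ) (A : D.Obj) : D.Obj := (D.s ^ n) A

@[simp] lemma sh_zero (A : D.Obj) : D.sh 0 A = A := by simp [sh]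

lemma sh_one (A : D.Obj) : D.sh 1 A = D.s A := by simp [sh]

@[simp] lemma sh_sh (m n : ℤ) (A : D.Obj) : D.sh m (D.sh n A) = D.sh (m + n) A := by
  simp [sh, zpow_add]

lemma s_sh (n : ℤ) (A : D.Obj) : D.s (D.sh n A) = D.sh (n + 1) A := by
  rw [← D.sh_one, D.sh_sh, add_comm]

lemma sh_s (n : ℤ) (A : D.Obj) : D.sh n (D.s A) = D.sh (n + 1) A := by
  rw [← D.sh_one, D.sh_sh]

lemma sh_inj (n : ℤ) {A B : D.Obj} (h : D.sh n A = D.sh n B) : A = B := by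
  have := congrArg (D.sh (-n)) h
  simpa using this

lemma s_zero : D.s D.zero = D.zero :=
  (D.eq_of_ext_zero _ _ ((D.rot _ _ _).1 (D.ext_zero D.zero))).symm

@[simp] lemma sh_zero_obj (n : ℤ) : D.sh n D.zero = D.zero := by
  induction n using Int.induction_on with
  | zero => simp
  | succ n ih => rw [← D.s_sh, ih, D.s_zero]
  | pred n ih =>
    apply D.s.injective
    rw [D.s_sh, D.s_zero]
    simpa using ih

lemma ext_s {A Y B : D.Obj} : D.Ext (D.s A) (D.s Y) (D.s B) ↔ D.Ext A Y B := by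
  rw [D.rot A Y B, D.rot Y B, D.rot B]

lemma ext_sh (n : ℤ) {A Y B : D.Obj} :
    D.Ext (D.sh n A) (D.sh n Y) (D.sh n B) ↔ D.Ext A Y B := by
  induction n using Int.induction_on with
  | zero => simp
  | succ n ih => rw [← D.s_sh, ← D.s_sh, ← D.s_sh, D.ext_s, ih]
  | pred n ih =>
    rw [← D.ext_s, D.s_sh, D.s_sh, D.s_sh]
    simpa using ih

lemma hom_sh (n : ℤ) (A B : D.Obj) : D.hom (D.sh n A) (D.sh n B) = D.hom A B := by
  induction n using Int.induction_on with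
  | zero => simp
  | succ n ih => rw [← D.s_sh, ← D.s_sh, D.hom_s, ih]
  | pred n ih =>
    rw [← D.hom_s, D.s_sh, D.s_sh]
    simpa using ih

lemma hom_sh_left (n : ℤ) (A B : D.Obj) : D.hom (D.sh n A) B = D.hom A (D.sh (-n) B) := by
  rw [← D.hom_sh (-n)]; simp

lemma hom_sh_sh (m n : ℤ) (A B : D.Obj) :
    D.hom (D.sh m A) (D.sh n B) = D.hom A (D.sh (n - m) B) := by
  rw [D.hom_sh_left, D.sh_sh]; congr 2; ring

lemma cy' (A B : D.Obj) : D.hom A B = D.hom B (D.sh 2 A) := by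
  rw [D.cy, ← D.sh_one, ← D.sh_one, D.sh_sh]; rfl

lemma cy_sh (n : ℤ) (A B : D.Obj) : D.hom A (D.sh n B) = D.hom B (D.sh (2 - n) A) := by
  rw [D.cy', D.hom_sh_left, D.sh_sh]; congr 2; ring

lemma zero_hom (A : D.Obj) : D.hom D.zero A = 0 := by
  have h := D.cy_sh 0 D.zero A
  rw [D.sh_zero, D.sh_zero_obj, D.hom_zero] at h
  exact h

lemma les' (W : D.Obj) {A Y B : D.Obj} (h : D.Ext A Y B) :
    D.hom Y W ≤ D.hom A W + D.hom B W := by
  rw [D.cy Y, D.cy A, D.cy B]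
  exact D.les _ _ _ _ (D.ext_s.2 (D.ext_s.2 h))

lemma ext_zero_right (A : D.Obj) : D.Ext A A D.zero := by
  have := (D.rot _ _ _).1 (D.ext_zero A)
  rwa [D.s_zero] at this

lemma eq_of_ext_zero_right {A Y : D.Obj} (h : D.Ext A Y D.zero) : A = Y := by
  rw [← D.s_zero, ← D.rot] at h
  exact D.eq_of_ext_zero _ _ h

lemma eq_of_ext_zero_mid {A B : D.Obj} (h : D.Ext A D.zero B) : B = D.s A :=
  D.eq_of_ext_zero _ _ ((D.rot _ _ _).1 h)

lemma rot' {A Y B : D.Obj} (h : D.Ext A Y B) : D.Ext (D.sh (-1) B) A Y := by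
  rw [D.rot, D.s_sh]; simpa using h

lemma rot1 {A Y B : D.Obj} (h : D.Ext A Y B) : D.Ext Y B (D.sh 1 A) := by
  rw [D.sh_one]; exact (D.rot _ _ _).1 h

lemma assoc' {A Y B C E : D.Obj} (h : D.Ext A Y B) (h' : D.Ext C B E) :
    ∃ F, D.Ext A F C ∧ D.Ext F Y E := by
  obtain ⟨F, h1, h2⟩ := D.assoc _ _ _ _ _ ((D.rot _ _ _).1 ((D.rot _ _ _).1 h)) h'
  refine ⟨D.s.symm F, ?_, ?_⟩
  · rw [D.rot, D.rot]; simpa using h1
  · rw [D.rot, D.rot]; simpa using h2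

lemma split {A Y B : D.Obj} (h0 : D.hom B (D.s A) = 0) (h : D.Ext A Y B) : D.Ext B Y A := by
  obtain ⟨C, h1, h2⟩ := D.fac B B D.zero Y (D.s A) h0 (D.ext_zero_right B) ((D.rot _ _ _).1 h)
  have h3 : D.s A = D.s C := D.eq_of_ext_zero_mid h2
  rw [← D.s.injective h3] at h1
  exact (D.rot _ _ _).2 h1

lemma split_hom {A Y B : D.Obj} (h0 : D.hom B (D.s A) = 0) (h : D.Ext A Y B) (W : D.Obj) :
    D.hom W Y = D.hom W A + D.hom W B := by
  rcases D.dich _ _ _ h with h1 | h1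
  · exact h1.2 W
  · exact absurd h0 h1.1

lemma split_hom' {A Y B : D.Obj} (h0 : D.hom B (D.s A) = 0) (h : D.Ext A Y B) (W : D.Obj) :
    D.hom Y W = D.hom A W + D.hom B W := by
  rw [D.cy Y, D.cy A, D.cy B]
  refine D.split_hom ?_ (D.ext_s.2 (D.ext_s.2 h)) W
  rw [D.hom_s, D.hom_s]; exact h0

lemma cl_zero : D.cl D.zero = 0 := by
  have := D.cl_ext _ _ _ (D.ext_zero D.zero)
  simpa using this

lemma cl_s (A : D.Obj) : D.cl (D.s A) = - D.cl A := by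
  have := D.cl_ext _ _ _ ((D.rot _ _ _).1 (D.ext_zero_right A))
  rw [D.cl_zero] at this
  exact eq_neg_of_add_eq_zero_right this.symm

lemma cl_sh (n : ℤ) (A : D.Obj) : D.cl (D.sh n A) = ((n.negOnePow : ℤˣ) : ℤ) • D.cl A := by
  induction n using Int.induction_on with
  | zero => simp
  | succ n ih => rw [← D.s_sh, D.cl_s, ih, Int.negOnePow_succ]; simp
  | pred n ih =>
    have h := D.cl_s (D.sh (-(n : ℤ) - 1) A)
    rw [D.s_sh, show -(n : ℤ) - 1 + 1 = -n by ring, ih] at h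
    rw [Int.negOnePow_sub, Int.negOnePow_one]
    rw [← neg_eq_iff_eq_neg] at h
    rw [← h]; simp

/-- Euler form of two objects without negative self extensions in both directions. -/
lemma euler3 {A B : D.Obj} (h1 : ∀ n : ℤ, n < 0 → D.hom A (D.sh n B) = 0)
    (h2 : ∀ n : ℤ, n < 0 → D.hom B (D.sh n A) = 0) :
    D.form (D.cl A) (D.cl B) = (D.hom A B : ℤ) - D.hom A (D.s B) + D.hom B A := by
  rw [D.euler, finsum_eq_sum_of_support_subset (s := ({0, 1, 2} : Finset ℤ))]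
  · have e2 : D.hom A ((D.s ^ (2 : ℤ)) B) = D.hom B A := by
      have := D.cy_sh 2 A B
      simpa [sh] using this
    rw [Finset.sum_insert (by decide), Finset.sum_insert (by decide), Finset.sum_singleton, e2]
    have : (((2 : ℤ).negOnePow : ℤˣ) : ℤ) = 1 := by decide
    simp [this]; ring
  · intro n hn
    by_contra hc
    apply hn
    have : n < 0 ∨ 2 < n := by
      simp at hc; omega
    have h0 : D.hom A (D.sh n B) = 0 := by
      rcases this with h | h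
      · exact h1 n h
      · rw [D.cy_sh]; exact h2 _ (by omega)
    simp only [sh] at h0
    simp [h0]

/-- Uniqueness of a decomposition along a pair of classes with no maps between them. -/
lemma trunc_unique {U V : Set D.Obj} (hUV : ∀ A ∈ U, ∀ B ∈ V, D.hom A B = 0)
    (hUs : ∀ A ∈ U, D.s A ∈ U) (hVs : ∀ B ∈ V, D.sh (-1) B ∈ V)
    (hU : ∀ A Y B, D.Ext A Y B → A ∈ U → B ∈ U → Y ∈ U)
    (hV : ∀ A Y B, D.Ext A Y B → A ∈ V → B ∈ V → Y ∈ V)
    {A Y B A' B' : D.Obj} (h : D.Ext A Y B) (h' : D.Ext A' Y B')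
    (hA : A ∈ U) (hA' : A' ∈ U) (hB : B ∈ V) (hB' : B' ∈ V) : A = A' ∧ B = B' := by
  obtain ⟨C, h1, h2⟩ := D.fac A Y B A' B' (hUV _ hA _ hB') h h'
  have hC : C = D.zero :=
    D.eq_zero _ (hUV _ (hU _ _ _ h1 hA' (hUs _ hA)) _ (hV _ _ _ (D.rot' h2) (hVs _ hB') hB))
  subst hC
  exact ⟨(D.s.injective (D.eq_of_ext_zero_mid h1)), D.eq_of_ext_zero _ _ h2⟩

/-- Extension closure of a class of objects. -/
inductive Cl (X : Set D.Obj) : D.Obj → Prop
  | zero : Cl X D.zero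
  | cons {A Y B : D.Obj} : A ∈ X → D.Ext A Y B → Cl X B → Cl X Y

variable {D}

lemma Cl.of_mem {X : Set D.Obj} {A : D.Obj} (h : A ∈ X) : D.Cl X A :=
  Cl.cons h (D.ext_zero_right A) Cl.zero

lemma Cl.ext {X : Set D.Obj} {A Y B : D.Obj} (hA : D.Cl X A) (hB : D.Cl X B)
    (h : D.Ext A Y B) : D.Cl X Y := by
  induction hA generalizing Y with
  | zero => rw [D.eq_of_ext_zero _ _ h]; exact hB
  | cons hC hE _ ih =>
    obtain ⟨F, h1, h2⟩ := D.assoc _ _ _ _ _ h hE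
    exact Cl.cons hC h1 (ih h2)

lemma Cl.le {X : Set D.Obj} {P : D.Obj → Prop} (h0 : P D.zero) (hX : ∀ A ∈ X, P A)
    (hP : ∀ A Y B, D.Ext A Y B → P A → P B → P Y) {Y : D.Obj} (h : D.Cl X Y) : P Y := by
  induction h with
  | zero => exact h0
  | cons hA hE _ ih => exact hP _ _ _ hE (hX _ hA) ih

lemma Cl.mono {X X' : Set D.Obj} (hX : ∀ A ∈ X, D.Cl X' A) {Y : D.Obj} (h : D.Cl X Y) :
    D.Cl X' Y :=
  Cl.le Cl.zero hX (fun _ _ _ hE hA hB => Cl.ext hA hB hE) h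

lemma Cl.hom_left {X : Set D.Obj} {W : D.Obj} (hX : ∀ A ∈ X, D.hom A W = 0) {Y : D.Obj}
    (h : D.Cl X Y) : D.hom Y W = 0 :=
  Cl.le (P := fun Y => D.hom Y W = 0) (D.zero_hom W) hX
    (fun _ _ _ hE hA hB => by have := D.les' W hE; omega) h

lemma Cl.hom_right {X : Set D.Obj} {W : D.Obj} (hX : ∀ A ∈ X, D.hom W A = 0) {Y : D.Obj}
    (h : D.Cl X Y) : D.hom W Y = 0 :=
  Cl.le (P := fun Y => D.hom W Y = 0) (D.hom_zero W) hX
    (fun _ _ _ hE hA hB => by have := D.les W _ _ _ hE; omega) h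

lemma Cl.sh {X : Set D.Obj} (n : ℤ) {Y : D.Obj} (h : D.Cl X Y) :
    D.Cl (D.sh n '' X) (D.sh n Y) := by
  induction h with
  | zero => rw [D.sh_zero_obj]; exact Cl.zero
  | cons hA hE _ ih => exact Cl.cons ⟨_, hA, rfl⟩ ((D.ext_sh n).2 hE) ih

/-- If every extension of `b` by `a` in the wrong order splits, a filtration can be sorted. -/
lemma Cl.sort {X₁ X₂ : Set D.Obj} (h12 : ∀ A ∈ X₁, ∀ B ∈ X₂, D.hom A (D.s B) = 0)
    {Y : D.Obj} (h : D.Cl (X₁ ∪ X₂) Y) :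
    ∃ A B, D.Cl X₁ A ∧ D.Cl X₂ B ∧ D.Ext A Y B := by
  induction h with
  | zero => exact ⟨D.zero, D.zero, Cl.zero, Cl.zero, D.ext_zero _⟩
  | @cons C Y E hC hE _ ih =>
    obtain ⟨A, B, hA, hB, hAB⟩ := ih
    obtain ⟨F, h1, h2⟩ := D.assoc' hE hAB
    rcases hC with hC | hC
    · exact ⟨F, B, Cl.cons hC h1 hA, hB, h2⟩
    · have h0 : D.hom A (D.s C) = 0 := Cl.hom_left (fun A' hA' => h12 A' hA' C hC) hA
      obtain ⟨G, h3, h4⟩ := D.assoc _ _ _ _ _ h2 (D.split h0 h1)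
      exact ⟨A, G, hA, Cl.cons hC h4 hB, h3⟩

/-- Sorting when extensions in the wrong order either split or cancel. -/
lemma Cl.sort' {X₁ X₂ : Set D.Obj}
    (h12 : ∀ A ∈ X₁, ∀ C ∈ X₂, ∀ F, D.Ext C F A → D.Ext A F C ∨ F = D.zero)
    {Y : D.Obj} (h : D.Cl (X₁ ∪ X₂) Y) :
    ∃ A B, D.Cl X₁ A ∧ D.Cl X₂ B ∧ D.Ext A Y B := by
  have key : ∀ C ∈ X₂, ∀ A, D.Cl X₁ A → ∀ F, D.Ext C F A →
      ∃ A' C', D.Cl X₁ A' ∧ D.Cl X₂ C' ∧ D.Ext A' F C' := by
    intro C hC A hA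
    induction hA with
    | zero =>
      intro F hF
      rw [← D.eq_of_ext_zero_right hF]
      exact ⟨D.zero, C, Cl.zero, Cl.of_mem hC, D.ext_zero _⟩
    | @cons A1 A A2 h1 hE h2 ih =>
      intro F hF
      obtain ⟨F', h3, h4⟩ := D.assoc' hF hE
      rcases h12 A1 h1 C hC F' h3 with h5 | h5
      · obtain ⟨G, h6, h7⟩ := D.assoc _ _ _ _ _ h4 h5
        obtain ⟨A3, C', h8, h9, h10⟩ := ih G h7
        obtain ⟨A4, h11, h12'⟩ := D.assoc' h6 h10
        exact ⟨A4, C', Cl.cons h1 h11 h8, h9, h12'⟩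
      · subst h5
        rw [D.eq_of_ext_zero _ _ h4]
        exact ⟨A2, D.zero, h2, Cl.zero, D.ext_zero_right _⟩
  induction h with
  | zero => exact ⟨D.zero, D.zero, Cl.zero, Cl.zero, D.ext_zero _⟩
  | @cons C Y E hC hE _ ih =>
    obtain ⟨A, B, hA, hB, hAB⟩ := ih
    obtain ⟨F, h1, h2⟩ := D.assoc' hE hAB
    rcases hC with hC | hC
    · exact ⟨F, B, Cl.cons hC h1 hA, hB, h2⟩
    · obtain ⟨A', C', h3, h4, h5⟩ := key C hC A hA F h1
      obtain ⟨G, h6, h7⟩ := D.assoc _ _ _ _ _ h2 h5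
      exact ⟨A', G, h3, Cl.ext h4 hB h7, h6⟩

/-- An extension of `C[1]` by a rigid brick `C` splits or vanishes. -/
lemma ext_brick {C F : D.Obj} (h1 : D.hom C C = 1) (h2 : D.hom C (D.s C) = 0)
    (h3 : D.hom (D.s C) C = 0) (h : D.Ext C F (D.s C)) :
    D.Ext (D.s C) F C ∨ F = D.zero := by
  rcases D.dich _ _ _ h with h4 | ⟨-, h4, h5, -, -⟩
  · exact Or.inl h4.1
  · right
    rw [D.hom_s, D.hom_s, D.hom_s] at h5
    rw [D.hom_s] at h4
    apply D.eq_zero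
    have := D.les' F h
    omega

end TD

end Pool.Agent.HT
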