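import Pool.Agent.Lib.HT.Heart

set_option autoImplicit false

/-! Opposite data, and tilts at a family of mutually orthogonal simples. -/

namespace Pool.Agent.HT

universe u

variable {K : Type} [AddCommGroup K]

namespace TD

lemma add_left (D : TD.{u} K) {A Y B : D.Obj} (h : ∀ W, D.hom W Y = D.hom W A + D.hom W B)
    (W : D.Obj) : D.hom Y W = D.hom A W + D.hom B W := by
  have e : ∀ X, D.hom X W = D.hom (D.sh (-2) W) X := fun X => by
    rw [D.cy', D.hom_sh_left]; simp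
  rw [e, e A, e B, h]

/-- The opposite numerical triangulated data. -/
def op (D : TD.{u} K) : TD.{u} K where
  Obj := D.Obj
  s := D.s⁻¹
  zero := D.zero
  Ext A Y B := D.Ext B Y A
  hom A B := D.hom B A
  cl := D.cl
  form := D.form.flip
  rot A Y B := by
    rw [D.rot (D.s⁻¹ A)]; simp
  ext_zero A := D.ext_zero_right A
  eq_of_ext_zero Y B h := (D.eq_of_ext_zero_right h).symm
  assoc A Y B C E h h' := by
    obtain ⟨F, h1, h2⟩ := D.assoc' h h'
    exact ⟨F, h2, h1⟩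
  fac A Y B A' B' h0 h h' := by
    obtain ⟨C, h1, h2⟩ := D.fac B' Y A' B A h0 h' h
    refine ⟨C, ?_, (D.rot _ _ _).2 h1⟩
    rw [D.rot]; simpa using h2
  hom_s A B := by rw [← D.hom_s]; simp
  eq_zero := D.eq_zero
  hom_zero := D.zero_hom
  les W A Y B h := by have := D.les' W h; omega
  cy A B := by
    rw [D.cy B A, ← D.hom_s (D.s⁻¹ _), ← D.hom_s (D.s (D.s⁻¹ _))]; simp
  dich A Y B h := by
    have e : ∀ X Z, D.hom (D.s⁻¹ X) Z = D.hom X (D.s Z) := fun X Z => by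
      rw [← D.hom_s]; simp
    rcases D.dich _ _ _ h with h1 | ⟨h0, h1, h2, h3, h4⟩
    · exact Or.inl ⟨h1.1, fun W => by rw [D.add_left h1.2]; omega⟩
    · right
      simp only [e]
      refine ⟨h0, ?_, ?_, ?_, ?_⟩ <;> omega
  cone A B h0 := by
    have e : ∀ X Z, D.hom (D.s⁻¹ X) Z = D.hom X (D.s Z) := fun X Z => by
      rw [← D.hom_s]; simp
    rw [e] at h0
    obtain ⟨Y, h, h1, h2, h3, h4⟩ := D.cone B A h0
    refine ⟨Y, h, ?_⟩
    simp only [e]
    refine ⟨?_, ?_, ?_, ?_⟩ <;> omega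
  sum A B := by
    obtain ⟨Y, h1, h2, h3⟩ := D.sum A B
    exact ⟨Y, h2, h1, D.add_left h3⟩
  cl_ext A Y B h := by rw [D.cl_ext _ _ _ h, add_comm]
  euler A B := by
    rw [AddMonoidHom.flip_apply, D.euler]
    refine finsum_congr (fun n => ?_)
    congr 2
    have := D.hom_sh_left (-n) B A
    simp only [sh, neg_neg] at this
    rw [← this, inv_zpow']

lemma op_sh (D : TD.{u} K) (n : ℤ) (A : D.Obj) : D.op.sh n A = D.sh (-n) A := by
  show ((D.s⁻¹) ^ n) A = (D.s ^ (-n)) A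
  rw [inv_zpow']

lemma Cl.op {D : TD.{u} K} {X : Set D.Obj} {Y : D.Obj} (h : D.Cl X Y) : D.op.Cl X Y :=
  Cl.le (D := D) (P := fun Y => D.op.Cl X Y) (Cl.zero (D := D.op)) (fun _ hA => Cl.of_mem (D := D.op) hA)
    (fun A Y B hE hA hB => Cl.ext (D := D.op) (A := B) (B := A) hB hA hE) h

lemma Cl.unop {D : TD.{u} K} {X : Set D.Obj} {Y : D.Obj} (h : D.op.Cl X Y) : D.Cl X Y :=
  Cl.le (D := D.op) (P := fun Y => D.Cl X Y) Cl.zero (fun _ hA => Cl.of_mem hA)
    (fun _ _ _ hE hA hB => Cl.ext hB hA hE) h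

end TD

namespace Heart

variable {D : TD.{u} K} {ι : Type}

/-- The same heart in the opposite data. -/
def op (H : Heart D ι) : Heart D.op ι where
  S := H.S
  b := H.b
  cl_S := H.cl_S
  neg i j n hn := by
    show D.hom (D.op.sh n (H.S j)) (H.S i) = 0
    rw [D.op_sh, D.hom_sh_left, neg_neg]; exact H.neg _ _ _ hn
  one := H.one
  off i j h := H.off j i h.symm
  rig i := by
    show D.hom (D.s⁻¹ (H.S i)) (H.S i) = 0
    rw [← D.hom_s]; simpa using H.rig i
  gen Y := by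
    refine TD.Cl.op (TD.Cl.mono ?_ (H.gen Y))
    rintro _ ⟨i, n, rfl⟩
    exact TD.Cl.of_mem ⟨i, -n, by rw [D.op_sh, neg_neg]⟩

/-- A heart of the opposite data as a heart of the data. -/
def unop (H : Heart D.op ι) : Heart D ι where
  S := H.S
  b := H.b
  cl_S := H.cl_S
  neg i j n hn := by
    have : D.hom (D.op.sh n (H.S i)) (H.S j) = 0 := H.neg j i n hn
    rwa [D.op_sh, D.hom_sh_left, neg_neg] at this
  one := H.one
  off i j h := H.off j i h.symm
  rig i := by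
    have : D.hom (D.s⁻¹ (H.S i)) (H.S i) = 0 := H.rig i
    rw [← D.hom_s] at this; simpa using this
  gen Y := by
    refine TD.Cl.mono ?_ (TD.Cl.unop (H.gen Y))
    rintro _ ⟨i, n, rfl⟩
    exact TD.Cl.of_mem ⟨i, -n, by rw [D.op_sh]⟩

lemma op_unop (H : Heart D.op ι) : H.unop.op = H := rfl

lemma op_Lv (H : Heart D ι) (P : ι → ℤ → Prop) (Y : D.Obj) :
    H.op.Lv P Y ↔ H.Lv (fun i n => P i (-n)) Y := by
  have e : {A | ∃ i n, P i n ∧ A = D.op.sh n (H.op.S i)} =
      {A | ∃ i n, P i (-n) ∧ A = D.sh n (H.S i)} := by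
    ext A
    constructor
    · rintro ⟨i, n, h, rfl⟩
      exact ⟨i, -n, by simpa using h, D.op_sh _ _⟩
    · rintro ⟨i, n, h, rfl⟩
      exact ⟨i, -n, h, by rw [D.op_sh, neg_neg]; rfl⟩
  unfold Lv
  rw [e]
  exact ⟨TD.Cl.unop, TD.Cl.op⟩

lemma op_U (H : Heart D ι) (a : ℤ) (Y : D.Obj) : H.op.U a Y ↔ H.V (-a) Y := by
  unfold U V
  rw [op_Lv]
  exact ⟨Lv.mono (fun _ _ h => by omega), Lv.mono (fun _ _ h => by omega)⟩

lemma op_V (H : Heart D ι) (a : ℤ) (Y : D.Obj) : H.op.V a Y ↔ H.U (-a) Y := by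
  unfold U V
  rw [op_Lv]
  exact ⟨Lv.mono (fun _ _ h => by omega), Lv.mono (fun _ _ h => by omega)⟩

lemma op_M (H : Heart D ι) (Y : D.Obj) : H.op.M Y ↔ H.M Y := by
  unfold M
  rw [op_Lv]
  exact ⟨Lv.mono (fun _ _ h => by omega), Lv.mono (fun _ _ h => by omega)⟩

lemma form_b (H : Heart D ι) (i j : ι) :
    D.form (H.b i) (H.b j) =
      (D.hom (H.S i) (H.S j) : ℤ) - D.hom (H.S i) (D.s (H.S j)) + D.hom (H.S j) (H.S i) := by
  rw [← H.cl_S, ← H.cl_S]; exact (M.simple H i).euler (M.simple H j)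

lemma form_self (H : Heart D ι) (i : ι) : D.form (H.b i) (H.b i) = 2 := by
  rw [H.form_b, H.one, H.rig]; rfl

lemma form_ne (H : Heart D ι) {i j : ι} (h : i ≠ j) :
    D.form (H.b i) (H.b j) = - (D.hom (H.S i) (D.s (H.S j)) : ℤ) := by
  rw [H.form_b, H.off _ _ h, H.off _ _ h.symm]; simp

lemma ext_symm (D : TD.{u} K) (A B : D.Obj) : D.hom A (D.s B) = D.hom B (D.s A) := by
  rw [← D.sh_one, D.cy_sh, ← D.sh_one]; rfl

lemma form_symm (H : Heart D ι) (x y : K) : D.form x y = D.form y x := by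
  have h : D.form.toIntLinearMap = D.form.flip.toIntLinearMap := by
    refine H.b.ext (fun i => ?_)
    have : (D.form (H.b i)).toIntLinearMap = (D.form.flip (H.b i)).toIntLinearMap := by
      refine H.b.ext (fun j => ?_)
      simp only [AddMonoidHom.coe_toIntLinearMap, AddMonoidHom.flip_apply]
      rw [H.form_b, H.form_b, ext_symm D (H.S i)]; ring
    ext y
    exact LinearMap.congr_fun this y
  have := LinearMap.congr_fun h x
  exact DFunLike.congr_fun this y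

/-- Two hearts with the same aisle have the same simple objects. -/
lemma simple_of_M {H H' : Heart D ι} (h : ∀ Y, H.M Y ↔ H'.M Y) (i : ι) :
    ∃ j, H.S i = H'.S j := by
  have h0 : H.S i ≠ D.zero := fun h0 => by
    have := H.one i
    rw [h0, D.hom_zero] at this
    omega
  obtain ⟨j, B, hB, hE⟩ := ((h _).1 (M.simple H i)).exists_sub h0
  rcases ((h _).2 (M.simple H' j)).sub_simple ((h _).2 hB) hE with h1 | h1
  · have := H'.one j
    rw [h1, D.hom_zero] at this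
    omega
  · subst h1
    exact ⟨j, (D.eq_of_ext_zero_right hE).symm⟩

lemma V_of_U {H H' : Heart D ι} {a b : ℤ} (h : ∀ Y, H.U (a + 1) Y → H'.U (b + 1) Y) (Y : D.Obj)
    (hY : H'.V b Y) : H.V a Y :=
  V_iff.2 (fun _ _ hn => hom_U_V (by omega) (h _ (Lv.simple (by omega))) hY)

lemma U_of_V {H H' : Heart D ι} {a b : ℤ} (h : ∀ Y, H.V (a - 1) Y → H'.V (b - 1) Y) (Y : D.Obj)
    (hY : H'.U b Y) : H.U a Y :=
  U_iff.2 (fun _ _ hn => hom_U_V (by omega) hY (h _ (Lv.simple (by omega))))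

lemma U_shift {H H' : Heart D ι} {a b : ℤ} (h : ∀ Y, H.U a Y → H'.U b Y) (m : ℤ) (Y : D.Obj)
    (hY : H.U (a + m) Y) : H'.U (b + m) Y := by
  have h1 : H.U a (D.sh (-m) Y) := (U_sh m).1 (by simpa using hY)
  simpa using (U_sh m).2 (h _ h1)

lemma V_shift {H H' : Heart D ι} {a b : ℤ} (h : ∀ Y, H.V a Y → H'.V b Y) (m : ℤ) (Y : D.Obj)
    (hY : H.V (a + m) Y) : H'.V (b + m) Y := by
  have h1 : H.V a (D.sh (-m) Y) := (V_sh m).1 (by simpa using hY)
  simpa using (V_sh m).2 (h _ h1)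

lemma M_of_U {H H' : Heart D ι} (h : ∀ Y, H.U 0 Y ↔ H'.U 0 Y) (Y : D.Obj) : H.M Y ↔ H'.M Y := by
  rw [M_iff, M_iff, h]
  refine and_congr Iff.rfl ⟨V_of_U ?_ Y, V_of_U ?_ Y⟩
  · exact U_shift (fun Y => (h Y).2) 1
  · exact U_shift (fun Y => (h Y).1) 1

/-- A labelled heart is determined by its aisle and the classes of its simples. -/
lemma eq_of_U {H H' : Heart D ι} (h : ∀ Y, H.U 0 Y ↔ H'.U 0 Y) (hb : ∀ i, H.b i = H'.b i) :
    H = H' := by
  have hS : H.S = H'.S := by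
    funext i
    obtain ⟨j, hj⟩ := simple_of_M (M_of_U h) i
    have : H'.b i = H'.b j := by rw [← hb, ← H.cl_S, hj, H'.cl_S]
    rw [hj, H'.b.injective this]
  have hb' : H.b = H'.b := Module.Basis.eq_of_apply_eq hb
  cases H; cases H'
  simp only at hS hb'
  subst hS hb'
  rfl

section Up

variable [Fintype ι] [DecidableEq ι]

/-- The simples indexed by `R` have no extensions with each other. -/
def Orth (H : Heart D ι) (R : Finset ι) : Prop :=
  ∀ i ∈ R, ∀ j ∈ R, D.hom (H.S i) (D.s (H.S j)) = 0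

/-- Product of the reflections in the classes of the simples indexed by `R`. -/
noncomputable def refl (H : Heart D ι) (R : Finset ι) : K →ₗ[ℤ] K :=
  LinearMap.id - ∑ i ∈ R, (D.form.flip (H.b i)).toIntLinearMap.smulRight (H.b i)

omit [Fintype ι] [DecidableEq ι] in
lemma refl_apply (H : Heart D ι) (R : Finset ι) (x : K) :
    H.refl R x = x - ∑ i ∈ R, D.form x (H.b i) • H.b i := by
  simp [refl, LinearMap.sum_apply]

omit [Fintype ι] in
lemma Orth.form {H : Heart D ι} {R : Finset ι} (h : H.Orth R) {i j : ι} (hi : i ∈ R)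
    (hj : j ∈ R) : D.form (H.b i) (H.b j) = if i = j then 2 else 0 := by
  split_ifs with h1
  · subst h1; exact H.form_self i
  · rw [H.form_ne h1, h i hi j hj]; rfl

omit [Fintype ι] in
lemma Orth.form_sum {H : Heart D ι} {R : Finset ι} (h : H.Orth R) (c : ι → ℤ) {j : ι}
    (hj : j ∈ R) : D.form (∑ i ∈ R, c i • H.b i) (H.b j) = 2 * c j := by
  rw [map_sum, AddMonoidHom.finsetSum_apply, Finset.sum_eq_single j]
  · rw [map_zsmul, AddMonoidHom.smul_apply, H.form_self]; simp [mul_comm]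
  · intro i hi hij
    rw [map_zsmul, AddMonoidHom.smul_apply, h.form hi hj, if_neg hij]; simp
  · intro h1; exact absurd hj h1

omit [Fintype ι] in
lemma Orth.form_refl {H : Heart D ι} {R : Finset ι} (h : H.Orth R) (x : K) {j : ι}
    (hj : j ∈ R) : D.form (H.refl R x) (H.b j) = - D.form x (H.b j) := by
  rw [refl_apply, map_sub, AddMonoidHom.sub_apply, h.form_sum _ hj]; ring

omit [Fintype ι] in
lemma Orth.refl_refl {H : Heart D ι} {R : Finset ι} (h : H.Orth R) (x : K) :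
    H.refl R (H.refl R x) = x := by
  rw [refl_apply H R (H.refl R x), Finset.sum_congr rfl (fun i hi => by rw [h.form_refl x hi]),
    refl_apply]
  simp

omit [Fintype ι] in
lemma Orth.refl_mem {H : Heart D ι} {R : Finset ι} (h : H.Orth R) {j : ι} (hj : j ∈ R) :
    H.refl R (H.b j) = - H.b j := by
  rw [refl_apply, Finset.sum_eq_single j, H.form_self]
  · abel
  · intro i hi hij
    rw [h.form hj hi, if_neg hij.symm]; simp
  · intro h1; exact absurd hj h1

omit [Fintype ι] in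
lemma Orth.form_refl_refl {H : Heart D ι} {R : Finset ι} (h : H.Orth R) (x y : K) :
    D.form (H.refl R x) (H.refl R y) = D.form x y := by
  rw [refl_apply H R y, map_sub, map_sum,
    Finset.sum_congr rfl (fun i hi => by rw [map_zsmul, h.form_refl x hi]), refl_apply, map_sub,
    AddMonoidHom.sub_apply, map_sum, AddMonoidHom.finsetSum_apply]
  simp only [map_zsmul, AddMonoidHom.smul_apply, smul_eq_mul, mul_neg, Finset.sum_neg_distrib]
  rw [Finset.sum_congr rfl (fun i _ => by rw [H.form_symm (H.b i) y, mul_comm])]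
  ring

omit [Fintype ι] in
/-- Objects built from the simples in `R`. -/
lemma Orth.hom_R {H : Heart D ι} {R : Finset ι} (h : H.Orth R) {A : D.Obj}
    (hA : H.Lv (fun i n => i ∈ R ∧ n = 0) A) :
    D.cl A = ∑ i ∈ R, (D.hom (H.S i) A : ℤ) • H.b i := by
  induction hA with
  | zero => simp [D.cl_zero, D.hom_zero]
  | @cons A Y B hA hE hB ih =>
    obtain ⟨j, n, ⟨hj, rfl⟩, rfl⟩ := hA
    rw [D.sh_zero] at hE
    have h0 : D.hom B (D.s (H.S j)) = 0 :=
      Lv.hom_left (P := fun i n => i ∈ R ∧ n = 0)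
        (by rintro i n ⟨hi, rfl⟩; simpa using h i hi j hj) hB
    rw [D.cl_ext _ _ _ hE, ih, H.cl_S]
    simp only [D.split_hom h0 hE, Nat.cast_add, add_smul, Finset.sum_add_distrib]
    congr 1
    rw [Finset.sum_eq_single j, H.one]
    · simp
    · intro i _ hij; rw [H.off _ _ hij]; simp
    · intro h1; exact absurd hj h1

omit [Fintype ι] [DecidableEq ι] in
/-- Universal extension. -/
lemma Orth.univ_ext {H : Heart D ι} {R : Finset ι} (h : H.Orth R) {B : D.Obj}
    (h0 : ∀ i ∈ R, D.hom B (H.S i) = 0) :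
    ∃ A Y, H.Lv (fun i n => i ∈ R ∧ n = 0) A ∧ D.Ext A Y B ∧ (∀ i ∈ R, D.hom Y (H.S i) = 0) ∧
      ∀ i ∈ R, D.hom Y (D.s (H.S i)) = 0 := by
  induction hn : ∑ i ∈ R, D.hom B (D.s (H.S i)) using Nat.strong_induction_on generalizing B with
  | _ n ih =>
    by_cases hc : ∀ i ∈ R, D.hom B (D.s (H.S i)) = 0
    · exact ⟨D.zero, B, Lv.zero, D.ext_zero _, h0, hc⟩
    · push Not at hc
      obtain ⟨j, hj, hc⟩ := hc
      obtain ⟨Y, hY, -, -, h3, h4⟩ := D.cone _ _ hc
      have h5 : ∀ i ∈ R, D.hom Y (H.S i) = 0 := by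
        intro i hi
        by_cases hij : j = i
        · subst hij; rw [H.one, h0 j hj] at h3; omega
        · have := D.les' (H.S i) hY
          rw [H.off _ _ hij, h0 i hi] at this; omega
      have h6 : ∑ i ∈ R, D.hom Y (D.s (H.S i)) < n := by
        rw [← hn]
        refine Finset.sum_lt_sum (fun i hi => ?_) ⟨j, hj, ?_⟩
        · have := D.les' (D.s (H.S i)) hY
          rw [h j hj i hi] at this; omega
        · rw [H.rig] at h4; omega
      obtain ⟨A, Z, hA, hZ, h7, h8⟩ := ih _ h6 h5 rfl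
      obtain ⟨F, h9, h10⟩ := D.assoc' hZ hY
      refine ⟨F, Z, Lv.ext hA ?_ h9, h10, h7, h8⟩
      simpa using Lv.simple (H := H) (P := fun i n => i ∈ R ∧ n = 0) (i := j) (n := 0) ⟨hj, rfl⟩

/-- `H'` is the upward tilt of `H` at the simples indexed by `R`. -/
structure IsUp (H : Heart D ι) (R : Finset ι) (H' : Heart D ι) : Prop where
  orth : H.Orth R
  mem : ∀ i ∈ R, H'.S i = D.s (H.S i)
  not_mem : ∀ j, j ∉ R → ∃ A, H.Lv (fun i n => i ∈ R ∧ n = 0) A ∧ D.Ext A (H'.S j) (H.S j) ∧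
    (∀ i ∈ R, D.hom (H'.S j) (H.S i) = 0)
  b : ∀ j, H'.b j = H.refl R (H.b j)

omit [Fintype ι] in
theorem exists_up {H : Heart D ι} {R : Finset ι} (h : H.Orth R) : ∃ H', H.IsUp R H' := by
  have key : ∀ j, ∃ Y, (j ∈ R → Y = D.s (H.S j)) ∧ (j ∉ R →
      ∃ A, H.Lv (fun i n => i ∈ R ∧ n = 0) A ∧ D.Ext A Y (H.S j) ∧
        (∀ i ∈ R, D.hom Y (H.S i) = 0) ∧ ∀ i ∈ R, D.hom Y (D.s (H.S i)) = 0) := by
    intro j
    by_cases hj : j ∈ R
    · exact ⟨_, fun _ => rfl, fun h1 => absurd hj h1⟩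
    · obtain ⟨A, Y, h1⟩ := h.univ_ext (B := H.S j)
        (fun i hi => H.off _ _ (fun h2 => hj (h2 ▸ hi)))
      exact ⟨Y, fun h2 => absurd h2 hj, fun _ => ⟨A, h1⟩⟩
  choose S' h1 h2 using key
  have hRM : ∀ A, H.Lv (fun i n => i ∈ R ∧ n = 0) A → H.M A :=
    fun A hA => hA.mono (fun _ _ h => h.2)
  have hM : ∀ j, j ∉ R → H.M (S' j) := fun j hj => by
    obtain ⟨A, hA, hE, -⟩ := h2 j hj
    exact Lv.ext (hRM A hA) (M.simple H j) hE
  have hcl : ∀ j, D.cl (S' j) = H.refl R (H.b j) := by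
    intro j
    by_cases hj : j ∈ R
    · rw [h1 j hj, D.cl_s, H.cl_S, h.refl_mem hj]
    · obtain ⟨A, hA, hE, h3, h4⟩ := h2 j hj
      rw [D.cl_ext _ _ _ hE, H.cl_S, refl_apply, h.hom_R hA, sub_eq_add_neg, add_comm,
        ← Finset.sum_neg_distrib]
      congr 1
      refine Finset.sum_congr rfl (fun i hi => ?_)
      rw [← neg_smul]
      congr 1
      have hij : i ≠ j := fun h5 => hj (h5 ▸ hi)
      have e1 := (hM j hj).euler (M.simple H i)
      rw [h3 i hi, h4 i hi, D.cl_ext _ _ _ hE, H.cl_S, H.cl_S, map_add, AddMonoidHom.add_apply,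
        h.hom_R hA, h.form_sum _ hi] at e1
      have e2 := D.les (H.S i) _ _ _ hE
      rw [H.off _ _ hij] at e2
      have e3 := (M.simple H j).hom_sub (M.simple H i) hE
      omega
  have hoff : ∀ a b, a ∉ R → b ∉ R → D.hom (S' a) (S' b) ≤ D.hom (H.S a) (H.S b) := by
    intro a b ha hb
    obtain ⟨A, hA, hE, h3, -⟩ := h2 a ha
    obtain ⟨A', hA', hE', -⟩ := h2 b hb
    have e1 := D.les (S' a) _ _ _ hE'
    have e2 : D.hom (S' a) A' = 0 :=
      Lv.hom_right (by rintro i n ⟨hi, rfl⟩; simpa using h3 i hi) hA'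
    have e3 := D.les' (H.S b) hE
    have e4 : D.hom A (H.S b) = 0 :=
      Lv.hom_left (by
        rintro i n ⟨hi, rfl⟩
        simpa using H.off i b (fun h5 => hb (h5 ▸ hi))) hA
    omega
  have hone : ∀ i, D.hom (S' i) (S' i) = 1 := by
    intro i
    by_cases hi : i ∈ R
    · rw [h1 i hi, D.hom_s, H.one]
    · have e1 := hoff i i hi hi
      rw [H.one] at e1
      have e2 : D.hom (S' i) (S' i) ≠ 0 := fun h0 => by
        have e3 := hcl i
        rw [D.eq_zero _ h0, D.cl_zero] at e3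
        have e4 := h.refl_refl (H.b i)
        rw [← e3, map_zero] at e4
        exact H.b.ne_zero i e4.symm
      omega
  refine ⟨⟨S', H.b.map (LinearEquiv.ofInvolutive (H.refl R) h.refl_refl), fun j => hcl j,
    ?_, hone, ?_, ?_, ?_⟩, h, h1, fun j hj => ?_, fun j => rfl⟩
  · intro a b n hn
    by_cases ha : a ∈ R <;> by_cases hb : b ∈ R
    · rw [h1 a ha, h1 b hb, D.sh_s, ← D.s_sh, D.hom_s]; exact H.neg _ _ _ hn
    · rw [h1 a ha, ← D.sh_one, D.hom_sh_sh]
      exact (M.simple H a).hom_neg (hM b hb) (by omega)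
    · rw [h1 b hb, D.sh_s]
      by_cases h3 : n + 1 = 0
      · obtain ⟨A, -, -, h4, -⟩ := h2 a ha
        rw [h3, D.sh_zero]; exact h4 b hb
      · exact (hM a ha).hom_neg (M.simple H b) (by omega)
    · exact (hM a ha).hom_neg (hM b hb) hn
  · intro a b hab
    by_cases ha : a ∈ R <;> by_cases hb : b ∈ R
    · rw [h1 a ha, h1 b hb, D.hom_s]; exact H.off _ _ hab
    · rw [h1 a ha, ← D.sh_one, D.hom_sh_left]
      exact (M.simple H a).hom_neg (hM b hb) (by omega)
    · obtain ⟨A, -, -, -, h4⟩ := h2 a ha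
      rw [h1 b hb]; exact h4 b hb
    · have := hoff a b ha hb
      rw [H.off _ _ hab] at this; omega
  · intro a
    by_cases ha : a ∈ R
    · rw [h1 a ha, D.hom_s]; exact H.rig a
    · have e1 := (hM a ha).euler (hM a ha)
      rw [hcl, h.form_refl_refl, H.form_self, hone] at e1
      omega
  · intro Y
    refine TD.Cl.mono ?_ (H.gen Y)
    rintro _ ⟨j, n, rfl⟩
    have hR : ∀ i ∈ R, ∀ m : ℤ,
        D.Cl {A | ∃ i n, A = D.sh n (S' i)} (D.sh m (H.S i)) := fun i hi m =>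
      TD.Cl.of_mem ⟨i, m - 1, by rw [h1 i hi, D.sh_s]; simp⟩
    by_cases hj : j ∈ R
    · exact hR j hj n
    · obtain ⟨A, hA, hE, -⟩ := h2 j hj
      refine TD.Cl.ext (TD.Cl.of_mem ⟨j, n, rfl⟩) ?_ ((D.ext_sh n).2 (D.rot1 hE))
      rw [D.sh_sh]
      have hA' : H.Lv (fun i _ => i ∈ R) (D.sh (n + 1) A) := hA.sh _ (fun _ _ h => h.1)
      refine TD.Cl.mono ?_ hA'
      rintro _ ⟨i, m, hi, rfl⟩
      exact hR i hi m
  · obtain ⟨A, hA, hE, h3, -⟩ := h2 j hj
    exact ⟨A, hA, hE, h3⟩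

omit [Fintype ι] [DecidableEq ι] in
lemma IsUp.M_not_mem {H H' : Heart D ι} {R : Finset ι} (h : H.IsUp R H') {j : ι} (hj : j ∉ R) :
    H.M (H'.S j) := by
  obtain ⟨A, hA, hE, -⟩ := h.not_mem j hj
  exact Lv.ext (hA.mono (fun _ _ h => h.2)) (M.simple H j) hE

omit [Fintype ι] [DecidableEq ι] in
/-- The aisle of an upward tilt. -/
theorem IsUp.U_iff {H H' : Heart D ι} {R : Finset ι} (h : H.IsUp R H') (Y : D.Obj) :
    H'.U 0 Y ↔ H.U 0 Y ∧ ∀ i ∈ R, D.hom Y (H.S i) = 0 := by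
  constructor
  · intro hY
    refine Lv.ind (R := fun Y => H.U 0 Y ∧ ∀ i ∈ R, D.hom Y (H.S i) = 0)
      ⟨Lv.zero, fun _ _ => D.zero_hom _⟩ ?_ ?_ hY
    · intro j n hn
      by_cases hj : j ∈ R
      · rw [h.mem j hj, D.sh_s]
        exact ⟨Lv.simple (by omega), fun i _ =>
          hom_U_V (a := n + 1) (b := 0) (by omega) (Lv.simple (le_refl _))
            (M_iff.1 (M.simple H i)).2⟩
      · have h1 : H.U n (D.sh n (H'.S j)) := by
          simpa using (U_sh n).2 (M_iff.1 (h.M_not_mem hj)).1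
        refine ⟨h1.mono hn, fun i hi => ?_⟩
        by_cases h2 : n = 0
        · obtain ⟨A, -, -, h3⟩ := h.not_mem j hj
          rw [h2, D.sh_zero]; exact h3 i hi
        · exact hom_U_V (b := 0) (by omega) h1 (M_iff.1 (M.simple H i)).2
    · intro A Y B hE hA hB
      refine ⟨Lv.ext hA.1 hB.1 hE, fun i hi => ?_⟩
      have := D.les' (H.S i) hE
      rw [hA.2 i hi, hB.2 i hi] at this; omega
  · rintro ⟨h1, h2⟩
    refine Heart.U_iff.2 (fun j n hn => ?_)
    by_cases hj : j ∈ R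
    · rw [h.mem j hj, D.sh_s]
      by_cases h3 : n + 1 = 0
      · rw [h3, D.sh_zero]; exact h2 j hj
      · exact Heart.U_iff.1 h1 j _ (by omega)
    · exact hom_U_V hn h1 (by simpa using (V_sh n).2 (M_iff.1 (h.M_not_mem hj)).2)

omit [Fintype ι] [DecidableEq ι] in
theorem IsUp.unique {H H₁ H₂ : Heart D ι} {R : Finset ι} (h₁ : H.IsUp R H₁) (h₂ : H.IsUp R H₂) :
    H₁ = H₂ :=
  eq_of_U (fun Y => by rw [h₁.U_iff, h₂.U_iff]) (fun i => by rw [h₁.b, h₂.b])

end Up

end Heart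

end Pool.Agent.HT
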