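import Pool.Agent.Lib.HT.Comp
import Pool.Agent.Lib.HT.Core
import Pool.Agent.Lib.HT.AffR
import Pool.Agent.Lib.HT.Sph

set_option autoImplicit false
set_option linter.unusedSectionVars false

/-! The pure part of the trichotomy for convex families on the chambers. -/

namespace Pool.Agent.HT.Tits

open Pool.Agent.Lib.MP_6d85b4_al CoxeterSystem

variable {S : Type} [Fintype S] [DecidableEq S] {M : CoxeterMatrix S} {L C : Finset S}

variable (M) in
/-- the coordinate `s` as seen from the chamber `w` -/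
noncomputable def co (w : M.Group) (s : S) : (S → ℝ) →ₗ[ℝ] ℝ := (LinearMap.proj s).comp (rho M w⁻¹)

theorem co_apply (w : M.Group) (s : S) (x : S → ℝ) : co M w s x = rho M w⁻¹ x s := rfl

theorem co_rho (w : M.Group) (s : S) (x : S → ℝ) : co M w s (rho M w x) = x s := by
  rw [co_apply, rho_inv]

theorem ch_co (w : M.Group) (s : S) : Ch M L (co M w s) w := fun t _ => by
  rw [co_rho]
  exact pos_al t s

theorem co_ne (w : M.Group) (s : S) : co M w s ≠ 0 := fun e => by
  have := co_rho (M := M) w s (al s)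
  rw [e, al_self, LinearMap.zero_apply] at this
  exact zero_ne_one this

theorem co_res {w u : M.Group} (hu : u ∈ W M L) {s : S} (hs : s ∉ L) :
    co M (w * u) s = co M w s := LinearMap.ext fun x => by
  rw [co_apply, co_apply, mul_inv_rev, rho_mul, coord_out (inv_mem hu) hs]

theorem th_sum' (th : (S → ℝ) →ₗ[ℝ] ℝ) (w : M.Group) (x : S → ℝ) :
    th x = ∑ s, rho M w⁻¹ x s * th (rho M w (al s)) := by
  rw [← th_sum, rho_inv']

theorem eq_zero_of_al {th : (S → ℝ) →ₗ[ℝ] ℝ} {w : M.Group} (h : ∀ s, th (rho M w (al s)) = 0) :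
    th = 0 := LinearMap.ext fun x => by
  rw [th_sum' th w, LinearMap.zero_apply]
  exact Finset.sum_eq_zero fun s _ => by rw [h s, mul_zero]

variable (M) in
/-- each functional is largest on the vector of its own chamber -/
def HN (a : M.Group → S → ℝ) : Prop :=
  ∀ w w' th, Ch M Finset.univ th w → th (a w') ≤ th (a w)

variable (M) in
/-- the functionals of the Tits cone that are nonpositive on the family -/
def Mc (a : M.Group → S → ℝ) : Set ((S → ℝ) →ₗ[ℝ] ℝ) :=
  {th | th ≠ 0 ∧ ∃ w, Ch M Finset.univ th w ∧ th (a w) ≤ 0}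

variable {a : M.Group → S → ℝ}

theorem HN.mem_Mc (h : HN M a) {th : (S → ℝ) →ₗ[ℝ] ℝ} :
    th ∈ Mc M a ↔ th ≠ 0 ∧ Cone M Finset.univ th ∧ ∀ w, th (a w) ≤ 0 :=
  ⟨fun ⟨n, w, c, k⟩ => ⟨n, ⟨w, mem_W_univ w, c⟩, fun w' => (h w w' th c).trans k⟩,
    fun ⟨n, ⟨w, _, c⟩, k⟩ => ⟨n, w, c, k w⟩⟩

theorem Cone.comb_ne (hc : Aff.Conn M Finset.univ) (hi : Infinite M.Group)
    {t t' : (S → ℝ) →ₗ[ℝ] ℝ} (ht : Cone M Finset.univ t) (ht' : Cone M Finset.univ t')
    (h0 : t ≠ 0) {p q : ℝ} (hp : 0 < p) (hq : 0 ≤ q) : p • t + q • t' ≠ 0 := fun e => by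
  have : Infinite (W M Finset.univ) :=
    Infinite.of_injective (fun w : M.Group => (⟨w, mem_W_univ w⟩ : W M Finset.univ))
      fun _ _ e => congrArg Subtype.val e
  have k := ht'.comb ht' (div_nonneg hq hp.le) le_rfl
  have e1 : (q / p) • t' + (0 : ℝ) • t' = -t := by
    have : q • t' = -(p • t) := eq_neg_of_add_eq_zero_right e
    rw [zero_smul, add_zero, div_eq_inv_mul, mul_smul, this, smul_neg, smul_smul,
      inv_mul_cancel₀ hp.ne', one_smul]
  rw [e1] at k
  exact h0 (eq_zero_of_al (M := M) (w := 1) fun s => by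
    rw [rho_one]; exact cone_neg (conn_of_aff hc) this ht k s (Finset.mem_univ s))

theorem HN.Mc_comb (h : HN M a) (hc : Aff.Conn M Finset.univ) (hi : Infinite M.Group)
    {t t' : (S → ℝ) →ₗ[ℝ] ℝ} (ht : t ∈ Mc M a) (ht' : t' ∈ Mc M a) {p q : ℝ} (hp : 0 < p)
    (hq : 0 < q) : p • t + q • t' ∈ Mc M a := by
  obtain ⟨n, c, k⟩ := h.mem_Mc.1 ht
  obtain ⟨-, c', k'⟩ := h.mem_Mc.1 ht'
  refine h.mem_Mc.2 ⟨c.comb_ne hc hi c' n hp hq.le, c.comb c' hp.le hq.le, fun w => ?_⟩
  rw [LinearMap.add_apply, LinearMap.smul_apply, LinearMap.smul_apply, smul_eq_mul, smul_eq_mul]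
  exact add_nonpos (mul_nonpos_of_nonneg_of_nonpos hp.le (k w))
    (mul_nonpos_of_nonneg_of_nonpos hq.le (k' w))

/-- the support lies in the face of the functional, which is proper -/
theorem sup_Jz {th : (S → ℝ) →ₗ[ℝ] ℝ} {w : M.Group} {x : S → ℝ} (h : Ch M Finset.univ th w)
    (hp : PosAt M w x) (h0 : th x ≤ 0) : Sup (Jz M Finset.univ th w) (rho M w⁻¹ x) := by
  intro s hs
  have n : ∀ s ∈ Finset.univ, 0 ≤ rho M w⁻¹ x s * th (rho M w (al s)) :=
    fun s hs => mul_nonneg (hp s) (h s hs)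
  rw [th_sum' th w] at h0
  have := (Finset.sum_eq_zero_iff_of_nonneg n).1 (le_antisymm h0 (Finset.sum_nonneg n)) s
    (Finset.mem_univ s)
  exact (mul_eq_zero.1 this).resolve_right fun e => hs (mem_Jz.2 ⟨Finset.mem_univ s, e⟩)

theorem Jz_ne {th : (S → ℝ) →ₗ[ℝ] ℝ} (h : th ≠ 0) (w : M.Group) :
    Jz M Finset.univ th w ≠ Finset.univ := fun e =>
  h (eq_zero_of_al (w := w) fun s => (mem_Jz.1 (e.ge (Finset.mem_univ s))).2)

theorem full_of_Mc (hp : ∀ w, PosAt M w (a w)) (h : Mc M a = ∅) (w : M.Group) (s : S) :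
    0 < rho M w⁻¹ (a w) s := by
  refine (hp w s).lt_of_ne fun e => ?_
  exact Set.eq_empty_iff_forall_notMem.1 h (co M w s) ⟨co_ne w s, w, ch_co w s, e.ge⟩

/-- a chamber of least support -/
theorem min_support (h : HN M a) (hp : ∀ w, PosAt M w (a w)) (h0 : ∀ w, a w ≠ 0)
    (hm : (Mc M a).Nonempty) : ∃ w, ∃ L : Finset S, L.Nonempty ∧ L ≠ Finset.univ ∧
      ∀ u ∈ W M L, ∀ s, rho M (w * u)⁻¹ (a (w * u)) s ≠ 0 ↔ s ∈ L := by
  classical
  let sp : M.Group → Finset S := fun w => Finset.univ.filter fun s => rho M w⁻¹ (a w) s ≠ 0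
  have ms : ∀ w s, s ∈ sp w ↔ rho M w⁻¹ (a w) s ≠ 0 := fun w s => by simp [sp]
  obtain ⟨w, hw⟩ := exists_minimalFor_of_wellFoundedLT (fun _ => True) (fun w => (sp w).card)
    ⟨1, trivial⟩
  have hw : ∀ v, (sp w).card ≤ (sp v).card := fun v =>
    (le_total _ _).elim id fun c => hw.2 trivial c
  refine ⟨w, sp w, ?_, ?_, fun u hu s => ?_⟩
  · by_contra c
    refine h0 w ?_
    have : rho M w⁻¹ (a w) = 0 := funext fun s => by_contra fun e => c ⟨s, (ms w s).2 e⟩
    rw [← rho_inv' w (a w), this, map_zero]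
  · obtain ⟨th, n, v, c, k⟩ := hm
    intro e
    refine Jz_ne n v (Finset.eq_univ_of_forall fun s => by_contra fun b => ?_)
    have e1 : sp v = Finset.univ :=
      Finset.eq_of_subset_of_card_le (Finset.subset_univ _) (e ▸ hw v)
    exact (ms v s).1 (e1.ge (Finset.mem_univ s)) (sup_Jz c (hp v) k s b)
  · have sub : sp (w * u) ⊆ sp w := fun t ht => by_contra fun b => by
      refine (ms _ t).1 ht (le_antisymm ?_ (hp _ t))
      have := h w (w * u) _ (ch_co w t)
      rw [co_apply w t (a w), not_not.1 (mt (ms w t).2 b), ← co_res hu b] at this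
      exact this
    rw [← ms, Finset.eq_of_subset_of_card_le sub (hw _)]

variable (M) in
/-- the part of `x` supported on `C` as seen from the chamber `v` -/
noncomputable def part (C : Finset S) (v : M.Group) (x : S → ℝ) : S → ℝ :=
  rho M v fun s => if s ∈ C then rho M v⁻¹ x s else 0

end Pool.Agent.HT.Tits
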