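import Pool.Agent.Lib.HT.Tilt

set_option autoImplicit false

/-! Downward tilts, unit intervals of hearts. -/

namespace Pool.Agent.HT

universe u

variable {K : Type} [AddCommGroup K]

namespace Heart

variable {D : TD.{u} K} {ι : Type}

lemma eq_of_V {H H' : Heart D ι} (h : ∀ Y, H.V 0 Y ↔ H'.V 0 Y) (hb : ∀ i, H.b i = H'.b i) :
    H = H' := by
  refine eq_of_U (fun Y => ⟨U_of_V ?_ Y, U_of_V ?_ Y⟩) hb
  · exact V_shift (fun Y => (h Y).2) (-1)
  · exact V_shift (fun Y => (h Y).1) (-1)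

lemma IsUp.U_le {H H' : Heart D ι} {R : Finset ι} (h : H.IsUp R H') (a : ℤ) (Y : D.Obj)
    (hY : H'.U a Y) : H.U a Y := by
  simpa using U_shift (fun Y hY => ((h.U_iff Y).1 hY).1) a Y (by simpa using hY)

lemma IsUp.le_U {H H' : Heart D ι} {R : Finset ι} (h : H.IsUp R H') (a : ℤ) (Y : D.Obj)
    (hY : H.U (a + 1) Y) : H'.U a Y := by
  have h1 : ∀ Y, H.U 1 Y → H'.U 0 Y := fun Y hY =>
    (h.U_iff Y).2 ⟨hY.mono (by omega), fun i _ =>
      hom_U_V (by omega) hY (M_iff.1 (M.simple H i)).2⟩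
  simpa using U_shift h1 a Y (by rwa [add_comm])

lemma IsUp.V_le {H H' : Heart D ι} {R : Finset ι} (h : H.IsUp R H') (a : ℤ) (Y : D.Obj)
    (hY : H.V a Y) : H'.V a Y := V_of_U (h.U_le (a + 1)) Y hY

lemma IsUp.le_V {H H' : Heart D ι} {R : Finset ι} (h : H.IsUp R H') (a : ℤ) (Y : D.Obj)
    (hY : H'.V a Y) : H.V (a + 1) Y := V_of_U (h.le_U (a + 1)) Y hY

/-- The co-aisle below an upward tilt. -/
theorem IsUp.V_iff {H H' : Heart D ι} {R : Finset ι} (h : H.IsUp R H') (Y : D.Obj) :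
    H.V 0 Y ↔ H'.V 0 Y ∧ ∀ i ∈ R, D.hom (H'.S i) Y = 0 := by
  constructor
  · intro hY
    refine ⟨h.V_le 0 Y hY, fun i hi => ?_⟩
    rw [h.mem i hi, ← D.sh_one]
    exact Heart.V_iff.1 hY i 1 (by omega)
  · rintro ⟨h1, h2⟩
    have hR : ∀ j ∈ R, ∀ n : ℤ, 0 < n → D.hom (D.sh n (H.S j)) Y = 0 := by
      intro j hj n hn
      have e : D.sh n (H.S j) = D.sh (n - 1) (H'.S j) := by rw [h.mem j hj, D.sh_s]; simp
      rw [e]
      by_cases h3 : n - 1 = 0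
      · rw [h3, D.sh_zero]; exact h2 j hj
      · exact Heart.V_iff.1 h1 j _ (by omega)
    refine Heart.V_iff.2 (fun j n hn => ?_)
    by_cases hj : j ∈ R
    · exact hR j hj n hn
    · obtain ⟨A, hA, hE, -⟩ := h.not_mem j hj
      have e1 := D.les' Y ((D.ext_sh n).2 (D.rot1 hE))
      have e2 := Heart.V_iff.1 h1 j n hn
      have e3 : D.hom (D.sh n (D.sh 1 A)) Y = 0 := by
        rw [D.sh_sh]
        have hA' : H.Lv (fun i m => i ∈ R ∧ 0 < m) (D.sh (n + 1) A) :=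
          hA.sh _ (fun _ _ h => ⟨h.1, by omega⟩)
        exact Lv.hom_left (fun i m hi => hR i hi.1 m hi.2) hA'
      omega

section

variable [DecidableEq ι]

lemma IsUp.refl_eq {H H' : Heart D ι} {R : Finset ι} (h : H.IsUp R H') :
    H'.refl R = H.refl R := by
  ext x
  rw [refl_apply, refl_apply]
  congr 1
  refine Finset.sum_congr rfl (fun i hi => ?_)
  rw [h.b, h.orth.refl_mem hi]; simp

lemma IsUp.orth' {H H' : Heart D ι} {R : Finset ι} (h : H.IsUp R H') : H'.Orth R := by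
  intro i hi j hj
  rw [h.mem i hi, h.mem j hj, D.hom_s]; exact h.orth i hi j hj

lemma IsUp.b' {H H' : Heart D ι} {R : Finset ι} (h : H.IsUp R H') (j : ι) :
    H.b j = H'.refl R (H'.b j) := by
  rw [h.refl_eq, h.b, h.orth.refl_refl]

theorem IsUp.unique' {H₁ H₂ H : Heart D ι} {R : Finset ι} (h₁ : H₁.IsUp R H) (h₂ : H₂.IsUp R H) :
    H₁ = H₂ :=
  eq_of_V (fun Y => by rw [h₁.V_iff, h₂.V_iff]) (fun i => by rw [h₁.b', h₂.b'])

omit [DecidableEq ι] in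
lemma op_refl (H : Heart D ι) (R : Finset ι) : H.op.refl R = H.refl R := by
  ext x
  rw [refl_apply, refl_apply]
  congr 1
  refine Finset.sum_congr rfl (fun i _ => ?_)
  show D.form (H.b i) x • H.b i = _
  rw [H.form_symm]

omit [DecidableEq ι] in
lemma Orth.op {H : Heart D ι} {R : Finset ι} (h : H.Orth R) : H.op.Orth R := by
  intro i hi j hj
  show D.hom (D.s⁻¹ (H.S j)) (H.S i) = 0
  rw [← D.hom_s]; simpa using h j hj i hi

theorem exists_down {H : Heart D ι} {R : Finset ι} (h : H.Orth R) : ∃ H', IsUp H' R H := by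
  obtain ⟨H₁, h₁⟩ := exists_up h.op
  have hS : ∀ i ∈ R, H.S i = D.s (H₁.unop.S i) := fun i hi => by
    have : H₁.S i = D.s⁻¹ (H.S i) := h₁.mem i hi
    show H.S i = D.s (H₁.S i)
    rw [this]; simp
  have ho : H₁.unop.Orth R := by
    intro i hi j hj
    rw [← D.hom_s, ← hS i hi, ← hS j hj]; exact h i hi j hj
  obtain ⟨H₂, h₂⟩ := exists_up ho
  have hV : ∀ Y, H₁.unop.V (-1) Y → H.V (-1) Y := fun Y hY => by
    have e1 : H₁.unop.op.U 1 Y := (op_U _ _ _).2 hY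
    exact (op_U _ _ _).1 (h₁.U_le 1 Y e1)
  have e : H₂ = H := by
    refine eq_of_U (fun Y => ?_) (fun i => ?_)
    · rw [h₂.U_iff]
      constructor
      · rintro ⟨h3, h4⟩
        have hR : ∀ j ∈ R, ∀ n : ℤ, n < 0 → D.hom Y (D.sh n (H.S j)) = 0 := by
          intro j hj n hn
          rw [hS j hj, D.sh_s]
          by_cases h5 : n + 1 = 0
          · rw [h5, D.sh_zero]; exact h4 j hj
          · exact Heart.U_iff.1 h3 j _ (by omega)
        refine Heart.U_iff.2 (fun j n hn => ?_)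
        by_cases hj : j ∈ R
        · exact hR j hj n hn
        · obtain ⟨A, hA, hE, -⟩ := h₁.not_mem j hj
          have hE' : D.Ext (H.S j) (H₁.unop.S j) A := hE
          have e1 := D.les Y _ _ _ ((D.ext_sh n).2 (D.rot' hE'))
          have e2 := Heart.U_iff.1 h3 j n hn
          have e3 : D.hom Y (D.sh n (D.sh (-1) A)) = 0 := by
            rw [D.sh_sh]
            have hA' : H.Lv (fun i m => i ∈ R ∧ m < 0) (D.sh (n + -1) A) :=
              ((op_Lv _ _ _).1 hA).sh _ (fun _ _ h => ⟨h.1, by omega⟩)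
            exact Lv.hom_right (fun i m hi => hR i hi.1 m hi.2) hA'
          omega
      · intro h3
        refine ⟨U_of_V (a := 0) (b := 0) hV Y h3, fun i hi => ?_⟩
        have := Heart.U_iff.1 h3 i (-1) (by omega)
        rwa [hS i hi, D.sh_s, neg_add_cancel, D.sh_zero] at this
    · have e1 : H₁.unop.refl R = H.refl R := by
        rw [← op_refl, op_unop, h₁.refl_eq, op_refl]
      have e2 : H₁.unop.b i = H.refl R (H.b i) := by
        rw [← op_refl]; exact h₁.b i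
      rw [h₂.b, e1, e2, h.refl_refl]
  exact ⟨_, e ▸ h₂⟩

theorem IsUp.op {H H' : Heart D ι} {R : Finset ι} (h : H.IsUp R H') : H'.op.IsUp R H.op := by
  obtain ⟨H₁, h₁⟩ := exists_up h.orth'.op
  have e : H₁ = H.op := by
    refine eq_of_U (fun Y => ?_) (fun i => ?_)
    · rw [h₁.U_iff, op_U, op_U, neg_zero, h.V_iff]; rfl
    · rw [h₁.b, op_refl]; exact (h.b' i).symm
  exact e ▸ h₁

end

/-- The shifted heart `H[n]`; the classes are multiplied by the sign. -/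
noncomputable def sh (H : Heart D ι) (n : ℤ) : Heart D ι where
  S i := D.sh n (H.S i)
  b := H.b.unitsSMul (fun _ => n.negOnePow)
  cl_S i := by rw [D.cl_sh, H.cl_S, Module.Basis.unitsSMul_apply]; rfl
  neg i j m hm := by
    rw [D.sh_sh, D.hom_sh_sh, show m + n - n = m by ring]; exact H.neg _ _ _ hm
  one i := by rw [D.hom_sh]; exact H.one i
  off i j h := by rw [D.hom_sh]; exact H.off i j h
  rig i := by rw [D.s_sh, ← D.sh_s, D.hom_sh]; exact H.rig i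
  gen Y := by
    refine TD.Cl.mono ?_ (H.gen Y)
    rintro _ ⟨i, m, rfl⟩
    exact TD.Cl.of_mem ⟨i, m - n, by simp⟩

lemma sh_Lv (H : Heart D ι) (n : ℤ) (P : ι → ℤ → Prop) (Y : D.Obj) :
    (H.sh n).Lv P Y ↔ H.Lv (fun i m => P i (m - n)) Y := by
  have e : {A | ∃ i m, P i m ∧ A = D.sh m ((H.sh n).S i)} =
      {A | ∃ i m, P i (m - n) ∧ A = D.sh m (H.S i)} := by
    ext A
    constructor
    · rintro ⟨i, m, h, rfl⟩
      exact ⟨i, m + n, by simpa using h, D.sh_sh _ _ _⟩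
    · rintro ⟨i, m, h, rfl⟩
      exact ⟨i, m - n, h, by simp [sh]⟩
  unfold Lv
  rw [e]

lemma sh_U (H : Heart D ι) (n a : ℤ) (Y : D.Obj) : (H.sh n).U a Y ↔ H.U (a + n) Y := by
  unfold U
  rw [sh_Lv]
  exact ⟨Lv.mono (fun _ _ h => by omega), Lv.mono (fun _ _ h => by omega)⟩

lemma sh_V (H : Heart D ι) (n a : ℤ) (Y : D.Obj) : (H.sh n).V a Y ↔ H.V (a + n) Y := by
  unfold V
  rw [sh_Lv]
  exact ⟨Lv.mono (fun _ _ h => by omega), Lv.mono (fun _ _ h => by omega)⟩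

lemma sh_b (H : Heart D ι) (n : ℤ) (i : ι) :
    (H.sh n).b i = ((n.negOnePow : ℤˣ) : ℤ) • H.b i := by
  rw [← (H.sh n).cl_S, ← H.cl_S, ← D.cl_sh]; rfl

/-- `H'` lies in the unit interval between `H` and `H[1]`. -/
structure Unit (H H' : Heart D ι) : Prop where
  lo : ∀ Y, H'.U 0 Y → H.U 0 Y
  hi : ∀ Y, H.U 1 Y → H'.U 0 Y

lemma Unit.refl (H : Heart D ι) : H.Unit H := ⟨fun _ h => h, fun _ h => h.mono (by omega)⟩

lemma Unit.lo' {H H' : Heart D ι} (h : H.Unit H') (a : ℤ) (Y : D.Obj) (hY : H'.U a Y) :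
    H.U a Y := by simpa using U_shift h.lo a Y (by simpa using hY)

lemma Unit.hi' {H H' : Heart D ι} (h : H.Unit H') (a : ℤ) (Y : D.Obj) (hY : H.U (a + 1) Y) :
    H'.U a Y := by simpa using U_shift h.hi a Y (by rwa [add_comm])

lemma Unit.Vlo {H H' : Heart D ι} (h : H.Unit H') (a : ℤ) (Y : D.Obj) (hY : H.V a Y) :
    H'.V a Y := V_of_U (h.lo' (a + 1)) Y hY

lemma Unit.Vhi {H H' : Heart D ι} (h : H.Unit H') (a : ℤ) (Y : D.Obj) (hY : H'.V a Y) :
    H.V (a + 1) Y := V_of_U (h.hi' (a + 1)) Y hY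

/-- Decomposition of an object of the tilted heart. -/
lemma Unit.dec {H H' : Heart D ι} (h : H.Unit H') {Y : D.Obj} (hY : H'.M Y) :
    ∃ A B, H.M A ∧ H'.M (D.sh 1 A) ∧ H.M B ∧ H'.M B ∧ D.Ext (D.sh 1 A) Y B := by
  obtain ⟨A, B, hA, hB, hE⟩ := H.trunc 1 Y
  obtain ⟨hU, hV⟩ := M_iff.1 hY
  have hB0 : H.V 0 B := by simpa using hB
  have hBm : H.V (-1) (D.sh (-1) B) := by simpa using (V_sh (-1)).2 hB0
  have hA1 : H.U 2 (D.sh 1 A) := (U_sh (a := 1) 1).2 hA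
  have e : D.sh 1 (D.sh (-1) A) = A := by simp
  refine ⟨D.sh (-1) A, B, M_iff.2 ⟨?_, ?_⟩, M_iff.2 ⟨?_, ?_⟩, M_iff.2 ⟨?_, hB0⟩,
    M_iff.2 ⟨?_, h.Vlo 0 B hB0⟩, by rwa [e]⟩
  · simpa using (U_sh (-1)).2 hA
  · have : H.V 1 A := Lv.ext (hBm.mono (by omega)) (h.Vhi 0 Y hV) (D.rot' hE)
    simpa using (V_sh (-1)).2 this
  · rw [e]; exact h.hi A hA
  · rw [e]; exact Lv.ext ((h.Vlo _ _ hBm).mono (by omega)) hV (D.rot' hE)
  · exact Lv.ext (h.lo Y hU) (hA1.mono (by omega)) (D.rot1 hE)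
  · exact Lv.ext hU ((h.hi' 1 _ hA1).mono (by omega)) (D.rot1 hE)

/-- Decomposition of an object of the lower heart. -/
lemma Unit.dec' {H H' : Heart D ι} (h : H.Unit H') {Y : D.Obj} (hY : H.M Y) :
    ∃ A B, H.M A ∧ H'.M A ∧ H.M B ∧ H'.M (D.sh 1 B) ∧ D.Ext A Y B := by
  obtain ⟨A, B, hA, hB, hE⟩ := H'.trunc 0 Y
  obtain ⟨hU, hV⟩ := M_iff.1 hY
  have hB0 : H'.V (-1) B := by simpa using hB
  have hBm : H'.V (-2) (D.sh (-1) B) := by simpa using (V_sh (a := -1) (-1)).2 hB0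
  have hA1 : H'.U 1 (D.sh 1 A) := by simpa using (U_sh 1).2 hA
  have hAV : H.V 0 A := Lv.ext ((h.Vhi _ _ hBm).mono (by omega)) hV (D.rot' hE)
  have hBU : H.U 0 B := Lv.ext hU ((h.lo' _ _ hA1).mono (by omega)) (D.rot1 hE)
  refine ⟨A, B, M_iff.2 ⟨h.lo A hA, hAV⟩, M_iff.2 ⟨hA, h.Vlo 0 A hAV⟩,
    M_iff.2 ⟨hBU, by simpa using h.Vhi _ _ hB0⟩, M_iff.2 ⟨h.hi _ ?_, ?_⟩, hE⟩
  · simpa using (U_sh 1).2 hBU
  · simpa using (V_sh 1).2 hB0

/-- A simple of a heart of the unit interval lies in `H` or in `H[1]`. -/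
lemma Unit.simple {H H' : Heart D ι} (h : H.Unit H') (i : ι) :
    H.M (H'.S i) ∨ H.M (D.sh (-1) (H'.S i)) := by
  obtain ⟨A, B, h1, h2, h3, h4, hE⟩ := h.dec (M.simple H' i)
  rcases h2.sub_simple h4 hE with h5 | h5
  · left
    rw [h5] at hE
    rw [D.eq_of_ext_zero _ _ hE]; exact h3
  · right
    rw [h5] at hE
    rw [← D.eq_of_ext_zero_right hE]; simpa using h1

lemma Unit.up {H H' H'' : Heart D ι} {R : Finset ι} (h : H.Unit H') (hu : H'.IsUp R H'')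
    (hR : ∀ i ∈ R, H.M (H'.S i)) : H.Unit H'' :=
  ⟨fun Y hY => h.lo Y (hu.U_le 0 Y hY), fun Y hY => (hu.U_iff Y).2 ⟨h.hi Y hY, fun i hi =>
    hom_U_V (by omega) hY (M_iff.1 (hR i hi)).2⟩⟩

lemma Unit.down {H H' H'' : Heart D ι} {R : Finset ι} (h : H.Unit H') (hu : H''.IsUp R H')
    (hR : ∀ i ∈ R, H.M (D.sh (-1) (H'.S i))) : H.Unit H'' := by
  refine ⟨U_of_V (fun Y hY => ?_), fun Y hY => hu.U_le 0 Y (h.hi Y hY)⟩
  have h1 : H.V 0 (D.sh 1 Y) := by simpa using (V_sh 1).2 hY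
  have h2 : H''.V 0 (D.sh 1 Y) := by
    refine (hu.V_iff _).2 ⟨h.Vlo 0 _ h1, fun i hi => ?_⟩
    have h3 : H.U 1 (H'.S i) := by simpa using (U_sh 1).2 (M_iff.1 (hR i hi)).1
    exact hom_U_V (by omega) h3 h1
  simpa using (V_sh (-1)).2 h2

/-- Two hearts of one unit interval on whose classes one functional is positive have the same
aisle. -/
theorem Unit.U_of_pos {H H₁ H₂ : Heart D ι} (h₁ : H.Unit H₁) (h₂ : H.Unit H₂) (θ : K →+ ℝ)
    (p₁ : ∀ i, 0 < θ (H₁.b i)) (p₂ : ∀ i, 0 < θ (H₂.b i)) (Y : D.Obj) (hY : H₁.U 0 Y) :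
    H₂.U 0 Y := by
  have pos : ∀ H' : Heart D ι, (∀ i, 0 < θ (H'.b i)) → ∀ X, H'.M X →
      X = D.zero ∨ 0 < θ (D.cl X) := by
    intro H' p X hX
    have : 0 ≤ θ (D.cl X) ∧ (X = D.zero ∨ 0 < θ (D.cl X)) := by
      refine Lv.ind (R := fun X => 0 ≤ θ (D.cl X) ∧ (X = D.zero ∨ 0 < θ (D.cl X)))
        ⟨by simp [D.cl_zero], Or.inl rfl⟩ ?_ ?_ hX
      · rintro i n rfl
        rw [D.sh_zero, H'.cl_S]
        exact ⟨(p i).le, Or.inr (p i)⟩
      · rintro A Y B hE ⟨a1, a2⟩ ⟨b1, b2⟩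
        rw [D.cl_ext _ _ _ hE, map_add]
        refine ⟨by linarith, ?_⟩
        rcases a2 with a2 | a2
        · rcases b2 with b2 | b2
          · left; rw [a2, b2] at hE; exact D.eq_of_ext_zero _ _ hE
          · right; linarith
        · right; linarith
    exact this.2
  refine U_iff.2 (fun j n hn => ?_)
  rcases h₂.simple j with h3 | h3
  · exact hom_U_V hn (h₁.lo Y hY) (by simpa using (V_sh n).2 (M_iff.1 h3).2)
  · obtain ⟨A, B, hA, hA', hB, hB', hE⟩ := h₁.dec' h3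
    have hA0 : A = D.zero := by
      have h4 : H₂.M (D.sh 1 A) := by
        refine M_iff.2 ⟨h₂.hi _ (by simpa using (U_sh 1).2 (M_iff.1 hA).1), ?_⟩
        have e1 : D.Ext B (D.sh 1 A) (H₂.S j) := by
          simpa using (D.ext_sh 1).2 (D.rot' hE)
        exact Lv.ext (h₂.Vlo 0 B (M_iff.1 hB).2) (M_iff.1 (M.simple H₂ j)).2 e1
      rcases pos H₁ p₁ A hA' with h5 | h5
      · exact h5
      · rcases pos H₂ p₂ _ h4 with h6 | h6
        · exact D.sh_inj 1 (by rw [h6, D.sh_zero_obj])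
        · rw [D.sh_one, D.cl_s, map_neg] at h6; linarith
    rw [hA0] at hE
    have e2 : H₂.S j = D.sh 1 B := by rw [← D.eq_of_ext_zero _ _ hE]; simp
    rw [e2]
    exact hom_U_V hn hY (by simpa using (V_sh n).2 (M_iff.1 hB').2)

end Heart

end Pool.Agent.HT
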